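import Pool.Agent.Helper69.EK3.Glue
set_option autoImplicit false
open Complex Metric Set
open scoped Real ComplexConjugate

/-!
# Project EK3: two-sided fields with general coefficients
-/

namespace Pool.Agent.Helper69.EK3

open Pool.Agent.Helper52.EK

/-- `p₀ + p₁ |m+1|² + p₂ |m|²` -/
noncomputable def rF (p0 p1 p2 : ℝ) (m : ℂ) : ℝ := p0 + p1 * ‖m + 1‖ ^ 2 + p2 * ‖m‖ ^ 2

/-- `m + (1 - |m|²)/ρ (a m + b)` -/
noncomputable def Fq (a b p0 p1 p2 : ℝ) (m : ℂ) : ℂ :=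
  m + (((1 - ‖m‖ ^ 2) / rF p0 p1 p2 m : ℝ) : ℂ) * ((a : ℂ) * m + (b : ℂ))

theorem normsq_add_one (m : ℂ) : ‖m + 1‖ ^ 2 = ‖m‖ ^ 2 + 2 * m.re + 1 := by
  rw [← normSq_eq_norm_sq, ← normSq_eq_norm_sq, normSq_apply, normSq_apply]
  simp only [add_re, add_im, one_re, one_im]
  ring

theorem rF_eq (p0 p1 p2 : ℝ) (m : ℂ) :
    rF p0 p1 p2 m = (p0 + p1) + 2 * p1 * m.re + (p1 + p2) * ‖m‖ ^ 2 := by
  unfold rF
  rw [normsq_add_one]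
  ring

theorem re_sq_le (m : ℂ) : m.re ^ 2 ≤ ‖m‖ ^ 2 := by
  rw [← normSq_eq_norm_sq, normSq_apply]
  nlinarith [mul_self_nonneg m.im]

theorem sq_lip (m m' : ℂ) : |‖m‖ ^ 2 - ‖m'‖ ^ 2| ≤ (‖m‖ + ‖m'‖) * ‖m - m'‖ := by
  have e : ‖m‖ ^ 2 - ‖m'‖ ^ 2 = (‖m‖ + ‖m'‖) * (‖m‖ - ‖m'‖) := by ring
  rw [e, abs_mul, abs_of_nonneg (by positivity)]
  exact mul_le_mul_of_nonneg_left (abs_norm_sub_norm_le m m') (by positivity)

theorem re_lip (m m' : ℂ) : |m.re - m'.re| ≤ ‖m - m'‖ := by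
  have := Complex.abs_re_le_norm (m - m')
  rwa [sub_re] at this

theorem rF_lip (p0 p1 p2 : ℝ) (m m' : ℂ) : |rF p0 p1 p2 m - rF p0 p1 p2 m'| ≤
    (|2 * p1| + |p1 + p2|) * ((1 + ‖m‖ + ‖m'‖) * ‖m - m'‖) := by
  have e : rF p0 p1 p2 m - rF p0 p1 p2 m' = 2 * p1 * (m.re - m'.re) +
      (p1 + p2) * (‖m‖ ^ 2 - ‖m'‖ ^ 2) := by
    rw [rF_eq, rF_eq]
    ring
  rw [e]
  refine (abs_add_le _ _).trans ?_
  rw [abs_mul (2 * p1), abs_mul (p1 + p2)]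
  have h1 := re_lip m m'
  have h2 := sq_lip m m'
  have h0 := norm_nonneg (m - m')
  have h3 := norm_nonneg m
  have h4 := norm_nonneg m'
  have h5 : |m.re - m'.re| ≤ (1 + ‖m‖ + ‖m'‖) * ‖m - m'‖ := by nlinarith [mul_nonneg h3 h0, mul_nonneg h4 h0]
  have h6 : |‖m‖ ^ 2 - ‖m'‖ ^ 2| ≤ (1 + ‖m‖ + ‖m'‖) * ‖m - m'‖ := by nlinarith
  have h7 := mul_le_mul_of_nonneg_left h5 (abs_nonneg (2 * p1))
  have h8 := mul_le_mul_of_nonneg_left h6 (abs_nonneg (p1 + p2))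
  linarith

/-- Lipschitz bound with decay for a quotient -/
theorem rat_lip {N N' : ℂ} {r r' x y t CN Cr c B : ℝ} (hc : 0 < c) (hCN : 0 ≤ CN) (hCr : 0 ≤ Cr)
    (hB : 0 ≤ B) (ht : 0 ≤ t) (hy : 0 ≤ y) (hxy : y ≤ x)
    (h1 : ‖N - N'‖ ≤ CN * ((1 + x + y) * t)) (h2 : |r - r'| ≤ Cr * ((1 + x + y) * t))
    (h3 : c * (1 + x ^ 2) ≤ r) (h4 : 0 < r') (h5 : ‖N'‖ ≤ B * r') :
    (1 + x) * ‖N / (r : ℂ) - N' / (r' : ℂ)‖ ≤ 4 * (CN + B * Cr) / c * t := by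
  have hx : 0 ≤ x := hy.trans hxy
  have hr : 0 < r := lt_of_lt_of_le (by positivity) h3
  have hrc : (r : ℂ) ≠ 0 := by exact_mod_cast hr.ne'
  have hrc' : (r' : ℂ) ≠ 0 := by exact_mod_cast h4.ne'
  have e : N / (r : ℂ) - N' / (r' : ℂ) =
      ((N - N') - (N' / (r' : ℂ)) * (((r - r' : ℝ)) : ℂ)) / (r : ℂ) := by
    push_cast
    field_simp
    ring
  have h6 : ‖N' / (r' : ℂ)‖ ≤ B := by
    rw [norm_div, Complex.norm_real, Real.norm_of_nonneg h4.le, div_le_iff₀ h4]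
    exact h5
  have h7 : ‖(N - N') - (N' / (r' : ℂ)) * (((r - r' : ℝ)) : ℂ)‖ ≤
      (CN + B * Cr) * ((1 + x + y) * t) := by
    refine (norm_sub_le _ _).trans ?_
    rw [norm_mul, Complex.norm_real, Real.norm_eq_abs]
    have := mul_le_mul h6 h2 (abs_nonneg _) hB
    nlinarith
  rw [e, norm_div, Complex.norm_real, Real.norm_of_nonneg hr.le]
  have h8 : (1 + x) * ((1 + x + y) * t) ≤ 4 / c * t * r := by
    have h9 : (1 + x) * (1 + x + y) ≤ 4 * (1 + x ^ 2) := by nlinarith [sq_nonneg (x - 1)]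
    have h10 : 4 * (1 + x ^ 2) ≤ 4 / c * r := by
      rw [div_mul_eq_mul_div, le_div_iff₀ hc]
      nlinarith
    have h11 := mul_le_mul_of_nonneg_right (h9.trans h10) ht
    nlinarith
  rw [mul_div_assoc', div_le_iff₀ hr]
  have hC : 0 ≤ CN + B * Cr := by positivity
  calc (1 + x) * ‖(N - N') - (N' / (r' : ℂ)) * (((r - r' : ℝ)) : ℂ)‖ ≤
        (1 + x) * ((CN + B * Cr) * ((1 + x + y) * t)) :=
        mul_le_mul_of_nonneg_left h7 (by linarith)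
    _ = (CN + B * Cr) * ((1 + x) * ((1 + x + y) * t)) := by ring
    _ ≤ (CN + B * Cr) * (4 / c * t * r) := mul_le_mul_of_nonneg_left h8 hC
    _ = 4 * (CN + B * Cr) / c * t * r := by ring

theorem Fq_conj (a b p0 p1 p2 : ℝ) (m : ℂ) :
    Fq a b p0 p1 p2 (conj m) = conj (Fq a b p0 p1 p2 m) := by
  have h : rF p0 p1 p2 (conj m) = rF p0 p1 p2 m := by
    rw [rF_eq, rF_eq, norm_conj, conj_re]
  unfold Fq
  rw [h, norm_conj]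
  simp only [map_add, map_mul, conj_ofReal]

theorem Fq_circle {a b p0 p1 p2 : ℝ} {m : ℂ} (hm : ‖m‖ = 1) : Fq a b p0 p1 p2 m = m := by
  unfold Fq
  rw [hm]
  simp

theorem Fq_div {a b p0 p1 p2 : ℝ} {m : ℂ} (h : rF p0 p1 p2 m ≠ 0) : Fq a b p0 p1 p2 m =
    (m * ((rF p0 p1 p2 m : ℝ) : ℂ) + ((1 - ‖m‖ ^ 2 : ℝ) : ℂ) * ((a : ℂ) * m + (b : ℂ))) /
      ((rF p0 p1 p2 m : ℝ) : ℂ) := by
  have h' : ((rF p0 p1 p2 m : ℝ) : ℂ) ≠ 0 := by exact_mod_cast h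
  unfold Fq
  push_cast
  field_simp

theorem normsq_Fq (a b p0 p1 p2 : ℝ) (m : ℂ) : ‖Fq a b p0 p1 p2 m‖ ^ 2 =
    ‖m‖ ^ 2 + 2 * ((1 - ‖m‖ ^ 2) / rF p0 p1 p2 m) * (a * ‖m‖ ^ 2 + b * m.re) +
      ((1 - ‖m‖ ^ 2) / rF p0 p1 p2 m) ^ 2 * (a ^ 2 * ‖m‖ ^ 2 + 2 * a * b * m.re + b ^ 2) := by
  unfold Fq
  generalize (1 - ‖m‖ ^ 2) / rF p0 p1 p2 m = l
  rw [← normSq_eq_norm_sq, ← normSq_eq_norm_sq, normSq_apply, normSq_apply]
  simp only [add_re, add_im, mul_re, mul_im, ofReal_re, ofReal_im]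
  ring

theorem quad_nonneg {A B C n x : ℝ} (hA : 0 ≤ A) (hC : 0 ≤ C) (h : B ^ 2 ≤ 4 * (A * C))
    (hn : x ^ 2 ≤ n) : 0 ≤ A * n + B * x + C := by
  have h1 : A * x ^ 2 ≤ A * n := mul_le_mul_of_nonneg_left hn hA
  rcases eq_or_lt_of_le hA with h0 | h0
  · rw [← h0] at h h1
    have hB : B = 0 := by nlinarith
    rw [hB, ← h0]
    linarith
  · have h2 : 0 ≤ 4 * A * (A * x ^ 2 + B * x + C) := by
      have e : 4 * A * (A * x ^ 2 + B * x + C) = (2 * A * x + B) ^ 2 + (4 * (A * C) - B ^ 2) := by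
        ring
      rw [e]
      nlinarith [sq_nonneg (2 * A * x + B)]
    have h3 := nonneg_of_mul_nonneg_right h2 (by positivity)
    linarith

/-- conditions on the inside coefficients; `L` is the bound of `l` -/
structure InOk (a b p0 p1 p2 L : ℝ) : Prop where
  pos : 0 < p0 + p1 - |2 * p1|
  pos' : 0 < p0 + p1 - |2 * p1| + (p1 + p2)
  L0 : 0 ≤ L
  nn : 0 ≤ p0 + p1 - L * b ^ 2 - |2 * p1 - 2 * b - 2 * L * a * b|
  nn' : 0 ≤ p0 + p1 - L * b ^ 2 - |2 * p1 - 2 * b - 2 * L * a * b| + (p1 + p2 - 2 * a - L * a ^ 2)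
  lA : 0 ≤ L * (p1 + p2) + 1
  lC : 0 ≤ L * (p0 + p1) - 1
  lB : (L * (2 * p1)) ^ 2 ≤ 4 * ((L * (p1 + p2) + 1) * (L * (p0 + p1) - 1))

/-- conditions on the outside coefficients -/
structure OutOk (a b p0 p1 p2 L : ℝ) : Prop where
  eq : p1 + p2 = a
  pos : 0 < p0 + p1 - |p1|
  pos' : 0 < p1 + p2 - |p1|
  L0 : 0 ≤ L
  nD : b ^ 2 ≤ a ^ 2
  nA : 2 * p1 * (2 * p1 - 2 * b) + |2 * (p0 + p1) * (2 * p1 - b) - 2 * a * b| +
    (p0 + p1) ^ 2 - a ^ 2 ≤ 0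
  nB : 2 * (2 * p1 * (2 * p1 - 2 * b) + b ^ 2 - a ^ 2) +
    |2 * (p0 + p1) * (2 * p1 - b) - 2 * a * b| ≤ 0
  nC : 0 ≤ 2 * (2 * p1 * (2 * p1 - 2 * b)) + |2 * (p0 + p1) * (2 * p1 - b) - 2 * a * b|
  lA : 0 ≤ L * (p1 + p2) - 1
  lC : 0 ≤ L * (p0 + p1) + 1
  lB : (L * (2 * p1)) ^ 2 ≤ 4 * ((L * (p1 + p2) - 1) * (L * (p0 + p1) + 1))

section inside
variable {a b p0 p1 p2 L : ℝ} (h : InOk a b p0 p1 p2 L)
include h

theorem InOk.low : ∃ c : ℝ, 0 < c ∧ ∀ m : ℂ, ‖m‖ ≤ 1 → c * (1 + ‖m‖ ^ 2) ≤ rF p0 p1 p2 m := by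
  have k1 := h.pos
  have k2 := h.pos'
  refine ⟨min (p0 + p1 - |2 * p1|) (p0 + p1 - |2 * p1| + (p1 + p2)) / 2,
    by have := lt_min k1 k2; linarith, fun m hm => ?_⟩
  have hx := (Complex.abs_re_le_norm m).trans hm
  have h0 : 0 ≤ ‖m‖ ^ 2 := sq_nonneg _
  have h1 : ‖m‖ ^ 2 ≤ 1 := by nlinarith [norm_nonneg m]
  have h2 : |2 * p1 * m.re| ≤ |2 * p1| := by
    rw [abs_mul]
    have := mul_le_mul_of_nonneg_left hx (abs_nonneg (2 * p1))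
    linarith
  have h3 := (abs_le.1 h2).1
  have m1 := min_le_left (p0 + p1 - |2 * p1|) (p0 + p1 - |2 * p1| + (p1 + p2))
  have m2 := min_le_right (p0 + p1 - |2 * p1|) (p0 + p1 - |2 * p1| + (p1 + p2))
  have m3 := lt_min k1 k2
  set d := min (p0 + p1 - |2 * p1|) (p0 + p1 - |2 * p1| + (p1 + p2))
  rw [rF_eq]
  have h4 : d ≤ (p0 + p1 - |2 * p1|) + (p1 + p2) * ‖m‖ ^ 2 := by
    nlinarith
  nlinarith

theorem InOk.l_bd {m : ℂ} (hm : ‖m‖ ≤ 1) : 0 < rF p0 p1 p2 m ∧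
    0 ≤ (1 - ‖m‖ ^ 2) / rF p0 p1 p2 m ∧ (1 - ‖m‖ ^ 2) / rF p0 p1 p2 m ≤ L := by
  obtain ⟨c, hc, hl⟩ := h.low
  have h1 : 0 < rF p0 p1 p2 m := lt_of_lt_of_le (by positivity) (hl m hm)
  have h2 : ‖m‖ ^ 2 ≤ 1 := by nlinarith [norm_nonneg m]
  refine ⟨h1, div_nonneg (by linarith) h1.le, ?_⟩
  rw [div_le_iff₀ h1, rF_eq]
  have h3 := quad_nonneg h.lA h.lC h.lB (re_sq_le m)
  linarith

theorem InOk.le_one {m : ℂ} (hm : ‖m‖ ≤ 1) : ‖Fq a b p0 p1 p2 m‖ ≤ 1 := by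
  obtain ⟨h1, h2, h3⟩ := h.l_bd hm
  have e := normsq_Fq a b p0 p1 p2 m
  have hr : (1 - ‖m‖ ^ 2) / rF p0 p1 p2 m * rF p0 p1 p2 m = 1 - ‖m‖ ^ 2 :=
    div_mul_cancel₀ _ h1.ne'
  rw [rF_eq] at hr
  rw [rF_eq] at e h2 h3
  set l := (1 - ‖m‖ ^ 2) / (p0 + p1 + 2 * p1 * m.re + (p1 + p2) * ‖m‖ ^ 2)
  have hx := (Complex.abs_re_le_norm m).trans hm
  have h0 : 0 ≤ ‖m‖ ^ 2 := sq_nonneg _
  have h4 : ‖m‖ ^ 2 ≤ 1 := by nlinarith [norm_nonneg m]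
  have hw : 0 ≤ a ^ 2 * ‖m‖ ^ 2 + 2 * a * b * m.re + b ^ 2 := by
    have := re_sq_le m
    nlinarith [sq_nonneg (a * m.re + b), sq_nonneg a, mul_nonneg (sq_nonneg a) (sub_nonneg.2 this)]
  have h5 : 2 * (a * ‖m‖ ^ 2 + b * m.re) +
      L * (a ^ 2 * ‖m‖ ^ 2 + 2 * a * b * m.re + b ^ 2) ≤
      p0 + p1 + 2 * p1 * m.re + (p1 + p2) * ‖m‖ ^ 2 := by
    have h6 : |(2 * p1 - 2 * b - 2 * L * a * b) * m.re| ≤ |2 * p1 - 2 * b - 2 * L * a * b| := by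
      rw [abs_mul]
      have := mul_le_mul_of_nonneg_left hx (abs_nonneg (2 * p1 - 2 * b - 2 * L * a * b))
      linarith
    have h7 := (abs_le.1 h6).1
    have n1 := h.nn
    have n2 := h.nn'
    nlinarith
  have h8 : l * (a ^ 2 * ‖m‖ ^ 2 + 2 * a * b * m.re + b ^ 2) ≤
      L * (a ^ 2 * ‖m‖ ^ 2 + 2 * a * b * m.re + b ^ 2) := mul_le_mul_of_nonneg_right h3 hw
  have h9 : ‖Fq a b p0 p1 p2 m‖ ^ 2 ≤ 1 := by
    rw [e]
    have h11 : 2 * (a * ‖m‖ ^ 2 + b * m.re) + l * (a ^ 2 * ‖m‖ ^ 2 + 2 * a * b * m.re + b ^ 2) ≤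
        p0 + p1 + 2 * p1 * m.re + (p1 + p2) * ‖m‖ ^ 2 := by linarith
    have h10 := mul_le_mul_of_nonneg_left h11 h2
    nlinarith
  nlinarith [norm_nonneg (Fq a b p0 p1 p2 m)]

theorem InOk.lip : ∃ C : ℝ, 0 ≤ C ∧ ∀ m m' : ℂ, ‖m‖ ≤ 1 → ‖m'‖ ≤ 1 →
    ‖Fq a b p0 p1 p2 m - Fq a b p0 p1 p2 m'‖ ≤ C * ‖m - m'‖ := by
  obtain ⟨c, hc, hl⟩ := h.low
  obtain ⟨R, hR⟩ : ∃ R : ℝ, R = |p0 + p1| + |2 * p1| + |p1 + p2| := ⟨_, rfl⟩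
  obtain ⟨Cr, hCr⟩ : ∃ Cr : ℝ, Cr = |2 * p1| + |p1 + p2| := ⟨_, rfl⟩
  have hCr0 : 0 ≤ Cr := by rw [hCr]; positivity
  have hR0 : 0 ≤ R := by rw [hR]; positivity
  obtain ⟨CN, hCN⟩ : ∃ CN : ℝ, CN = R + Cr + |a| + (|a| + |b|) := ⟨_, rfl⟩
  have hCN0 : 0 ≤ CN := by rw [hCN]; positivity
  have key : ∀ m m' : ℂ, ‖m‖ ≤ 1 → ‖m'‖ ≤ ‖m‖ → ‖Fq a b p0 p1 p2 m - Fq a b p0 p1 p2 m'‖ ≤
      4 * (CN + 1 * Cr) / c * ‖m - m'‖ := by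
    intro m m' hm hm2
    have hm' : ‖m'‖ ≤ 1 := hm2.trans hm
    obtain ⟨r1, _, _⟩ := h.l_bd hm
    obtain ⟨r2, _, _⟩ := h.l_bd hm'
    have q1 := rF_lip p0 p1 p2 m m'
    have hn := norm_nonneg m
    have hn' := norm_nonneg m'
    have hd := norm_nonneg (m - m')
    have hRm : |rF p0 p1 p2 m| ≤ R := by
      rw [rF_eq, hR]
      refine (abs_add_three _ _ _).trans ?_
      have hx := (Complex.abs_re_le_norm m).trans hm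
      have h4 : ‖m‖ ^ 2 ≤ 1 := by nlinarith
      rw [abs_mul (2 * p1), abs_mul (p1 + p2), abs_of_nonneg (sq_nonneg ‖m‖)]
      have g1 := mul_le_mul_of_nonneg_left hx (abs_nonneg (2 * p1))
      have g2 := mul_le_mul_of_nonneg_left h4 (abs_nonneg (p1 + p2))
      linarith
    have hN' : ‖m' * ((rF p0 p1 p2 m' : ℝ) : ℂ) + ((1 - ‖m'‖ ^ 2 : ℝ) : ℂ) *
        ((a : ℂ) * m' + (b : ℂ))‖ ≤ 1 * rF p0 p1 p2 m' := by
      have := h.le_one hm'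
      rw [Fq_div r2.ne', norm_div, Complex.norm_real, Real.norm_of_nonneg r2.le,
        div_le_iff₀ r2] at this
      exact this
    have hNN : ‖(m * ((rF p0 p1 p2 m : ℝ) : ℂ) + ((1 - ‖m‖ ^ 2 : ℝ) : ℂ) *
        ((a : ℂ) * m + (b : ℂ))) - (m' * ((rF p0 p1 p2 m' : ℝ) : ℂ) +
        ((1 - ‖m'‖ ^ 2 : ℝ) : ℂ) * ((a : ℂ) * m' + (b : ℂ)))‖ ≤
        CN * ((1 + ‖m‖ + ‖m'‖) * ‖m - m'‖) := by
      have e : (m * ((rF p0 p1 p2 m : ℝ) : ℂ) + ((1 - ‖m‖ ^ 2 : ℝ) : ℂ) *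
        ((a : ℂ) * m + (b : ℂ))) - (m' * ((rF p0 p1 p2 m' : ℝ) : ℂ) +
        ((1 - ‖m'‖ ^ 2 : ℝ) : ℂ) * ((a : ℂ) * m' + (b : ℂ))) =
          ((rF p0 p1 p2 m : ℝ) : ℂ) * (m - m') +
          ((rF p0 p1 p2 m - rF p0 p1 p2 m' : ℝ) : ℂ) * m' +
          (((1 - ‖m‖ ^ 2) * a : ℝ) : ℂ) * (m - m') -
          ((‖m‖ ^ 2 - ‖m'‖ ^ 2 : ℝ) : ℂ) * ((a : ℂ) * m' + (b : ℂ)) := by
        push_cast
        ring
      rw [e]
      refine (norm_sub_le _ _).trans ?_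
      refine (add_le_add_left (norm_add₃_le) _).trans ?_
      rw [norm_mul, norm_mul, norm_mul, norm_mul, Complex.norm_real, Complex.norm_real,
        Complex.norm_real, Complex.norm_real, Real.norm_eq_abs, Real.norm_eq_abs,
        Real.norm_eq_abs, Real.norm_eq_abs]
      have w1 : ‖(a : ℂ) * m' + (b : ℂ)‖ ≤ |a| + |b| := by
        refine (norm_add_le _ _).trans ?_
        rw [norm_mul, Complex.norm_real, Complex.norm_real, Real.norm_eq_abs, Real.norm_eq_abs]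
        have := mul_le_mul_of_nonneg_left hm' (abs_nonneg a)
        linarith
      have w2 : |(1 - ‖m‖ ^ 2) * a| ≤ |a| := by
        rw [abs_mul]
        have h4 : ‖m‖ ^ 2 ≤ 1 := by nlinarith
        have : |1 - ‖m‖ ^ 2| ≤ 1 := abs_le.2 ⟨by linarith, by linarith [sq_nonneg ‖m‖]⟩
        have := mul_le_mul_of_nonneg_right this (abs_nonneg a)
        linarith
      have w3 := sq_lip m m'
      set T := (1 + ‖m‖ + ‖m'‖) * ‖m - m'‖ with hT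
      have t1 : ‖m - m'‖ ≤ T := by rw [hT]; nlinarith [mul_nonneg hn hd, mul_nonneg hn' hd]
      have t2 : (‖m‖ + ‖m'‖) * ‖m - m'‖ ≤ T := by rw [hT]; nlinarith
      have hT0 : 0 ≤ T := hd.trans t1
      have g1 : |rF p0 p1 p2 m| * ‖m - m'‖ ≤ R * T := mul_le_mul hRm t1 hd hR0
      have g2 : |rF p0 p1 p2 m - rF p0 p1 p2 m'| * ‖m'‖ ≤ (Cr * T) * 1 :=
        mul_le_mul (by rw [hCr]; exact q1) hm' hn' (mul_nonneg hCr0 hT0)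
      have g3 : |(1 - ‖m‖ ^ 2) * a| * ‖m - m'‖ ≤ |a| * T := mul_le_mul w2 t1 hd (abs_nonneg a)
      have g4 : |‖m‖ ^ 2 - ‖m'‖ ^ 2| * ‖(a : ℂ) * m' + (b : ℂ)‖ ≤ T * (|a| + |b|) :=
        mul_le_mul (w3.trans t2) w1 (norm_nonneg _) hT0
      rw [hCN]
      nlinarith
    have hq := rat_lip hc hCN0 hCr0 zero_le_one hd hn' hm2 hNN (by rw [hCr]; exact q1) (hl m hm)
      r2 hN'
    rw [← Fq_div r1.ne', ← Fq_div r2.ne'] at hq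
    have hF := norm_nonneg (Fq a b p0 p1 p2 m - Fq a b p0 p1 p2 m')
    nlinarith [mul_nonneg hn hF]
  refine ⟨4 * (CN + 1 * Cr) / c, by positivity, fun m m' hm hm' => ?_⟩
  rcases le_total ‖m'‖ ‖m‖ with h1 | h1
  · exact key m m' hm h1
  · rw [norm_sub_rev, norm_sub_rev m]
    exact key m' m hm' h1

end inside

section outside
variable {a b p0 p1 p2 L : ℝ} (h : OutOk a b p0 p1 p2 L)
include h

theorem OutOk.low : ∃ c : ℝ, 0 < c ∧ ∀ m : ℂ, c * (1 + ‖m‖ ^ 2) ≤ rF p0 p1 p2 m := by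
  have k1 := h.pos
  have k2 := h.pos'
  refine ⟨min (p0 + p1 - |p1|) (p1 + p2 - |p1|), lt_min k1 k2, fun m => ?_⟩
  have hx := Complex.abs_re_le_norm m
  have h0 : 0 ≤ ‖m‖ ^ 2 := sq_nonneg _
  have h1 : |m.re| ≤ (1 + ‖m‖ ^ 2) / 2 := by nlinarith [sq_nonneg (‖m‖ - 1)]
  have h2 : |2 * p1 * m.re| ≤ |p1| * (1 + ‖m‖ ^ 2) := by
    rw [abs_mul, abs_mul, abs_two]
    have := mul_le_mul_of_nonneg_left h1 (abs_nonneg p1)
    linarith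
  have h3 := (abs_le.1 h2).1
  have m1 := min_le_left (p0 + p1 - |p1|) (p1 + p2 - |p1|)
  have m2 := min_le_right (p0 + p1 - |p1|) (p1 + p2 - |p1|)
  rw [rF_eq]
  have m3 := mul_le_mul_of_nonneg_right m2 h0
  linarith

theorem OutOk.l_bd {m : ℂ} (hm : 1 ≤ ‖m‖) : 0 < rF p0 p1 p2 m ∧
    0 ≤ (‖m‖ ^ 2 - 1) / rF p0 p1 p2 m ∧ (‖m‖ ^ 2 - 1) / rF p0 p1 p2 m ≤ L := by
  obtain ⟨c, hc, hl⟩ := h.low
  have h1 : 0 < rF p0 p1 p2 m := lt_of_lt_of_le (by positivity) (hl m)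
  have h2 : 1 ≤ ‖m‖ ^ 2 := by nlinarith
  refine ⟨h1, div_nonneg (by linarith) h1.le, ?_⟩
  rw [div_le_iff₀ h1, rF_eq]
  have h3 := quad_nonneg h.lA h.lC h.lB (re_sq_le m)
  linarith

theorem OutOk.le_one {m : ℂ} (hm : 1 ≤ ‖m‖) : ‖Fq a b p0 p1 p2 m‖ ≤ 1 := by
  obtain ⟨h1, h2, _⟩ := h.l_bd hm
  have e := normsq_Fq a b p0 p1 p2 m
  have e1 : (1 - ‖m‖ ^ 2) / rF p0 p1 p2 m = -((‖m‖ ^ 2 - 1) / rF p0 p1 p2 m) := by ring
  rw [e1] at e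
  have hr : (‖m‖ ^ 2 - 1) / rF p0 p1 p2 m * rF p0 p1 p2 m = ‖m‖ ^ 2 - 1 :=
    div_mul_cancel₀ _ h1.ne'
  set l := (‖m‖ ^ 2 - 1) / rF p0 p1 p2 m with hl
  have h4 : 1 ≤ ‖m‖ ^ 2 := by nlinarith
  set n := ‖m‖ ^ 2 with hn
  set x := m.re with hx
  have hxn : x ^ 2 ≤ n := re_sq_le m
  set s1 := 2 * (p0 + p1) * (2 * p1 - b) - 2 * a * b with hs1
  set s2 := 2 * p1 * (2 * p1 - 2 * b) with hs2
  have nA := h.nA
  have nB := h.nB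
  have nC := h.nC
  have nD := h.nD
  rw [← hs1, ← hs2] at nA nB nC
  have hF : (b ^ 2 - a ^ 2) * n + s2 * x ^ 2 + s1 * x + (p0 + p1) ^ 2 - b ^ 2 ≤ 0 := by
    obtain ⟨y, hy⟩ : ∃ y, y = |x| := ⟨_, rfl⟩
    have hy0 : 0 ≤ y := by rw [hy]; exact abs_nonneg x
    have hy2 : x ^ 2 = y ^ 2 := by rw [hy, sq_abs]
    have hs : s1 * x ≤ |s1| * y := by
      rw [hy, ← abs_mul]
      exact le_abs_self _
    have hs0 := abs_nonneg s1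
    rw [hy2] at hxn ⊢
    rcases le_total y 1 with g | g
    · have g1 : 0 ≤ (1 - y) * (s2 * (1 + y) + |s1|) := by
        refine mul_nonneg (by linarith) ?_
        nlinarith
      have g2 : (b ^ 2 - a ^ 2) * n ≤ (b ^ 2 - a ^ 2) * 1 :=
        mul_le_mul_of_nonpos_left h4 (by linarith)
      nlinarith
    · have g1 : (y - 1) * ((s2 + b ^ 2 - a ^ 2) * (y + 1) + |s1|) ≤ 0 := by
        refine mul_nonpos_of_nonneg_of_nonpos (by linarith) ?_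
        nlinarith
      have g2 : (b ^ 2 - a ^ 2) * n ≤ (b ^ 2 - a ^ 2) * y ^ 2 :=
        mul_le_mul_of_nonpos_left hxn (by linarith)
      nlinarith
  have hrho := rF_eq p0 p1 p2 m
  rw [← hx, ← hn, h.eq] at hrho
  set r := rF p0 p1 p2 m with hrd
  have hG : (r - 2 * (a * n + b * x)) * r + (n - 1) * (a ^ 2 * n + 2 * a * b * x + b ^ 2) ≤ 0 := by
    have : (r - 2 * (a * n + b * x)) * r + (n - 1) * (a ^ 2 * n + 2 * a * b * x + b ^ 2) =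
        (b ^ 2 - a ^ 2) * n + s2 * x ^ 2 + s1 * x + (p0 + p1) ^ 2 - b ^ 2 := by
      rw [hrho, hs1, hs2]
      ring
    rw [this]
    exact hF
  have hG2 : (r - 2 * (a * n + b * x)) + l * (a ^ 2 * n + 2 * a * b * x + b ^ 2) ≤ 0 := by
    have h5 : ((r - 2 * (a * n + b * x)) + l * (a ^ 2 * n + 2 * a * b * x + b ^ 2)) * r ≤ 0 := by
      have : ((r - 2 * (a * n + b * x)) + l * (a ^ 2 * n + 2 * a * b * x + b ^ 2)) * r =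
          (r - 2 * (a * n + b * x)) * r + (l * r) * (a ^ 2 * n + 2 * a * b * x + b ^ 2) := by ring
      rw [this, hr]
      exact hG
    exact nonpos_of_mul_nonpos_left h5 h1
  have h9 : ‖Fq a b p0 p1 p2 m‖ ^ 2 ≤ 1 := by
    rw [e]
    have h10 := mul_nonpos_of_nonneg_of_nonpos h2 hG2
    nlinarith
  nlinarith [norm_nonneg (Fq a b p0 p1 p2 m)]

theorem OutOk.lip : ∃ C : ℝ, 0 ≤ C ∧ ∀ m m' : ℂ, 1 ≤ ‖m'‖ → ‖m'‖ ≤ ‖m‖ →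
    (1 + ‖m‖) * ‖Fq a b p0 p1 p2 m - Fq a b p0 p1 p2 m'‖ ≤ C * ‖m - m'‖ := by
  obtain ⟨c, hc, hl⟩ := h.low
  obtain ⟨Cr, hCr⟩ : ∃ Cr : ℝ, Cr = |2 * p1| + |p1 + p2| := ⟨_, rfl⟩
  have hCr0 : 0 ≤ Cr := by rw [hCr]; positivity
  obtain ⟨CN, hCN⟩ : ∃ CN : ℝ, CN = |p0 + p1 + a| + |2 * p1| + |b| := ⟨_, rfl⟩
  have hCN0 : 0 ≤ CN := by rw [hCN]; positivity
  refine ⟨4 * (CN + 1 * Cr) / c, by positivity, fun m m' hm' hm2 => ?_⟩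
  have hm : 1 ≤ ‖m‖ := hm'.trans hm2
  obtain ⟨r1, _, _⟩ := h.l_bd hm
  obtain ⟨r2, _, _⟩ := h.l_bd hm'
  have q1 := rF_lip p0 p1 p2 m m'
  have hn := norm_nonneg m
  have hn' := norm_nonneg m'
  have hd := norm_nonneg (m - m')
  have hN' : ‖m' * ((rF p0 p1 p2 m' : ℝ) : ℂ) + ((1 - ‖m'‖ ^ 2 : ℝ) : ℂ) *
      ((a : ℂ) * m' + (b : ℂ))‖ ≤ 1 * rF p0 p1 p2 m' := by
    have := h.le_one hm'
    rw [Fq_div r2.ne', norm_div, Complex.norm_real, Real.norm_of_nonneg r2.le,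
      div_le_iff₀ r2] at this
    exact this
  have hNN : ‖(m * ((rF p0 p1 p2 m : ℝ) : ℂ) + ((1 - ‖m‖ ^ 2 : ℝ) : ℂ) *
      ((a : ℂ) * m + (b : ℂ))) - (m' * ((rF p0 p1 p2 m' : ℝ) : ℂ) +
      ((1 - ‖m'‖ ^ 2 : ℝ) : ℂ) * ((a : ℂ) * m' + (b : ℂ)))‖ ≤
      CN * ((1 + ‖m‖ + ‖m'‖) * ‖m - m'‖) := by
    have e : (m * ((rF p0 p1 p2 m : ℝ) : ℂ) + ((1 - ‖m‖ ^ 2 : ℝ) : ℂ) *
      ((a : ℂ) * m + (b : ℂ))) - (m' * ((rF p0 p1 p2 m' : ℝ) : ℂ) +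
      ((1 - ‖m'‖ ^ 2 : ℝ) : ℂ) * ((a : ℂ) * m' + (b : ℂ))) =
        ((p0 + p1 + a : ℝ) : ℂ) * (m - m') +
        ((2 * p1 : ℝ) : ℂ) * ((m.re : ℂ) * (m - m') + ((m.re - m'.re : ℝ) : ℂ) * m') -
        ((b * (‖m‖ ^ 2 - ‖m'‖ ^ 2) : ℝ) : ℂ) := by
      rw [rF_eq, rF_eq, h.eq]
      push_cast
      ring
    rw [e]
    have w2 := sq_lip m m'
    have w3 := re_lip m m'
    have w4 := Complex.abs_re_le_norm m
    set T := (1 + ‖m‖ + ‖m'‖) * ‖m - m'‖ with hT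
    have t1 : ‖m - m'‖ ≤ T := by rw [hT]; nlinarith [mul_nonneg hn hd, mul_nonneg hn' hd]
    have t2 : (‖m‖ + ‖m'‖) * ‖m - m'‖ ≤ T := by rw [hT]; nlinarith
    have hT0 : 0 ≤ T := hd.trans t1
    have v1 : ‖(m.re : ℂ) * (m - m') + ((m.re - m'.re : ℝ) : ℂ) * m'‖ ≤ T := by
      refine (norm_add_le _ _).trans (le_trans ?_ t2)
      rw [norm_mul, norm_mul, Complex.norm_real, Complex.norm_real, Real.norm_eq_abs,
        Real.norm_eq_abs]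
      have g1 := mul_le_mul_of_nonneg_right w4 hd
      have g2 := mul_le_mul_of_nonneg_right w3 hn'
      nlinarith
    refine (norm_sub_le _ _).trans ?_
    refine (add_le_add_left (norm_add_le _ _) _).trans ?_
    rw [norm_mul, norm_mul, Complex.norm_real, Complex.norm_real, Complex.norm_real,
      Real.norm_eq_abs, Real.norm_eq_abs, Real.norm_eq_abs, abs_mul b]
    have g1 := mul_le_mul_of_nonneg_left t1 (abs_nonneg (p0 + p1 + a))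
    have g2 := mul_le_mul_of_nonneg_left v1 (abs_nonneg (2 * p1))
    have g3 := mul_le_mul_of_nonneg_left (w2.trans t2) (abs_nonneg b)
    rw [hCN]
    nlinarith
  have hq := rat_lip hc hCN0 hCr0 zero_le_one hd hn' hm2 hNN (by rw [hCr]; exact q1) (hl m)
    r2 hN'
  rw [← Fq_div r1.ne', ← Fq_div r2.ne'] at hq
  exact hq

end outside

/-- **the two-sided field** -/
noncomputable def Gq (a b p0 p1 p2 a' b' q0 q1 q2 : ℝ) (m : ℂ) : ℂ :=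
  if ‖m‖ ≤ 1 then Fq a b p0 p1 p2 m else Fq a' b' q0 q1 q2 m

theorem Gq_glip {a b p0 p1 p2 L a' b' q0 q1 q2 L' : ℝ} (h : InOk a b p0 p1 p2 L)
    (h' : OutOk a' b' q0 q1 q2 L') : ∃ C : ℝ, GLip (Gq a b p0 p1 p2 a' b' q0 q1 q2) C := by
  obtain ⟨C1, hC1, k1⟩ := h.lip
  obtain ⟨C2, hC2, k2⟩ := h'.lip
  refine ⟨max C1 C2, glip_glue (le_max_of_le_left hC1) (fun m hm => h.le_one hm)
    (fun m hm => h'.le_one hm) (fun m m' hm hm' => ?_) (fun m m' hm hm' => ?_)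
    (fun m hm => by rw [Fq_circle hm, Fq_circle hm]) (fun u m hu hm => ?_)⟩
  · exact (k1 m m' hm hm').trans (mul_le_mul_of_nonneg_right (le_max_left _ _) (norm_nonneg _))
  · refine le_trans ?_ (mul_le_mul_of_nonneg_right (le_max_right C1 C2) (norm_nonneg _))
    rcases le_total ‖m'‖ ‖m‖ with h1 | h1
    · have h2 := k2 m m' hm' h1
      have h3 := norm_nonneg (Fq a' b' q0 q1 q2 m - Fq a' b' q0 q1 q2 m')
      nlinarith [norm_nonneg m]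
    · have h2 := k2 m' m hm h1
      rw [norm_sub_rev, norm_sub_rev m]
      have h3 := norm_nonneg (Fq a' b' q0 q1 q2 m' - Fq a' b' q0 q1 q2 m)
      nlinarith [norm_nonneg m']
  · refine le_trans ?_ (mul_le_mul_of_nonneg_right (le_max_right C1 C2) (norm_nonneg _))
    have e0 : ‖u * m‖ = ‖m‖ := by rw [norm_mul, hu, one_mul]
    have h2 := k2 (u * m) m hm (by rw [e0])
    have e : u * m - m = (u - 1) * m := by ring
    rw [e0, e, norm_mul] at h2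
    have h3 := norm_nonneg (Fq a' b' q0 q1 q2 (u * m) - Fq a' b' q0 q1 q2 m)
    have h4 : 0 < 1 + ‖m‖ := by positivity
    have h5 : C2 * (‖u - 1‖ * ‖m‖) ≤ (1 + ‖m‖) * (C2 * ‖u - 1‖) := by
      have := mul_nonneg hC2 (norm_nonneg (u - 1))
      nlinarith
    exact le_of_mul_le_mul_left (h2.trans h5) h4

theorem Gq_conj (a b p0 p1 p2 a' b' q0 q1 q2 : ℝ) (m : ℂ) :
    Gq a b p0 p1 p2 a' b' q0 q1 q2 (conj m) = conj (Gq a b p0 p1 p2 a' b' q0 q1 q2 m) := by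
  unfold Gq
  rw [norm_conj]
  split_ifs
  · exact Fq_conj a b p0 p1 p2 m
  · exact Fq_conj a' b' q0 q1 q2 m

end Pool.Agent.Helper69.EK3
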