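import Pool.Agent.Helper84.EK.Koebe
set_option autoImplicit false
open Complex Metric Set Filter Topology

/-! Project EK3: the inequalities of Koebe and Bieberbach for univalent functions without zeros,
in terms of the logarithmic derivative. -/

namespace Pool.Agent.Helper69.EK3

open Pool.Agent.Helper22.Marshall (coeff coeff_one coeff_deriv)
open Pool.Agent.Helper84.EK (second_le_two koebe_r)

/-- Bieberbach, without normalisation -/
theorem bieb_one {h : ℂ → ℂ} (hd : DifferentiableOn ℂ h (ball 0 1)) (hi : InjOn h (ball 0 1)) :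
    ‖deriv (deriv h) 0‖ ≤ 4 * ‖deriv h 0‖ := by
  have h0b : (0:ℂ) ∈ ball (0:ℂ) 1 := mem_ball_self one_pos
  have hne : deriv h 0 ≠ 0 := Pool.Agent.Helper24.Br.deriv_ne_of_inj isOpen_ball hd hi h0b
  set d := deriv h 0 with hdd
  have hf : deriv (fun z => (h z - h 0) / d) = fun z => deriv h z / d := by
    funext z
    rw [deriv_div_const, deriv_sub_const]
  have e := second_le_two (f := fun z => (h z - h 0) / d) ((hd.sub_const _).div_const _)
    (by
      intro z hz w hw hzw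
      apply hi hz hw
      have h1 : (h z - h 0) / d = (h w - h 0) / d := hzw
      rw [div_left_inj' hne] at h1
      linear_combination h1) (by simp) (by
        rw [hf]
        exact div_self hne)
  have e2 := coeff_deriv (fun z => (h z - h 0) / d) 1
  rw [coeff_one, hf, deriv_div_const] at e2
  have e3 : deriv (deriv h) 0 = 2 * coeff (fun z => (h z - h 0) / d) 2 * d := by
    rw [div_eq_iff hne] at e2
    rw [e2]
    norm_num
  rw [e3, norm_mul, norm_mul]
  have e4 : ‖(2:ℂ)‖ = 2 := by simp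
  rw [e4]
  have := norm_nonneg d
  nlinarith

/-- Bieberbach in a disc of radius `r` -/
theorem bieb_r {g : ℂ → ℂ} {r : ℝ} (hr : 0 < r) (hg : DifferentiableOn ℂ g (ball 0 r))
    (hinj : InjOn g (ball 0 r)) : ‖deriv (deriv g) 0‖ * r ≤ 4 * ‖deriv g 0‖ := by
  have hm : MapsTo (fun z : ℂ => (r : ℂ) * z) (ball 0 1) (ball 0 r) := by
    intro z hz
    rw [mem_ball_zero_iff] at hz ⊢
    rw [norm_mul, Complex.norm_real, Real.norm_of_nonneg hr.le]
    nlinarith
  have hr0 : (r : ℂ) ≠ 0 := by exact_mod_cast hr.ne'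
  have h1 := bieb_one (h := fun z => g ((r : ℂ) * z)) (hg.comp (by fun_prop) hm)
    (by
      intro z hz w hw h
      exact mul_left_cancel₀ hr0 (hinj (hm hz) (hm hw) h))
  have e1 : deriv (fun z => g ((r : ℂ) * z)) = fun z => (r : ℂ) * deriv g ((r : ℂ) * z) := by
    funext z
    rw [deriv_comp_mul_left, smul_eq_mul]
  have e2 : deriv (deriv (fun z => g ((r : ℂ) * z))) 0 = (r : ℂ) ^ 2 * deriv (deriv g) 0 := by
    rw [e1, deriv_const_mul_field, deriv_comp_mul_left, smul_eq_mul, mul_zero]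
    ring
  rw [e2, e1] at h1
  simp only [mul_zero, norm_mul, norm_pow, Complex.norm_real, Real.norm_of_nonneg hr.le] at h1
  have h2 : r * (‖deriv (deriv g) 0‖ * r) ≤ r * (4 * ‖deriv g 0‖) := by nlinarith
  exact le_of_mul_le_mul_left h2 hr

/-- one half of the statement below -/
theorem univ_half {G B : ℂ → ℂ} {b : ℂ} {r : ℝ} (hr : 0 < r) (hi : InjOn G (ball 0 r))
    (hne : ∀ z ∈ ball (0:ℂ) r, G z ≠ 0) (hG : ∀ z ∈ ball (0:ℂ) r, HasDerivAt G (G z * B z) z)
    (hB : HasDerivAt B b 0) : ‖B 0‖ * r ≤ 4 ∧ ‖b + B 0 ^ 2‖ * r ≤ 4 * ‖B 0‖ := by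
  have h0 : (0:ℂ) ∈ ball (0:ℂ) r := mem_ball_self hr
  have hb : ball (0:ℂ) r ∈ 𝓝 (0:ℂ) := ball_mem_nhds 0 hr
  have hd : DifferentiableOn ℂ G (ball 0 r) := fun z hz =>
    (hG z hz).differentiableAt.differentiableWithinAt
  have hG0 := hne 0 h0
  have hp : 0 < ‖G 0‖ := norm_pos_iff.mpr hG0
  have e1 := koebe_r hr hd hi hne
  have e2 := bieb_r hr hd hi
  have e3 : deriv G =ᶠ[𝓝 0] fun z => G z * B z := by
    filter_upwards [hb] with z hz
    exact (hG z hz).deriv
  have e4 : deriv (deriv G) 0 = G 0 * (b + B 0 ^ 2) := by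
    have e5 : HasDerivAt (fun z => G z * B z) (G 0 * B 0 * B 0 + G 0 * b) 0 := (hG 0 h0).mul hB
    rw [e3.deriv_eq, e5.deriv]
    ring
  rw [(hG 0 h0).deriv, norm_mul] at e1
  rw [e4, (hG 0 h0).deriv, norm_mul, norm_mul] at e2
  constructor
  · have : ‖G 0‖ * (‖B 0‖ * r) ≤ ‖G 0‖ * 4 := by nlinarith
    exact le_of_mul_le_mul_left this hp
  · have : ‖G 0‖ * (‖b + B 0 ^ 2‖ * r) ≤ ‖G 0‖ * (4 * ‖B 0‖) := by nlinarith
    exact le_of_mul_le_mul_left this hp

/-- Koebe and Bieberbach for a univalent function `G` without zeros and for `1 / G`; `B` is the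
logarithmic derivative of `G` -/
theorem univ_log {G B : ℂ → ℂ} {b : ℂ} {r : ℝ} (hr : 0 < r) (hi : InjOn G (ball 0 r))
    (hne : ∀ z ∈ ball (0:ℂ) r, G z ≠ 0) (hG : ∀ z ∈ ball (0:ℂ) r, HasDerivAt G (G z * B z) z)
    (hB : HasDerivAt B b 0) :
    ‖B 0‖ * r ≤ 4 ∧ ‖b + B 0 ^ 2‖ * r ≤ 4 * ‖B 0‖ ∧ ‖b - B 0 ^ 2‖ * r ≤ 4 * ‖B 0‖ := by
  obtain ⟨h1, h2⟩ := univ_half hr hi hne hG hB
  refine ⟨h1, h2, ?_⟩
  obtain ⟨_, h3⟩ := univ_half (G := fun z => (G z)⁻¹) (B := fun z => -B z) (b := -b) hr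
    (fun z hz w hw h => hi hz hw (inv_injective h)) (fun z hz => inv_ne_zero (hne z hz))
    (fun z hz => by
      have e := (hG z hz).inv (hne z hz)
      have e1 : (G z)⁻¹ * -B z = -(G z * B z) / G z ^ 2 := by
        have := hne z hz
        field_simp
      rw [e1]
      exact e) hB.neg
  have e2 : -b + (-B 0) ^ 2 = -(b - B 0 ^ 2) := by ring
  rw [e2, norm_neg, norm_neg] at h3
  exact h3

end Pool.Agent.Helper69.EK3
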