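import Pool.Agent.Helper69.EK3.Half
import Pool.Agent.Helper56.EK.Cutoff
set_option autoImplicit false
open Complex MeasureTheory Metric Set
open scoped Real ComplexConjugate

/-!
# Project EK3: integrals over a part of the strip, the mirror image, cut-off functions
-/

namespace Pool.Agent.Helper69.EK3

open Pool.Agent.Helper52.EK

/-- continuity on the closed rectangle `x₁ ≤ ξ ≤ x₂`, `0 ≤ η ≤ h` -/
def CH (x₁ x₂ h : ℝ) (F : ℝ → ℝ → ℝ) : Prop :=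
  ContinuousOn (fun p : ℝ × ℝ => F p.1 p.2) (Icc x₁ x₂ ×ˢ Icc 0 h)

theorem CH.add {x₁ x₂ h : ℝ} {F G : ℝ → ℝ → ℝ} (hF : CH x₁ x₂ h F) (hG : CH x₁ x₂ h G) :
    CH x₁ x₂ h (fun ξ η => F ξ η + G ξ η) := ContinuousOn.add hF hG

theorem CH.sub {x₁ x₂ h : ℝ} {F G : ℝ → ℝ → ℝ} (hF : CH x₁ x₂ h F) (hG : CH x₁ x₂ h G) :
    CH x₁ x₂ h (fun ξ η => F ξ η - G ξ η) := ContinuousOn.sub hF hG

theorem CH.mul {x₁ x₂ h : ℝ} {F G : ℝ → ℝ → ℝ} (hF : CH x₁ x₂ h F) (hG : CH x₁ x₂ h G) :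
    CH x₁ x₂ h (fun ξ η => F ξ η * G ξ η) := ContinuousOn.mul hF hG

theorem CH.neg {x₁ x₂ h : ℝ} {F : ℝ → ℝ → ℝ} (hF : CH x₁ x₂ h F) :
    CH x₁ x₂ h (fun ξ η => - F ξ η) := ContinuousOn.neg hF

theorem CH_const {x₁ x₂ h : ℝ} (c : ℝ) : CH x₁ x₂ h (fun _ _ => c) := continuousOn_const

theorem CH_xi {x₁ x₂ h : ℝ} {f : ℝ → ℝ} (hf : Continuous f) : CH x₁ x₂ h (fun ξ _ => f ξ) :=
  (hf.comp continuous_fst).continuousOn

theorem CH_eta {x₁ x₂ h : ℝ} {f : ℝ → ℝ} (hf : Continuous f) : CH x₁ x₂ h (fun _ η => f η) :=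
  (hf.comp continuous_snd).continuousOn

theorem CH_sum {ι : Type} (s : Finset ι) {x₁ x₂ h : ℝ} {F : ι → ℝ → ℝ → ℝ}
    (hF : ∀ i ∈ s, CH x₁ x₂ h (F i)) : CH x₁ x₂ h (fun ξ η => ∑ i ∈ s, F i ξ η) :=
  continuousOn_finsetSum s hF

theorem CH_comp {x₁ x₂ h : ℝ} {X : ℂ → ℂ} (hX : ContinuousOn X (RectH x₁ x₂ h)) {W : ℂ → ℝ}
    (hW : Continuous W) : CH x₁ x₂ h (fun ξ η => W (X (pt ξ η))) :=
  hW.comp_continuousOn (contH hX)

theorem CH.integrableOn {x₁ x₂ h : ℝ} {F : ℝ → ℝ → ℝ} (hF : CH x₁ x₂ h F) :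
    IntegrableOn (fun p : ℝ × ℝ => F p.1 p.2) (Icc x₁ x₂ ×ˢ Icc 0 h) :=
  ContinuousOn.integrableOn_compact (isCompact_Icc.prod isCompact_Icc) hF

theorem IH_eq {x₁ x₂ h : ℝ} (hx : x₁ ≤ x₂) (hh : 0 ≤ h) {F : ℝ → ℝ → ℝ} (hF : CH x₁ x₂ h F) :
    IH x₁ x₂ h F = ∫ p in Icc x₁ x₂ ×ˢ Icc 0 h, F p.1 p.2 := by
  have h1 : ∫ p in Icc x₁ x₂ ×ˢ Icc 0 h, F p.1 p.2 =
      ∫ ξ in Icc x₁ x₂, ∫ η in Icc (0:ℝ) h, F ξ η := by
    have h2 := hF.integrableOn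
    rw [Measure.volume_eq_prod] at h2 ⊢
    exact setIntegral_prod _ h2
  rw [h1]
  unfold IH
  rw [intervalIntegral.integral_of_le hx, ← integral_Icc_eq_integral_Ioc]
  refine setIntegral_congr_fun measurableSet_Icc fun ξ _ => ?_
  rw [intervalIntegral.integral_of_le hh, ← integral_Icc_eq_integral_Ioc]

theorem IH_add {x₁ x₂ h : ℝ} (hx : x₁ ≤ x₂) (hh : 0 ≤ h) {F G : ℝ → ℝ → ℝ}
    (hF : CH x₁ x₂ h F) (hG : CH x₁ x₂ h G) :
    IH x₁ x₂ h (fun ξ η => F ξ η + G ξ η) = IH x₁ x₂ h F + IH x₁ x₂ h G := by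
  rw [IH_eq hx hh (hF.add hG), IH_eq hx hh hF, IH_eq hx hh hG]
  exact integral_add hF.integrableOn hG.integrableOn

theorem IH_sum {ι : Type} (s : Finset ι) {x₁ x₂ h : ℝ} (hx : x₁ ≤ x₂) (hh : 0 ≤ h)
    {F : ι → ℝ → ℝ → ℝ} (hF : ∀ i ∈ s, CH x₁ x₂ h (F i)) :
    IH x₁ x₂ h (fun ξ η => ∑ i ∈ s, F i ξ η) = ∑ i ∈ s, IH x₁ x₂ h (F i) := by
  rw [IH_eq hx hh (CH_sum s hF)]
  rw [integral_finsetSum s fun i hi => (hF i hi).integrableOn]
  exact Finset.sum_congr rfl fun i hi => (IH_eq hx hh (hF i hi)).symm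

theorem IH_const_mul {x₁ x₂ h : ℝ} (c : ℝ) (F : ℝ → ℝ → ℝ) :
    IH x₁ x₂ h (fun ξ η => c * F ξ η) = c * IH x₁ x₂ h F := by
  unfold IH
  simp only [intervalIntegral.integral_const_mul]

theorem IH_mono {x₁ x₂ h : ℝ} (hx : x₁ ≤ x₂) (hh : 0 ≤ h) {F G : ℝ → ℝ → ℝ}
    (hF : CH x₁ x₂ h F) (hG : CH x₁ x₂ h G)
    (hle : ∀ ξ ∈ Icc x₁ x₂, ∀ η ∈ Icc (0:ℝ) h, F ξ η ≤ G ξ η) :
    IH x₁ x₂ h F ≤ IH x₁ x₂ h G := by
  rw [IH_eq hx hh hF, IH_eq hx hh hG]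
  exact setIntegral_mono_on hF.integrableOn hG.integrableOn
    (measurableSet_Icc.prod measurableSet_Icc) fun p hp => hle p.1 hp.1 p.2 hp.2

theorem IH_xi {x₁ x₂ h : ℝ} (f : ℝ → ℝ) :
    IH x₁ x₂ h (fun ξ _ => f ξ) = h * ∫ ξ in x₁..x₂, f ξ := by
  unfold IH
  simp only [intervalIntegral.integral_const, sub_zero, smul_eq_mul,
    intervalIntegral.integral_const_mul]

/-- the error terms: `|F| ≤ |f| A (1 + N)` with `|f| ≤ k`, `∫|f| ≤ B` -/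
theorem IH_err {x₁ x₂ h : ℝ} (hx : x₁ ≤ x₂) (hh : 0 ≤ h) {F N : ℝ → ℝ → ℝ} {f : ℝ → ℝ}
    {k A B : ℝ} (hA : 0 ≤ A) (hf : Continuous f) (hF : CH x₁ x₂ h F) (hN : CH x₁ x₂ h N)
    (hN0 : ∀ ξ ∈ Icc x₁ x₂, ∀ η ∈ Icc (0:ℝ) h, 0 ≤ N ξ η)
    (hk : ∀ ξ, |f ξ| ≤ k) (hB : ∫ ξ in x₁..x₂, |f ξ| ≤ B)
    (hle : ∀ ξ ∈ Icc x₁ x₂, ∀ η ∈ Icc (0:ℝ) h, |F ξ η| ≤ |f ξ| * (A * (1 + N ξ η))) :
    |IH x₁ x₂ h F| ≤ A * (h * B + k * IH x₁ x₂ h N) := by
  have cf : CH x₁ x₂ h (fun ξ _ => |f ξ|) := CH_xi hf.abs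
  have cG : CH x₁ x₂ h (fun ξ η => A * (|f ξ| + k * N ξ η)) :=
    (CH_const A).mul (cf.add ((CH_const k).mul hN))
  have eG : IH x₁ x₂ h (fun ξ η => A * (|f ξ| + k * N ξ η)) =
      A * (h * (∫ ξ in x₁..x₂, |f ξ|) + k * IH x₁ x₂ h N) := by
    rw [IH_const_mul, IH_add hx hh cf ((CH_const k).mul hN), IH_const_mul, IH_xi]
  have hb : A * (h * (∫ ξ in x₁..x₂, |f ξ|) + k * IH x₁ x₂ h N) ≤
      A * (h * B + k * IH x₁ x₂ h N) := by
    refine mul_le_mul_of_nonneg_left ?_ hA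
    have := mul_le_mul_of_nonneg_left hB hh
    linarith
  have hpt : ∀ ξ ∈ Icc x₁ x₂, ∀ η ∈ Icc (0:ℝ) h, |F ξ η| ≤ A * (|f ξ| + k * N ξ η) := by
    intro ξ hξ η hη
    refine (hle ξ hξ η hη).trans ?_
    have h1 := mul_le_mul_of_nonneg_right (hk ξ) (hN0 ξ hξ η hη)
    have h2 := mul_le_mul_of_nonneg_left h1 hA
    nlinarith
  rw [abs_le]
  constructor
  · have h1 := IH_mono hx hh (cG.neg) hF fun ξ hξ η hη => (abs_le.1 (hpt ξ hξ η hη)).1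
    have h2 : IH x₁ x₂ h (fun ξ η => - (A * (|f ξ| + k * N ξ η))) =
        - IH x₁ x₂ h (fun ξ η => A * (|f ξ| + k * N ξ η)) := by
      have := IH_const_mul (x₁ := x₁) (x₂ := x₂) (h := h) (-1)
        (fun ξ η => A * (|f ξ| + k * N ξ η))
      simpa using this
    rw [h2, eG] at h1
    linarith
  · have h1 := IH_mono hx hh hF cG fun ξ hξ η hη => (abs_le.1 (hpt ξ hξ η hη)).2
    rw [eG] at h1
    linarith

/-! ### the mirror image -/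

/-- the mirror image of a function on the strip -/
noncomputable def mir (X : ℂ → ℂ) (ω : ℂ) : ℂ := conj (X (conj ω + π * I))

theorem conj_pt (ξ η : ℝ) : conj (pt ξ η) + π * I = pt ξ (π - η) := by
  simp only [pt, map_add, map_mul, conj_ofReal, conj_I, ofReal_sub]
  ring

theorem mir_pt (X : ℂ → ℂ) (ξ η : ℝ) : mir X (pt ξ η) = conj (X (pt ξ (π - η))) := by
  rw [mir, conj_pt]

theorem mir_hasDerivAt {X : ℂ → ℂ} {ω d : ℂ} (hX : HasDerivAt X d (conj ω + π * I)) :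
    HasDerivAt (mir X) (conj d) ω := by
  have h1 : HasDerivAt (fun z : ℂ => X (z + π * I)) d (conj ω) := hX.comp_add_const _ _
  have h2 := h1.conj_conj
  rw [starRingEnd_self_apply] at h2
  exact h2

theorem mir_deriv_pt {X : ℂ → ℂ} {ξ η : ℝ} (hX : DifferentiableAt ℂ X (pt ξ (π - η))) :
    deriv (mir X) (pt ξ η) = conj (deriv X (pt ξ (π - η))) := by
  have h1 : HasDerivAt X (deriv X (pt ξ (π - η))) (conj (pt ξ η) + π * I) := by
    rw [conj_pt]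
    exact hX.hasDerivAt
  exact (mir_hasDerivAt h1).deriv

theorem mir_an {X : ℂ → ℂ} {ω : ℂ} (hX : AnalyticAt ℂ X (conj ω + π * I)) :
    AnalyticAt ℂ (mir X) ω := by
  rw [Complex.analyticAt_iff_eventually_differentiableAt] at hX ⊢
  have hc : Filter.Tendsto (fun z : ℂ => conj z + π * I) (nhds ω) (nhds (conj ω + π * I)) :=
    (Complex.continuous_conj.add continuous_const).continuousAt
  filter_upwards [hc.eventually hX] with z hz
  exact (mir_hasDerivAt hz.hasDerivAt).differentiableAt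

theorem mir_mem {x₁ x₂ : ℝ} {ω : ℂ} (hω : ω ∈ RectH x₁ x₂ (π / 2)) :
    conj ω + π * I ∈ Rect x₁ x₂ := by
  obtain ⟨h1, h2⟩ := hω
  simp only [mem_preimage, mem_Icc] at h1 h2
  have := Real.pi_pos
  constructor
  · simp only [mem_preimage, mem_Icc, add_re, conj_re, mul_re, ofReal_re, I_re, mul_zero,
      ofReal_im, I_im, mul_one, sub_self, add_zero]
    exact h1
  · simp only [mem_preimage, mem_Icc, add_im, conj_im, mul_im, ofReal_re, I_im, mul_one,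
      ofReal_im, I_re, mul_zero, add_zero]
    constructor <;> linarith [h2.1, h2.2]

theorem rectH_sub {x₁ x₂ : ℝ} : RectH x₁ x₂ (π / 2) ⊆ Rect x₁ x₂ := by
  rintro ω ⟨h1, h2⟩
  refine ⟨h1, ?_⟩
  simp only [mem_preimage, mem_Icc] at h2 ⊢
  have := Real.pi_pos
  constructor <;> linarith [h2.1, h2.2]

theorem mir_an_H {X : ℂ → ℂ} {x₁ x₂ : ℝ} (hX : AnalyticOnNhd ℂ X (Rect x₁ x₂)) :
    AnalyticOnNhd ℂ (mir X) (RectH x₁ x₂ (π / 2)) := fun _ hω => mir_an (hX _ (mir_mem hω))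

/-- the integral over the strip is the sum over the two halves -/
theorem II_split {x₁ x₂ : ℝ} (hx : x₁ ≤ x₂) {F : ℝ → ℝ → ℝ} (hF : CH x₁ x₂ π F) :
    II x₁ x₂ F = IH x₁ x₂ (π / 2) F + IH x₁ x₂ (π / 2) (fun ξ η => F ξ (π - η)) := by
  have hpi := Real.pi_pos
  have c1 : CH x₁ x₂ (π / 2) F :=
    ContinuousOn.mono hF (prod_mono subset_rfl (Icc_subset_Icc le_rfl (by linarith)))
  have c2 : CH x₁ x₂ (π / 2) (fun ξ η => F ξ (π - η)) := by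
    refine ContinuousOn.comp (g := fun p : ℝ × ℝ => F p.1 p.2)
      (f := fun p : ℝ × ℝ => (p.1, π - p.2)) hF (by fun_prop) ?_
    rintro ⟨x, y⟩ ⟨h1, h2⟩
    refine ⟨h1, ?_⟩
    simp only [mem_Icc] at h2 ⊢
    constructor <;> linarith [h2.1, h2.2]
  have hs : ∀ ξ ∈ Icc x₁ x₂, ∫ η in (0:ℝ)..π, F ξ η =
      (∫ η in (0:ℝ)..(π / 2), F ξ η) + ∫ η in (0:ℝ)..(π / 2), F ξ (π - η) := by
    intro ξ hξ
    have cc : ContinuousOn (fun η => F ξ η) (Icc 0 π) := by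
      refine ContinuousOn.comp (g := fun p : ℝ × ℝ => F p.1 p.2)
        (f := fun y : ℝ => (ξ, y)) hF (by fun_prop) ?_
      intro y hy
      exact ⟨hξ, hy⟩
    have i1 : IntervalIntegrable (fun η => F ξ η) volume 0 (π / 2) :=
      (cc.mono (Icc_subset_Icc le_rfl (by linarith))).intervalIntegrable_of_Icc (by linarith)
    have i2 : IntervalIntegrable (fun η => F ξ η) volume (π / 2) π :=
      (cc.mono (Icc_subset_Icc (by linarith) le_rfl)).intervalIntegrable_of_Icc (by linarith)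
    rw [← intervalIntegral.integral_add_adjacent_intervals i1 i2]
    congr 1
    have := intervalIntegral.integral_comp_sub_left (a := 0) (b := π / 2) (fun η => F ξ η) π
    rw [this]
    congr 1 <;> ring
  have key : ∀ {H : ℝ → ℝ → ℝ}, CH x₁ x₂ (π / 2) H →
      IntervalIntegrable (fun x => ∫ y in (0:ℝ)..(π / 2), H x y) volume x₁ x₂ := by
    intro H hH
    have h2 : IntegrableOn (fun p : ℝ × ℝ => H p.1 p.2) (Ioc x₁ x₂ ×ˢ Ioc 0 (π / 2)) :=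
      hH.integrableOn.mono_set (prod_mono Ioc_subset_Icc_self Ioc_subset_Icc_self)
    rw [IntegrableOn, Measure.volume_eq_prod, ← Measure.prod_restrict] at h2
    have h3 := h2.integral_prod_left
    rw [intervalIntegrable_iff_integrableOn_Ioc_of_le hx, IntegrableOn]
    simpa only [intervalIntegral.integral_of_le (by linarith : (0:ℝ) ≤ π / 2)] using h3
  unfold II IH
  rw [← intervalIntegral.integral_add (key c1) (key c2)]
  refine intervalIntegral.integral_congr fun ξ hξ => ?_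
  rw [uIcc_of_le hx] at hξ
  exact hs ξ hξ

/-! ### cut-off functions -/

/-- a cut-off function is locally constant in the middle, so the integral of its derivatives is
bounded -/
theorem cut_int {x₁ x₂ l k : ℝ} (hl : 0 < l) (hx : x₁ + l ≤ x₂ - l) {f : ℝ → ℝ}
    (hf : Continuous f) (h0 : ∀ ξ ∈ Ioo (x₁ + l) (x₂ - l), f ξ = 0)
    (hk : ∀ ξ, |f ξ| ≤ k / l) : ∫ ξ in x₁..x₂, |f ξ| ≤ 2 * k := by
  have ii : ∀ a b : ℝ, IntervalIntegrable (fun ξ => |f ξ|) volume a b := fun a b =>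
    hf.abs.intervalIntegrable _ _
  rw [← intervalIntegral.integral_add_adjacent_intervals (ii x₁ (x₁ + l)) (ii (x₁ + l) x₂),
    ← intervalIntegral.integral_add_adjacent_intervals (ii (x₁ + l) (x₂ - l)) (ii (x₂ - l) x₂)]
  have hm : ∫ ξ in (x₁ + l)..(x₂ - l), |f ξ| = 0 := by
    rw [intervalIntegral.integral_of_le hx, integral_Ioc_eq_integral_Ioo]
    rw [setIntegral_congr_fun (g := fun _ => (0:ℝ)) measurableSet_Ioo]
    · simp
    · intro ξ hξ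
      simp [h0 ξ hξ]
  have hbd : ∀ a b : ℝ, a ≤ b → ∫ ξ in a..b, |f ξ| ≤ (b - a) * (k / l) := by
    intro a b hab
    have := intervalIntegral.integral_mono_on hab (ii a b)
      (intervalIntegrable_const (c := k / l)) fun ξ _ => hk ξ
    rwa [intervalIntegral.integral_const, smul_eq_mul] at this
  have b1 := hbd x₁ (x₁ + l) (by linarith)
  have b2 := hbd (x₂ - l) x₂ (by linarith)
  have e1 : (x₁ + l - x₁) * (k / l) = k := by
    rw [add_sub_cancel_left]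
    exact mul_div_cancel₀ k hl.ne'
  have e2 : (x₂ - (x₂ - l)) * (k / l) = k := by
    rw [sub_sub_cancel]
    exact mul_div_cancel₀ k hl.ne'
  rw [e1] at b1
  rw [e2] at b2
  rw [hm]
  linarith

/-- the derivatives of a cut-off function vanish in the middle -/
theorem cut_zero {y₁ y₂ : ℝ} {χ χ₁ χ₂ : ℝ → ℝ} (d1 : ∀ ξ, HasDerivAt χ (χ₁ ξ) ξ)
    (d2 : ∀ ξ, HasDerivAt χ₁ (χ₂ ξ) ξ) (h1 : ∀ ξ ∈ Icc y₁ y₂, χ ξ = 1) :
    (∀ ξ ∈ Ioo y₁ y₂, χ₁ ξ = 0) ∧ ∀ ξ ∈ Ioo y₁ y₂, χ₂ ξ = 0 := by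
  have hz : ∀ ξ ∈ Ioo y₁ y₂, χ₁ ξ = 0 := by
    intro ξ hξ
    have he : χ =ᶠ[nhds ξ] fun _ => (1:ℝ) := by
      filter_upwards [Ioo_mem_nhds hξ.1 hξ.2] with t ht
      exact h1 t (Ioo_subset_Icc_self ht)
    have := (hasDerivAt_const ξ (1:ℝ)).congr_of_eventuallyEq he
    exact (d1 ξ).unique this
  refine ⟨hz, fun ξ hξ => ?_⟩
  have he : χ₁ =ᶠ[nhds ξ] fun _ => (0:ℝ) := by
    filter_upwards [Ioo_mem_nhds hξ.1 hξ.2] with t ht
    exact hz t ht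
  have := (hasDerivAt_const ξ (0:ℝ)).congr_of_eventuallyEq he
  exact (d2 ξ).unique this

/-! ### functions of class C¹ are Lipschitz on discs -/

theorem C1f_lip {W Wx Wy : ℂ → ℝ} (hW : C1f W Wx Wy) (r : ℝ) :
    ∃ M : ℝ, 0 ≤ M ∧ ∀ X ∈ closedBall (0:ℂ) r, ∀ X' ∈ closedBall (0:ℂ) r,
      |W X - W X'| ≤ M * ‖X - X'‖ := by
  have hc : ContinuousOn (fun X : ℂ => |Wx X| + |Wy X|) (closedBall 0 r) :=
    (hW.cx.abs.add hW.cy.abs).continuousOn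
  obtain ⟨M, hM⟩ := (isCompact_closedBall (0:ℂ) r).bddAbove_image hc
  refine ⟨max M 0, le_max_right _ _, fun X hX X' hX' => ?_⟩
  have hb : ∀ Z ∈ closedBall (0:ℂ) r, ‖(Wx Z • reCLM + Wy Z • imCLM : ℂ →L[ℝ] ℝ)‖ ≤ max M 0 := by
    intro Z hZ
    have h1 : |Wx Z| + |Wy Z| ≤ M := hM (mem_image_of_mem _ hZ)
    refine (ContinuousLinearMap.opNorm_le_bound _ (by positivity) fun v => ?_).trans
      (h1.trans (le_max_left _ _))
    simp only [_root_.add_apply, _root_.smul_apply, reCLM_apply,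
      imCLM_apply, smul_eq_mul, Real.norm_eq_abs]
    have h2 := abs_re_le_norm v
    have h3 := abs_im_le_norm v
    calc |Wx Z * v.re + Wy Z * v.im| ≤ |Wx Z * v.re| + |Wy Z * v.im| := abs_add_le _ _
      _ = |Wx Z| * |v.re| + |Wy Z| * |v.im| := by rw [abs_mul, abs_mul]
      _ ≤ |Wx Z| * ‖v‖ + |Wy Z| * ‖v‖ := by gcongr
      _ = (|Wx Z| + |Wy Z|) * ‖v‖ := by ring
  have := (convex_closedBall (0:ℂ) r).norm_image_sub_le_of_norm_hasFDerivWithin_le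
    (f := W) (f' := fun Z => (Wx Z • reCLM + Wy Z • imCLM : ℂ →L[ℝ] ℝ))
    (fun Z _ => (hW.hd Z).hasFDerivWithinAt) hb hX' hX
  simpa [Real.norm_eq_abs] using this

end Pool.Agent.Helper69.EK3
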