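import Pool.Agent.Helper69.EK3.NullA
set_option autoImplicit false
open Complex MeasureTheory Metric Set
open scoped Real ComplexConjugate

/-!
# Project EK3: null Lagrangians of first order (fields `a(η) F(X) q ^ j`, `q = X'/X`)

The field `A = a(η) F(X) g`, `g` analytic, `w = Re A`, `v = -Im A`, has `w_ξ + v_η` without the
derivative of `g`.
-/

namespace Pool.Agent.Helper69.EK3

open Pool.Agent.Helper52.EK Pool.Agent.Helper78.EK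

variable {P : (ℂ → ℂ) → ℝ → ℝ → Prop}

/-- the integrand of the field `a(η) F(X) g` -/
noncomputable def NG (a a₁ : ℝ → ℝ) (F Fx Fy : ℂ → ℂ) (X Y g : ℂ) (η : ℝ) : ℝ :=
  a η * ((Fx X + I * Fy X) * (g * conj Y)).re - a₁ η * (F X * g).im

theorem nullG_H {H Hx Hy : ℂ → ℂ} (hH : C1c H Hx Hy) {X g : ℂ → ℂ} {x₁ x₂ h : ℝ}
    (hx : x₁ ≤ x₂) (hh : 0 ≤ h) (hX : AnalyticOnNhd ℂ X (RectH x₁ x₂ h))
    (hne : ∀ ω ∈ RectH x₁ x₂ h, X ω ≠ 0) (hg : AnalyticOnNhd ℂ g (RectH x₁ x₂ h))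
    {χ χ₁ : ℝ → ℝ} (h1 : ∀ ξ, HasDerivAt χ (χ₁ ξ) ξ) (h1c : Continuous χ₁)
    (e1 : χ x₁ = 0) (e2 : χ x₂ = 0)
    {a a₁ : ℝ → ℝ} (g1 : ∀ η, HasDerivAt a (a₁ η) η) (g1c : Continuous a₁) (f1 : a 0 = 0) :
    IH x₁ x₂ h (fun ξ η => χ ξ * NG a a₁ H Hx Hy (X (pt ξ η)) (deriv X (pt ξ η)) (g (pt ξ η)) η) =
    (∫ ξ in x₁..x₂, χ ξ * (- (a h * (H (X (pt ξ h)) * g (pt ξ h)).im))) -
      IH x₁ x₂ h (fun ξ η => χ₁ ξ * (a η * (H (X (pt ξ η)) * g (pt ξ η)).re)) := by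
  have cχ : Continuous χ := continuous_iff_continuousAt.2 fun t => (h1 t).continuousAt
  have ca : Continuous a := continuous_iff_continuousAt.2 fun t => (g1 t).continuousAt
  have hX1 : AnalyticOnNhd ℂ (deriv X) (RectH x₁ x₂ h) := hX.deriv
  have cX := contH hX.continuousOn
  have cX1 := contH hX1.continuousOn
  have cg := contH hg.continuousOn
  have mX : MapsTo (fun p : ℝ × ℝ => X (pt p.1 p.2)) (Icc x₁ x₂ ×ˢ Icc 0 h) {X | X ≠ 0} :=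
    fun p hp => hne _ (pt_mem_RectH hp.1 hp.2)
  have cH : ContinuousOn (fun p : ℝ × ℝ => H (X (pt p.1 p.2))) (Icc x₁ x₂ ×ˢ Icc 0 h) :=
    hH.cont.comp cX mX
  have cHx : ContinuousOn (fun p : ℝ × ℝ => Hx (X (pt p.1 p.2))) (Icc x₁ x₂ ×ˢ Icc 0 h) :=
    hH.cx.comp cX mX
  have cHy : ContinuousOn (fun p : ℝ × ℝ => Hy (X (pt p.1 p.2))) (Icc x₁ x₂ ×ˢ Icc 0 h) :=
    hH.cy.comp cX mX
  have i1 : ContinuousOn (fun p : ℝ × ℝ => χ p.1) (Icc x₁ x₂ ×ˢ Icc 0 h) := by fun_prop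
  have i1' : ContinuousOn (fun p : ℝ × ℝ => χ₁ p.1) (Icc x₁ x₂ ×ˢ Icc 0 h) := by fun_prop
  have i2 : ContinuousOn (fun p : ℝ × ℝ => a p.2) (Icc x₁ x₂ ×ˢ Icc 0 h) := by fun_prop
  have i3 : ContinuousOn (fun p : ℝ × ℝ => a₁ p.2) (Icc x₁ x₂ ×ˢ Icc 0 h) := by fun_prop
  have cHY : ContinuousOn (fun p : ℝ × ℝ => H (X (pt p.1 p.2)) * g (pt p.1 p.2))
      (Icc x₁ x₂ ×ˢ Icc 0 h) := cH.mul cg
  have cre : ContinuousOn (fun p : ℝ × ℝ => (H (X (pt p.1 p.2)) * g (pt p.1 p.2)).re)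
      (Icc x₁ x₂ ×ˢ Icc 0 h) := Complex.continuous_re.comp_continuousOn cHY
  have cim : ContinuousOn (fun p : ℝ × ℝ => (H (X (pt p.1 p.2)) * g (pt p.1 p.2)).im)
      (Icc x₁ x₂ ×ˢ Icc 0 h) := Complex.continuous_im.comp_continuousOn cHY
  have ccY : ContinuousOn (fun p : ℝ × ℝ => conj (deriv X (pt p.1 p.2)))
      (Icc x₁ x₂ ×ˢ Icc 0 h) := Complex.continuous_conj.comp_continuousOn cX1
  have cA : ContinuousOn (fun p : ℝ × ℝ => χ p.1 *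
      NG a a₁ H Hx Hy (X (pt p.1 p.2)) (deriv X (pt p.1 p.2)) (g (pt p.1 p.2)) p.2)
      (Icc x₁ x₂ ×ˢ Icc 0 h) := by
    unfold NG
    exact i1.mul ((i2.mul (Complex.continuous_re.comp_continuousOn
      ((cHx.add (continuousOn_const.mul cHy)).mul (cg.mul ccY)))).sub (i3.mul cim))
  have cB : ContinuousOn (fun p : ℝ × ℝ => χ₁ p.1 * (a p.2 *
      (H (X (pt p.1 p.2)) * g (pt p.1 p.2)).re)) (Icc x₁ x₂ ×ˢ Icc 0 h) :=
    i1'.mul (i2.mul cre)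
  have hmem : ∀ p ∈ Ioo x₁ x₂ ×ˢ Ioo 0 h, pt p.1 p.2 ∈ RectH x₁ x₂ h := by
    rintro ⟨x, y⟩ ⟨hx', hy'⟩
    exact pt_mem_RectH (Ioo_subset_Icc_self hx') (Ioo_subset_Icc_self hy')
  have dχ : ∀ p : ℝ × ℝ, HasFDerivAt (fun q : ℝ × ℝ => χ q.1)
      (χ₁ p.1 • ContinuousLinearMap.fst ℝ ℝ ℝ) p := fun p =>
    (h1 p.1).comp_hasFDerivAt p hasFDerivAt_fst
  have da : ∀ p : ℝ × ℝ, HasFDerivAt (fun q : ℝ × ℝ => a q.2)
      (a₁ p.2 • ContinuousLinearMap.snd ℝ ℝ ℝ) p := fun p =>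
    (g1 p.2).comp_hasFDerivAt p hasFDerivAt_snd
  have dH : ∀ p : ℝ × ℝ, pt p.1 p.2 ∈ RectH x₁ x₂ h →
      HasFDerivAt (fun q : ℝ × ℝ => H (X (pt q.1 q.2)))
        ((reCLM.smulRight (Hx (X (pt p.1 p.2))) + imCLM.smulRight (Hy (X (pt p.1 p.2)))).comp
          (Lc (deriv X (pt p.1 p.2)))) p := by
    intro p hp
    exact HasFDerivAt.comp (g := H) p (hH.hd _ (hne _ hp))
      (hasFDerivAt_X (hX _ hp).differentiableAt)
  have dg : ∀ p : ℝ × ℝ, pt p.1 p.2 ∈ RectH x₁ x₂ h →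
      HasFDerivAt (fun q : ℝ × ℝ => g (pt q.1 q.2)) (Lc (deriv g (pt p.1 p.2))) p := fun p hp =>
    hasFDerivAt_X (hg _ hp).differentiableAt
  have dF := fun (p : ℝ × ℝ) (hp : pt p.1 p.2 ∈ RectH x₁ x₂ h) =>
    (dχ p).fun_mul ((da p).fun_mul (reCLM.hasFDerivAt.comp p ((dH p hp).fun_mul (dg p hp))))
  have dG := fun (p : ℝ × ℝ) (hp : pt p.1 p.2 ∈ RectH x₁ x₂ h) =>
    (dχ p).fun_mul ((da p).fun_mul (imCLM.hasFDerivAt.comp p ((dH p hp).fun_mul (dg p hp)))).fun_neg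
  have cF : ContinuousOn (fun q : ℝ × ℝ => χ q.1 * (a q.2 *
      reCLM (H (X (pt q.1 q.2)) * g (pt q.1 q.2)))) (Icc x₁ x₂ ×ˢ Icc 0 h) :=
    i1.mul (i2.mul cre)
  have cG : ContinuousOn (fun q : ℝ × ℝ => χ q.1 * -(a q.2 *
      imCLM (H (X (pt q.1 q.2)) * g (pt q.1 q.2)))) (Icc x₁ x₂ ×ˢ Icc 0 h) :=
    i1.mul (i2.mul cim).neg
  have cD := cA.fun_add cB
  have main := div_top hx hh (Rp := RectH x₁ x₂ h) hmem cF cG cD dF dG (by
    rintro ⟨x, y⟩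
    simp only [NG, _root_.add_apply, _root_.neg_apply,
      _root_.smul_apply, ContinuousLinearMap.comp_apply, Lc_10, Lc_01,
      ContinuousLinearMap.coe_fst', ContinuousLinearMap.coe_snd', smul_eq_mul, reCLM_apply,
      imCLM_apply, mul_re, mul_im, I_re, I_im, add_re, add_im, conj_re, conj_im,
      ContinuousLinearMap.smulRight_apply, real_smul, ofReal_re, ofReal_im, Function.comp]
    ring)
    (fun x => by simp [f1]) (fun y => by simp [e2])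
    (fun y => by simp [e1])
  have h3 := IH_add hx hh (F := fun ξ η => χ ξ *
      NG a a₁ H Hx Hy (X (pt ξ η)) (deriv X (pt ξ η)) (g (pt ξ η)) η)
    (G := fun ξ η => χ₁ ξ * (a η * (H (X (pt ξ η)) * g (pt ξ η)).re)) cA cB
  have h4 : IH x₁ x₂ h (fun ξ η => χ ξ *
      NG a a₁ H Hx Hy (X (pt ξ η)) (deriv X (pt ξ η)) (g (pt ξ η)) η +
      χ₁ ξ * (a η * (H (X (pt ξ η)) * g (pt ξ η)).re)) =
      ∫ ξ in x₁..x₂, χ ξ * (- (a h * (H (X (pt ξ h)) * g (pt ξ h)).im)) := by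
    refine Eq.trans ?_ (main.trans ?_)
    · rfl
    · rfl
  rw [h3] at h4
  linarith

/-- the null Lagrangian of the field `a(η) F(X) (X'/X) ^ j` -/
theorem isNull_P {H Hx Hy : ℂ → ℂ} (hH : C1c H Hx Hy) (j : ℕ) {a a₁ : ℝ → ℝ}
    (g1 : ∀ η, HasDerivAt a (a₁ η) η) (g1c : Continuous a₁) (f1 : a 0 = 0) {C C₀ M : ℝ}
    (hC : 0 ≤ C) (hC₀ : 0 ≤ C₀) (hM : 0 ≤ M)
    (ha : ∀ η ∈ Icc (0:ℝ) (π / 2), |a η| ≤ M * Real.sin η ^ j)
    (bF : ∀ X : ℂ, ‖H X‖ ≤ C * (1 + ‖X - 1‖ ^ 2))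
    (hq : ∀ (X : ℂ → ℂ) (x₁ x₂ : ℝ), x₁ ≤ x₂ → NiceH X x₁ x₂ → P X x₁ x₂ →
      ∀ ξ ∈ Icc x₁ x₂, ∀ η ∈ Icc (0:ℝ) (π / 2),
        Real.sin η * ‖deriv X (pt ξ η) / X (pt ξ η)‖ ≤ C₀) :
    IsNull P (fun X Y η => NG a a₁ H Hx Hy X Y ((Y / X) ^ j) η)
      (fun X Y => - (a (π / 2) * (H X * (Y / X) ^ j).im)) := by
  have ca : Continuous a := continuous_iff_continuousAt.2 fun t => (g1 t).continuousAt
  have j1 : ContinuousOn (fun p : ℂ × ℂ × ℝ => H p.1) {p | p.1 ≠ 0} :=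
    hH.cont.comp continuous_fst.continuousOn fun p hp => hp
  have j2 : ContinuousOn (fun p : ℂ × ℂ × ℝ => Hx p.1) {p | p.1 ≠ 0} :=
    hH.cx.comp continuous_fst.continuousOn fun p hp => hp
  have j3 : ContinuousOn (fun p : ℂ × ℂ × ℝ => Hy p.1) {p | p.1 ≠ 0} :=
    hH.cy.comp continuous_fst.continuousOn fun p hp => hp
  have j4 : ContinuousOn (fun p : ℂ × ℂ => H p.1) {p | p.1 ≠ 0} :=
    hH.cont.comp continuous_fst.continuousOn fun p hp => hp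
  refine ⟨?_, ?_, fun k hk => ?_⟩
  · have e1 : ContinuousOn (fun p : ℂ × ℂ × ℝ => a p.2.2) {p | p.1 ≠ 0} := by fun_prop
    have e2 : ContinuousOn (fun p : ℂ × ℂ × ℝ => a₁ p.2.2) {p | p.1 ≠ 0} := by fun_prop
    have e0 : ContinuousOn (fun p : ℂ × ℂ × ℝ => p.1) {p | p.1 ≠ 0} := by fun_prop
    have e3 : ContinuousOn (fun p : ℂ × ℂ × ℝ => p.2.1) {p | p.1 ≠ 0} := by fun_prop
    have e4 : ContinuousOn (fun p : ℂ × ℂ × ℝ => (p.2.1 / p.1) ^ j) {p | p.1 ≠ 0} :=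
      (e3.div e0 fun p hp => hp).pow j
    have e5 : ContinuousOn (fun p : ℂ × ℂ × ℝ => conj p.2.1) {p | p.1 ≠ 0} :=
      Complex.continuous_conj.comp_continuousOn e3
    unfold NG
    exact (e1.mul (Complex.continuous_re.comp_continuousOn
      ((j2.add (continuousOn_const.mul j3)).mul (e4.mul e5)))).sub
      (e2.mul (Complex.continuous_im.comp_continuousOn (j1.mul e4)))
  · have e0 : ContinuousOn (fun p : ℂ × ℂ => p.1) {p | p.1 ≠ 0} := by fun_prop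
    have e3 : ContinuousOn (fun p : ℂ × ℂ => p.2) {p | p.1 ≠ 0} := by fun_prop
    have e4 : ContinuousOn (fun p : ℂ × ℂ => (p.2 / p.1) ^ j) {p | p.1 ≠ 0} :=
      (e3.div e0 fun p hp => hp).pow j
    exact (continuousOn_const.mul (Complex.continuous_im.comp_continuousOn (j4.mul e4))).neg
  · refine ⟨M * (C * C₀ ^ j) * (π / 2 * (2 * k) + k), fun X x₁ x₂ l χ χ₁ χ₂ hl hx hc hX hP => ?_⟩
    have hx12 : x₁ ≤ x₂ := by linarith
    have hpi : (0:ℝ) ≤ π / 2 := by positivity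
    have hg : AnalyticOnNhd ℂ (fun ω => (deriv X ω / X ω) ^ j) (RectH x₁ x₂ (π / 2)) :=
      fun ω hω => ((hX.an.deriv ω hω).div (hX.an ω hω) (hX.ne ω hω)).pow j
    have h1 := nullG_H hH hx12 hpi hX.an hX.ne hg hc.d1 hc.cont1 hc.e1 hc.e2 g1 g1c f1
    rw [h1]
    have n1 : CH x₁ x₂ (π / 2) (fun ξ η => ‖X (pt ξ η) - 1‖ ^ 2) :=
      CH_comp hX.an.continuousOn (W := fun X => ‖X - 1‖ ^ 2) (by fun_prop)
    have cX := contH hX.an.continuousOn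
    have cg := contH hg.continuousOn
    have cH : ContinuousOn (fun p : ℝ × ℝ => H (X (pt p.1 p.2))) (Icc x₁ x₂ ×ˢ Icc 0 (π / 2)) :=
      hH.cont.comp cX fun p hp => hX.ne _ (pt_mem_RectH hp.1 hp.2)
    have cF : CH x₁ x₂ (π / 2) (fun ξ η => χ₁ ξ *
        (a η * (H (X (pt ξ η)) * (deriv X (pt ξ η) / X (pt ξ η)) ^ j).re)) :=
      (CH_xi hc.cont1).mul ((CH_eta ca).mul
        (Complex.continuous_re.comp_continuousOn (cH.mul cg)))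
    have hA : 0 ≤ M * (C * C₀ ^ j) := by positivity
    have h2 := IH_err hx12 hpi (N := fun ξ η => ‖X (pt ξ η) - 1‖ ^ 2) (A := M * (C * C₀ ^ j)) hA
      hc.cont1 cF n1 (fun _ _ _ _ => sq_nonneg _) hc.k1 hc.i1 (by
        intro ξ hξ η hη
        rw [abs_mul]
        refine mul_le_mul_of_nonneg_left ?_ (abs_nonneg _)
        have hq1 := hq X x₁ x₂ hx12 hX hP ξ hξ η hη
        have hs : 0 ≤ Real.sin η := Real.sin_nonneg_of_nonneg_of_le_pi hη.1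
          (hη.2.trans (by linarith [Real.pi_pos]))
        obtain ⟨Z, hZ⟩ : ∃ Z, Z = X (pt ξ η) := ⟨_, rfl⟩
        obtain ⟨Y, hY⟩ : ∃ Y, Y = deriv X (pt ξ η) := ⟨_, rfl⟩
        rw [← hZ, ← hY] at hq1 ⊢
        rw [abs_mul]
        have h2 : |(H Z * (Y / Z) ^ j).re| ≤ ‖H Z‖ * ‖Y / Z‖ ^ j := by
          rw [← norm_pow, ← norm_mul]
          exact abs_re_le_norm _
        have h3 : (Real.sin η * ‖Y / Z‖) ^ j ≤ C₀ ^ j :=
          pow_le_pow_left₀ (mul_nonneg hs (norm_nonneg _)) hq1 j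
        calc |a η| * |(H Z * (Y / Z) ^ j).re| ≤ (M * Real.sin η ^ j) * (‖H Z‖ * ‖Y / Z‖ ^ j) :=
              mul_le_mul (ha η hη) h2 (abs_nonneg _) (mul_nonneg hM (pow_nonneg hs j))
          _ = M * (‖H Z‖ * (Real.sin η * ‖Y / Z‖) ^ j) := by rw [mul_pow]; ring
          _ ≤ M * ((C * (1 + ‖Z - 1‖ ^ 2)) * C₀ ^ j) := by
              refine mul_le_mul_of_nonneg_left ?_ hM
              exact mul_le_mul (bF Z) h3 (pow_nonneg (mul_nonneg hs (norm_nonneg _)) j)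
                (mul_nonneg hC (by positivity))
          _ = M * (C * C₀ ^ j) * (1 + ‖Z - 1‖ ^ 2) := by ring)
    have h3 : ∀ A B : ℝ, A - B - A = -B := fun A B => by ring
    rw [h3, abs_neg]
    refine h2.trans ?_
    have hE := En_nonneg (X := X) hx12
    have e : k / l * IH x₁ x₂ (π / 2) (fun ξ η => ‖X (pt ξ η) - 1‖ ^ 2) =
        k * (En X x₁ x₂ / l) := by
      unfold En
      ring
    rw [e, mul_assoc (M * (C * C₀ ^ j))]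
    refine mul_le_mul_of_nonneg_left ?_ hA
    have hE' : 0 ≤ En X x₁ x₂ / l := div_nonneg hE (by linarith)
    nlinarith [mul_nonneg (mul_nonneg hpi (mul_nonneg zero_le_two hk)) hE']

end Pool.Agent.Helper69.EK3
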