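import Pool.Agent.Helper69.EK3.KOne3
import Pool.Agent.Helper84.EK.Centre
import Pool.Agent.Helper79.EK3.Lin
import Pool.Agent.Helper44.EK.StripAux
set_option autoImplicit false
open Complex MeasureTheory Metric Set
open scoped Real ComplexConjugate

/-!
# Project EK3: the bound for one target from a certificate with the Koebe bound on the centre line
-/

namespace Pool.Agent.Helper69.EK3

open Pool.Agent.Helper39.Area Pool.Agent.Helper52.EK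

/-- admissible functions: both halves in the class `P`, Koebe bound on the centre line -/
def AdmB (P : (ℂ → ℂ) → ℝ → ℝ → Prop) (X : ℂ → ℂ) (x₁ x₂ : ℝ) : Prop :=
  P X x₁ x₂ ∧ P (mir X) x₁ x₂ ∧ ∃ δ : ℝ → ℝ, Continuous δ ∧ (∀ ξ ∈ Icc x₁ x₂, 0 ≤ δ ξ) ∧
    (∀ ξ ∈ Icc x₁ x₂, 1 + δ ξ ≤ 9) ∧ (∀ ξ ∈ Icc x₁ x₂, ‖X (pt ξ (π / 2))‖ ≤ 1 + δ ξ) ∧
    ∫ ξ in x₁..x₂, δ ξ ≤ 8

theorem exp_int (a b : ℝ) : ∫ ξ in a..b, Real.exp ξ = Real.exp b - Real.exp a :=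
  integral_exp

/-- the functions `Xf` satisfy the Koebe bound -/
theorem admB_Xf {P : (ℂ → ℂ) → ℝ → ℝ → Prop}
    (hP : ∀ (β : ℂ → ℂ) (R a : ℝ), ExtR β R → 0 < a → a < 1 → Real.log (tau a) + 1 ≤ -1 →
      P (Xf β a) (Real.log (tau a) + 1) (-1) ∧ P (mir (Xf β a)) (Real.log (tau a) + 1) (-1))
    (β : ℂ → ℂ) (R a : ℝ) (h : ExtR β R) (ha : 0 < a) (ha1 : a < 1)
    (hx : Real.log (tau a) + 1 ≤ -1) : AdmB P (Xf β a) (Real.log (tau a) + 1) (-1) := by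
  obtain ⟨p1, p2⟩ := hP β R a h ha ha1 hx
  refine ⟨p1, p2, fun ξ => 4 * Real.exp ξ + 4 * Real.exp (Real.log (tau a) - ξ), by fun_prop,
    fun ξ _ => by positivity, fun ξ hξ => ?_, fun ξ hξ => ?_, ?_⟩
  · have h1 : Real.exp ξ ≤ 1 := Real.exp_le_one_iff.2 (by linarith [hξ.2])
    have h2 : Real.exp (Real.log (tau a) - ξ) ≤ 1 := Real.exp_le_one_iff.2 (by linarith [hξ.1])
    linarith
  · have := Pool.Agent.Helper84.EK.centre_err h.toExt ha ha1 hξ.1 hξ.2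
    linarith
  · have i1 : IntervalIntegrable (fun ξ : ℝ => 4 * Real.exp ξ) volume
        (Real.log (tau a) + 1) (-1) :=
      (by fun_prop : Continuous fun ξ : ℝ => 4 * Real.exp ξ).intervalIntegrable _ _
    have i2 : IntervalIntegrable (fun ξ : ℝ => 4 * Real.exp (Real.log (tau a) - ξ)) volume
        (Real.log (tau a) + 1) (-1) :=
      (by fun_prop : Continuous fun ξ : ℝ => 4 * Real.exp (Real.log (tau a) - ξ)).intervalIntegrable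
        _ _
    rw [intervalIntegral.integral_add i1 i2, intervalIntegral.integral_const_mul,
      intervalIntegral.integral_const_mul,
      intervalIntegral.integral_comp_sub_left (fun u => Real.exp u) (Real.log (tau a)),
      exp_int, exp_int]
    have e1 : Real.exp (-1) ≤ 1 := Real.exp_le_one_iff.2 (by norm_num)
    have e2 := Real.exp_pos (Real.log (tau a) + 1)
    have e3 : Real.exp (Real.log (tau a) - (Real.log (tau a) + 1)) ≤ 1 :=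
      Real.exp_le_one_iff.2 (by linarith)
    have e4 := Real.exp_pos (Real.log (tau a) - -1)
    linarith

theorem e0_neg (s c : ℝ) : e0 s (-c) = conj (e0 s c) := by
  unfold e0
  simp only [map_neg, map_pow, map_sub, map_mul, conj_ofReal, conj_I, ofReal_neg]
  ring

theorem mX_conj (X Y : ℂ) (s c : ℝ) : mX (conj X) (conj Y) s c = conj (mX X Y s (-c)) := by
  unfold mX
  rw [e0_neg]
  simp only [map_sub, map_mul, map_add, map_div₀, map_one, map_ofNat, Complex.conj_conj]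

theorem TG_mirror {G : ℂ → ℂ} (hGc : ∀ m, G (conj m) = conj (G m)) (X Y : ℂ) (s c : ℝ) :
    TG G (conj X) (conj Y) s c = TG G X Y s (-c) := by
  unfold TG
  rw [mX_conj, hGc, e0_neg]
  have h : conj (G (mX X Y s (-c))) - e0 s c = conj (G (mX X Y s (-c)) - conj (e0 s c)) := by
    rw [map_sub, Complex.conj_conj]
  rw [h, norm_conj]

theorem TG_cont {G : ℂ → ℂ} (hG : Continuous G) :
    ContinuousOn (fun p : ℂ × ℂ × ℝ × ℝ => TG G p.1 p.2.1 p.2.2.1 p.2.2.2) {p | p.1 ≠ 0} := by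
  have c0 : ContinuousOn (fun p : ℂ × ℂ × ℝ × ℝ => e0 p.2.2.1 p.2.2.2) {p | p.1 ≠ 0} := by
    unfold e0
    fun_prop
  have c1 : ContinuousOn (fun p : ℂ × ℂ × ℝ × ℝ => p.1) {p | p.1 ≠ 0} := by fun_prop
  have c2 : ContinuousOn (fun p : ℂ × ℂ × ℝ × ℝ => p.2.1) {p | p.1 ≠ 0} := by fun_prop
  have c4 : ContinuousOn (fun p : ℂ × ℂ × ℝ × ℝ => mX p.1 p.2.1 p.2.2.1 p.2.2.2)
      {p | p.1 ≠ 0} := by
    unfold mX
    refine ((continuousOn_const.add c0).mul ?_).sub continuousOn_const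
    exact ((continuousOn_const.mul c1).sub continuousOn_const).add (c2.div c1 fun p hp => hp)
  unfold TG
  exact ((hG.comp_continuousOn c4).sub c0).norm.pow 2

/-- the bound for one target from a certificate -/
theorem K_one3_b {P : (ℂ → ℂ) → ℝ → ℝ → Prop}
    (hP : ∀ (β : ℂ → ℂ) (R a : ℝ), ExtR β R → 0 < a → a < 1 → Real.log (tau a) + 1 ≤ -1 →
      P (Xf β a) (Real.log (tau a) + 1) (-1) ∧ P (mir (Xf β a)) (Real.log (tau a) + 1) (-1))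
    {k₂ lam D κ L : ℝ} (hlam : 0 ≤ lam) (hk₂ : lam ≤ k₂) (hκ : k₂ < 2 * κ)
    {G : ℂ → ℂ} (hG : GLip G L) (hGc : ∀ m, G (conj m) = conj (G m))
    {Nl : ℂ → ℂ → ℝ → ℝ} {Kl : ℂ → ℂ → ℝ} (hN : IsNull P Nl Kl)
    (hp : ∀ (X : ℂ → ℂ) (x₁ x₂ : ℝ), x₁ ≤ x₂ → NiceH X x₁ x₂ → P X x₁ x₂ →
      ∃ ε : ℝ → ℝ, Continuous ε ∧ (∀ ξ, 0 ≤ ε ξ) ∧ ∫ ξ in x₁..x₂, ε ξ ≤ D ∧
        ∀ ξ ∈ Icc x₁ x₂, ∀ η ∈ Icc (0:ℝ) (π / 2),
          TG G (X (pt ξ η)) (deriv X (pt ξ η)) (Real.sin η) (Real.cos η) ≤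
            k₂ * (1 - (X (pt ξ η)).re) + lam * (‖X (pt ξ η)‖ ^ 2 - (X (pt ξ η)).re) +
              Nl (X (pt ξ η)) (deriv X (pt ξ η)) η + ε ξ)
    {Ec Ex Ey W Wx Wy : ℂ → ℝ} (hW : C1f W Wx Wy) (hE : C1f Ec Ex Ey)
    (hK : ∀ X Y : ℂ, X ≠ 0 → Kl X Y + Kl (conj X) (conj Y) =
      - Ec X + (Wx X * Y.re + Wy X * Y.im))
    (hE0 : ∀ X : ℂ, ‖X‖ ≤ 1 → 0 ≤ Ec X) :
    ∃ C a₀ : ℝ, a₀ < 1 ∧ ∀ (β : ℂ → ℂ) (R a : ℝ), ExtR β R → a₀ < a → a < 1 →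
      Kf (wf G β) 1 (-1) (Real.log a) ≤ κ * Real.log (‖N β a‖ / (1 - a ^ 2)) + C := by
  have hGcont : Continuous G := Pool.Agent.Helper44.EK.GLip.continuous hG
  refine K_one3 (lam := lam) (k₂ := k₂) hG (adm := AdmB P) (admB_Xf hP)
    (fun δ hδ => Pool.Agent.Helper79.EK3.centre_line hδ) ?_ hlam hk₂ hκ
  obtain ⟨C, hC⟩ := strip3_b (T := TG G) hlam hk₂ (fun _ _ _ _ => sq_nonneg _) (TG_cont hGcont)
    (TG_mirror hGc) hN hp hW hE hK hE0 (r := 9) (D' := 8) (by norm_num)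
  refine ⟨C, fun X x₁ x₂ l hl hx hX hA => ?_⟩
  obtain ⟨p1, p2, δ, cδ, δ0, δ9, hδ, hI⟩ := hA
  exact hC X δ x₁ x₂ l hl hx hX p1 p2 cδ δ0 δ9 hδ hI

end Pool.Agent.Helper69.EK3
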