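import Pool.Agent.Helper69.EK3.Bieb
import Pool.Agent.Helper69.EK3.NullP
import Pool.Agent.Helper69.EK3.Plug
set_option autoImplicit false
open Complex MeasureTheory Metric Set
open scoped Real ComplexConjugate

/-!
# Project EK3: the class of functions `X` with the bounds of Koebe and Bieberbach in the strip,
and the theorem for one target from a certificate with multipliers
-/

namespace Pool.Agent.Helper69.EK3

open Pool.Agent.Helper39.Area Pool.Agent.Helper52.EK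

/-- the expression `(1+e₀)(σ 2X - 1 + X'/X) + 2`, `σ = ±1` -/
noncomputable def dA (σ : ℝ) (X Y : ℂ) (s c : ℝ) : ℂ :=
  (1 + e0 s c) * ((σ : ℂ) * (2 * X) - 1 + Y / X) + 2

/-- the bounds of Koebe and Bieberbach with an integrable error -/
def DiscP (X : ℂ → ℂ) (x₁ x₂ : ℝ) : Prop :=
  ∃ δ : ℝ → ℝ, Continuous δ ∧ (∀ ξ, 0 ≤ δ ξ) ∧ (∀ ξ ∈ Icc x₁ x₂, δ ξ ≤ 8) ∧
    (∫ ξ in x₁..x₂, δ ξ ≤ 8) ∧ ∀ ξ ∈ Icc x₁ x₂, ∀ η ∈ Icc (0:ℝ) (π / 2),
      Real.sin η * ‖X (pt ξ η)‖ ≤ 1 + δ ξ ∧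
      ‖dA 1 (X (pt ξ η)) (deriv X (pt ξ η)) (Real.sin η) (Real.cos η)‖ ≤ 4 * (1 + δ ξ) ∧
      ‖dA (-1) (X (pt ξ η)) (deriv X (pt ξ η)) (Real.sin η) (Real.cos η)‖ ≤ 4 * (1 + δ ξ)

theorem norm_one_add_e0 {η : ℝ} (hs : 0 ≤ Real.sin η) :
    ‖1 + e0 (Real.sin η) (Real.cos η)‖ = 2 * Real.sin η := by
  have e1 : 1 + e0 (Real.sin η) (Real.cos η) =
      (2 * Real.sin η : ℝ) * ((Real.sin η : ℂ) + (Real.cos η : ℂ) * I) := by
    unfold e0
    push_cast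
    have h5 : Complex.cos η ^ 2 + Complex.sin η ^ 2 = 1 := Complex.cos_sq_add_sin_sq _
    linear_combination -h5 - Complex.sin η ^ 2 * I_sq
  have e2 : ‖(Real.sin η : ℂ) + (Real.cos η : ℂ) * I‖ = 1 := by
    have e3 : ‖(Real.sin η : ℂ) + (Real.cos η : ℂ) * I‖ ^ 2 = 1 := by
      rw [← Complex.normSq_eq_norm_sq, Complex.normSq_apply]
      simp only [add_re, add_im, mul_re, mul_im, ofReal_re, ofReal_im, I_re, I_im, mul_zero,
        mul_one, sub_zero, add_zero, zero_add]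
      nlinarith [Real.sin_sq_add_cos_sq η]
    have e4 := norm_nonneg ((Real.sin η : ℂ) + (Real.cos η : ℂ) * I)
    nlinarith
  rw [e1, norm_mul, e2, mul_one, Complex.norm_real, Real.norm_of_nonneg (by positivity)]

/-- the bound of `q = X'/X` in the class -/
theorem sin_q_le {X Y : ℂ} {η d : ℝ} (hs : 0 ≤ Real.sin η) (hd : d ≤ 8)
    (h1 : Real.sin η * ‖X‖ ≤ 1 + d)
    (h2 : ‖dA 1 X Y (Real.sin η) (Real.cos η)‖ ≤ 4 * (1 + d)) :
    Real.sin η * ‖Y / X‖ ≤ 38 := by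
  have hn := norm_one_add_e0 hs
  have hs1 : Real.sin η ≤ 1 := Real.sin_le_one η
  set E := 1 + e0 (Real.sin η) (Real.cos η) with hE
  have e : E * (Y / X) = dA 1 X Y (Real.sin η) (Real.cos η) - 2 - E * (2 * X) + E := by
    unfold dA
    rw [← hE]
    push_cast
    ring
  have h3 : ‖E * (Y / X)‖ ≤ 4 * (1 + d) + 2 + 2 * Real.sin η * (2 * ‖X‖) + 2 * Real.sin η := by
    rw [e]
    have a1 := norm_add_le (dA 1 X Y (Real.sin η) (Real.cos η) - 2 - E * (2 * X)) E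
    have a2 := norm_sub_le (dA 1 X Y (Real.sin η) (Real.cos η) - 2) (E * (2 * X))
    have a3 := norm_sub_le (dA 1 X Y (Real.sin η) (Real.cos η)) 2
    have a4 : ‖(2:ℂ)‖ = 2 := by simp
    rw [norm_mul E, norm_mul (2:ℂ), a4, hn] at a2
    rw [a4] at a3
    rw [hn] at a1
    linarith
  rw [norm_mul, hn] at h3
  nlinarith

theorem DiscP.q_le (X : ℂ → ℂ) (x₁ x₂ : ℝ) (_hx : x₁ ≤ x₂) (_hX : NiceH X x₁ x₂)
    (h : DiscP X x₁ x₂) : ∀ ξ ∈ Icc x₁ x₂, ∀ η ∈ Icc (0:ℝ) (π / 2),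
      Real.sin η * ‖deriv X (pt ξ η) / X (pt ξ η)‖ ≤ 38 := by
  obtain ⟨δ, _, _, h3, _, h5⟩ := h
  intro ξ hξ η hη
  have hs : 0 ≤ Real.sin η := Real.sin_nonneg_of_nonneg_of_le_pi hη.1
    (hη.2.trans (by linarith [Real.pi_pos]))
  obtain ⟨k1, k2, _⟩ := h5 ξ hξ η hη
  exact sin_q_le hs (h3 ξ hξ) k1 k2

theorem DiscP.X_le (X : ℂ → ℂ) (x₁ x₂ : ℝ) (_hx : x₁ ≤ x₂) (_hX : NiceH X x₁ x₂)
    (h : DiscP X x₁ x₂) : ∀ ξ ∈ Icc x₁ x₂, ∀ η ∈ Icc (0:ℝ) (π / 2),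
      Real.sin η * ‖X (pt ξ η)‖ ≤ 9 := by
  obtain ⟨δ, _, _, h3, _, h5⟩ := h
  intro ξ hξ η hη
  obtain ⟨k1, _, _⟩ := h5 ξ hξ η hη
  linarith [h3 ξ hξ]

/-- the bounds for `Xf`, on the whole strip -/
theorem disc_Xf {β : ℂ → ℂ} {R a : ℝ} (h : ExtR β R) (ha : 0 < a) (ha1 : a < 1) {ξ η : ℝ}
    (h1 : Real.log (tau a) + 1 ≤ ξ) (h2 : ξ ≤ -1) (h3 : 0 ≤ η) (h4 : η ≤ π) :
    Real.sin η * ‖Xf β a (pt ξ η)‖ ≤
      1 + (4 * Real.exp ξ + 4 * Real.exp (Real.log (tau a) - ξ)) ∧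
    ‖dA 1 (Xf β a (pt ξ η)) (deriv (Xf β a) (pt ξ η)) (Real.sin η) (Real.cos η)‖ ≤
      4 * (1 + (4 * Real.exp ξ + 4 * Real.exp (Real.log (tau a) - ξ))) ∧
    ‖dA (-1) (Xf β a (pt ξ η)) (deriv (Xf β a) (pt ξ η)) (Real.sin η) (Real.cos η)‖ ≤
      4 * (1 + (4 * Real.exp ξ + 4 * Real.exp (Real.log (tau a) - ξ))) := by
  have hy0 := Real.exp_pos ξ
  have hq0 := Real.exp_pos (Real.log (tau a) - ξ)
  rcases eq_or_lt_of_le h3 with h5 | h5
  · subst h5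
    have e : dA 1 (Xf β a (pt ξ 0)) (deriv (Xf β a) (pt ξ 0)) (Real.sin 0) (Real.cos 0) = 2 := by
      simp [dA, e0]
    have e' : dA (-1) (Xf β a (pt ξ 0)) (deriv (Xf β a) (pt ξ 0)) (Real.sin 0) (Real.cos 0) =
        2 := by
      simp [dA, e0]
    have e4 : ‖(2:ℂ)‖ = 2 := by simp
    rw [e, e', e4, Real.sin_zero, zero_mul]
    refine ⟨by linarith, by linarith, by linarith⟩
  rcases eq_or_lt_of_le h4 with h6 | h6
  · subst h6
    have e : dA 1 (Xf β a (pt ξ π)) (deriv (Xf β a) (pt ξ π)) (Real.sin π) (Real.cos π) = 2 := by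
      simp [dA, e0]
    have e' : dA (-1) (Xf β a (pt ξ π)) (deriv (Xf β a) (pt ξ π)) (Real.sin π) (Real.cos π) =
        2 := by
      simp [dA, e0]
    have e4 : ‖(2:ℂ)‖ = 2 := by simp
    rw [e, e', e4, Real.sin_pi, zero_mul]
    refine ⟨by linarith, by linarith, by linarith⟩
  have hτ : 0 < tau a := by
    unfold tau
    have : 0 < 1 - a := by linarith
    positivity
  have hhalf : Real.exp (-1) ≤ 1 / 2 := by
    have h9 : Real.exp (-1) < 0.3678794412 := Real.exp_neg_one_lt_d9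
    linarith
  have hy : Real.exp ξ ≤ 1 / 2 := (Real.exp_le_exp.mpr h2).trans hhalf
  have hq : Real.exp (Real.log (tau a) - ξ) ≤ 1 / 2 :=
    (Real.exp_le_exp.mpr (by linarith)).trans hhalf
  have hτe : tau a = Real.exp ξ * Real.exp (Real.log (tau a) - ξ) := by
    rw [← Real.exp_add, add_sub_cancel, Real.exp_log hτ]
  obtain ⟨δ, hδ⟩ : ∃ δ, δ = 4 * Real.exp ξ + 4 * Real.exp (Real.log (tau a) - ξ) := ⟨_, rfl⟩
  have hδ0 : 0 < δ := by rw [hδ]; positivity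
  have hr : 0 < (1 + δ)⁻¹ := by positivity
  have hk := bieb_strip h ha ha1 (ξ := ξ) (η := η) (by linarith) (by linarith) h5 h6 hr
    (by
      rw [inv_mul_le_iff₀ (by linarith), hδ]
      nlinarith)
    (by
      rw [inv_mul_le_iff₀ (by linarith)]
      have e1 : Real.exp ξ + tau a = Real.exp ξ * (1 + Real.exp (Real.log (tau a) - ξ)) := by
        nth_rewrite 1 [hτe]
        ring
      have e2 : Real.exp ξ - tau a = Real.exp ξ * (1 - Real.exp (Real.log (tau a) - ξ)) := by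
        nth_rewrite 1 [hτe]
        ring
      rw [e1, e2]
      have e3 : 1 + Real.exp (Real.log (tau a) - ξ) ≤
          (1 + δ) * (1 - Real.exp (Real.log (tau a) - ξ)) := by
        rw [hδ]
        nlinarith
      calc Real.exp ξ * (1 + Real.exp (Real.log (tau a) - ξ)) ≤
            Real.exp ξ * ((1 + δ) * (1 - Real.exp (Real.log (tau a) - ξ))) :=
            mul_le_mul_of_nonneg_left e3 hy0.le
        _ = (1 + δ) * (Real.exp ξ * (1 - Real.exp (Real.log (tau a) - ξ))) := by ring)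
    rfl rfl
  obtain ⟨k1, k2, k3⟩ := hk
  rw [← hδ]
  have hp : 0 < 1 + δ := by linarith
  refine ⟨?_, ?_, ?_⟩
  · rwa [← div_eq_mul_inv, div_le_iff₀ hp, one_mul] at k1
  · rw [← div_eq_mul_inv, div_le_iff₀ hp] at k2
    have e : dA 1 (Xf β a (pt ξ η)) (deriv (Xf β a) (pt ξ η)) (Real.sin η) (Real.cos η) =
        (1 + e0 (Real.sin η) (Real.cos η)) * (2 * Xf β a (pt ξ η) - 1 +
          deriv (Xf β a) (pt ξ η) / Xf β a (pt ξ η)) + 2 := by
      unfold dA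
      push_cast
      ring
    rw [e]
    exact k2
  · rw [← div_eq_mul_inv, div_le_iff₀ hp] at k3
    have e : dA (-1) (Xf β a (pt ξ η)) (deriv (Xf β a) (pt ξ η)) (Real.sin η) (Real.cos η) =
        (1 + e0 (Real.sin η) (Real.cos η)) * (-2 * Xf β a (pt ξ η) - 1 +
          deriv (Xf β a) (pt ξ η) / Xf β a (pt ξ η)) + 2 := by
      unfold dA
      push_cast
      ring
    rw [e]
    exact k3

theorem dA_mir (σ : ℝ) (X Y : ℂ) (s c : ℝ) :
    dA σ (conj X) (conj Y) s c = conj (dA σ X Y s (-c)) := by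
  unfold dA
  rw [e0_neg]
  simp only [map_add, map_sub, map_mul, map_div₀, map_one, map_ofNat, Complex.conj_conj,
    conj_ofReal]

/-- `Xf` and its mirror image are in the class -/
theorem discP_Xf (β : ℂ → ℂ) (R a : ℝ) (h : ExtR β R) (ha : 0 < a) (ha1 : a < 1)
    (_hx : Real.log (tau a) + 1 ≤ -1) : DiscP (Xf β a) (Real.log (tau a) + 1) (-1) ∧
      DiscP (mir (Xf β a)) (Real.log (tau a) + 1) (-1) := by
  have hc : Continuous (fun ξ : ℝ => 4 * Real.exp ξ + 4 * Real.exp (Real.log (tau a) - ξ)) := by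
    fun_prop
  have h0 : ∀ ξ : ℝ, 0 ≤ 4 * Real.exp ξ + 4 * Real.exp (Real.log (tau a) - ξ) := fun ξ => by
    positivity
  have h8 : ∀ ξ ∈ Icc (Real.log (tau a) + 1) (-1),
      4 * Real.exp ξ + 4 * Real.exp (Real.log (tau a) - ξ) ≤ 8 := by
    intro ξ hξ
    have h1 : Real.exp ξ ≤ 1 := Real.exp_le_one_iff.2 (by linarith [hξ.2])
    have h2 : Real.exp (Real.log (tau a) - ξ) ≤ 1 := Real.exp_le_one_iff.2 (by linarith [hξ.1])
    linarith
  have hI : ∫ ξ in (Real.log (tau a) + 1)..(-1),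
      (4 * Real.exp ξ + 4 * Real.exp (Real.log (tau a) - ξ)) ≤ 8 := by
    have i1 : IntervalIntegrable (fun ξ : ℝ => 4 * Real.exp ξ) volume
        (Real.log (tau a) + 1) (-1) :=
      (by fun_prop : Continuous fun ξ : ℝ => 4 * Real.exp ξ).intervalIntegrable _ _
    have i2 : IntervalIntegrable (fun ξ : ℝ => 4 * Real.exp (Real.log (tau a) - ξ)) volume
        (Real.log (tau a) + 1) (-1) :=
      (by fun_prop : Continuous fun ξ : ℝ => 4 * Real.exp (Real.log (tau a) - ξ)).intervalIntegrable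
        _ _
    rw [intervalIntegral.integral_add i1 i2, intervalIntegral.integral_const_mul,
      intervalIntegral.integral_const_mul,
      intervalIntegral.integral_comp_sub_left (fun u => Real.exp u) (Real.log (tau a)),
      exp_int, exp_int]
    have e1 : Real.exp (-1) ≤ 1 := Real.exp_le_one_iff.2 (by norm_num)
    have e2 := Real.exp_pos (Real.log (tau a) + 1)
    have e3 : Real.exp (Real.log (tau a) - (Real.log (tau a) + 1)) ≤ 1 :=
      Real.exp_le_one_iff.2 (by linarith)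
    have e4 := Real.exp_pos (Real.log (tau a) - -1)
    linarith
  have hpi := Real.pi_pos
  refine ⟨⟨_, hc, h0, h8, hI, fun ξ hξ η hη => ?_⟩, ⟨_, hc, h0, h8, hI, fun ξ hξ η hη => ?_⟩⟩
  · exact disc_Xf h ha ha1 hξ.1 hξ.2 hη.1 (by linarith [hη.2])
  · have hN : NiceX (Xf β a) (Real.log (tau a) + 1) (-1) :=
      Pool.Agent.Helper67.EK.E1c h ha ha1 (by linarith) (by norm_num)
    have hd : DifferentiableAt ℂ (Xf β a) (pt ξ (π - η)) := by
      refine (hN.an _ ?_).differentiableAt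
      rw [← conj_pt]
      exact mir_mem (pt_mem_RectH hξ hη)
    have hk := disc_Xf h ha ha1 hξ.1 hξ.2 (η := π - η) (by linarith [hη.2]) (by linarith [hη.1])
    rw [mir_pt, mir_deriv_pt hd, dA_mir, dA_mir, norm_conj, norm_conj, norm_conj]
    rw [Real.sin_pi_sub, Real.cos_pi_sub] at hk
    exact hk

/-- **the bound for one target from a certificate with multipliers for the bounds of Koebe and
Bieberbach** -/
theorem K_one3_d {k₂ lam κ L M : ℝ} (hM : 0 ≤ M) (hlam : 0 ≤ lam) (hk₂ : lam ≤ k₂)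
    (hκ : k₂ < 2 * κ) {G : ℂ → ℂ} (hG : GLip G L) (hGc : ∀ m, G (conj m) = conj (G m))
    {Nl : ℂ → ℂ → ℝ → ℝ} {Kl : ℂ → ℂ → ℝ} (hN : IsNull DiscP Nl Kl)
    (hp : ∀ X Y : ℂ, X ≠ 0 → ∀ η ∈ Icc (0:ℝ) (π / 2), ∃ l₀ l₁ l₂ : ℝ,
      0 ≤ l₀ ∧ l₀ ≤ M ∧ 0 ≤ l₁ ∧ l₁ ≤ M ∧ 0 ≤ l₂ ∧ l₂ ≤ M ∧
      TG G X Y (Real.sin η) (Real.cos η) + l₀ * (1 - (Real.sin η * ‖X‖) ^ 2) +
        l₁ * (16 - ‖dA 1 X Y (Real.sin η) (Real.cos η)‖ ^ 2) +
        l₂ * (16 - ‖dA (-1) X Y (Real.sin η) (Real.cos η)‖ ^ 2) ≤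
      k₂ * (1 - X.re) + lam * (‖X‖ ^ 2 - X.re) + Nl X Y η)
    {Ec Ex Ey W Wx Wy : ℂ → ℝ} (hW : C1f W Wx Wy) (hE : C1f Ec Ex Ey)
    (hK : ∀ X Y : ℂ, X ≠ 0 → Kl X Y + Kl (conj X) (conj Y) =
      - Ec X + (Wx X * Y.re + Wy X * Y.im))
    (hE0 : ∀ X : ℂ, ‖X‖ ≤ 1 → 0 ≤ Ec X) :
    ∃ C a₀ : ℝ, a₀ < 1 ∧ ∀ (β : ℂ → ℂ) (R a : ℝ), ExtR β R → a₀ < a → a < 1 →
      Kf (wf G β) 1 (-1) (Real.log a) ≤ κ * Real.log (‖N β a‖ / (1 - a ^ 2)) + C := by
  refine K_one3_b (P := DiscP) discP_Xf hlam hk₂ hκ hG hGc hN (D := 330 * M * 8) ?_ hW hE hK hE0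
  intro X x₁ x₂ hx hX hP
  obtain ⟨δ, h1, h2, h3, h4, h5⟩ := hP
  refine ⟨fun ξ => 330 * M * δ ξ, by fun_prop, fun ξ => by have := h2 ξ; positivity, ?_, ?_⟩
  · rw [intervalIntegral.integral_const_mul]
    exact mul_le_mul_of_nonneg_left h4 (by positivity)
  · intro ξ hξ η hη
    have hne := hX.ne _ (pt_mem_RectH hξ hη)
    have hs : 0 ≤ Real.sin η := Real.sin_nonneg_of_nonneg_of_le_pi hη.1
      (hη.2.trans (by linarith [Real.pi_pos]))
    obtain ⟨l₀, l₁, l₂, a1, a2, b1, b2, c1, c2, hl⟩ := hp _ (deriv X (pt ξ η)) hne η hη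
    obtain ⟨k1, k2, k3⟩ := h5 ξ hξ η hη
    have hd0 := h2 ξ
    have hd8 := h3 ξ hξ
    set d := δ ξ with hd
    have s1 : (Real.sin η * ‖X (pt ξ η)‖) ^ 2 ≤ 1 + 10 * d := by
      have := pow_le_pow_left₀ (mul_nonneg hs (norm_nonneg _)) k1 2
      nlinarith
    have s2 : ‖dA 1 (X (pt ξ η)) (deriv X (pt ξ η)) (Real.sin η) (Real.cos η)‖ ^ 2 ≤
        16 + 160 * d := by
      have := pow_le_pow_left₀ (norm_nonneg _) k2 2
      nlinarith
    have s3 : ‖dA (-1) (X (pt ξ η)) (deriv X (pt ξ η)) (Real.sin η) (Real.cos η)‖ ^ 2 ≤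
        16 + 160 * d := by
      have := pow_le_pow_left₀ (norm_nonneg _) k3 2
      nlinarith
    have m1 : l₀ * ((Real.sin η * ‖X (pt ξ η)‖) ^ 2 - 1) ≤ M * (10 * d) :=
      (mul_le_mul_of_nonneg_left (by linarith : _ ≤ 10 * d) a1).trans
        (mul_le_mul_of_nonneg_right a2 (by positivity))
    have m2 : l₁ * (‖dA 1 (X (pt ξ η)) (deriv X (pt ξ η)) (Real.sin η) (Real.cos η)‖ ^ 2 - 16) ≤
        M * (160 * d) :=
      (mul_le_mul_of_nonneg_left (by linarith : _ ≤ 160 * d) b1).trans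
        (mul_le_mul_of_nonneg_right b2 (by positivity))
    have m3 : l₂ * (‖dA (-1) (X (pt ξ η)) (deriv X (pt ξ η)) (Real.sin η) (Real.cos η)‖ ^ 2 - 16) ≤
        M * (160 * d) :=
      (mul_le_mul_of_nonneg_left (by linarith : _ ≤ 160 * d) c1).trans
        (mul_le_mul_of_nonneg_right c2 (by positivity))
    linarith

end Pool.Agent.Helper69.EK3
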