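import Pool.Agent.Helper69.EK3.Fin
import Pool.Agent.Helper69.EK3.Glue2
set_option autoImplicit false
open Complex MeasureTheory Metric Set
open scoped Real ComplexConjugate

/-!
# Project EK3: from the data of a certificate to the integral means, general fields
-/

namespace Pool.Agent.Helper69.EK3

open Pool.Sos71
open Pool.EK71 Pool.Agent.Helper52.EK Pool.Agent.Helper2.EK
open Pool.Agent.Helper71.EK3 (DL xL yL r2L FL G2L e_D e_x e_y e_r2 e_F e_G2)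
open Pool.Agent.Helper71.EKC (Da Da_pos pw2 e_pw sb2 e_sb c1_unique c1_conj)

namespace Dat

/-- one side of the data agrees with real parameters; `l ≤ Ln / Ld` -/
structure SideOk (M : ℤ) (f : Sd) (sg : ℤ) (a b p0 p1 p2 : ℝ) : Prop where
  sg : f.sg = sg
  ma : (f.Ma : ℝ) = M * a
  mb : (f.Mb : ℝ) = M * b
  maa : (f.Maa : ℝ) = M * a ^ 2
  mab : (f.Mab : ℝ) = M * (a * b)
  mbb : (f.Mbb : ℝ) = M * b ^ 2
  r : 0 < f.r
  r0 : (f.r0 : ℝ) = f.r * p0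
  r1 : (f.r1 : ℝ) = f.r * p1
  r2 : (f.r2 : ℝ) = f.r * p2

/-- conditions on the data -/
structure Ok2 (c : Dat) (ka kb p0 p1 p2 la lb q0 q1 q2 : ℝ) (Ln Ld Ln' Ld' : ℤ) : Prop where
  wf : c.wf = true
  M0 : 0 < c.M
  lam0 : 0 ≤ c.lam
  c10 : 0 ≤ c.c1
  fi : SideOk c.M c.fi 1 ka kb p0 p1 p2
  fo : SideOk c.M c.fo (-1) la lb q0 q1 q2
  Ld0 : 0 < Ld
  Ld0' : 0 < Ld'
  inn : InOk ka kb p0 p1 p2 (Ln / Ld)
  out : OutOk la lb q0 q1 q2 (Ln' / Ld')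

variable {c : Dat} {ka kb p0 p1 p2 la lb q0 q1 q2 : ℝ} {Ln Ld Ln' Ld' : ℤ}

theorem SideOk.con {M : ℤ} {f : Sd} {sg : ℤ} (h : SideOk M f sg ka kb p0 p1 p2) {X Y : ℂ} {η l : ℝ}
    (hl : l * rF p0 p1 p2 (mX X Y (Real.sin η) (Real.cos η)) =
      sg * (1 - ‖mX X Y (Real.sin η) (Real.cos η)‖ ^ 2)) (hs : (sg : ℝ) ^ 2 = 1) :
    (eCon f).re (px l η X Y) = 0 := by
  rw [px_Con, h.r0, h.r1, h.r2, h.sg]
  unfold rF at hl
  linear_combination (f.r * (sg : ℝ)) * hl + (f.r * (1 -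
    ‖mX X Y (Real.sin η) (Real.cos η)‖ ^ 2)) * hs

/-- the pointwise inequality -/
theorem Ok2.point (o : c.Ok2 ka kb p0 p1 p2 la lb q0 q1 q2 Ln Ld Ln' Ld')
    (hIn : ∀ x : Pnt, 0 ≤ x.b → x.b ≤ x.c → 0 ≤ x.a → (Ld : ℝ) * x.a ≤ Ln → 0 ≤ c.tIn.re x)
    (hOut : ∀ x : Pnt, 0 ≤ x.b → x.b ≤ x.c → 0 ≤ x.a → (Ld' : ℝ) * x.a ≤ Ln' → 0 ≤ c.tOut.re x)
    {X Y : ℂ} (hX : X ≠ 0) {η : ℝ} (hη : η ∈ Icc (0:ℝ) (π / 2)) :
    c.M * TG (Gq ka kb p0 p1 p2 la lb q0 q1 q2) X Y (Real.sin η) (Real.cos η) ≤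
      c.NT X Y η + (c.lam * ‖X - 1‖ ^ 2 + c.a2 * ((X.re - 1) ^ 2 - X.im ^ 2)) := by
  obtain ⟨b1, b2⟩ := half_bd hη
  have w := wf_iff c o.wf
  have hM : (0:ℝ) < c.M := by exact_mod_cast o.M0
  have hD : 0 < Da c.a X.re X.im ^ c.K := pow_pos (Da_pos _ _ _) _
  unfold TG Gq
  set m := mX X Y (Real.sin η) (Real.cos η) with hm
  by_cases h1 : ‖m‖ ≤ 1
  · rw [if_pos h1]
    obtain ⟨d1, d2, d3⟩ := o.inn.l_bd h1
    obtain ⟨l, hl⟩ : ∃ l : ℝ, l = (1 - ‖m‖ ^ 2) / rF p0 p1 p2 m := ⟨_, rfl⟩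
    have hL : (0:ℝ) < Ld := by exact_mod_cast o.Ld0
    rw [← hl] at d2 d3
    have hc : (eCon c.fi).re (px l η X Y) = 0 := by
      refine o.fi.con ?_ (by norm_num)
      rw [← hm, hl, div_mul_cancel₀ _ d1.ne']
      push_cast
      ring
    have h5 := hIn (px l η X Y) b1 b2 d2
      (by
        show (Ld : ℝ) * l ≤ Ln
        rw [le_div_iff₀ hL] at d3
        linarith)
    have h6 : c.tIn.re (px l η X Y) = _ := tSide_re w c.fi (Y := Y) hX l η hc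
    rw [h6] at h5
    have h7 := nonneg_of_mul_nonneg_right h5 hD
    rw [px_TT l η X Y o.fi.ma o.fi.mb o.fi.maa o.fi.mab o.fi.mbb (by rw [o.fi.sg]; norm_num),
      ← hm, o.fi.sg] at h7
    unfold Fq
    rw [← hl]
    push_cast at h7
    rw [one_mul] at h7
    linarith
  · rw [if_neg h1]
    have h1' : 1 < ‖m‖ := not_le.1 h1
    obtain ⟨d1, d2, d3⟩ := o.out.l_bd h1'.le
    obtain ⟨l, hl⟩ : ∃ l : ℝ, l = (‖m‖ ^ 2 - 1) / rF q0 q1 q2 m := ⟨_, rfl⟩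
    have hL : (0:ℝ) < Ld' := by exact_mod_cast o.Ld0'
    rw [← hl] at d2 d3
    have hc : (eCon c.fo).re (px l η X Y) = 0 := by
      refine o.fo.con ?_ (by norm_num)
      rw [← hm, hl, div_mul_cancel₀ _ d1.ne']
      push_cast
      ring
    have h5 := hOut (px l η X Y) b1 b2 d2
      (by
        show (Ld' : ℝ) * l ≤ Ln'
        rw [le_div_iff₀ hL] at d3
        linarith)
    have h6 : c.tOut.re (px l η X Y) = _ := tSide_re w c.fo (Y := Y) hX l η hc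
    rw [h6] at h5
    have h7 := nonneg_of_mul_nonneg_right h5 hD
    rw [px_TT l η X Y o.fo.ma o.fo.mb o.fo.maa o.fo.mab o.fo.mbb (by rw [o.fo.sg]; norm_num),
      ← hm, o.fo.sg] at h7
    have e : (1 - ‖m‖ ^ 2) / rF q0 q1 q2 m = ((-1 : ℤ) : ℝ) * l := by
      rw [hl]
      push_cast
      ring
    unfold Fq
    rw [e]
    linarith

/-- **the bound for one target from the data** -/
theorem Ok2.K_one (o : c.Ok2 ka kb p0 p1 p2 la lb q0 q1 q2 Ln Ld Ln' Ld')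
    (hIn : ∀ x : Pnt, 0 ≤ x.b → x.b ≤ x.c → 0 ≤ x.a → (Ld : ℝ) * x.a ≤ Ln → 0 ≤ c.tIn.re x)
    (hOut : ∀ x : Pnt, 0 ≤ x.b → x.b ≤ x.c → 0 ≤ x.a → (Ld' : ℝ) * x.a ≤ Ln' → 0 ≤ c.tOut.re x)
    (hCen : ∀ x : Pnt, 0 ≤ -2 * x.f - x.f ^ 2 - x.g ^ 2 → 0 ≤ (Ex.bp c.cen).re x)
    {κ : ℝ} (hκ : (c.lam : ℝ) + c.c1 + (c.c1 + 2 * |(c.a2 : ℝ)|) / 10 ^ 7 < 2 * κ * c.M) :
    ∃ C a₀ : ℝ, a₀ < 1 ∧ ∀ (β : ℂ → ℂ) (R a : ℝ), ExtR β R → a₀ < a → a < 1 →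
      Kf (Pool.Agent.Helper52.EK.wf (Gq ka kb p0 p1 p2 la lb q0 q1 q2) β) 1 (-1) (Real.log a) ≤ κ * Real.log (‖N β a‖ / (1 - a ^ 2)) + C := by
  have w := wf_iff c o.wf
  obtain ⟨CG, hGl⟩ := Gq_glip o.inn o.out
  have hM : (0:ℝ) < c.M := by exact_mod_cast o.M0
  have hlam : (0:ℝ) ≤ c.lam := by exact_mod_cast o.lam0
  have hc1 : (0:ℝ) ≤ c.c1 := by exact_mod_cast o.c10
  obtain ⟨p, hp⟩ : ∃ p : ℝ, p = 355 / 113 := ⟨_, rfl⟩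
  obtain ⟨e1, e2⟩ := pi_err hp
  have hpi := Real.pi_pos
  obtain ⟨ε, hε⟩ : ∃ ε : ℝ, ε = (c.c1 + 2 * |(c.a2 : ℝ)|) * ((p - π) / π) := ⟨_, rfl⟩
  have hA : 0 ≤ (c.c1 : ℝ) + 2 * |(c.a2 : ℝ)| := by positivity
  have hε0 : 0 ≤ ε := by
    rw [hε]
    exact mul_nonneg hA (div_nonneg e1 hpi.le)
  have hε1 : ε ≤ (c.c1 + 2 * |(c.a2 : ℝ)|) / 10 ^ 7 := by
    rw [hε, div_eq_mul_one_div (_ + _ : ℝ) (10 ^ 7 : ℝ)]
    exact mul_le_mul_of_nonneg_left e2 hA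
  have hεπ : ε * π = (c.c1 + 2 * |(c.a2 : ℝ)|) * (p - π) := by
    rw [hε]
    field_simp
  obtain ⟨k, hk⟩ : ∃ k : ℝ, k = c.c1 + ε := ⟨_, rfl⟩
  -- the null Lagrangian
  have n1 := (isNull_har (β := fun _ => (1:ℝ)) continuous_const 2 le_rfl).const_mul (c.a2 : ℝ)
  have n2 := (isNull_har (β := fun _ => (1:ℝ)) continuous_const 1 (by norm_num)).const_mul k
  have hN := (((isNull_NT w).add n1).add n2).const_mul (1 / (c.M : ℝ))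
  have hre2 : ∀ X : ℂ, ((X - 1) ^ 2).re = (X.re - 1) ^ 2 - X.im ^ 2 := by
    intro X
    rw [pow_two (X - 1), mul_re]
    simp
    ring
  have hre1 : ∀ X : ℂ, ((X - 1) ^ 1).re = X.re - 1 := by
    intro X
    simp
  have hint : ∫ _ in (0:ℝ)..(π / 2), (1:ℝ) = π / 2 := by simp
  obtain ⟨Ecx, Ecy, hEc⟩ := Ecp_c1 (c := c) k π
  refine K_one3_b (P := DiscP) discP_Xf (lam := c.lam / c.M) (k₂ := (c.lam + k) / c.M)
    (D := 0) (div_nonneg hlam hM.le) ?_ ?_ hGl (Gq_conj _ _ _ _ _ _ _ _ _ _) hN ?_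
    (c1_const 0) (c1_mul (c1_const (1 / (c.M : ℝ))) hEc) ?_ ?_
  · rw [div_le_div_iff_of_pos_right hM, hk]
    linarith
  · rw [div_lt_iff₀ hM, hk]
    linarith
  · intro X x₁ x₂ _ hX _
    refine ⟨fun _ => 0, continuous_const, fun _ => le_rfl, by simp, fun ξ hξ η hη => ?_⟩
    have hne := hX.ne _ (pt_mem_RectH hξ hη)
    have h1 := o.point hIn hOut hne (Y := deriv X (pt ξ η)) hη
    generalize X (pt ξ η) = Z at *
    generalize deriv X (pt ξ η) = Y at *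
    have e0 : ‖Z - 1‖ ^ 2 = ‖Z‖ ^ 2 - 2 * Z.re + 1 := by
      rw [nq_sq, nq_sq]
      simp
      ring
    rw [e0] at h1
    rw [hre2, hre1]
    have h2 : TG (Gq ka kb p0 p1 p2 la lb q0 q1 q2) Z Y (Real.sin η) (Real.cos η) ≤ (c.NT Z Y η + (c.lam *
        (‖Z‖ ^ 2 - 2 * Z.re + 1) + c.a2 * ((Z.re - 1) ^ 2 - Z.im ^ 2))) / c.M := by
      rw [le_div_iff₀ hM]
      linarith
    refine h2.trans (le_of_eq ?_)
    field_simp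
    ring
  · intro X Y hX
    have h1 := KT_conj w X Y k
    rw [hint, hre2, hre1, hre2, hre1]
    simp only [zero_mul, add_zero]
    linear_combination (1 / (c.M : ℝ)) * h1
  · intro X hX
    refine mul_nonneg (by positivity) ?_
    have h1 : 0 ≤ (Ex.bp c.cen).re ⟨0, 0, 0, 0, 0, X.re - 1, X.im⟩ := by
      apply hCen
      show 0 ≤ -2 * (X.re - 1) - (X.re - 1) ^ 2 - X.im ^ 2
      have h1 : X.re ^ 2 + X.im ^ 2 ≤ 1 := by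
        rw [← nq_sq]
        nlinarith [norm_nonneg X]
      linarith
    have h2 : (Ex.bp c.cen).re ⟨0, 0, 0, 0, 0, X.re - 1, X.im⟩ = ev2 (X.re - 1) X.im c.cen := rfl
    rw [h2, cen_ev w, ← hp] at h1
    have h3 : 0 ≤ c.Ecp c.c1 p X := by
      refine nonneg_of_mul_nonneg_right h1 ?_
      have := pow_pos (Da_pos c.a X.re X.im) c.K
      positivity
    have h4 : c.Ecp k π X - c.Ecp c.c1 p X = (ε * π - c.c1 * (p - π)) * (1 - X.re) +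
        c.a2 * (p - π) * ((X.re - 1) ^ 2 - X.im ^ 2) := by
      unfold Ecp
      rw [hk]
      ring
    rw [hεπ] at h4
    have h5 := disc_im hX
    have h6 : -(|(c.a2 : ℝ)| * (2 * (1 - X.re))) ≤ c.a2 * ((X.re - 1) ^ 2 - X.im ^ 2) := by
      have h7 : |(c.a2 : ℝ) * ((X.re - 1) ^ 2 - X.im ^ 2)| ≤ |(c.a2 : ℝ)| * (2 * (1 - X.re)) := by
        rw [abs_mul]
        exact mul_le_mul_of_nonneg_left h5 (abs_nonneg _)
      exact (abs_le.1 h7).1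
    have h8 := mul_le_mul_of_nonneg_left h6 e1
    linarith

/-- **the integral means from the data** -/
theorem Ok2.moments (o : c.Ok2 ka kb p0 p1 p2 la lb q0 q1 q2 Ln Ld Ln' Ld')
    (hIn : ∀ x : Pnt, 0 ≤ x.b → x.b ≤ x.c → 0 ≤ x.a → (Ld : ℝ) * x.a ≤ Ln → 0 ≤ c.tIn.re x)
    (hOut : ∀ x : Pnt, 0 ≤ x.b → x.b ≤ x.c → 0 ≤ x.a → (Ld' : ℝ) * x.a ≤ Ln' → 0 ≤ c.tOut.re x)
    (hCen : ∀ x : Pnt, 0 ≤ -2 * x.f - x.f ^ 2 - x.g ^ 2 → 0 ≤ (Ex.bp c.cen).re x)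
    {κ : ℝ} (h1 : 1 ≤ κ)
    (hκ : (c.lam : ℝ) + c.c1 + (c.c1 + 2 * |(c.a2 : ℝ)|) / 10 ^ 7 < 2 * κ * c.M) :
    ∀ p : ℝ, κ ≤ p → ∃ C : ℝ, ∀ ψ : ℂ → ℂ, DifferentiableOn ℂ ψ {z : ℂ | 1 < ‖z‖} →
      InjOn ψ {z : ℂ | 1 < ‖z‖} →
      (∃ b : ℂ, Filter.Tendsto (fun z => ψ z - z) (Bornology.cobounded ℂ) (nhds b)) →
      ∀ R : ℝ, 1 < R →
      (2 * π)⁻¹ * (∫ θ in (0:ℝ)..(2 * π), ‖deriv ψ (R * Complex.exp (θ * I))‖ ^ (-p)) ≤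
        C * (R ^ 2 / (R ^ 2 - 1)) ^ (p - 1) := by
  have k1 := o.K_one hIn hOut hCen hκ
  obtain ⟨CG, hGl⟩ := Gq_glip o.inn o.out
  have k2 := Pool.Agent.Helper61.EK.gibbs_of (κ := κ) (G := (Gq ka kb p0 p1 p2 la lb q0 q1 q2))
    Pool.Agent.Helper5.EK.entropy
    (fun hw _ h1 h2 => Pool.Agent.Helper26.EK.Kf_cont hw h1 h2)
    (fun h => Pool.Agent.Helper70.EK.wf_cont hGl h) k1
  exact Pool.Agent.Helper32.EK.final (Pool.Agent.Helper28.EK.moment_Ext h1 k2)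

end Dat

end Pool.Agent.Helper69.EK3
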