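import Pool.Agent.Helper71.Sos.Ex
import Pool.Agent.Helper52.EK.Defs
set_option autoImplicit false
open Complex MeasureTheory Metric Set
open scoped Real ComplexConjugate

/-!
# Project EK3: angular polynomials in `S = sin (η/2)`, `C = cos (η/2)`
-/

namespace Pool.Agent.Helper69.EK3

open Pool.Sos71

/-- a list of `(c, i, j)`: the polynomial `∑ c S^i C^j` -/
abbrev AP := List (ℤ × ℕ × ℕ)

noncomputable def aev (S C : ℝ) : AP → ℝ
  | [] => 0
  | (c, i, j) :: g => (c : ℝ) * (S ^ i * C ^ j) + aev S C g

/-- the value at the angle `η` -/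
noncomputable def af (g : AP) (η : ℝ) : ℝ := aev (Real.sin (η / 2)) (Real.cos (η / 2)) g

/-- twice the derivative -/
def ader : AP → AP
  | [] => []
  | (c, i, j) :: g =>
    (match i with
      | 0 => []
      | i' + 1 => [(Int.mul c (Int.ofNat (i' + 1)), i', j + 1)]) ++
    (match j with
      | 0 => []
      | j' + 1 => [(Int.mul (-c) (Int.ofNat (j' + 1)), i + 1, j')]) ++ ader g

/-- multiplication by `S^a C^b` -/
def ash (a b : ℕ) : AP → AP
  | [] => []
  | (c, i, j) :: g => (c, i + a, j + b) :: ash a b g

/-- `(s² g)' / s`, `s = 2 S C` -/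
def adas : AP → AP
  | [] => []
  | (c, i, j) :: g => (Int.mul c (Int.ofNat (i + 2)), i, j + 2) ::
      (Int.mul (-c) (Int.ofNat (j + 2)), i + 2, j) :: adas g

/-- the sum of the coefficients -/
def asum : AP → ℤ
  | [] => 0
  | (c, _, _) :: g => Int.add c (asum g)

/-- homogeneous of weight `w` -/
def ahom (w : ℕ) : AP → Bool
  | [] => true
  | (_, i, j) :: g => Nat.beq (i + j) w && ahom w g

theorem nbeq {a b : ℕ} (h : a = b) : Nat.beq a b = true := by
  subst h
  induction a with
  | zero => rfl
  | succ n ih => exact ih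

theorem aev_append (S C : ℝ) (g h : AP) : aev S C (g ++ h) = aev S C g + aev S C h := by
  induction g with
  | nil => simp [aev]
  | cons t g ih =>
    obtain ⟨c, i, j⟩ := t
    simp only [List.cons_append, aev, ih]
    ring

theorem aev_ash (S C : ℝ) (a b : ℕ) (g : AP) : aev S C (ash a b g) = S ^ a * C ^ b * aev S C g := by
  induction g with
  | nil => simp [aev, ash]
  | cons t g ih =>
    obtain ⟨c, i, j⟩ := t
    simp only [aev, ash, ih]
    ring

theorem imul_cast' (a b : ℤ) : ((Int.mul a b : ℤ) : ℝ) = a * b := by
  show (((a * b : ℤ)) : ℝ) = _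
  push_cast
  ring

theorem iadd_cast' (a b : ℤ) : ((Int.add a b : ℤ) : ℝ) = a + b := by
  show (((a + b : ℤ)) : ℝ) = _
  push_cast
  ring

theorem ofNat_cast' (a : ℕ) : ((Int.ofNat a : ℤ) : ℝ) = a := by simp

theorem hasDerivAt_mon (i j : ℕ) (η : ℝ) :
    HasDerivAt (fun η : ℝ => Real.sin (η / 2) ^ i * Real.cos (η / 2) ^ j)
      ((i * Real.sin (η / 2) ^ (i - 1) * Real.cos (η / 2) ^ (j + 1) -
        j * Real.sin (η / 2) ^ (i + 1) * Real.cos (η / 2) ^ (j - 1)) / 2) η := by
  have h0 : HasDerivAt (fun η : ℝ => η / 2) (1 / 2) η := (hasDerivAt_id η).div_const 2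
  have h1 := (h0.sin).pow i
  have h2 := (h0.cos).pow j
  refine (h1.mul h2).congr_deriv ?_
  simp only [Pi.pow_apply]
  rw [pow_succ, pow_succ]
  ring

theorem af_hasDerivAt (g : AP) (η : ℝ) : HasDerivAt (af g) (af (ader g) η / 2) η := by
  induction g with
  | nil =>
    have : af [] = fun _ => (0:ℝ) := by
      funext η
      simp [af, aev]
    rw [this]
    have e : af (ader []) η / 2 = 0 := by simp [ader, af, aev]
    rw [e]
    exact hasDerivAt_const _ _
  | cons t g ih =>
    obtain ⟨c, i, j⟩ := t
    have h1 := ((hasDerivAt_mon i j η).const_mul (c : ℝ)).add ih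
    refine h1.congr_deriv ?_
    cases i with
    | zero =>
      cases j with
      | zero => simp [ader, af]
      | succ j =>
        simp only [ader, af, List.nil_append, List.cons_append, aev, imul_cast', ofNat_cast']
        push_cast
        ring
    | succ i =>
      cases j with
      | zero =>
        simp only [ader, af, List.append_nil, List.cons_append, aev, imul_cast',
          ofNat_cast', List.nil_append]
        push_cast
        ring
      | succ j =>
        simp only [ader, af, List.cons_append, aev, imul_cast', ofNat_cast', List.nil_append]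
        push_cast
        ring

theorem af_cont (g : AP) : Continuous (af g) :=
  continuous_iff_continuousAt.2 fun η => (af_hasDerivAt g η).continuousAt

theorem aev_adas (S C : ℝ) (g : AP) :
    2 * aev S C (ader (ash 2 2 g)) = 2 * S * C * aev S C (adas g) := by
  induction g with
  | nil => simp [ader, ash, adas, aev]
  | cons t g ih =>
    obtain ⟨c, i, j⟩ := t
    simp only [ash, ader, adas, List.cons_append, List.nil_append, aev, imul_cast', ofNat_cast']
    rw [mul_add, mul_add, ih]
    push_cast
    simp only [Nat.succ_eq_add_one]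
    ring

theorem aev_sum (S : ℝ) (w : ℕ) (g : AP) (h : ahom w g = true) :
    aev S S g = asum g * S ^ w := by
  induction g with
  | nil => simp [aev, asum]
  | cons t g ih =>
    obtain ⟨c, i, j⟩ := t
    simp only [ahom, Bool.and_eq_true] at h
    have h1 : i + j = w := Nat.eq_of_beq_eq_true h.1
    simp only [aev, asum, ih h.2, iadd_cast']
    rw [← pow_add, h1]
    ring

/-- the value at the centre line -/
theorem af_half {w : ℕ} {g : AP} (h : ahom w g = true) :
    af g (π / 2) = asum g * (Real.sqrt 2 / 2) ^ w := by
  unfold af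
  have e : π / 2 / 2 = π / 4 := by ring
  rw [e, Real.sin_pi_div_four, Real.cos_pi_div_four]
  exact aev_sum _ w g h

theorem af_half_even {w : ℕ} {g : AP} (h : ahom (2 * w) g = true) :
    af g (π / 2) = asum g / 2 ^ w := by
  rw [af_half h, pow_mul]
  have e : (Real.sqrt 2 / 2) ^ 2 = 1 / 2 := by
    rw [div_pow, Real.sq_sqrt (by norm_num)]
    norm_num
  rw [e, one_div, inv_pow]
  rfl

theorem af_half_zero {w : ℕ} {g : AP} (h : ahom w g = true) (h0 : asum g = 0) :
    af g (π / 2) = 0 := by
  rw [af_half h, h0]
  simp

theorem ahom_append (w : ℕ) (g h : AP) : ahom w (g ++ h) = (ahom w g && ahom w h) := by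
  induction g with
  | nil => simp [ahom]
  | cons t g ih =>
    obtain ⟨c, i, j⟩ := t
    simp only [List.cons_append, ahom, ih, Bool.and_assoc]

theorem ahom_ash {w : ℕ} (a b : ℕ) {g : AP} (h : ahom w g = true) :
    ahom (w + a + b) (ash a b g) = true := by
  induction g with
  | nil => rfl
  | cons t g ih =>
    obtain ⟨c, i, j⟩ := t
    simp only [ahom, Bool.and_eq_true] at h
    have h1 : i + j = w := Nat.eq_of_beq_eq_true h.1
    simp only [ash, ahom, Bool.and_eq_true, ih h.2, and_true]
    exact nbeq (by omega)

theorem ahom_ader {w : ℕ} {g : AP} (h : ahom w g = true) : ahom w (ader g) = true := by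
  induction g with
  | nil => rfl
  | cons t g ih =>
    obtain ⟨c, i, j⟩ := t
    simp only [ahom, Bool.and_eq_true] at h
    have h1 : i + j = w := Nat.eq_of_beq_eq_true h.1
    have h2 := ih h.2
    cases i with
    | zero =>
      cases j with
      | zero => simpa only [ader, List.nil_append] using h2
      | succ j =>
        simp only [ader, List.nil_append, List.cons_append, ahom, Bool.and_eq_true, h2, and_true]
        exact nbeq (by omega)
    | succ i =>
      cases j with
      | zero =>
        simp only [ader, List.append_nil, List.cons_append, List.nil_append, ahom,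
          Bool.and_eq_true, h2, and_true]
        exact nbeq (by omega)
      | succ j =>
        simp only [ader, List.cons_append, List.nil_append, ahom, Bool.and_eq_true, h2, and_true]
        exact ⟨nbeq (by omega), nbeq (by omega)⟩

/-! ### expressions -/

/-- monomial `c S^i C^j` -/
def moE (c : ℤ) (i j : ℕ) : Ex :=
  Ex.sc c (Ex.mul (Ex.pow (Ex.va 1) i) (Ex.pow (Ex.va 2) j))

def apE : AP → Ex
  | [] => Ex.lit 0
  | [(c, i, j)] => moE c i j
  | (c, i, j) :: t :: g => Ex.add (moE c i j) (apE (t :: g))

theorem moE_re (x : Pnt) (c : ℤ) (i j : ℕ) : (moE c i j).re x = c * (x.b ^ i * x.c ^ j) := rfl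

theorem apE_re (x : Pnt) (g : AP) : (apE g).re x = aev x.b x.c g := by
  induction g with
  | nil => simp [apE, aev, Ex.re]
  | cons t g ih =>
    obtain ⟨c, i, j⟩ := t
    cases g with
    | nil =>
      simp only [apE, aev, moE_re]
      ring
    | cons t' g =>
      have : (apE ((c, i, j) :: t' :: g)).re x = (moE c i j).re x + (apE (t' :: g)).re x := rfl
      rw [this, ih, moE_re]
      rfl

end Pool.Agent.Helper69.EK3
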