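import Pool.Agent.Helper69.EK3.Cen
set_option autoImplicit false
open Complex MeasureTheory Metric Set
open scoped Real ComplexConjugate

/-!
# Project EK3: assembly of the certificate
-/

namespace Pool.Agent.Helper69.EK3

open Pool.Sos71
open Pool.EK71 Pool.Agent.Helper52.EK Pool.Agent.Helper2.EK
open Pool.Agent.Helper71.EK3 (DL xL yL r2L FL G2L e_D e_x e_y e_r2 e_F e_G2)
open Pool.Agent.Helper71.EKC (Da Da_pos pw2 e_pw sb2 e_sb c1_unique c1_conj)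

/-- sum of a list of polynomials -/
def sumB {ι : Type} (f : ι → BP) (base : BP) : List ι → BP
  | [] => base
  | t :: L => ad2 (f t) (sumB f base L)

theorem sumB_ev {ι : Type} (f : ι → BP) (base : BP) (L : List ι) (x y : ℝ) :
    ev2 x y (sumB f base L) = (L.map fun t => ev2 x y (f t)).sum + ev2 x y base := by
  induction L with
  | nil => simp [sumB]
  | cons t L ih =>
    simp only [sumB, List.map_cons, List.sum_cons, ev2_ad, ih]
    ring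

theorem map_sum_mul {ι : Type} (L : List ι) (f : ι → ℝ) (c : ℝ) :
    (L.map fun t => c * f t).sum = c * (L.map f).sum := by
  induction L with
  | nil => simp
  | cons t L ih =>
    simp only [List.map_cons, List.sum_cons, ih]
    ring

theorem map_sum_add {ι : Type} (L : List ι) (f g : ι → ℝ) :
    (L.map f).sum + (L.map g).sum = (L.map fun t => f t + g t).sum := by
  induction L with
  | nil => simp
  | cons t L ih =>
    simp only [List.map_cons, List.sum_cons, ← ih]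
    ring

theorem map_sum_congr {ι : Type} (L : List ι) {f g : ι → ℝ} (h : ∀ t ∈ L, f t = g t) :
    (L.map f).sum = (L.map g).sum := by
  rw [List.map_congr_left h]

theorem c1_list {ι : Type} (L : List ι) (F : ι → ℂ → ℝ)
    (h : ∀ t, ∃ Fx Fy : ℂ → ℝ, C1f (F t) Fx Fy) :
    ∃ Fx Fy : ℂ → ℝ, C1f (fun X => (L.map fun t => F t X).sum) Fx Fy := by
  induction L with
  | nil => exact ⟨_, _, by simpa using c1_const 0⟩
  | cons t L ih =>
    obtain ⟨Ax, Ay, hA⟩ := h t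
    obtain ⟨Bx, By, hB⟩ := ih
    exact ⟨_, _, by simpa only [List.map_cons, List.sum_cons] using c1_add hA hB⟩

namespace Dat
variable (c : Dat)

/-- conditions on the data -/
def wf : Bool :=
  Nat.ble 1 c.a && Nat.ble (c.kU + 2) c.K && Nat.ble (c.kV + 1) c.K && Nat.ble (c.kF + 1) c.K &&
  Nat.ble c.kL c.K && Nat.ble 2 c.h &&
  c.UU.all (okU c.h c.kU) && c.VX.all (fun t => dle (2 * c.kV + 2) t.2) &&
  c.VE.all (fun t => ahom (2 * c.h - 2) t.1) &&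
  c.F0.all (okF true c.h c.kF) && c.F1.all (okF false c.h c.kF) &&
  c.HH.all (fun t => Nat.ble t.2 2) && c.HM.all (fun t => Nat.ble 1 t.1 && Nat.ble t.1 4)

structure Wf : Prop where
  a1 : 1 ≤ c.a
  kU : c.kU + 2 ≤ c.K
  kV : c.kV + 1 ≤ c.K
  kF : c.kF + 1 ≤ c.K
  kL : c.kL ≤ c.K
  h2 : 2 ≤ c.h
  uu : ∀ t ∈ c.UU, okU c.h c.kU t = true
  vx : ∀ t ∈ c.VX, dle (2 * c.kV + 2) t.2 = true
  ve : ∀ t ∈ c.VE, ahom (2 * c.h - 2) t.1 = true
  f0 : ∀ t ∈ c.F0, okF true c.h c.kF t = true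
  f1 : ∀ t ∈ c.F1, okF false c.h c.kF t = true
  hh : ∀ t ∈ c.HH, t.2 ≤ 2
  hm : ∀ t ∈ c.HM, 1 ≤ t.1 ∧ t.1 ≤ 4

theorem wf_iff (h : c.wf = true) : c.Wf := by
  simp only [wf, Bool.and_eq_true, Nat.ble_eq, List.all_eq_true] at h
  obtain ⟨⟨⟨⟨⟨⟨⟨⟨⟨⟨⟨⟨h1, h2⟩, h3⟩, h4⟩, h5⟩, h6⟩, h7⟩, h8⟩, h9⟩, h10⟩, h11⟩, h12⟩, h13⟩ := h
  exact ⟨h1, h2, h3, h4, h5, h6, h7, h8, h9, h10, h11, h12, h13⟩

/-- the total null Lagrangian -/
noncomputable def NT (X Y : ℂ) (η : ℝ) : ℝ :=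
  (c.UU.map fun t => NU c.a c.kU t X Y η).sum + ((c.VX.map fun t => NVX c.a c.kV t X Y η).sum +
  ((c.VE.map fun t => NVE c.a c.kV t X Y η).sum + ((c.F0.map fun t => NF0 c.a c.kF t X Y η).sum +
  ((c.F1.map fun t => NF1 c.a c.kF t X Y η).sum + ((c.HH.map fun t => NH t X Y η).sum +
  (c.HM.map fun t => NM t X Y η).sum)))))

noncomputable def KT (X Y : ℂ) : ℝ :=
  (c.UU.map fun t => KU c.a c.kU t X Y).sum + ((c.VX.map fun _ => (0:ℝ)).sum +
  ((c.VE.map fun t => KVE c.a c.kV t X Y).sum + ((c.F0.map fun t => KF0 c.a c.kF t X Y).sum +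
  ((c.F1.map fun t => KF1 c.a c.kF t X Y).sum + ((c.HH.map fun t => KH t X Y).sum +
  (c.HM.map fun t => KM t X Y).sum)))))

variable {c}

theorem isNull_NT (w : c.Wf) : IsNull DiscP c.NT c.KT := by
  have hU : ∀ t ∈ c.UU, dle (2 * c.kU + 2) t.2 = true := fun t ht => by
    have := w.uu t ht
    simp only [okU, Bool.and_eq_true] at this
    exact this.1.1
  have h0 : ∀ t ∈ c.F0, dle (2 * c.kF + 2) t.2 = true := fun t ht => by
    have := w.f0 t ht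
    simp only [okF, Bool.and_eq_true] at this
    exact this.1.1
  have h1 : ∀ t ∈ c.F1, dle (2 * c.kF + 2) t.2 = true := fun t ht => by
    have := w.f1 t ht
    simp only [okF, Bool.and_eq_true] at this
    exact this.1.1
  exact (IsNull.list c.UU fun t ht => isNull_NU w.a1 t (hU t ht)).add
    ((IsNull.list c.VX fun t ht => isNull_NVX w.a1 t (w.vx t ht)).add
    ((IsNull.list c.VE fun t _ => isNull_NVE t).add
    ((IsNull.list c.F0 fun t ht => isNull_NF0 w.a1 t (h0 t ht)).add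
    ((IsNull.list c.F1 fun t ht => isNull_NF1 w.a1 t (h1 t ht)).add
    ((IsNull.list c.HH fun t ht => isNull_NH t (w.hh t ht)).add
    (IsNull.list c.HM fun t _ => isNull_NM t))))))

theorem tN_re (w : c.Wf) {X Y : ℂ} (hX : X ≠ 0) (l η : ℝ) : c.tN.re (px l η X Y) =
    Da c.a X.re X.im ^ c.K * (c.NT X Y η + (c.lam * ‖X - 1‖ ^ 2 +
      c.a2 * ((X.re - 1) ^ 2 - X.im ^ 2))) := by
  have e0 : ‖X - 1‖ ^ 2 = (X.re - 1) ^ 2 + X.im ^ 2 := by
    rw [nq_sq]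
    simp
  unfold tN
  simp only [sumE_re]
  rw [map_sum_congr c.UU fun t _ => EU_re c.a c.K c.kU t w.kU (Y := Y) hX l η,
    map_sum_congr c.VX fun t _ => EVX_re c.a c.K c.kV t w.kV (Y := Y) hX l η,
    map_sum_congr c.VE fun t _ => EVE_re c.a c.K c.kV t w.kV (Y := Y) hX l η,
    map_sum_congr c.F0 fun t _ => EF0_re c.a c.K c.kF t w.kF (Y := Y) hX l η,
    map_sum_congr c.F1 fun t _ => EF1_re c.a c.K c.kF t w.kF (Y := Y) hX l η,
    map_sum_congr c.HH fun t ht => EH_re c.a c.K t (w.hh t ht) X Y l η,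
    map_sum_congr c.HM fun t _ => EHM_re c.a c.K c.h t X Y l η]
  simp only [map_sum_mul]
  have e1 : (Ex.mul (Ex.pow eo c.h) (Ex.bp (mu2 (ad2 (sm2 c.lam FL) (sm2 c.a2 G2L))
      (Dn c.a c.K)))).re (px l η X Y) = (eo.re (px l η X Y)) ^ c.h *
      ev2 (X.re - 1) X.im (mu2 (ad2 (sm2 c.lam FL) (sm2 c.a2 G2L)) (Dn c.a c.K)) := rfl
  rw [e1, px_o, one_pow, ev2_mu, ev2_ad, ev2_sm, ev2_sm, e_F, e_G2, Dn_ev, e0]
  unfold NT
  ring

/-! ### centre -/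

variable (c)

def cU (t : AP × BP) : BP :=
  sm2 (Int.mul 2712 (asum (ader (ash 2 2 t.1)))) (mu2 (ad2 t.2 (fl2 t.2)) (Dn c.a (c.K - c.kU)))

def cE (t : AP × BP) : BP :=
  sm2 (Int.mul (-2712) (asum t.1)) (mu2 (ad2 t.2 (fl2 t.2)) (Dn c.a (c.K - c.kV)))

def cM (t : ℕ × Bool × ℤ) : BP :=
  sm2 (Int.mul (Int.mul (-226) (Int.ofNat (2 ^ c.h))) (Int.mul t.2.2 (hmv t.1 t.2.1)))
    (mu2 G2L (Dn c.a c.K))

def c0 : BP :=
  mu2 (sm2 (Int.mul (-4260) (Int.ofNat (2 ^ c.h))) (ad2 (sm2 c.c1 [[0], [1]]) (sm2 c.a2 G2L)))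
    (Dn c.a c.K)

/-- the centre polynomial: `12 · 113 · 2^h · D^K · E_c` with `355/113` for `π` -/
def cen : BP := sumB c.cU (sumB c.cE (sumB c.cM c.c0 c.HM) c.VE) c.UU

/-- the centre function with `p` for `π` and `k` for `c₁` -/
noncomputable def Ecp (k p : ℝ) (X : ℂ) : ℝ :=
  (c.UU.map fun t => 2 * (asum (ader (ash 2 2 t.1)) : ℝ) / 2 ^ c.h * Rs c.a c.kU t.2 X).sum +
  ((c.VE.map fun t => - (2 * (asum t.1 : ℝ) / 2 ^ c.h * Rs c.a c.kV t.2 X)).sum +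
  ((c.HM.map fun t => - ((t.2.2 : ℝ) * hmv t.1 t.2.1 / 6 * ((X.re - 1) ^ 2 - X.im ^ 2))).sum +
  (- (k * p * (X.re - 1)) - c.a2 * p * ((X.re - 1) ^ 2 - X.im ^ 2))))

variable {c}

theorem cen_ev (w : c.Wf) (X : ℂ) : ev2 (X.re - 1) X.im c.cen =
    1356 * 2 ^ c.h * Da c.a X.re X.im ^ c.K * c.Ecp c.c1 (355 / 113) X := by
  have hD := (Da_pos c.a X.re X.im).ne'
  have h2 : (2:ℝ) ^ c.h ≠ 0 := by positivity
  have eU : ∀ t ∈ c.UU, ev2 (X.re - 1) X.im (c.cU t) =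
      1356 * 2 ^ c.h * Da c.a X.re X.im ^ c.K *
        (2 * (asum (ader (ash 2 2 t.1)) : ℝ) / 2 ^ c.h * Rs c.a c.kU t.2 X) := by
    intro t _
    obtain ⟨m, hm⟩ := Nat.exists_eq_add_of_le (le_trans (Nat.le_add_right _ 2) w.kU)
    have e2 : c.K - c.kU = m := by omega
    rw [cU, ev2_sm, ev2_mu, ev2_ad, fl2_ev, Dn_ev, imul_cast', e2]
    unfold Rs Rr
    rw [Da_conj, conj_re, conj_im]
    have p1 : Da c.a X.re X.im ^ c.K = Da c.a X.re X.im ^ c.kU * Da c.a X.re X.im ^ m := by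
      rw [hm, pow_add]
    rw [p1]
    field_simp
    push_cast
    ring
  have eE : ∀ t ∈ c.VE, ev2 (X.re - 1) X.im (c.cE t) =
      1356 * 2 ^ c.h * Da c.a X.re X.im ^ c.K *
        (- (2 * (asum t.1 : ℝ) / 2 ^ c.h * Rs c.a c.kV t.2 X)) := by
    intro t _
    obtain ⟨m, hm⟩ := Nat.exists_eq_add_of_le (le_trans (Nat.le_add_right _ 1) w.kV)
    have e2 : c.K - c.kV = m := by omega
    rw [cE, ev2_sm, ev2_mu, ev2_ad, fl2_ev, Dn_ev, imul_cast', e2]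
    unfold Rs Rr
    rw [Da_conj, conj_re, conj_im]
    have p1 : Da c.a X.re X.im ^ c.K = Da c.a X.re X.im ^ c.kV * Da c.a X.re X.im ^ m := by
      rw [hm, pow_add]
    rw [p1]
    field_simp
    push_cast
    ring
  have eM : ∀ t ∈ c.HM, ev2 (X.re - 1) X.im (c.cM t) =
      1356 * 2 ^ c.h * Da c.a X.re X.im ^ c.K *
        (- ((t.2.2 : ℝ) * hmv t.1 t.2.1 / 6 * ((X.re - 1) ^ 2 - X.im ^ 2))) := by
    intro t _
    rw [cM, ev2_sm, ev2_mu, e_G2, Dn_ev, imul_cast', imul_cast', imul_cast', ofNat_cast']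
    push_cast
    ring
  rw [cen, sumB_ev, sumB_ev, sumB_ev, map_sum_congr _ eU, map_sum_congr _ eE, map_sum_congr _ eM,
    map_sum_mul, map_sum_mul, map_sum_mul, c0, ev2_mu, ev2_sm, ev2_ad, ev2_sm, ev2_sm, e_G2,
    Dn_ev, imul_cast', ofNat_cast']
  unfold Ecp
  simp only [ev2, ev1]
  push_cast
  ring

theorem KT_conj (w : c.Wf) (X Y : ℂ) (k : ℝ) :
    (c.KT X Y + (c.a2 * (π / 2) * ((X.re - 1) ^ 2 - X.im ^ 2) + k * (π / 2) * (X.re - 1))) +
    (c.KT (conj X) (conj Y) + (c.a2 * (π / 2) * (((conj X).re - 1) ^ 2 - (conj X).im ^ 2) +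
      k * (π / 2) * ((conj X).re - 1))) = - c.Ecp k π X := by
  have eU := map_sum_congr c.UU fun t ht => KU_conj (a := c.a) w.h2 (w.uu t ht) X Y
  have eE := map_sum_congr c.VE fun t ht => KVE_conj (a := c.a) (j := c.kV) w.h2 (w.ve t ht) X Y
  have e0 := map_sum_congr c.F0 fun t ht => KF0_conj (a := c.a) w.h2 (w.f0 t ht) X Y
  have e1 := map_sum_congr c.F1 fun t ht => KF1_conj (a := c.a) w.h2 (w.f1 t ht) X Y
  have eH := map_sum_congr c.HH fun t _ => KH_conj t X Y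
  have eM := map_sum_congr c.HM fun t ht => KM_conj (w.hm t ht).1 (w.hm t ht).2 X Y
  rw [← map_sum_add] at eU eE e0 e1 eH eM
  have n0 : ∀ (L : List (AP × BP)), (L.map fun _ => (0:ℝ)).sum = 0 := fun L => by
    induction L with
    | nil => simp
    | cons t L ih => simpa using ih
  have n1 : ∀ (L : List (AP × ℕ)), (L.map fun _ => (0:ℝ)).sum = 0 := fun L => by
    induction L with
    | nil => simp
    | cons t L ih => simpa using ih
  have g1 : (c.UU.map fun t => - (2 * (asum (ader (ash 2 2 t.1)) : ℝ) / 2 ^ c.h *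
      Rs c.a c.kU t.2 X)).sum = - (c.UU.map fun t => 2 * (asum (ader (ash 2 2 t.1)) : ℝ) /
      2 ^ c.h * Rs c.a c.kU t.2 X).sum := by
    have := map_sum_mul c.UU (fun t => 2 * (asum (ader (ash 2 2 t.1)) : ℝ) / 2 ^ c.h *
      Rs c.a c.kU t.2 X) (-1)
    simp only [neg_mul, one_mul] at this
    exact this
  have g2 : (c.VE.map fun t => - (2 * (asum t.1 : ℝ) / 2 ^ c.h * Rs c.a c.kV t.2 X)).sum =
      - (c.VE.map fun t => 2 * (asum t.1 : ℝ) / 2 ^ c.h * Rs c.a c.kV t.2 X).sum := by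
    have := map_sum_mul c.VE (fun t => 2 * (asum t.1 : ℝ) / 2 ^ c.h * Rs c.a c.kV t.2 X) (-1)
    simp only [neg_mul, one_mul] at this
    exact this
  have g3 : (c.HM.map fun t => - ((t.2.2 : ℝ) * hmv t.1 t.2.1 / 6 *
      ((X.re - 1) ^ 2 - X.im ^ 2))).sum = - (c.HM.map fun t => (t.2.2 : ℝ) * hmv t.1 t.2.1 / 6 *
      ((X.re - 1) ^ 2 - X.im ^ 2)).sum := by
    have := map_sum_mul c.HM (fun t => (t.2.2 : ℝ) * hmv t.1 t.2.1 / 6 *
      ((X.re - 1) ^ 2 - X.im ^ 2)) (-1)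
    simp only [neg_mul, one_mul] at this
    exact this
  rw [n0] at e0 e1
  rw [n1] at eH
  rw [g1] at eU
  unfold Ecp KT
  rw [g2, g3, n0, conj_re, conj_im]
  linear_combination eU + eE + e0 + e1 + eH + eM

theorem Ecp_c1 (k p : ℝ) : ∃ Ex Ey : ℂ → ℝ, C1f (c.Ecp k p) Ex Ey := by
  have hR : ∀ (a j : ℕ) (P : BP), ∃ Fx Fy : ℂ → ℝ, C1f (Rs a j P) Fx Fy := fun a j P =>
    ⟨_, _, c1_add (c1_Rr a j P) (c1_conj (c1_Rr a j P))⟩
  have hS : ∃ Fx Fy : ℂ → ℝ, C1f (fun X : ℂ => (X.re - 1) ^ 2 - X.im ^ 2) Fx Fy :=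
    ⟨_, _, by
      have h1 := c1_sub c1_re (c1_const 1)
      have h2 := c1_sub (c1_mul h1 h1) (c1_mul c1_im c1_im)
      exact c1_congr h2 (fun X => by ring) (fun _ => rfl) (fun _ => rfl)⟩
  obtain ⟨A1, A2, hA⟩ := c1_list c.UU (fun t X => 2 * (asum (ader (ash 2 2 t.1)) : ℝ) /
    2 ^ c.h * Rs c.a c.kU t.2 X) (fun t => by
      obtain ⟨_, _, h⟩ := hR c.a c.kU t.2
      exact ⟨_, _, c1_mul (c1_const _) h⟩)
  obtain ⟨B1, B2, hB⟩ := c1_list c.VE (fun t X => - (2 * (asum t.1 : ℝ) / 2 ^ c.h *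
    Rs c.a c.kV t.2 X)) (fun t => by
      obtain ⟨_, _, h⟩ := hR c.a c.kV t.2
      exact ⟨_, _, c1_congr (c1_mul (c1_const (-(2 * (asum t.1 : ℝ) / 2 ^ c.h))) h)
        (fun X => by ring) (fun _ => rfl) (fun _ => rfl)⟩)
  obtain ⟨C1, C2, hC⟩ := c1_list c.HM (fun t X => - ((t.2.2 : ℝ) * hmv t.1 t.2.1 / 6 *
    ((X.re - 1) ^ 2 - X.im ^ 2))) (fun t => by
      obtain ⟨_, _, h⟩ := hS
      exact ⟨_, _, c1_congr (c1_mul (c1_const (-((t.2.2 : ℝ) * hmv t.1 t.2.1 / 6))) h)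
        (fun X => by ring) (fun _ => rfl) (fun _ => rfl)⟩)
  obtain ⟨S1, S2, hS⟩ := hS
  have hL := c1_sub (c1_mul (c1_const (-(k * p))) (c1_sub c1_re (c1_const 1)))
    (c1_mul (c1_const (c.a2 * p)) hS)
  refine ⟨_, _, c1_congr (c1_add hA (c1_add hB (c1_add hC hL))) (fun X => ?_) (fun _ => rfl)
    (fun _ => rfl)⟩
  unfold Ecp
  ring

end Dat

end Pool.Agent.Helper69.EK3
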