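import Pool.Agent.Helper69.EK3.Dat
import Pool.Agent.Helper71.EKC.Vx
set_option autoImplicit false
open Complex MeasureTheory Metric Set
open scoped Real ComplexConjugate

/-!
# Project EK3: the centre line
-/

namespace Pool.Agent.Helper69.EK3

open Pool.Sos71
open Pool.EK71 Pool.Agent.Helper52.EK Pool.Agent.Helper2.EK
open Pool.Agent.Helper71.EK3 (DL xL yL r2L FL G2L e_D e_x e_y e_r2 e_F e_G2)
open Pool.Agent.Helper71.EKC (Da Da_pos pw2 e_pw sb2 e_sb c1_unique c1_conj)

/-! ### parity -/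

/-- parity of a polynomial in `y`; `true`: even -/
def par : Bool → List ℤ → Bool
  | _, [] => true
  | true, _ :: l => par false l
  | false, a :: l => decide (a = 0) && par true l

def par2 (b : Bool) (P : BP) : Bool := P.all (par b)

theorem par_ev (y : ℝ) (l : List ℤ) : (par true l = true → ev1 (-y) l = ev1 y l) ∧
    (par false l = true → ev1 (-y) l = - ev1 y l) := by
  induction l with
  | nil => simp [ev1]
  | cons a l ih =>
    constructor
    · intro h
      simp only [par] at h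
      simp only [ev1, ih.2 h]
      ring
    · intro h
      simp only [par, Bool.and_eq_true, decide_eq_true_eq] at h
      simp only [ev1, ih.1 h.2, h.1]
      push_cast
      ring

theorem par2_even (x y : ℝ) (P : BP) (h : par2 true P = true) : ev2 x (-y) P = ev2 x y P := by
  induction P with
  | nil => simp [ev2]
  | cons r P ih =>
    simp only [par2, List.all_cons, Bool.and_eq_true] at h
    simp only [ev2, (par_ev y r).1 h.1, ih h.2]

theorem par2_odd (x y : ℝ) (P : BP) (h : par2 false P = true) : ev2 x (-y) P = - ev2 x y P := by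
  induction P with
  | nil => simp [ev2]
  | cons r P ih =>
    simp only [par2, List.all_cons, Bool.and_eq_true] at h
    simp only [ev2, (par_ev y r).2 h.1, ih h.2]
    ring

/-- `y ↦ -y` -/
def fl1 (s : ℤ) : List ℤ → List ℤ
  | [] => []
  | a :: l => Int.mul s a :: fl1 (-s) l

def fl2 (P : BP) : BP := P.map (fl1 1)

theorem fl1_ev (s : ℤ) (y : ℝ) (l : List ℤ) : ev1 y (fl1 s l) = s * ev1 (-y) l := by
  induction l generalizing s with
  | nil => simp [fl1, ev1]
  | cons a l ih =>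
    simp only [fl1, ev1, ih, imul_cast']
    push_cast
    ring

theorem fl2_ev (x y : ℝ) (P : BP) : ev2 x y (fl2 P) = ev2 x (-y) P := by
  induction P with
  | nil => simp [fl2, ev2]
  | cons r P ih =>
    have ih' : ev2 x y (P.map (fl1 1)) = ev2 x (-y) P := ih
    simp only [fl2, List.map_cons, ev2, fl1_ev, ih']
    push_cast
    ring

theorem Da_conj (a : ℕ) (X : ℂ) : Da a (conj X).re (conj X).im = Da a X.re X.im := by
  simp [Da]

theorem Rr_conj_even {a j : ℕ} {P : BP} (h : par2 true P = true) (X : ℂ) :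
    Rr a j P (conj X) = Rr a j P X := by
  unfold Rr
  rw [Da_conj, conj_re, conj_im, par2_even _ _ _ h]

theorem Rr_conj_odd {a j : ℕ} {P : BP} (h : par2 false P = true) (X : ℂ) :
    Rr a j P (conj X) = - Rr a j P X := by
  unfold Rr
  rw [Da_conj, conj_re, conj_im, par2_odd _ _ _ h]
  ring

/-! ### the centre terms of the families -/

/-- `R + R ∘ conj` -/
noncomputable def Rs (a j : ℕ) (P : BP) (X : ℂ) : ℝ := Rr a j P X + Rr a j P (conj X)

theorem dEta_conj {a j : ℕ} {P : BP} (h : par2 true P = true) (X Y : ℂ) :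
    dEta (Rr a (j + 1) (qX a j P)) (Rr a (j + 1) (qY a j P)) X Y +
      dEta (Rr a (j + 1) (qX a j P)) (Rr a (j + 1) (qY a j P)) (conj X) (conj Y) = 0 := by
  have h1 := c1_Rr a j P
  have h2 := c1_conj h1
  have h3 : C1f (fun X => Rr a j P X) (fun X => Rr a (j + 1) (qX a j P) (conj X))
      (fun X => - Rr a (j + 1) (qY a j P) (conj X)) :=
    c1_congr h2 (fun X => (Rr_conj_even h X).symm) (fun _ => rfl) (fun _ => rfl)
  obtain ⟨e1, e2⟩ := c1_unique h1 h3 X
  unfold dEta
  rw [conj_re, conj_im, e1, e2]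
  ring

/-- conditions of the families -/
def okU (h j : ℕ) (t : AP × BP) : Bool :=
  dle (2 * j + 2) t.2 && ahom (2 * h - 4) t.1 && (decide (asum t.1 = 0) || par2 true t.2)

def okF (b : Bool) (h j : ℕ) (t : AP × BP) : Bool :=
  dle (2 * j + 2) t.2 && ahom (2 * h - 4) t.1 && (decide (asum t.1 = 0) || par2 b t.2)

theorem asum_ash (a b : ℕ) (g : AP) : asum (ash a b g) = asum g := by
  induction g with
  | nil => rfl
  | cons t g ih =>
    obtain ⟨c, i, j⟩ := t
    simp only [ash, asum, ih]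

theorem KU_conj {a j h : ℕ} (hh : 2 ≤ h) {t : AP × BP} (ht : okU h j t = true) (X Y : ℂ) :
    KU a j t X Y + KU a j t (conj X) (conj Y) =
      - (2 * (asum (ader (ash 2 2 t.1)) : ℝ) / 2 ^ h * Rs a j t.2 X) := by
  simp only [okU, Bool.and_eq_true, Bool.or_eq_true, decide_eq_true_eq] at ht
  obtain ⟨⟨_, h2⟩, h3⟩ := ht
  have e0 : 2 * h - 4 + 2 + 2 = 2 * h := by omega
  have g1 : ahom (2 * h) (ash 2 2 t.1) = true := by
    have := ahom_ash 2 2 h2
    rwa [e0] at this
  have g2 := ahom_ader g1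
  unfold KU Rs
  rw [af_half_even g1, af_half_even g2, asum_ash]
  rcases h3 with h3 | h3
  · rw [h3]
    push_cast
    ring
  · have h4 := dEta_conj (a := a) (j := j) h3 X Y
    linear_combination (4 * ((asum t.1 : ℝ) / 2 ^ h)) * h4

theorem KVE_conj {a j h : ℕ} (hh : 2 ≤ h) {t : AP × BP} (ht : ahom (2 * h - 2) t.1 = true)
    (X Y : ℂ) : KVE a j t X Y + KVE a j t (conj X) (conj Y) =
      2 * (asum t.1 : ℝ) / 2 ^ h * Rs a j t.2 X := by
  have e0 : 2 * h - 2 + 1 + 1 = 2 * h := by omega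
  have g1 : ahom (2 * h) (ash 1 1 t.1) = true := by
    have := ahom_ash 1 1 ht
    rwa [e0] at this
  unfold KVE Rs
  rw [af_half_even g1, asum_ash]
  ring

theorem KF0_conj {a j h : ℕ} (hh : 2 ≤ h) {t : AP × BP} (ht : okF true h j t = true) (X Y : ℂ) :
    KF0 a j t X Y + KF0 a j t (conj X) (conj Y) = 0 := by
  simp only [okF, Bool.and_eq_true, Bool.or_eq_true, decide_eq_true_eq] at ht
  obtain ⟨⟨_, h2⟩, h3⟩ := ht
  have e0 : 2 * h - 4 + 2 + 2 = 2 * h := by omega
  have g1 : ahom (2 * h) (ash 2 2 t.1) = true := by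
    have := ahom_ash 2 2 h2
    rwa [e0] at this
  unfold KF0
  rw [af_half_even g1, asum_ash]
  rcases h3 with h3 | h3
  · rw [h3]
    simp
  · rw [Rr_conj_even h3, pow_one, pow_one, ← map_div₀]
    simp only [mul_im, ofReal_re, ofReal_im, conj_re, conj_im]
    ring

theorem KF1_conj {a j h : ℕ} (hh : 2 ≤ h) {t : AP × BP} (ht : okF false h j t = true) (X Y : ℂ) :
    KF1 a j t X Y + KF1 a j t (conj X) (conj Y) = 0 := by
  simp only [okF, Bool.and_eq_true, Bool.or_eq_true, decide_eq_true_eq] at ht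
  obtain ⟨⟨_, h2⟩, h3⟩ := ht
  have e0 : 2 * h - 4 + 2 + 2 = 2 * h := by omega
  have g1 : ahom (2 * h) (ash 2 2 t.1) = true := by
    have := ahom_ash 2 2 h2
    rwa [e0] at this
  unfold KF1
  rw [af_half_even g1, asum_ash]
  rcases h3 with h3 | h3
  · rw [h3]
    simp
  · rw [Rr_conj_odd h3, pow_one, pow_one, ← map_div₀]
    simp only [mul_im, mul_re, I_re, I_im, ofReal_re, ofReal_im, conj_re, conj_im]
    ring

theorem KH_conj (t : AP × ℕ) (X Y : ℂ) : KH t X Y + KH t (conj X) (conj Y) = 0 := by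
  unfold KH
  have e : (conj X - 1) ^ t.2 * (conj Y / conj X) ^ 2 = conj ((X - 1) ^ t.2 * (Y / X) ^ 2) := by
    simp
  rw [e, conj_im]
  ring

/-! ### the harmonic part -/

/-- `12 ∫ cos kη` resp. `12 ∫ sin kη` over `(0, π/2)`, `1 ≤ k ≤ 4` -/
def hmv : ℕ → Bool → ℤ
  | 1, true => 12
  | 3, true => -4
  | 1, false => 12
  | 2, false => 12
  | 3, false => 4
  | _, _ => 0

noncomputable def trg (k : ℕ) (b : Bool) (η : ℝ) : ℝ := if b then Real.cos (k * η) else Real.sin (k * η)

theorem trg_cont (k : ℕ) (b : Bool) : Continuous (trg k b) := by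
  unfold trg
  cases b
  · simpa using (by fun_prop : Continuous fun η : ℝ => Real.sin (k * η))
  · simpa using (by fun_prop : Continuous fun η : ℝ => Real.cos (k * η))

theorem trg_int (k : ℕ) (b : Bool) (h1 : 1 ≤ k) (h2 : k ≤ 4) :
    12 * ∫ t in (0:ℝ)..(π / 2), trg k b t = hmv k b := by
  have hk : (k : ℝ) ≠ 0 := by positivity
  cases b
  · have e : ∫ t in (0:ℝ)..(π / 2), trg k false t = (k : ℝ)⁻¹ * (1 - Real.cos (k * (π / 2))) := by
      simp only [trg, Bool.false_eq_true, if_false]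
      rw [intervalIntegral.integral_comp_mul_left (fun t => Real.sin t) hk, integral_sin,
        smul_eq_mul, mul_zero, Real.cos_zero]
    rw [e]
    interval_cases k
    · simp [hmv]
    · have : ((2 : ℕ) : ℝ) * (π / 2) = π := by push_cast; ring
      rw [this, Real.cos_pi]
      simp [hmv]
      norm_num
    · have : ((3 : ℕ) : ℝ) * (π / 2) = π + π / 2 := by push_cast; ring
      rw [this, Real.cos_add, Real.cos_pi_div_two, Real.sin_pi]
      simp [hmv]
      norm_num
    · have : ((4 : ℕ) : ℝ) * (π / 2) = 2 * π := by push_cast; ring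
      rw [this, Real.cos_two_pi]
      simp [hmv]
  · have e : ∫ t in (0:ℝ)..(π / 2), trg k true t = (k : ℝ)⁻¹ * Real.sin (k * (π / 2)) := by
      simp only [trg, if_true]
      rw [intervalIntegral.integral_comp_mul_left (fun t => Real.cos t) hk, integral_cos,
        smul_eq_mul, mul_zero, Real.sin_zero, sub_zero]
    rw [e]
    interval_cases k
    · simp [hmv]
    · have : ((2 : ℕ) : ℝ) * (π / 2) = π := by push_cast; ring
      rw [this, Real.sin_pi]
      simp [hmv]
    · have : ((3 : ℕ) : ℝ) * (π / 2) = π + π / 2 := by push_cast; ring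
      rw [this, Real.sin_add, Real.cos_pi_div_two, Real.sin_pi, Real.cos_pi,
        Real.sin_pi_div_two]
      simp [hmv]
      norm_num
    · have : ((4 : ℕ) : ℝ) * (π / 2) = 2 * π := by push_cast; ring
      rw [this, Real.sin_two_pi]
      simp [hmv]

noncomputable def NM (t : ℕ × Bool × ℤ) (X _Y : ℂ) (η : ℝ) : ℝ :=
  (t.2.2 : ℝ) * (trg t.1 t.2.1 η * ((X - 1) ^ 2).re)

noncomputable def KM (t : ℕ × Bool × ℤ) (X _Y : ℂ) : ℝ :=
  (t.2.2 : ℝ) * ((∫ u in (0:ℝ)..(π / 2), trg t.1 t.2.1 u) * ((X - 1) ^ 2).re)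

theorem isNull_NM (t : ℕ × Bool × ℤ) : IsNull DiscP (NM t) (KM t) :=
  (isNull_har (trg_cont t.1 t.2.1) 2 le_rfl).const_mul (t.2.2 : ℝ)

theorem EHM_re (a K h : ℕ) (t : ℕ × Bool × ℤ) (X Y : ℂ) (l η : ℝ) :
    (EHM a K h t).re (px l η X Y) = Da a X.re X.im ^ K * NM t X Y η := by
  have h1 := csE_re t.1 l η X Y
  have e : (EHM a K h t).re (px l η X Y) = (t.2.2 : ℝ) *
      ((if t.2.1 then (csE t.1).1 else (csE t.1).2).re (px l η X Y)) *
      (eo.re (px l η X Y) ^ (h - t.1)) * ev2 (X.re - 1) X.im (mu2 G2L (Dn a K)) := rfl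
  rw [e, px_o, one_pow, ev2_mu, e_G2, Dn_ev]
  have h3 : ((X - 1) ^ 2).re = (X.re - 1) ^ 2 - X.im ^ 2 := by
    rw [pow_two (X - 1), mul_re]
    simp
    ring
  unfold NM trg
  rw [h3]
  cases hb : t.2.1
  · simp only [Bool.false_eq_true, if_false, h1.2]
    ring
  · simp only [if_true, h1.1]
    ring

theorem KM_conj {t : ℕ × Bool × ℤ} (h1 : 1 ≤ t.1) (h2 : t.1 ≤ 4) (X Y : ℂ) :
    KM t X Y + KM t (conj X) (conj Y) =
      (t.2.2 : ℝ) * hmv t.1 t.2.1 / 6 * ((X.re - 1) ^ 2 - X.im ^ 2) := by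
  have h3 : ∀ X : ℂ, ((X - 1) ^ 2).re = (X.re - 1) ^ 2 - X.im ^ 2 := by
    intro X
    rw [pow_two (X - 1), mul_re]
    simp
    ring
  have h4 := trg_int t.1 t.2.1 h1 h2
  unfold KM
  rw [h3, h3, ← h4, conj_re, conj_im]
  ring

end Pool.Agent.Helper69.EK3
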