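import Pool.Agent.Helper69.EK3.Tgt
set_option autoImplicit false
open Complex MeasureTheory Metric Set
open scoped Real ComplexConjugate

/-!
# Project EK3: data of a certificate and the target expressions
-/

namespace Pool.Agent.Helper69.EK3

open Pool.Sos71
open Pool.EK71 Pool.Agent.Helper52.EK Pool.Agent.Helper2.EK
open Pool.Agent.Helper71.EK3 (DL xL yL r2L FL G2L e_D e_x e_y e_r2 e_F e_G2)
open Pool.Agent.Helper71.EKC (Da Da_pos pw2 e_pw sb2 e_sb)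

/-- one side of the field: `b = m + sg l (α m + β)`, `r (n - 1) + sg l (r0 + r1 |m+1|² + r2 n) = 0`;
`Ma = M α`, `Mb = M β`, `Maa = M α²`, `Mab = M α β`, `Mbb = M β²` -/
structure Sd where
  sg : ℤ
  Ma : ℤ
  Mb : ℤ
  Maa : ℤ
  Mab : ℤ
  Mbb : ℤ
  r : ℤ
  r0 : ℤ
  r1 : ℤ
  r2 : ℤ
  L0 : List (AP × BP)
  L1 : List (AP × BP)

structure Dat where
  a : ℕ
  K : ℕ
  kU : ℕ
  kV : ℕ
  kF : ℕ
  kL : ℕ
  h : ℕ
  M : ℤ
  lam : ℤ
  c1 : ℤ
  a2 : ℤ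
  UU : List (AP × BP)
  VX : List (AP × BP)
  VE : List (AP × BP)
  F0 : List (AP × BP)
  F1 : List (AP × BP)
  HH : List (AP × ℕ)
  HM : List (ℕ × Bool × ℤ)
  fi : Sd
  fo : Sd

/-! ### expressions -/

def eA : Ex := Ex.sc 2 (Ex.mul (Ex.va 1) (Ex.va 2))
def eB : Ex := Ex.add (Ex.pow (Ex.va 2) 2) (Ex.sc (-1) (Ex.pow (Ex.va 1) 2))
def eo : Ex := Ex.add (Ex.pow (Ex.va 2) 2) (Ex.pow (Ex.va 1) 2)
def eone : Ex := Ex.pow eo 2
def es1 : Ex := Ex.add (Ex.mul eA (Ex.bp [[1], [2]])) (Ex.va 3)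
def es2 : Ex := Ex.add (Ex.mul eA (Ex.bp [[0, 2]])) (Ex.va 4)
def et1 : Ex := Ex.add (Ex.mul eA (Ex.bp [[0], [2]])) (Ex.va 3)
def esq : Ex := Ex.add (Ex.pow es1 2) (Ex.pow es2 2)
/-- `n - 1` -/
def eNM : Ex := Ex.sc 4 (Ex.add esq (Ex.add (Ex.sc (-1) (Ex.mul eA es1)) (Ex.mul eB es2)))
/-- `|m - e₀|²` -/
def eME : Ex := Ex.sc 4 (Ex.add (Ex.pow et1 2) (Ex.pow es2 2))
/-- `Re m` -/
def eRm : Ex := Ex.add (Ex.sc 2 (Ex.add (Ex.mul eA es1) (Ex.sc (-1) (Ex.mul eB es2))))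
  (Ex.sc (-1) eone)
/-- `Re e₀` -/
def eRe : Ex := Ex.add (Ex.pow eA 2) (Ex.sc (-1) (Ex.pow eB 2))

def eTT (M : ℤ) (f : Sd) : Ex :=
  Ex.add (Ex.sc M eME) (Ex.add
    (Ex.mul (Ex.sc f.sg (Ex.va 0)) (Ex.add (Ex.sc f.Ma (Ex.add eNM eME))
      (Ex.sc (2 * f.Mb) (Ex.add eRm (Ex.sc (-1) eRe)))))
    (Ex.mul (Ex.pow (Ex.va 0) 2) (Ex.add (Ex.sc f.Maa (Ex.add eNM eone))
      (Ex.add (Ex.sc (2 * f.Mab) eRm) (Ex.sc f.Mbb eone)))))

def eCon (f : Sd) : Ex :=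
  Ex.add (Ex.sc f.r eNM) (Ex.mul (Ex.sc f.sg (Ex.va 0)) (Ex.add (Ex.sc f.r0 eone)
    (Ex.add (Ex.sc (4 * f.r1) esq) (Ex.sc f.r2 (Ex.add eNM eone)))))

/-- `cos kη`, `sin kη` -/
def csE : ℕ → Ex × Ex
  | 0 => (Ex.lit 1, Ex.lit 0)
  | k + 1 => (Ex.add (Ex.mul (csE k).1 eB) (Ex.sc (-1) (Ex.mul (csE k).2 eA)),
      Ex.add (Ex.mul (csE k).2 eB) (Ex.mul (csE k).1 eA))

/-- sum of a list of expressions -/
def sumE {ι : Type} (f : ι → Ex) (base : Ex) : List ι → Ex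
  | [] => base
  | t :: L => Ex.add (f t) (sumE f base L)

def mulE (a K k : ℕ) (t : AP × BP) : Ex := Ex.mul (apE t.1) (Ex.bp (mu2 t.2 (Dn a (K - k))))

def EHM (a K h : ℕ) (t : ℕ × Bool × ℤ) : Ex :=
  Ex.mul (Ex.mul (Ex.sc t.2.2 (if t.2.1 then (csE t.1).1 else (csE t.1).2)) (Ex.pow eo (h - t.1)))
    (Ex.bp (mu2 G2L (Dn a K)))

namespace Dat
variable (c : Dat)

/-- the null Lagrangians and `lam |X-1|² + a₂ Re (X-1)²`, times `D^K` -/
def tN : Ex :=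
  sumE (EU c.a c.K c.kU) (sumE (EVX c.a c.K c.kV) (sumE (EVE c.a c.K c.kV)
    (sumE (EF0 c.a c.K c.kF) (sumE (EF1 c.a c.K c.kF) (sumE (EH c.a c.K)
      (sumE (EHM c.a c.K c.h)
        (Ex.mul (Ex.pow eo c.h) (Ex.bp (mu2 (ad2 (sm2 c.lam FL) (sm2 c.a2 G2L)) (Dn c.a c.K))))
        c.HM) c.HH) c.F1) c.F0) c.VE) c.VX) c.UU

def tMul (f : Sd) : Ex :=
  Ex.add (sumE (mulE c.a c.K c.kL) (Ex.sc 0 (Ex.pow eo (c.h - 2))) f.L0)
    (Ex.mul (Ex.va 0) (sumE (mulE c.a c.K c.kL) (Ex.sc 0 (Ex.pow eo (c.h - 2))) f.L1))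

def tSide (f : Sd) : Ex :=
  Ex.add c.tN (Ex.add
    (Ex.mul (Ex.mul (Ex.pow eo (c.h - 2)) (Ex.bp (sm2 (-1) (Dn c.a c.K)))) (eTT c.M f))
    (Ex.mul (c.tMul f) (eCon f)))

def tIn : Ex := c.tSide c.fi
def tOut : Ex := c.tSide c.fo

end Dat

/-! ### values -/

theorem px_A (l η : ℝ) (X Y : ℂ) : eA.re (px l η X Y) = Real.sin η := by
  have e : Real.sin η = 2 * Real.sin (η / 2) * Real.cos (η / 2) := by
    rw [← Real.sin_two_mul]
    congr 1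
    ring
  rw [e]
  simp only [eA, Ex.re, px]
  push_cast
  ring

theorem px_B (l η : ℝ) (X Y : ℂ) : eB.re (px l η X Y) = Real.cos η := by
  have e : Real.cos η = Real.cos (η / 2) ^ 2 - Real.sin (η / 2) ^ 2 := by
    rw [← Real.cos_two_mul']
    congr 1
    ring
  rw [e]
  simp only [eB, Ex.re, px]
  push_cast
  ring

theorem px_o (l η : ℝ) (X Y : ℂ) : eo.re (px l η X Y) = 1 := by
  simp only [eo, Ex.re, px]
  exact Real.cos_sq_add_sin_sq _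

theorem sumE_re {ι : Type} (f : ι → Ex) (base : Ex) (L : List ι) (x : Pnt) :
    (sumE f base L).re x = (L.map fun t => (f t).re x).sum + base.re x := by
  induction L with
  | nil => simp [sumE]
  | cons t L ih =>
    simp only [sumE, List.map_cons, List.sum_cons]
    show (f t).re x + (sumE f base L).re x = _
    rw [ih]
    ring

theorem csE_re (k : ℕ) (l η : ℝ) (X Y : ℂ) :
    (csE k).1.re (px l η X Y) = Real.cos (k * η) ∧ (csE k).2.re (px l η X Y) = Real.sin (k * η) := by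
  induction k with
  | zero => simp [csE, Ex.re]
  | succ k ih =>
    have e : ((k + 1 : ℕ) : ℝ) * η = k * η + η := by push_cast; ring
    rw [e, Real.cos_add, Real.sin_add]
    constructor
    · show (csE k).1.re _ * eB.re _ + (-1 : ℤ) * ((csE k).2.re _ * eA.re _) = _
      rw [ih.1, ih.2, px_A, px_B]
      push_cast
      ring
    · show (csE k).2.re _ * eB.re _ + (csE k).1.re _ * eA.re _ = _
      rw [ih.1, ih.2, px_A, px_B]

/-- `m + 1 = 2 (s + i c) s (2X - 1 + q)` -/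
theorem mX_add {X Y : ℂ} {s c : ℝ} (hsc : s ^ 2 + c ^ 2 = 1) :
    mX X Y s c + 1 = 2 * ((s : ℂ) + (c : ℂ) * I) *
      (((s * (2 * X.re - 1) + s * (Y / X).re : ℝ) : ℂ) +
        ((s * (2 * X.im) + s * (Y / X).im : ℝ) : ℂ) * I) := by
  have h1 : 2 * X - 1 + Y / X = ((2 * X.re - 1 + (Y / X).re : ℝ) : ℂ) +
      ((2 * X.im + (Y / X).im : ℝ) : ℂ) * I := by
    apply Complex.ext
    · simp
    · simp
  have h2 : 1 + e0 s c = 2 * (s : ℂ) * ((s : ℂ) + (c : ℂ) * I) := by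
    unfold e0
    have h3 : (s : ℂ) ^ 2 + (c : ℂ) ^ 2 = 1 := by exact_mod_cast hsc
    linear_combination -h3 - (s : ℂ) ^ 2 * I_sq
  unfold mX
  rw [h1, h2]
  push_cast
  ring

section val
variable (l η : ℝ) (X Y : ℂ)

theorem px_s1 : es1.re (px l η X Y) =
    Real.sin η * (2 * X.re - 1) + Real.sin η * (Y / X).re := by
  show eA.re _ * (Ex.bp [[1], [2]]).re _ + (Ex.va 3).re _ = _
  rw [px_A]
  simp only [Ex.re, ev2, ev1, px]
  push_cast
  ring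

theorem px_s2 : es2.re (px l η X Y) = Real.sin η * (2 * X.im) + Real.sin η * (Y / X).im := by
  show eA.re _ * (Ex.bp [[0, 2]]).re _ + (Ex.va 4).re _ = _
  rw [px_A]
  simp only [Ex.re, ev2, ev1, px]
  push_cast
  ring

theorem px_t1 : et1.re (px l η X Y) = Real.sin η * (2 * (X.re - 1)) + Real.sin η * (Y / X).re := by
  show eA.re _ * (Ex.bp [[0], [2]]).re _ + (Ex.va 3).re _ = _
  rw [px_A]
  simp only [Ex.re, ev2, ev1, px]
  push_cast
  ring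

theorem px_sq : esq.re (px l η X Y) = ‖mX X Y (Real.sin η) (Real.cos η) + 1‖ ^ 2 / 4 := by
  show es1.re _ ^ 2 + es2.re _ ^ 2 = _
  rw [px_s1, px_s2, mX_add (Real.sin_sq_add_cos_sq η), norm_mul, norm_mul, mul_pow, mul_pow,
    nq_sq ((Real.sin η : ℂ) + _), nq_sq ((((_ : ℝ) : ℂ)) + _)]
  simp only [add_re, add_im, mul_re, mul_im, ofReal_re, ofReal_im, I_re, I_im, mul_zero,
    mul_one, sub_zero, add_zero, zero_add, Complex.norm_ofNat]
  have h := Real.sin_sq_add_cos_sq η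
  linear_combination (-((Real.sin η * (2 * X.re - 1) + Real.sin η * (Y / X).re) ^ 2 +
    (Real.sin η * (2 * X.im) + Real.sin η * (Y / X).im) ^ 2)) * h

theorem px_Rm : eRm.re (px l η X Y) = (mX X Y (Real.sin η) (Real.cos η)).re := by
  show (2:ℤ) * (eA.re _ * es1.re _ + (-1 : ℤ) * (eB.re _ * es2.re _)) +
    (-1 : ℤ) * (eo.re _ ^ 2) = _
  rw [px_A, px_B, px_o, px_s1, px_s2]
  have h := congrArg Complex.re (mX_add (X := X) (Y := Y) (Real.sin_sq_add_cos_sq η))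
  simp only [add_re, add_im, mul_re, mul_im, ofReal_re, ofReal_im, I_re, I_im, mul_zero,
    mul_one, sub_zero, add_zero, zero_add, one_re, re_ofNat, im_ofNat] at h
  push_cast
  linear_combination -h

theorem px_NM : eNM.re (px l η X Y) = ‖mX X Y (Real.sin η) (Real.cos η)‖ ^ 2 - 1 := by
  show (4:ℤ) * (esq.re _ + ((-1 : ℤ) * (eA.re _ * es1.re _) + eB.re _ * es2.re _)) = _
  have h1 := px_sq l η X Y
  have h2 := px_Rm l η X Y
  have h3 : eRm.re (px l η X Y) = (2:ℤ) * (eA.re (px l η X Y) * es1.re (px l η X Y) +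
    (-1 : ℤ) * (eB.re (px l η X Y) * es2.re (px l η X Y))) + (-1 : ℤ) *
      (eo.re (px l η X Y) ^ 2) := rfl
  rw [px_o] at h3
  have h4 : ‖mX X Y (Real.sin η) (Real.cos η) + 1‖ ^ 2 =
      ‖mX X Y (Real.sin η) (Real.cos η)‖ ^ 2 + 2 * (mX X Y (Real.sin η) (Real.cos η)).re + 1 := by
    rw [nq_sq, nq_sq]
    simp only [add_re, add_im, one_re, one_im]
    ring
  rw [h4] at h1
  rw [h2] at h3
  push_cast at h3 ⊢
  linear_combination 4 * h1 + 2 * h3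

theorem norm_e0 : ‖e0 (Real.sin η) (Real.cos η)‖ = 1 := by
  have h1 : ‖(Real.cos η : ℂ) - (Real.sin η : ℂ) * I‖ ^ 2 = 1 := by
    rw [nq_sq]
    simp only [sub_re, sub_im, mul_re, mul_im, ofReal_re, ofReal_im, I_re, I_im, mul_zero,
      mul_one, sub_zero, add_zero, zero_add, zero_sub]
    nlinarith [Real.sin_sq_add_cos_sq η]
  unfold e0
  rw [norm_neg, norm_pow, h1]

theorem px_ME : eME.re (px l η X Y) =
    ‖mX X Y (Real.sin η) (Real.cos η) - e0 (Real.sin η) (Real.cos η)‖ ^ 2 := by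
  show (4:ℤ) * (et1.re _ ^ 2 + es2.re _ ^ 2) = _
  rw [px_t1, px_s2]
  have h0 : mX X Y (Real.sin η) (Real.cos η) - e0 (Real.sin η) (Real.cos η) =
      (1 + e0 (Real.sin η) (Real.cos η)) * (2 * X - 2 + Y / X) := by
    unfold mX
    ring
  have h2 : 1 + e0 (Real.sin η) (Real.cos η) =
      2 * (Real.sin η : ℂ) * ((Real.sin η : ℂ) + (Real.cos η : ℂ) * I) := by
    unfold e0
    have h3 : (Real.sin η : ℂ) ^ 2 + (Real.cos η : ℂ) ^ 2 = 1 := by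
      exact_mod_cast Real.sin_sq_add_cos_sq η
    linear_combination -h3 - (Real.sin η : ℂ) ^ 2 * I_sq
  have h4 : ‖(Real.sin η : ℂ) + (Real.cos η : ℂ) * I‖ ^ 2 = 1 := by
    rw [nq_sq]
    simp only [add_re, add_im, mul_re, mul_im, ofReal_re, ofReal_im, I_re, I_im, mul_zero,
      mul_one, sub_zero, add_zero, zero_add]
    exact Real.sin_sq_add_cos_sq η
  rw [h0, h2, norm_mul, mul_pow, norm_mul, mul_pow, h4, norm_mul, mul_pow, Complex.norm_real,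
    Real.norm_eq_abs, sq_abs, nq_sq (2 * X - 2 + Y / X)]
  simp only [add_re, add_im, sub_re, sub_im, mul_re, mul_im, re_ofNat, im_ofNat,
    Complex.norm_ofNat]
  push_cast
  ring

theorem px_Re : eRe.re (px l η X Y) = (e0 (Real.sin η) (Real.cos η)).re := by
  show eA.re _ ^ 2 + (-1 : ℤ) * eB.re _ ^ 2 = _
  rw [px_A, px_B]
  unfold e0
  rw [pow_two ((Real.cos η : ℂ) - _)]
  simp only [neg_re, mul_re, mul_im, sub_re, sub_im, ofReal_re, ofReal_im, I_re, I_im]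
  push_cast
  ring

/-- **the loss at a field value `m + sg l (α m + β)`** -/
theorem px_TT {M : ℤ} {f : Sd} {α β : ℝ} (h1 : (f.Ma : ℝ) = M * α) (h2 : (f.Mb : ℝ) = M * β)
    (h3 : (f.Maa : ℝ) = M * α ^ 2) (h4 : (f.Mab : ℝ) = M * (α * β)) (h5 : (f.Mbb : ℝ) = M * β ^ 2)
    (hs : (f.sg : ℝ) ^ 2 = 1) :
    (eTT M f).re (px l η X Y) = M * ‖mX X Y (Real.sin η) (Real.cos η) +
      (((f.sg : ℝ) * l : ℝ) : ℂ) * ((α : ℂ) * mX X Y (Real.sin η) (Real.cos η) + (β : ℂ)) -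
      e0 (Real.sin η) (Real.cos η)‖ ^ 2 := by
  have e : (eTT M f).re (px l η X Y) = M * eME.re (px l η X Y) + ((f.sg * l) *
      (f.Ma * (eNM.re (px l η X Y) + eME.re (px l η X Y)) + ((2 * f.Mb : ℤ) : ℝ) *
      (eRm.re (px l η X Y) + ((-1 : ℤ) : ℝ) * eRe.re (px l η X Y))) + l ^ 2 *
      (f.Maa * (eNM.re (px l η X Y) + eo.re (px l η X Y) ^ 2) + (((2 * f.Mab : ℤ) : ℝ) *
      eRm.re (px l η X Y) + f.Mbb * eo.re (px l η X Y) ^ 2))) := rfl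
  rw [e, px_ME, px_NM, px_Rm, px_Re, px_o]
  have n0 := norm_e0 η
  generalize mX X Y (Real.sin η) (Real.cos η) = m
  have n1 : ‖e0 (Real.sin η) (Real.cos η)‖ ^ 2 = 1 := by rw [n0]; norm_num
  generalize e0 (Real.sin η) (Real.cos η) = z at n1
  rw [nq_sq] at n1
  rw [nq_sq, nq_sq, nq_sq]
  simp only [add_re, add_im, sub_re, sub_im, mul_re, mul_im, ofReal_re, ofReal_im]
  push_cast
  rw [h1, h2, h3, h4, h5]
  linear_combination (f.sg * l * M * α) * n1 +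
    (-(l ^ 2 * M) * ((α * m.re + β) ^ 2 + (α * m.im) ^ 2)) * hs

theorem px_Con (f : Sd) : (eCon f).re (px l η X Y) =
    f.r * (‖mX X Y (Real.sin η) (Real.cos η)‖ ^ 2 - 1) + f.sg * l *
      (f.r0 + f.r1 * ‖mX X Y (Real.sin η) (Real.cos η) + 1‖ ^ 2 +
        f.r2 * ‖mX X Y (Real.sin η) (Real.cos η)‖ ^ 2) := by
  have e : (eCon f).re (px l η X Y) = f.r * eNM.re (px l η X Y) + (f.sg * l) *
      (f.r0 * eo.re (px l η X Y) ^ 2 + (((4 * f.r1 : ℤ) : ℝ) * esq.re (px l η X Y) +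
      f.r2 * (eNM.re (px l η X Y) + eo.re (px l η X Y) ^ 2))) := rfl
  rw [e, px_NM, px_sq, px_o]
  push_cast
  ring

end val

end Pool.Agent.Helper69.EK3
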