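import Pool.Agent.Helper71.EK3.Cq
import Pool.Agent.Helper69.EK3.NullP
set_option autoImplicit false
open Complex MeasureTheory Metric Set
open scoped Real ComplexConjugate

/-!
# Project EK3: rational functions `P(X) / D ^ j`, `D = 1 + a |X|²`, given by integer lists
-/

namespace Pool.Agent.Helper69.EK3

open Pool.EK71 Pool.Agent.Helper52.EK Pool.Agent.Helper2.EK
open Pool.Agent.Helper71.EK3 Pool.Agent.Helper71.EKC

/-- base record -/
def cb (a : ℕ) : C3 := ⟨a, 0, 1, 0, 0, [], [], [], [], []⟩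

/-- numerators of the derivatives of `P / D ^ j` -/
def qX (a j : ℕ) (P : BP) : BP := (cb a).qx j P
def qY (a j : ℕ) (P : BP) : BP := (cb a).qy j P

/-- `P / D ^ j` at `X`; the variables of `P` are `Re X - 1` and `Im X` -/
noncomputable def Rr (a j : ℕ) (P : BP) (X : ℂ) : ℝ :=
  ev2 (X.re - 1) X.im P / Da a X.re X.im ^ j

theorem qX_ev (a j : ℕ) (P : BP) (u y : ℝ) : ev2 u y (qX a j P) =
    ev2 u y (dX P) * Da a (1 + u) y - 2 * j * a * (1 + u) * ev2 u y P := (cb a).e_qx j P u y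

theorem qY_ev (a j : ℕ) (P : BP) (u y : ℝ) : ev2 u y (qY a j P) =
    ev2 u y (dY P) * Da a (1 + u) y - 2 * j * a * y * ev2 u y P := (cb a).e_qy j P u y

theorem c1_Rr (a j : ℕ) (P : BP) :
    C1f (Rr a j P) (Rr a (j + 1) (qX a j P)) (Rr a (j + 1) (qY a j P)) := by
  have h := (cb a).c1_q j P
  refine c1_congr h (fun X => ?_) (fun X => ?_) (fun X => ?_) <;>
    simp [Rr, qX, qY, cb]

/-- numerator of the Laplacian of `P / D ^ j` over `D ^ (j + 2)` -/
def qL (a j : ℕ) (P : BP) : BP := ad2 (qX a (j + 1) (qX a j P)) (qY a (j + 1) (qY a j P))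

theorem q_comm' (a j : ℕ) (P : BP) (u y : ℝ) :
    ev2 u y (qY a (j + 1) (qX a j P)) = ev2 u y (qX a (j + 1) (qY a j P)) := by
  have h := (cb a).q_comm j (j + 1) P u y
  have h0 : (2 * (j : ℝ) * ((cb a).a : ℝ) - 2 * ((j + 1 : ℕ) : ℝ) * ((cb a).a : ℝ) +
      2 * ((cb a).a : ℝ)) = 0 := by
    push_cast; ring
  rw [h0, zero_mul, zero_mul] at h
  exact sub_eq_zero.1 h

theorem c2_Rr (a j : ℕ) (P : BP) :
    C2f (Rr a j P) (Rr a (j + 1) (qX a j P)) (Rr a (j + 1) (qY a j P))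
      (Rr a (j + 2) (qL a j P)) := by
  refine ⟨c1_Rr a j P, _, _, _, c1_Rr a (j + 1) (qX a j P),
    c1_congr (c1_Rr a (j + 1) (qY a j P)) (fun _ => rfl)
      (W' := Rr a (j + 1) (qY a j P))
      (Wx' := Rr a (j + 1 + 1) (qY a (j + 1) (qX a j P))) (fun X => ?_) (fun _ => rfl),
      fun X => ?_⟩
  · unfold Rr
    rw [q_comm']
  · unfold Rr
    rw [qL, ev2_ad]
    ring

/-! ### growth -/

/-- total degree at most `d` -/
def dle : ℕ → BP → Bool
  | _, [] => true
  | 0, r :: P => decide (r.length ≤ 1) && (P.all fun r => decide (r.length = 0))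
  | d + 1, r :: P => decide (r.length ≤ d + 2) && dle d P

/-- sums of the absolute values of the coefficients -/
noncomputable def nr1 : List ℤ → ℝ
  | [] => 0
  | c :: r => |(c : ℝ)| + nr1 r

noncomputable def nr2 : BP → ℝ
  | [] => 0
  | r :: P => nr1 r + nr2 P

theorem nr1_nonneg (r : List ℤ) : 0 ≤ nr1 r := by
  induction r with
  | nil => simp [nr1]
  | cons c r ih =>
    simp only [nr1]
    positivity

theorem nr2_nonneg (P : BP) : 0 ≤ nr2 P := by
  induction P with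
  | nil => simp [nr2]
  | cons r P ih =>
    simp only [nr2]
    exact add_nonneg (nr1_nonneg r) ih

theorem ev1_le {T y : ℝ} (hT : 1 ≤ T) (hy : |y| ≤ T) (d : ℕ) (r : List ℤ) (h : r.length ≤ d + 1) :
    |ev1 y r| ≤ nr1 r * T ^ d := by
  induction r generalizing d with
  | nil => simp [ev1, nr1]
  | cons c r ih =>
    simp only [ev1, nr1]
    have hT0 : 0 ≤ T := by linarith
    have hTd : 1 ≤ T ^ d := one_le_pow₀ hT
    have h1 := abs_add_le (c : ℝ) (y * ev1 y r)
    rw [abs_mul] at h1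
    have h2 : |y| * |ev1 y r| ≤ nr1 r * T ^ d := by
      cases r with
      | nil => simp [ev1, nr1]
      | cons c' r' =>
        cases d with
        | zero => simp at h
        | succ d =>
          have h3 := ih d (by simp only [List.length_cons] at h ⊢; omega)
          calc |y| * |ev1 y (c' :: r')| ≤ T * (nr1 (c' :: r') * T ^ d) :=
                mul_le_mul hy h3 (abs_nonneg _) hT0
            _ = _ := by rw [pow_succ]; ring
    have h4 : |(c : ℝ)| ≤ |(c : ℝ)| * T ^ d := le_mul_of_one_le_right (abs_nonneg _) hTd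
    have e : (|(c : ℝ)| + nr1 r) * T ^ d = |(c : ℝ)| * T ^ d + nr1 r * T ^ d := by ring
    rw [e]
    linarith

theorem ev2_zero (x y : ℝ) (P : BP) (h : (P.all fun r => decide (r.length = 0)) = true) :
    ev2 x y P = 0 := by
  induction P with
  | nil => simp [ev2]
  | cons r P ih =>
    simp only [List.all_cons, Bool.and_eq_true, decide_eq_true_eq] at h
    have hr : r = [] := List.length_eq_zero_iff.1 h.1
    simp only [ev2, hr, ev1, ih h.2]
    ring

theorem ev2_le' {T x y : ℝ} (hT : 1 ≤ T) (hx : |x| ≤ T) (hy : |y| ≤ T) (d : ℕ) (P : BP)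
    (h : dle d P = true) : |ev2 x y P| ≤ nr2 P * T ^ d := by
  have hT0 : 0 ≤ T := by linarith
  induction P generalizing d with
  | nil => simp [ev2, nr2]
  | cons r P ih =>
    cases d with
    | zero =>
      simp only [dle, Bool.and_eq_true, decide_eq_true_eq] at h
      have h1 := ev1_le hT hy 0 r (by omega)
      have h2 := ev2_zero x y P h.2
      simp only [ev2, h2, mul_zero, add_zero, nr2]
      refine h1.trans ?_
      have h3 : 0 ≤ nr2 P := nr2_nonneg P
      simp only [pow_zero, mul_one]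
      linarith
    | succ d =>
      simp only [dle, Bool.and_eq_true, decide_eq_true_eq] at h
      have h1 := ev1_le hT hy (d + 1) r (by omega)
      have h2 := ih d h.2
      have h3 := abs_add_le (ev1 y r) (x * ev2 x y P)
      rw [abs_mul] at h3
      have h4 : |x| * |ev2 x y P| ≤ T * (nr2 P * T ^ d) := mul_le_mul hx h2 (abs_nonneg _) hT0
      simp only [ev2, nr2]
      refine h3.trans ?_
      have e : (nr1 r + nr2 P) * T ^ (d + 1) = nr1 r * T ^ (d + 1) + T * (nr2 P * T ^ d) := by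
        rw [pow_succ]
        ring
      rw [e]
      linarith

theorem Da_ge {a : ℕ} (ha : 1 ≤ a) (X : ℂ) : 1 + ‖X - 1‖ ^ 2 ≤ 3 * Da a X.re X.im := by
  have ha' : (1:ℝ) ≤ a := by exact_mod_cast ha
  have e : ‖X - 1‖ ^ 2 = (X.re - 1) ^ 2 + X.im ^ 2 := by
    rw [← normSq_eq_norm_sq, normSq_apply]
    simp
    ring
  rw [e]
  unfold Da
  nlinarith [sq_nonneg (X.re + 1), sq_nonneg X.re, sq_nonneg X.im,
    mul_nonneg (sub_nonneg.mpr ha') (add_nonneg (sq_nonneg X.re) (sq_nonneg X.im))]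

theorem Rr_le {a : ℕ} (ha : 1 ≤ a) (j : ℕ) (P : BP) (h : dle (2 * j + 2) P = true) :
    ∃ C : ℝ, 0 ≤ C ∧ ∀ X : ℂ, |Rr a j P X| ≤ C * (1 + ‖X - 1‖ ^ 2) := by
  refine ⟨nr2 P * 3 ^ j, mul_nonneg (nr2_nonneg P) (by positivity), fun X => ?_⟩
  have e : ‖X - 1‖ ^ 2 = (X.re - 1) ^ 2 + X.im ^ 2 := by
    rw [← normSq_eq_norm_sq, normSq_apply]
    simp
    ring
  obtain ⟨T, hT⟩ : ∃ T, T = Real.sqrt (1 + ‖X - 1‖ ^ 2) := ⟨_, rfl⟩
  have hT2 : T ^ 2 = 1 + ‖X - 1‖ ^ 2 := by
    rw [hT]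
    exact Real.sq_sqrt (by positivity)
  have hT0 : 0 ≤ T := by rw [hT]; exact Real.sqrt_nonneg _
  have hT1 : 1 ≤ T := by
    have : (1:ℝ) ^ 2 ≤ T ^ 2 := by rw [hT2]; nlinarith [sq_nonneg ‖X - 1‖]
    exact le_of_sq_le_sq this hT0
  have hx : |X.re - 1| ≤ T := by
    refine le_of_sq_le_sq ?_ hT0
    rw [sq_abs, hT2, e]
    nlinarith [sq_nonneg X.im]
  have hy : |X.im| ≤ T := by
    refine le_of_sq_le_sq ?_ hT0
    rw [sq_abs, hT2, e]
    nlinarith [sq_nonneg (X.re - 1)]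
  have h1 := ev2_le' hT1 hx hy _ P h
  have hD := Da_ge ha X
  have hDp := Da_pos a X.re X.im
  unfold Rr
  rw [abs_div, abs_of_pos (pow_pos hDp j), div_le_iff₀ (pow_pos hDp j)]
  refine h1.trans ?_
  have e2 : T ^ (2 * j + 2) = (1 + ‖X - 1‖ ^ 2) ^ j * (1 + ‖X - 1‖ ^ 2) := by
    rw [pow_add, pow_mul, hT2]
  rw [e2]
  have h3 : (1 + ‖X - 1‖ ^ 2) ^ j ≤ (3 * Da a X.re X.im) ^ j :=
    pow_le_pow_left₀ (by positivity) hD j
  rw [mul_pow] at h3
  have h4 : (1 + ‖X - 1‖ ^ 2) ^ j * (1 + ‖X - 1‖ ^ 2) ≤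
      (3 ^ j * Da a X.re X.im ^ j) * (1 + ‖X - 1‖ ^ 2) :=
    mul_le_mul_of_nonneg_right h3 (by positivity)
  calc nr2 P * ((1 + ‖X - 1‖ ^ 2) ^ j * (1 + ‖X - 1‖ ^ 2)) ≤
        nr2 P * ((3 ^ j * Da a X.re X.im ^ j) * (1 + ‖X - 1‖ ^ 2)) :=
        mul_le_mul_of_nonneg_left h4 (nr2_nonneg P)
    _ = _ := by ring

/-! ### complex versions -/

theorem C1c_real {W Wx Wy : ℂ → ℝ} (h : C1f W Wx Wy) :
    C1c (fun X => (W X : ℂ)) (fun X => (Wx X : ℂ)) (fun X => (Wy X : ℂ)) := by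
  refine ⟨fun X _ => ?_, ?_, ?_⟩
  · have h1 := ofRealCLM.hasFDerivAt.comp X (h.hd X)
    refine h1.congr_fderiv ?_
    ext v
    simp
    ring
  · exact (Complex.continuous_ofReal.comp h.cx).continuousOn
  · exact (Complex.continuous_ofReal.comp h.cy).continuousOn

theorem C1c_I {W Wx Wy : ℂ → ℝ} (h : C1f W Wx Wy) :
    C1c (fun X => I * (W X : ℂ)) (fun X => I * (Wx X : ℂ)) (fun X => I * (Wy X : ℂ)) := by
  have h0 := C1c_real h
  refine ⟨fun X hX => ?_, ?_, ?_⟩
  · have h1 := (h0.hd X hX).const_mul I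
    refine h1.congr_fderiv ?_
    ext v
    simp
    ring
  · exact continuousOn_const.mul h0.cx
  · exact continuousOn_const.mul h0.cy

theorem C1c_holo {F F' : ℂ → ℂ} (h : ∀ X, HasDerivAt F (F' X) X) (hc : Continuous F') :
    C1c F F' (fun X => I * F' X) := by
  refine ⟨fun X _ => ?_, hc.continuousOn, (continuous_const.mul hc).continuousOn⟩
  have h1 : HasFDerivAt F ((ContinuousLinearMap.toSpanSingleton ℂ (F' X)).restrictScalars ℝ) X :=
    ((h X).hasFDerivAt).restrictScalars ℝ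
  refine h1.congr_fderiv ?_
  ext v
  simp
  linear_combination -(F' X) * (re_add_im v)

end Pool.Agent.Helper69.EK3
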