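import Pool.Agent.Helper69.EK3.Ang
import Pool.Agent.Helper69.EK3.XF
import Pool.Agent.Helper69.EK3.Disc
set_option autoImplicit false
open Complex MeasureTheory Metric Set
open scoped Real ComplexConjugate

/-!
# Project EK3: the families of null Lagrangians of a certificate
-/

namespace Pool.Agent.Helper69.EK3

open Pool.EK71 Pool.Agent.Helper52.EK Pool.Agent.Helper2.EK
open Pool.Agent.Helper71.EK3 Pool.Agent.Helper71.EKC

variable {P : (ℂ → ℂ) → ℝ → ℝ → Prop}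

/-! ### sums over lists -/

theorem IsNull.list {ι : Type} (L : List ι) {N : ι → ℂ → ℂ → ℝ → ℝ} {K : ι → ℂ → ℂ → ℝ}
    (h : ∀ t ∈ L, IsNull P (N t) (K t)) :
    IsNull P (fun X Y η => (L.map fun t => N t X Y η).sum)
      (fun X Y => (L.map fun t => K t X Y).sum) := by
  induction L with
  | nil => simpa using IsNull.zero (P := P)
  | cons t L ih =>
    have h1 := (h t (List.mem_cons_self)).add (ih fun s hs => h s (List.mem_cons_of_mem _ hs))
    simpa only [List.map_cons, List.sum_cons] using h1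

/-! ### angular facts -/

theorem af_ash22 (g : AP) (η : ℝ) : 4 * af (ash 2 2 g) η = Real.sin η ^ 2 * af g η := by
  unfold af
  rw [aev_ash]
  have e : Real.sin η = 2 * Real.sin (η / 2) * Real.cos (η / 2) := by
    rw [← Real.sin_two_mul]
    congr 1
    ring
  rw [e]
  ring

theorem af_ash11 (g : AP) (η : ℝ) : 2 * af (ash 1 1 g) η = Real.sin η * af g η := by
  unfold af
  rw [aev_ash]
  have e : Real.sin η = 2 * Real.sin (η / 2) * Real.cos (η / 2) := by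
    rw [← Real.sin_two_mul]
    congr 1
    ring
  rw [e]
  ring

theorem af_adas (g : AP) (η : ℝ) :
    2 * af (ader (ash 2 2 g)) η = Real.sin η * af (adas g) η := by
  unfold af
  have e : Real.sin η = 2 * Real.sin (η / 2) * Real.cos (η / 2) := by
    rw [← Real.sin_two_mul]
    congr 1
    ring
  rw [e, aev_adas]

theorem hd22 (g : AP) (η : ℝ) : HasDerivAt (fun η => 4 * af (ash 2 2 g) η)
    (2 * af (ader (ash 2 2 g)) η) η := by
  refine ((af_hasDerivAt (ash 2 2 g) η).const_mul 4).congr_deriv ?_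
  ring

theorem hd22' (g : AP) (η : ℝ) : HasDerivAt (fun η => 2 * af (ader (ash 2 2 g)) η)
    (af (ader (ader (ash 2 2 g))) η) η := by
  refine ((af_hasDerivAt (ader (ash 2 2 g)) η).const_mul 2).congr_deriv ?_
  ring

theorem hd11 (g : AP) (η : ℝ) : HasDerivAt (fun η => 2 * af (ash 1 1 g) η)
    (af (ader (ash 1 1 g)) η) η := by
  refine ((af_hasDerivAt (ash 1 1 g) η).const_mul 2).congr_deriv ?_
  ring

/-! ### the families -/

noncomputable def NU (a j : ℕ) (t : AP × BP) (X Y : ℂ) (η : ℝ) : ℝ :=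
  4 * af (ash 2 2 t.1) η * Rr a (j + 2) (qL a j t.2) X * ‖Y‖ ^ 2 -
    af (ader (ader (ash 2 2 t.1))) η * Rr a j t.2 X

noncomputable def KU (a j : ℕ) (t : AP × BP) (X Y : ℂ) : ℝ :=
  4 * af (ash 2 2 t.1) (π / 2) * dEta (Rr a (j + 1) (qX a j t.2)) (Rr a (j + 1) (qY a j t.2)) X Y -
    2 * af (ader (ash 2 2 t.1)) (π / 2) * Rr a j t.2 X

theorem isNull_NU {a j : ℕ} (ha : 1 ≤ a) (t : AP × BP) (h : dle (2 * j + 2) t.2 = true) :
    IsNull P (NU a j t) (KU a j t) := by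
  obtain ⟨C, _, hC⟩ := Rr_le ha j t.2 h
  exact isNull_U (c2_Rr a j t.2) (hd22 t.1) (hd22' t.1) (af_cont _)
    (by rw [af_ash22]; simp) (by rw [af_adas]; simp) hC

noncomputable def NVX (a j : ℕ) (t : AP × BP) (X Y : ℂ) (η : ℝ) : ℝ :=
  2 * af (ash 1 1 t.1) η * (Rr a (j + 1) (qX a j t.2) X * Y.re +
    Rr a (j + 1) (qY a j t.2) X * Y.im)

theorem isNull_NVX {a j : ℕ} (ha : 1 ≤ a) (t : AP × BP) (h : dle (2 * j + 2) t.2 = true) :
    IsNull P (NVX a j t) (fun _ _ => 0) := by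
  obtain ⟨C, _, hC⟩ := Rr_le ha j t.2 h
  exact isNull_W (c1_Rr a j t.2) (continuous_const.mul (af_cont _)) hC

noncomputable def NVE (a j : ℕ) (t : AP × BP) (X Y : ℂ) (η : ℝ) : ℝ :=
  2 * af (ash 1 1 t.1) η * dEta (Rr a (j + 1) (qX a j t.2)) (Rr a (j + 1) (qY a j t.2)) X Y +
    af (ader (ash 1 1 t.1)) η * Rr a j t.2 X

noncomputable def KVE (a j : ℕ) (t : AP × BP) (X _Y : ℂ) : ℝ :=
  2 * af (ash 1 1 t.1) (π / 2) * Rr a j t.2 X

theorem isNull_NVE {a j : ℕ} (t : AP × BP) : IsNull P (NVE a j t) (KVE a j t) :=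
  isNull_V (c1_Rr a j t.2) (hd11 t.1) (af_cont _) (by rw [af_ash11]; simp)

noncomputable def NF0 (a j : ℕ) (t : AP × BP) (X Y : ℂ) (η : ℝ) : ℝ :=
  NG (fun η => 4 * af (ash 2 2 t.1) η) (fun η => 2 * af (ader (ash 2 2 t.1)) η)
    (fun X => (Rr a j t.2 X : ℂ)) (fun X => (Rr a (j + 1) (qX a j t.2) X : ℂ))
    (fun X => (Rr a (j + 1) (qY a j t.2) X : ℂ)) X Y ((Y / X) ^ 1) η

noncomputable def KF0 (a j : ℕ) (t : AP × BP) (X Y : ℂ) : ℝ :=
  - (4 * af (ash 2 2 t.1) (π / 2) * ((Rr a j t.2 X : ℂ) * (Y / X) ^ 1).im)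

noncomputable def NF1 (a j : ℕ) (t : AP × BP) (X Y : ℂ) (η : ℝ) : ℝ :=
  NG (fun η => 4 * af (ash 2 2 t.1) η) (fun η => 2 * af (ader (ash 2 2 t.1)) η)
    (fun X => I * (Rr a j t.2 X : ℂ)) (fun X => I * (Rr a (j + 1) (qX a j t.2) X : ℂ))
    (fun X => I * (Rr a (j + 1) (qY a j t.2) X : ℂ)) X Y ((Y / X) ^ 1) η

noncomputable def KF1 (a j : ℕ) (t : AP × BP) (X Y : ℂ) : ℝ :=
  - (4 * af (ash 2 2 t.1) (π / 2) * (I * (Rr a j t.2 X : ℂ) * (Y / X) ^ 1).im)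

theorem af_bdd (g : AP) : ∃ M : ℝ, 0 ≤ M ∧ ∀ η ∈ Icc (0:ℝ) (π / 2), |af g η| ≤ M := by
  obtain ⟨M, hM⟩ := (isCompact_Icc (a := (0:ℝ)) (b := π / 2)).bddAbove_image
    (af_cont g).abs.continuousOn
  have hM' : ∀ η ∈ Icc (0:ℝ) (π / 2), |af g η| ≤ M := fun η hη => hM (mem_image_of_mem _ hη)
  exact ⟨M, (abs_nonneg _).trans (hM' 0 ⟨le_rfl, by positivity⟩), hM'⟩

theorem af22_bdd (g : AP) : ∃ M : ℝ, 0 ≤ M ∧ ∀ η ∈ Icc (0:ℝ) (π / 2),
    |4 * af (ash 2 2 g) η| ≤ M * Real.sin η ^ 1 := by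
  obtain ⟨M, hM0, hM⟩ := af_bdd g
  refine ⟨M, hM0, fun η hη => ?_⟩
  have hs : 0 ≤ Real.sin η := Real.sin_nonneg_of_nonneg_of_le_pi hη.1
    (hη.2.trans (by linarith [Real.pi_pos]))
  have hs1 : Real.sin η ≤ 1 := Real.sin_le_one η
  rw [af_ash22, abs_mul, abs_of_nonneg (sq_nonneg _), pow_one]
  have h1 := hM η hη
  have h2 : Real.sin η ^ 2 ≤ Real.sin η := by nlinarith
  calc Real.sin η ^ 2 * |af g η| ≤ Real.sin η * M :=
        mul_le_mul h2 h1 (abs_nonneg _) hs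
    _ = M * Real.sin η := by ring

theorem isNull_NF0 {a j : ℕ} (ha : 1 ≤ a) (t : AP × BP) (h : dle (2 * j + 2) t.2 = true) :
    IsNull DiscP (NF0 a j t) (KF0 a j t) := by
  obtain ⟨C, hC0, hC⟩ := Rr_le ha j t.2 h
  obtain ⟨M, hM0, hM⟩ := af22_bdd t.1
  exact isNull_P (C₀ := 38) (C1c_real (c1_Rr a j t.2)) 1 (hd22 t.1)
    (continuous_const.mul (af_cont _)) (by rw [af_ash22]; simp) hC0 (by norm_num) hM0 hM
    (fun X => by rw [Complex.norm_real]; exact hC X) DiscP.q_le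

theorem isNull_NF1 {a j : ℕ} (ha : 1 ≤ a) (t : AP × BP) (h : dle (2 * j + 2) t.2 = true) :
    IsNull DiscP (NF1 a j t) (KF1 a j t) := by
  obtain ⟨C, hC0, hC⟩ := Rr_le ha j t.2 h
  obtain ⟨M, hM0, hM⟩ := af22_bdd t.1
  exact isNull_P (C₀ := 38) (C1c_I (c1_Rr a j t.2)) 1 (hd22 t.1)
    (continuous_const.mul (af_cont _)) (by rw [af_ash22]; simp) hC0 (by norm_num) hM0 hM
    (fun X => by rw [norm_mul, norm_I, one_mul, Complex.norm_real]; exact hC X) DiscP.q_le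

/-! holomorphic fields -/

/-- primitive of `s² g` -/
noncomputable def apr (g : AP) (η : ℝ) : ℝ := ∫ t in (0:ℝ)..η, 4 * af (ash 2 2 g) t

theorem apr_hasDerivAt (g : AP) (η : ℝ) : HasDerivAt (apr g) (4 * af (ash 2 2 g) η) η := by
  have hc : Continuous (fun t => 4 * af (ash 2 2 g) t) := continuous_const.mul (af_cont _)
  exact intervalIntegral.integral_hasDerivAt_right (hc.intervalIntegrable _ _)
    hc.stronglyMeasurable.stronglyMeasurableAtFilter hc.continuousAt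

theorem apr_bdd (g : AP) : ∃ M : ℝ, 0 ≤ M ∧ ∀ η ∈ Icc (0:ℝ) (π / 2),
    |apr g η| ≤ M * Real.sin η ^ 2 := by
  obtain ⟨M, hM0, hM⟩ := af_bdd g
  refine ⟨M * (π / 2), by positivity, fun η hη => ?_⟩
  have hs : 0 ≤ Real.sin η := Real.sin_nonneg_of_nonneg_of_le_pi hη.1
    (hη.2.trans (by linarith [Real.pi_pos]))
  have h1 : ∀ t ∈ Set.uIoc 0 η, ‖4 * af (ash 2 2 g) t‖ ≤ M * Real.sin η ^ 2 := by
    intro t ht
    rw [uIoc_of_le hη.1] at ht
    have hts : 0 ≤ Real.sin t := Real.sin_nonneg_of_nonneg_of_le_pi ht.1.le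
      (by linarith [ht.2, hη.2, Real.pi_pos])
    have hle : Real.sin t ≤ Real.sin η :=
      Real.sin_le_sin_of_le_of_le_pi_div_two (by linarith [ht.1, Real.pi_pos]) hη.2 ht.2
    rw [af_ash22, Real.norm_eq_abs, abs_mul, abs_of_nonneg (sq_nonneg _)]
    have h2 := hM t ⟨ht.1.le, ht.2.trans hη.2⟩
    have h3 : Real.sin t ^ 2 ≤ Real.sin η ^ 2 := pow_le_pow_left₀ hts hle 2
    calc Real.sin t ^ 2 * |af g t| ≤ Real.sin η ^ 2 * M :=
          mul_le_mul h3 h2 (abs_nonneg _) (sq_nonneg _)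
      _ = M * Real.sin η ^ 2 := by ring
  have h2 := intervalIntegral.norm_integral_le_of_norm_le_const h1
  rw [Real.norm_eq_abs, sub_zero, abs_of_nonneg hη.1] at h2
  unfold apr
  refine h2.trans ?_
  have h3 : M * Real.sin η ^ 2 * η ≤ M * Real.sin η ^ 2 * (π / 2) :=
    mul_le_mul_of_nonneg_left hη.2 (by positivity)
  linarith

noncomputable def NH (t : AP × ℕ) (X Y : ℂ) (η : ℝ) : ℝ :=
  NG (apr t.1) (fun η => 4 * af (ash 2 2 t.1) η) (fun X => (X - 1) ^ t.2)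
    (fun X => (t.2 : ℂ) * (X - 1) ^ (t.2 - 1)) (fun X => I * ((t.2 : ℂ) * (X - 1) ^ (t.2 - 1)))
    X Y ((Y / X) ^ 2) η

noncomputable def KH (t : AP × ℕ) (X Y : ℂ) : ℝ :=
  - (apr t.1 (π / 2) * ((X - 1) ^ t.2 * (Y / X) ^ 2).im)

theorem C1c_pow (m : ℕ) : C1c (fun X => (X - 1) ^ m) (fun X => (m : ℂ) * (X - 1) ^ (m - 1))
    (fun X => I * ((m : ℂ) * (X - 1) ^ (m - 1))) := by
  refine C1c_holo (fun X => ?_) (by fun_prop)
  have h1 : HasDerivAt (fun X : ℂ => X - 1) 1 X := (hasDerivAt_id X).sub_const 1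
  exact (h1.fun_pow m).congr_deriv (by ring)

theorem norm_pow_le (m : ℕ) (hm : m ≤ 2) (X : ℂ) : ‖(X - 1) ^ m‖ ≤ 1 * (1 + ‖X - 1‖ ^ 2) := by
  rw [norm_pow, one_mul]
  have h := norm_nonneg (X - 1)
  interval_cases m
  · rw [pow_zero]
    nlinarith
  · rw [pow_one]
    nlinarith
  · linarith

theorem isNull_NH (t : AP × ℕ) (h : t.2 ≤ 2) : IsNull DiscP (NH t) (KH t) := by
  obtain ⟨M, hM0, hM⟩ := apr_bdd t.1
  exact isNull_P (C₀ := 38) (C1c_pow t.2) 2 (apr_hasDerivAt t.1)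
    (continuous_const.mul (af_cont _)) (by simp [apr]) zero_le_one (by norm_num) hM0 hM
    (norm_pow_le t.2 h) DiscP.q_le

/-- the null Lagrangian `β(η) Re (X-1)^m` -/
theorem isNull_har {β : ℝ → ℝ} (hβ : Continuous β) (m : ℕ) (hm : m ≤ 2) :
    IsNull DiscP (fun X _ η => β η * ((X - 1) ^ m).re)
      (fun X _ => (∫ t in (0:ℝ)..(π / 2), β t) * ((X - 1) ^ m).re) := by
  have hd : ∀ η : ℝ, HasDerivAt (fun η => -∫ t in (0:ℝ)..η, β t) (-β η) η := fun η =>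
    (intervalIntegral.integral_hasDerivAt_right (hβ.intervalIntegrable _ _)
      hβ.stronglyMeasurable.stronglyMeasurableAtFilter hβ.continuousAt).neg
  have hF : C1c (fun X => I * (X - 1) ^ m) (fun X => I * ((m : ℂ) * (X - 1) ^ (m - 1)))
      (fun X => I * (I * ((m : ℂ) * (X - 1) ^ (m - 1)))) := by
    refine C1c_holo (fun X => ?_) (by fun_prop)
    have h1 : HasDerivAt (fun X : ℂ => X - 1) 1 X := (hasDerivAt_id X).sub_const 1
    have h2 : HasDerivAt (fun X : ℂ => (X - 1) ^ m) ((m : ℂ) * (X - 1) ^ (m - 1)) X :=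
      (h1.fun_pow m).congr_deriv (by ring)
    exact h2.const_mul I
  have hc : Continuous (fun η => -∫ t in (0:ℝ)..η, β t) :=
    continuous_iff_continuousAt.2 fun η => (hd η).continuousAt
  obtain ⟨M, hM⟩ := (isCompact_Icc (a := (0:ℝ)) (b := π / 2)).bddAbove_image hc.abs.continuousOn
  have hM' : ∀ η ∈ Icc (0:ℝ) (π / 2), |-∫ t in (0:ℝ)..η, β t| ≤ M :=
    fun η hη => hM (mem_image_of_mem _ hη)
  have hM0 : 0 ≤ M := (abs_nonneg _).trans (hM' 0 ⟨le_rfl, by positivity⟩)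
  have h := isNull_P (P := DiscP) (C₀ := 38) hF 0 hd hβ.neg (by simp) zero_le_one (by norm_num)
    hM0 (fun η hη => by rw [pow_zero, mul_one]; exact hM' η hη)
    (fun X => by rw [norm_mul, norm_I, one_mul]; exact norm_pow_le m hm X) DiscP.q_le
  refine h.congr (fun X Y η => ?_) (fun X Y => ?_)
  · unfold NG
    have e : I * ((m : ℂ) * (X - 1) ^ (m - 1)) + I * (I * (I * ((m : ℂ) * (X - 1) ^ (m - 1)))) =
        0 := by
      linear_combination (I * (m : ℂ) * (X - 1) ^ (m - 1)) * I_sq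
    rw [e]
    simp
  · simp

end Pool.Agent.Helper69.EK3
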