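import Pool.Agent.Helper52.EK.Defs
set_option autoImplicit false
open Complex Metric Set
open scoped Real ComplexConjugate

/-!
# Project EK3: fields `G` given by two pieces, inside and outside the unit circle
-/

namespace Pool.Agent.Helper69.EK3

open Pool.Agent.Helper52.EK

/-- a point of the unit circle on a segment -/
theorem exists_cross {m m' : ℂ} (h : ‖m‖ ≤ 1) (h' : 1 ≤ ‖m'‖) :
    ∃ p : ℂ, ‖p‖ = 1 ∧ ‖m - p‖ + ‖p - m'‖ = ‖m - m'‖ := by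
  have hc : Continuous (fun t : ℝ => ‖m + (t : ℂ) * (m' - m)‖) := by fun_prop
  have h1 : (1:ℝ) ∈ Icc ((fun t : ℝ => ‖m + (t : ℂ) * (m' - m)‖) 0)
      ((fun t : ℝ => ‖m + (t : ℂ) * (m' - m)‖) 1) := by
    simp only [ofReal_zero, zero_mul, add_zero, ofReal_one, one_mul, add_sub_cancel]
    exact ⟨h, h'⟩
  obtain ⟨t, ht, he⟩ := intermediate_value_Icc (zero_le_one) hc.continuousOn h1
  refine ⟨m + (t : ℂ) * (m' - m), he, ?_⟩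
  have e1 : m - (m + (t : ℂ) * (m' - m)) = (t : ℂ) * (m - m') := by ring
  have e2 : m + (t : ℂ) * (m' - m) - m' = ((1 - t : ℝ) : ℂ) * (m - m') := by
    push_cast
    ring
  rw [e1, e2, norm_mul, norm_mul, Complex.norm_real, Complex.norm_real,
    Real.norm_of_nonneg ht.1, Real.norm_of_nonneg (by linarith [ht.2])]
  ring

/-- gluing of two fields along the unit circle -/
theorem glip_glue {A B : ℂ → ℂ} {L : ℝ} (hL : 0 ≤ L)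
    (hA1 : ∀ m : ℂ, ‖m‖ ≤ 1 → ‖A m‖ ≤ 1) (hB1 : ∀ m : ℂ, 1 ≤ ‖m‖ → ‖B m‖ ≤ 1)
    (hA : ∀ m m' : ℂ, ‖m‖ ≤ 1 → ‖m'‖ ≤ 1 → ‖A m - A m'‖ ≤ L * ‖m - m'‖)
    (hB : ∀ m m' : ℂ, 1 ≤ ‖m‖ → 1 ≤ ‖m'‖ → ‖B m - B m'‖ ≤ L * ‖m - m'‖)
    (hAB : ∀ m : ℂ, ‖m‖ = 1 → A m = B m)
    (hr : ∀ u m : ℂ, ‖u‖ = 1 → 1 ≤ ‖m‖ → ‖B (u * m) - B m‖ ≤ L * ‖u - 1‖) :
    GLip (fun m => if ‖m‖ ≤ 1 then A m else B m) L := by
  have key : ∀ m m' : ℂ, ‖m‖ ≤ 1 → 1 ≤ ‖m'‖ → ‖A m - B m'‖ ≤ L * ‖m - m'‖ := by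
    intro m m' h h'
    obtain ⟨p, hp, he⟩ := exists_cross h h'
    have e : A m - B m' = (A m - A p) + (B p - B m') := by rw [hAB p hp]; ring
    rw [e]
    refine (norm_add_le _ _).trans ?_
    have h1 := hA m p h hp.le
    have h2 := hB p m' hp.ge h'
    rw [← he, mul_add]
    linarith
  refine ⟨fun m => ?_, fun m m' => ?_, fun u m hu => ?_⟩
  · split_ifs with h
    · exact hA1 m h
    · exact hB1 m (le_of_lt (not_le.mp h))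
  · split_ifs with h h' h'
    · exact hA m m' h h'
    · exact key m m' h (le_of_lt (not_le.mp h'))
    · rw [norm_sub_rev, norm_sub_rev m]
      exact key m' m h' (le_of_lt (not_le.mp h))
    · exact hB m m' (le_of_lt (not_le.mp h)) (le_of_lt (not_le.mp h'))
  · rw [norm_mul, hu, one_mul]
    split_ifs with h
    · have h1 := hA (u * m) m (by rw [norm_mul, hu, one_mul]; exact h) h
      refine h1.trans ?_
      have e : u * m - m = (u - 1) * m := by ring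
      rw [e, norm_mul]
      have := norm_nonneg (u - 1)
      have h2 : ‖u - 1‖ * ‖m‖ ≤ ‖u - 1‖ * 1 := mul_le_mul_of_nonneg_left h this
      exact mul_le_mul_of_nonneg_left (by linarith) hL
    · exact hr u m hu (le_of_lt (not_le.mp h))

/-- the outside field `2 m / (1 + |m|²)` -/
noncomputable def Bk (m : ℂ) : ℂ := 2 * m / ((1 + ‖m‖ ^ 2 : ℝ) : ℂ)

theorem Bk_eq (m : ℂ) : Bk m = ((2 / (1 + ‖m‖ ^ 2) : ℝ) : ℂ) * m := by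
  unfold Bk
  push_cast
  ring

theorem norm_Bk_le (m : ℂ) : ‖Bk m‖ ≤ 1 := by
  have hp : 0 < 1 + ‖m‖ ^ 2 := by positivity
  rw [Bk_eq, norm_mul, Complex.norm_real, Real.norm_of_nonneg (by positivity),
    div_mul_eq_mul_div, div_le_one hp]
  nlinarith [sq_nonneg (‖m‖ - 1)]

theorem Bk_conj (m : ℂ) : Bk (conj m) = conj (Bk m) := by
  unfold Bk
  rw [norm_conj, map_div₀, map_mul, conj_ofReal, map_ofNat]

theorem Bk_mul {u : ℂ} (hu : ‖u‖ = 1) (m : ℂ) : Bk (u * m) = u * Bk m := by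
  unfold Bk
  rw [norm_mul, hu, one_mul]
  ring

theorem Bk_lip (m m' : ℂ) : ‖Bk m - Bk m'‖ ≤ 2 * ‖m - m'‖ := by
  have hp : 0 < 1 + ‖m‖ ^ 2 := by positivity
  have hp' : 0 < 1 + ‖m'‖ ^ 2 := by positivity
  have e : ‖Bk m - Bk m'‖ ^ 2 * ((1 + ‖m‖ ^ 2) * (1 + ‖m'‖ ^ 2)) ≤ 4 * ‖m - m'‖ ^ 2 := by
    have c1 : ((1 + ‖m‖ ^ 2 : ℝ) : ℂ) ≠ 0 := by exact_mod_cast hp.ne'
    have c2 : ((1 + ‖m'‖ ^ 2 : ℝ) : ℂ) ≠ 0 := by exact_mod_cast hp'.ne'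
    have e1 : (Bk m - Bk m') * (((1 + ‖m‖ ^ 2) * (1 + ‖m'‖ ^ 2) : ℝ) : ℂ) =
        2 * (m * ((1 + ‖m'‖ ^ 2 : ℝ) : ℂ) - m' * ((1 + ‖m‖ ^ 2 : ℝ) : ℂ)) := by
      unfold Bk
      rw [ofReal_mul]
      field_simp
    have e2 := congrArg (fun w : ℂ => ‖w‖ ^ 2) e1
    simp only [norm_mul, mul_pow, Complex.norm_real] at e2
    rw [Real.norm_of_nonneg hp.le, Real.norm_of_nonneg hp'.le] at e2
    have e3 : ‖m * ((1 + ‖m'‖ ^ 2 : ℝ) : ℂ) - m' * ((1 + ‖m‖ ^ 2 : ℝ) : ℂ)‖ ^ 2 ≤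
        ‖m - m'‖ ^ 2 * ((1 + ‖m‖ ^ 2) * (1 + ‖m'‖ ^ 2)) := by
      have n1 : ‖m‖ ^ 2 = m.re ^ 2 + m.im ^ 2 := by
        rw [← Complex.normSq_eq_norm_sq, Complex.normSq_apply]; ring
      have n2 : ‖m'‖ ^ 2 = m'.re ^ 2 + m'.im ^ 2 := by
        rw [← Complex.normSq_eq_norm_sq, Complex.normSq_apply]; ring
      rw [n1, n2, ← Complex.normSq_eq_norm_sq, ← Complex.normSq_eq_norm_sq, Complex.normSq_apply,
        Complex.normSq_apply]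
      simp only [sub_re, sub_im, mul_re, mul_im, ofReal_re, ofReal_im]
      have : 0 ≤ (m.re ^ 2 + m.im ^ 2 - (m'.re ^ 2 + m'.im ^ 2)) ^ 2 := sq_nonneg _
      nlinarith [this]
    have h2 : ‖(2:ℂ)‖ ^ 2 = 4 := by
      simp only [Complex.norm_ofNat]
      norm_num
    rw [h2] at e2
    have hpp : 0 < (1 + ‖m‖ ^ 2) * (1 + ‖m'‖ ^ 2) := by positivity
    have e4 : (‖Bk m - Bk m'‖ ^ 2 * ((1 + ‖m‖ ^ 2) * (1 + ‖m'‖ ^ 2))) *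
        ((1 + ‖m‖ ^ 2) * (1 + ‖m'‖ ^ 2)) ≤
        (4 * ‖m - m'‖ ^ 2) * ((1 + ‖m‖ ^ 2) * (1 + ‖m'‖ ^ 2)) := by
      nlinarith
    exact le_of_mul_le_mul_right e4 hpp
  have h1 : 1 ≤ (1 + ‖m‖ ^ 2) * (1 + ‖m'‖ ^ 2) := by
    nlinarith [sq_nonneg ‖m‖, sq_nonneg ‖m'‖, mul_nonneg (sq_nonneg ‖m‖) (sq_nonneg ‖m'‖)]
  have h2 : ‖Bk m - Bk m'‖ ^ 2 ≤ (2 * ‖m - m'‖) ^ 2 := by
    have := mul_le_mul_of_nonneg_left h1 (sq_nonneg ‖Bk m - Bk m'‖)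
    nlinarith
  exact le_of_sq_le_sq h2 (by positivity)

theorem norm_sq_lip {m m' : ℂ} {r : ℝ} (h : ‖m‖ ≤ r) (h' : ‖m'‖ ≤ r) :
    |‖m‖ ^ 2 - ‖m'‖ ^ 2| ≤ 2 * r * ‖m - m'‖ := by
  have e : ‖m‖ ^ 2 - ‖m'‖ ^ 2 = (‖m‖ + ‖m'‖) * (‖m‖ - ‖m'‖) := by ring
  rw [e, abs_mul, abs_of_nonneg (by positivity)]
  exact mul_le_mul (by linarith) (abs_norm_sub_norm_le m m') (abs_nonneg _)
    (by have := norm_nonneg m; linarith)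

/-- the level `(1 - |m|²) / (1 - ρ |m + 1|²)` -/
noncomputable def lv (ρ : ℝ) (m : ℂ) : ℝ := (1 - ‖m‖ ^ 2) / (1 - ρ * ‖m + 1‖ ^ 2)

/-- the inside field `(1 + a l) m + b l` -/
noncomputable def Ak (a b ρ : ℝ) (m : ℂ) : ℂ :=
  m + ((lv ρ m : ℝ) : ℂ) * ((a : ℂ) * m + (b : ℂ))

theorem lv_den {ρ : ℝ} (h0 : 0 ≤ ρ) (h1 : 8 * ρ ≤ 1) {m : ℂ} (hm : ‖m‖ ≤ 1) :
    1 / 2 ≤ 1 - ρ * ‖m + 1‖ ^ 2 ∧ 1 - ρ * ‖m + 1‖ ^ 2 ≤ 1 := by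
  have h2 : ‖m + 1‖ ≤ 2 := by
    have := norm_add_le m 1
    rw [norm_one] at this
    linarith
  have h3 : ‖m + 1‖ ^ 2 ≤ 4 := by nlinarith [norm_nonneg (m + 1)]
  constructor
  · nlinarith [mul_le_mul_of_nonneg_left h3 h0]
  · nlinarith [mul_nonneg h0 (sq_nonneg ‖m + 1‖)]

theorem lv_bd {ρ : ℝ} (h0 : 0 ≤ ρ) (h1 : 8 * ρ ≤ 1) {m : ℂ} (hm : ‖m‖ ≤ 1) :
    0 ≤ lv ρ m ∧ lv ρ m ≤ 2 * (1 - ‖m‖ ^ 2) := by
  obtain ⟨d1, _⟩ := lv_den h0 h1 hm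
  have hn : 0 ≤ 1 - ‖m‖ ^ 2 := by nlinarith [norm_nonneg m]
  unfold lv
  refine ⟨div_nonneg hn (by linarith), ?_⟩
  rw [div_le_iff₀ (by linarith)]
  nlinarith

theorem lv_lip {ρ : ℝ} (h0 : 0 ≤ ρ) (h1 : 8 * ρ ≤ 1) {m m' : ℂ} (hm : ‖m‖ ≤ 1)
    (hm' : ‖m'‖ ≤ 1) : |lv ρ m - lv ρ m'| ≤ 6 * ‖m - m'‖ := by
  obtain ⟨d1, d1'⟩ := lv_den h0 h1 hm
  obtain ⟨d2, d2'⟩ := lv_den h0 h1 hm'
  have hn : 0 ≤ 1 - ‖m'‖ ^ 2 := by nlinarith [norm_nonneg m']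
  have hn1 : 1 - ‖m'‖ ^ 2 ≤ 1 := by nlinarith [sq_nonneg ‖m'‖]
  have p1 : 0 < 1 - ρ * ‖m + 1‖ ^ 2 := by linarith
  have p2 : 0 < 1 - ρ * ‖m' + 1‖ ^ 2 := by linarith
  have s1 := abs_le.1 (norm_sq_lip hm hm')
  have k1 : ‖m + 1‖ ≤ 2 := by
    have := norm_add_le m 1
    rw [norm_one] at this
    linarith
  have k2 : ‖m' + 1‖ ≤ 2 := by
    have := norm_add_le m' 1
    rw [norm_one] at this
    linarith
  have s2 := abs_le.1 (norm_sq_lip k1 k2)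
  rw [add_sub_add_right_eq_sub] at s2
  have e : lv ρ m - lv ρ m' = (‖m'‖ ^ 2 - ‖m‖ ^ 2) / (1 - ρ * ‖m + 1‖ ^ 2) +
      (1 - ‖m'‖ ^ 2) * (ρ * (‖m + 1‖ ^ 2 - ‖m' + 1‖ ^ 2)) /
        ((1 - ρ * ‖m + 1‖ ^ 2) * (1 - ρ * ‖m' + 1‖ ^ 2)) := by
    unfold lv
    field_simp
    ring
  have hN := norm_nonneg (m - m')
  have b1 : |(‖m'‖ ^ 2 - ‖m‖ ^ 2) / (1 - ρ * ‖m + 1‖ ^ 2)| ≤ 4 * ‖m - m'‖ := by
    rw [abs_div, abs_of_pos p1, div_le_iff₀ p1]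
    have : |‖m'‖ ^ 2 - ‖m‖ ^ 2| ≤ 2 * ‖m - m'‖ := abs_le.2 ⟨by linarith [s1.2], by linarith [s1.1]⟩
    nlinarith
  have b2 : |(1 - ‖m'‖ ^ 2) * (ρ * (‖m + 1‖ ^ 2 - ‖m' + 1‖ ^ 2)) /
        ((1 - ρ * ‖m + 1‖ ^ 2) * (1 - ρ * ‖m' + 1‖ ^ 2))| ≤ 2 * ‖m - m'‖ := by
    rw [abs_div, abs_of_pos (mul_pos p1 p2), div_le_iff₀ (mul_pos p1 p2), abs_mul,
      abs_of_nonneg hn, abs_mul, abs_of_nonneg h0]
    have t1 : |‖m + 1‖ ^ 2 - ‖m' + 1‖ ^ 2| ≤ 4 * ‖m - m'‖ :=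
      abs_le.2 ⟨by linarith [s2.1], by linarith [s2.2]⟩
    have t2 : ρ * |‖m + 1‖ ^ 2 - ‖m' + 1‖ ^ 2| ≤ 1 / 8 * (4 * ‖m - m'‖) :=
      mul_le_mul (by linarith) t1 (abs_nonneg _) (by norm_num)
    have t3 : (1 - ‖m'‖ ^ 2) * (ρ * |‖m + 1‖ ^ 2 - ‖m' + 1‖ ^ 2|) ≤
        1 * (1 / 8 * (4 * ‖m - m'‖)) :=
      mul_le_mul hn1 t2 (mul_nonneg h0 (abs_nonneg _)) (by norm_num)
    have t4 : 1 / 4 ≤ (1 - ρ * ‖m + 1‖ ^ 2) * (1 - ρ * ‖m' + 1‖ ^ 2) := by nlinarith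
    nlinarith
  rw [e]
  refine (abs_add_le _ _).trans ?_
  linarith

theorem Ak_lip {a b ρ : ℝ} (h0 : 0 ≤ ρ) (h1 : 8 * ρ ≤ 1) (ha : |a| ≤ 1) (hb : |b| ≤ 1)
    {m m' : ℂ} (hm : ‖m‖ ≤ 1) (hm' : ‖m'‖ ≤ 1) : ‖Ak a b ρ m - Ak a b ρ m'‖ ≤ 15 * ‖m - m'‖ := by
  have e : Ak a b ρ m - Ak a b ρ m' = (m - m') +
      ((lv ρ m - lv ρ m' : ℝ) : ℂ) * ((a : ℂ) * m + (b : ℂ)) +
        ((lv ρ m' * a : ℝ) : ℂ) * (m - m') := by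
    unfold Ak
    push_cast
    ring
  have k1 := lv_lip h0 h1 hm hm'
  obtain ⟨k2, k3⟩ := lv_bd h0 h1 hm'
  have k4 : lv ρ m' ≤ 2 := by nlinarith [sq_nonneg ‖m'‖]
  have k5 : ‖(a : ℂ) * m + (b : ℂ)‖ ≤ 2 := by
    refine (norm_add_le _ _).trans ?_
    rw [norm_mul, Complex.norm_real, Complex.norm_real, Real.norm_eq_abs, Real.norm_eq_abs]
    have := mul_le_mul ha hm (norm_nonneg m) zero_le_one
    linarith
  have hN := norm_nonneg (m - m')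
  rw [e]
  refine (norm_add_le _ _).trans ?_
  have t1 := norm_add_le (m - m') (((lv ρ m - lv ρ m' : ℝ) : ℂ) * ((a : ℂ) * m + (b : ℂ)))
  rw [norm_mul, Complex.norm_real, Real.norm_eq_abs] at t1
  rw [norm_mul, Complex.norm_real, Real.norm_eq_abs, abs_mul, abs_of_nonneg k2]
  have t2 : |lv ρ m - lv ρ m'| * ‖(a : ℂ) * m + (b : ℂ)‖ ≤ (6 * ‖m - m'‖) * 2 :=
    mul_le_mul k1 k5 (norm_nonneg _) (by positivity)
  have t3 : lv ρ m' * |a| ≤ 2 * 1 := mul_le_mul k4 ha (abs_nonneg a) (by norm_num)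
  nlinarith [mul_le_mul_of_nonneg_right t3 hN]

theorem Ak_conj (a b ρ : ℝ) (m : ℂ) : Ak a b ρ (conj m) = conj (Ak a b ρ m) := by
  have h : lv ρ (conj m) = lv ρ m := by
    unfold lv
    have e : conj m + 1 = conj (m + 1) := by simp
    rw [e, norm_conj, norm_conj]
  unfold Ak
  rw [h]
  simp only [map_add, map_mul, conj_ofReal]

theorem Ak_circle {a b ρ : ℝ} {m : ℂ} (hm : ‖m‖ = 1) : Ak a b ρ m = m := by
  have h : lv ρ m = 0 := by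
    unfold lv
    rw [hm]
    simp
  unfold Ak
  rw [h]
  simp

theorem Bk_circle {m : ℂ} (hm : ‖m‖ = 1) : Bk m = m := by
  unfold Bk
  rw [hm]
  norm_num

/-- `|G| ≤ 1` inside, for `|a| + |b| ≤ 1/4` -/
theorem norm_Ak_le {a b ρ : ℝ} (h0 : 0 ≤ ρ) (h1 : 8 * ρ ≤ 1) (hab : |a| + |b| ≤ 1 / 4)
    {m : ℂ} (hm : ‖m‖ ≤ 1) : ‖Ak a b ρ m‖ ≤ 1 := by
  obtain ⟨k2, k3⟩ := lv_bd h0 h1 hm
  have hm0 := norm_nonneg m
  have k5 : ‖(a : ℂ) * m + (b : ℂ)‖ ≤ 1 / 4 := by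
    refine (norm_add_le _ _).trans ?_
    rw [norm_mul, Complex.norm_real, Complex.norm_real, Real.norm_eq_abs, Real.norm_eq_abs]
    have := mul_le_mul_of_nonneg_left hm (abs_nonneg a)
    linarith
  unfold Ak
  refine (norm_add_le _ _).trans ?_
  rw [norm_mul, Complex.norm_real, Real.norm_of_nonneg k2]
  have t : lv ρ m * ‖(a : ℂ) * m + (b : ℂ)‖ ≤ (2 * (1 - ‖m‖ ^ 2)) * (1 / 4) :=
    mul_le_mul k3 k5 (norm_nonneg _) (by nlinarith)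
  nlinarith

/-- **the glued field** -/
noncomputable def Gk (a b ρ : ℝ) (m : ℂ) : ℂ := if ‖m‖ ≤ 1 then Ak a b ρ m else Bk m

theorem Gk_glip {a b ρ : ℝ} (h0 : 0 ≤ ρ) (h1 : 8 * ρ ≤ 1) (hab : |a| + |b| ≤ 1 / 4) :
    GLip (Gk a b ρ) 15 := by
  have ha : |a| ≤ 1 := by linarith [abs_nonneg b]
  have hb : |b| ≤ 1 := by linarith [abs_nonneg a]
  refine glip_glue (by norm_num) (fun m hm => norm_Ak_le h0 h1 hab hm) (fun m _ => norm_Bk_le m)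
    (fun m m' hm hm' => Ak_lip h0 h1 ha hb hm hm') (fun m m' _ _ => ?_)
    (fun m hm => by rw [Ak_circle hm, Bk_circle hm]) (fun u m hu _ => ?_)
  · refine (Bk_lip m m').trans ?_
    have := norm_nonneg (m - m')
    linarith
  · rw [Bk_mul hu]
    have e : u * Bk m - Bk m = (u - 1) * Bk m := by ring
    rw [e, norm_mul]
    have := norm_nonneg (u - 1)
    have h2 := mul_le_mul_of_nonneg_left (norm_Bk_le m) this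
    linarith

theorem Gk_conj (a b ρ : ℝ) (m : ℂ) : Gk a b ρ (conj m) = conj (Gk a b ρ m) := by
  unfold Gk
  rw [norm_conj]
  split_ifs
  · exact Ak_conj a b ρ m
  · exact Bk_conj m

end Pool.Agent.Helper69.EK3
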