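import Pool.Agent.Helper69.EK3.Asm
import Pool.Agent.Helper69.EK3.Glue
import Pool.Agent.Helper61.EK.GibbsOf
import Pool.Agent.Helper5.EK.Entropy
import Pool.Agent.Helper28.EK.E6d
import Pool.Agent.Helper32.EK.Final
import Pool.Agent.Helper26.EK.KfCont
set_option autoImplicit false
open Complex MeasureTheory Metric Set
open scoped Real ComplexConjugate

/-!
# Project EK3: from the data of a certificate to the integral means
-/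

namespace Pool.Agent.Helper69.EK3

open Pool.Sos71
open Pool.EK71 Pool.Agent.Helper52.EK Pool.Agent.Helper2.EK
open Pool.Agent.Helper71.EK3 (DL xL yL r2L FL G2L e_D e_x e_y e_r2 e_F e_G2)
open Pool.Agent.Helper71.EKC (Da Da_pos pw2 e_pw sb2 e_sb c1_unique c1_conj)

namespace Dat

/-- conditions on the data; `Ln / Ld` is the bound of `l` inside the disc -/
structure Ok (c : Dat) (Ln Ld : ℤ) : Prop where
  wf : c.wf = true
  M0 : 0 < c.M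
  lam0 : 0 ≤ c.lam
  c10 : 0 ≤ c.c1
  isg : c.fi.sg = 1
  iaa : c.M * c.fi.Maa = c.fi.Ma ^ 2
  iab : c.M * c.fi.Mab = c.fi.Ma * c.fi.Mb
  ibb : c.M * c.fi.Mbb = c.fi.Mb ^ 2
  isz : 4 * (|c.fi.Ma| + |c.fi.Mb|) ≤ c.M
  ir : 0 < c.fi.r
  ir0 : c.fi.r0 = c.fi.r
  ir1 : c.fi.r1 ≤ 0
  ir8 : - (8 * c.fi.r1) ≤ c.fi.r
  ir2 : c.fi.r2 = 0
  osg : c.fo.sg = -1
  oa : 2 * c.fo.Ma = c.M
  ob : c.fo.Mb = 0
  oaa : 4 * c.fo.Maa = c.M
  oab : c.fo.Mab = 0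
  obb : c.fo.Mbb = 0
  or : 0 < c.fo.r
  or0 : 2 * c.fo.r0 = c.fo.r
  or1 : c.fo.r1 = 0
  or2 : 2 * c.fo.r2 = c.fo.r
  Ld0 : 0 < Ld
  LA : 0 < Ld * c.fi.r + Ln * c.fi.r1
  LB : Ln ^ 2 * c.fi.r1 ^ 2 ≤ (Ld * c.fi.r + Ln * c.fi.r1) * (Ln * (c.fi.r + c.fi.r1) - Ld * c.fi.r)

variable {c : Dat} {Ln Ld : ℤ}

theorem div_sq' {M a b : ℤ} (hM : 0 < M) (h : M * b = a ^ 2) : (b : ℝ) = M * ((a : ℝ) / M) ^ 2 := by
  have hM' : (M : ℝ) ≠ 0 := by exact_mod_cast hM.ne'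
  have h' : (M : ℝ) * b = a ^ 2 := by exact_mod_cast h
  field_simp
  linear_combination h'

theorem div_mul' {M a b d : ℤ} (hM : 0 < M) (h : M * d = a * b) :
    (d : ℝ) = M * ((a : ℝ) / M * ((b : ℝ) / M)) := by
  have hM' : (M : ℝ) ≠ 0 := by exact_mod_cast hM.ne'
  have h' : (M : ℝ) * d = a * b := by exact_mod_cast h
  field_simp
  linear_combination h'

/-- the bound of `l` inside the disc -/
theorem lv_le {r r1 Ln Ld : ℤ} (hr : 0 < r) (h1 : r1 ≤ 0) (h8 : - (8 * r1) ≤ r) (hd : 0 < Ld)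
    (hA : 0 < Ld * r + Ln * r1)
    (hB : Ln ^ 2 * r1 ^ 2 ≤ (Ld * r + Ln * r1) * (Ln * (r + r1) - Ld * r)) {m : ℂ}
    (hm : ‖m‖ ≤ 1) : (Ld : ℝ) * lv (-(r1 : ℝ) / r) m ≤ Ln := by
  have hr' : (0:ℝ) < r := by exact_mod_cast hr
  have h1' : (r1 : ℝ) ≤ 0 := by exact_mod_cast h1
  have h8' : -(8 * (r1 : ℝ)) ≤ r := by exact_mod_cast h8
  have hd' : (0:ℝ) < Ld := by exact_mod_cast hd
  have hA' : (0:ℝ) < Ld * r + Ln * r1 := by exact_mod_cast hA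
  have hB' : (Ln:ℝ) ^ 2 * r1 ^ 2 ≤ (Ld * r + Ln * r1) * (Ln * (r + r1) - Ld * r) := by
    exact_mod_cast hB
  obtain ⟨d1, d2⟩ := lv_den (ρ := -(r1 : ℝ) / r) (div_nonneg (by linarith) hr'.le) (by
    rw [mul_div_assoc', div_le_one hr']
    linarith) hm
  unfold lv
  rw [mul_div_assoc', div_le_iff₀ (by linarith)]
  have e : (Ln : ℝ) * (1 - -(r1 : ℝ) / r * ‖m + 1‖ ^ 2) =
      (Ln * (r + r1 * ‖m + 1‖ ^ 2)) / r := by
    field_simp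
    ring
  rw [e, le_div_iff₀ hr', nq_sq, nq_sq]
  simp only [add_re, add_im, one_re, one_im, add_zero]
  -- Ld r (1 - x² - y²) ≤ Ln (r + r1 ((x+1)² + y²))
  set A : ℝ := Ld * r + Ln * r1 with hAdef
  have h3 : 0 ≤ A * (m.re ^ 2 + m.im ^ 2) + 2 * Ln * r1 * m.re + (Ln * (r + r1) - Ld * r) := by
    have h4 : 0 ≤ A * (A * (m.re ^ 2 + m.im ^ 2) + 2 * Ln * r1 * m.re +
        (Ln * (r + r1) - Ld * r)) := by
      have e2 : A * (A * (m.re ^ 2 + m.im ^ 2) + 2 * Ln * r1 * m.re +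
        (Ln * (r + r1) - Ld * r)) = (A * m.re + Ln * r1) ^ 2 + (A * m.im) ^ 2 +
          (A * (Ln * (r + r1) - Ld * r) - (Ln:ℝ) ^ 2 * r1 ^ 2) := by ring
      rw [e2]
      have := sq_nonneg (A * m.re + Ln * r1)
      have := sq_nonneg (A * m.im)
      linarith
    exact nonneg_of_mul_nonneg_right h4 hA'
  rw [hAdef] at h3
  linarith

/-- the field of the certificate -/
noncomputable def Gf (c : Dat) : ℂ → ℂ :=
  Gk ((c.fi.Ma : ℝ) / c.M) ((c.fi.Mb : ℝ) / c.M) (-(c.fi.r1 : ℝ) / c.fi.r)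

theorem Ok.rho (o : c.Ok Ln Ld) : 0 ≤ -(c.fi.r1 : ℝ) / c.fi.r ∧ 8 * (-(c.fi.r1 : ℝ) / c.fi.r) ≤ 1 := by
  have hr' : (0:ℝ) < c.fi.r := by exact_mod_cast o.ir
  have h1' : (c.fi.r1 : ℝ) ≤ 0 := by exact_mod_cast o.ir1
  have h8' : -(8 * (c.fi.r1 : ℝ)) ≤ c.fi.r := by exact_mod_cast o.ir8
  refine ⟨div_nonneg (by linarith) hr'.le, ?_⟩
  rw [mul_div_assoc', div_le_one hr']
  linarith

theorem Ok.glip (o : c.Ok Ln Ld) : GLip c.Gf 15 := by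
  obtain ⟨h1, h2⟩ := o.rho
  have hM : (0:ℝ) < c.M := by exact_mod_cast o.M0
  refine Gk_glip h1 h2 ?_
  have h3 : 4 * (|(c.fi.Ma : ℝ)| + |(c.fi.Mb : ℝ)|) ≤ c.M := by exact_mod_cast o.isz
  rw [abs_div, abs_div, abs_of_pos hM, ← add_div, div_le_iff₀ hM]
  linarith

theorem half_bd {η : ℝ} (hη : η ∈ Icc (0:ℝ) (π / 2)) :
    0 ≤ Real.sin (η / 2) ∧ Real.sin (η / 2) ≤ Real.cos (η / 2) := by
  have hp := Real.pi_pos
  refine ⟨Real.sin_nonneg_of_nonneg_of_le_pi (by linarith [hη.1]) (by linarith [hη.2]), ?_⟩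
  have h1 : Real.sin (η / 2) ≤ Real.sin (π / 4) :=
    Real.sin_le_sin_of_le_of_le_pi_div_two (by linarith [hη.1]) (by linarith) (by linarith [hη.2])
  have h2 : Real.cos (π / 4) ≤ Real.cos (η / 2) :=
    Real.cos_le_cos_of_nonneg_of_le_pi (by linarith [hη.1]) (by linarith) (by linarith [hη.2])
  rw [Real.sin_pi_div_four] at h1
  rw [Real.cos_pi_div_four] at h2
  exact h1.trans h2

theorem tSide_re (w : c.Wf) (f : Sd) {X Y : ℂ} (hX : X ≠ 0) (l η : ℝ)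
    (h : (eCon f).re (px l η X Y) = 0) : (c.tSide f).re (px l η X Y) =
    Da c.a X.re X.im ^ c.K * (c.NT X Y η + (c.lam * ‖X - 1‖ ^ 2 +
      c.a2 * ((X.re - 1) ^ 2 - X.im ^ 2)) - (eTT c.M f).re (px l η X Y)) := by
  have e : (c.tSide f).re (px l η X Y) = c.tN.re (px l η X Y) +
      (((eo.re (px l η X Y)) ^ (c.h - 2) * ev2 (X.re - 1) X.im (sm2 (-1) (Dn c.a c.K))) *
        (eTT c.M f).re (px l η X Y) + (c.tMul f).re (px l η X Y) * (eCon f).re (px l η X Y)) := rfl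
  rw [e, h, tN_re w hX, px_o, one_pow, ev2_sm, Dn_ev]
  push_cast
  ring

/-- the pointwise inequality -/
theorem Ok.point (o : c.Ok Ln Ld)
    (hIn : ∀ x : Pnt, 0 ≤ x.b → x.b ≤ x.c → 0 ≤ x.a → (Ld : ℝ) * x.a ≤ Ln → 0 ≤ c.tIn.re x)
    (hOut : ∀ x : Pnt, 0 ≤ x.b → x.b ≤ x.c → 0 ≤ x.a → x.a ≤ 2 → 0 ≤ c.tOut.re x)
    {X Y : ℂ} (hX : X ≠ 0) {η : ℝ} (hη : η ∈ Icc (0:ℝ) (π / 2)) :
    c.M * TG c.Gf X Y (Real.sin η) (Real.cos η) ≤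
      c.NT X Y η + (c.lam * ‖X - 1‖ ^ 2 + c.a2 * ((X.re - 1) ^ 2 - X.im ^ 2)) := by
  obtain ⟨b1, b2⟩ := half_bd hη
  have w := wf_iff c o.wf
  have hM : (0:ℝ) < c.M := by exact_mod_cast o.M0
  have hD : 0 < Da c.a X.re X.im ^ c.K := pow_pos (Da_pos _ _ _) _
  obtain ⟨r1, r2⟩ := o.rho
  unfold TG Gf Gk
  set m := mX X Y (Real.sin η) (Real.cos η) with hm
  by_cases h1 : ‖m‖ ≤ 1
  · rw [if_pos h1]
    have hr : (0:ℝ) < c.fi.r := by exact_mod_cast o.ir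
    obtain ⟨l, hl⟩ : ∃ l : ℝ, l = lv (-(c.fi.r1 : ℝ) / c.fi.r) m := ⟨_, rfl⟩
    obtain ⟨d1, _⟩ := lv_den r1 r2 h1
    have hsg : (c.fi.sg : ℝ) = 1 := by exact_mod_cast o.isg
    have hr0 : (c.fi.r0 : ℝ) = c.fi.r := by exact_mod_cast o.ir0
    have hr2 : (c.fi.r2 : ℝ) = 0 := by exact_mod_cast o.ir2
    have hc : (eCon c.fi).re (px l η X Y) = 0 := by
      rw [px_Con, ← hm, hsg, hr0, hr2]
      have h3 : l * (1 - -(c.fi.r1 : ℝ) / c.fi.r * ‖m + 1‖ ^ 2) = 1 - ‖m‖ ^ 2 := by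
        rw [hl, lv]
        exact div_mul_cancel₀ _ (by linarith)
      have h4 : c.fi.r * (1 - -(c.fi.r1 : ℝ) / c.fi.r * ‖m + 1‖ ^ 2) =
          c.fi.r + c.fi.r1 * ‖m + 1‖ ^ 2 := by
        field_simp
        ring
      linear_combination c.fi.r * h3 - l * h4
    have h5 := hIn (px l η X Y) b1 b2 (by rw [hl] at *; exact (lv_bd r1 r2 h1).1)
      (by
        show (Ld : ℝ) * l ≤ Ln
        rw [hl]
        exact lv_le o.ir o.ir1 o.ir8 o.Ld0 o.LA o.LB h1)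
    have h6 : c.tIn.re (px l η X Y) = _ := tSide_re w c.fi (Y := Y) hX l η hc
    rw [h6] at h5
    have h7 := nonneg_of_mul_nonneg_right h5 hD
    rw [px_TT (α := (c.fi.Ma : ℝ) / c.M) (β := (c.fi.Mb : ℝ) / c.M) l η X Y
      (by field_simp) (by field_simp) (div_sq' o.M0 o.iaa) (div_mul' o.M0 o.iab)
      (div_sq' o.M0 o.ibb) (by rw [hsg]; norm_num), ← hm, hsg, one_mul] at h7
    unfold Ak
    rw [← hl]
    linarith
  · rw [if_neg h1]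
    have h1' : 1 < ‖m‖ := not_le.1 h1
    obtain ⟨l, hl⟩ : ∃ l : ℝ, l = 2 * (‖m‖ ^ 2 - 1) / (1 + ‖m‖ ^ 2) := ⟨_, rfl⟩
    have hp : 0 < 1 + ‖m‖ ^ 2 := by positivity
    have hl' : l * (1 + ‖m‖ ^ 2) = 2 * (‖m‖ ^ 2 - 1) := by
      rw [hl]
      exact div_mul_cancel₀ _ hp.ne'
    have hsg : (c.fo.sg : ℝ) = -1 := by exact_mod_cast o.osg
    have hr0 : 2 * (c.fo.r0 : ℝ) = c.fo.r := by exact_mod_cast o.or0
    have hr1 : (c.fo.r1 : ℝ) = 0 := by exact_mod_cast o.or1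
    have hr2 : 2 * (c.fo.r2 : ℝ) = c.fo.r := by exact_mod_cast o.or2
    have hc : (eCon c.fo).re (px l η X Y) = 0 := by
      rw [px_Con, ← hm, hsg, hr1]
      linear_combination (-(c.fo.r : ℝ) / 2) * hl' - l / 2 * hr0 - l / 2 * ‖m‖ ^ 2 * hr2
    have h5 := hOut (px l η X Y) b1 b2
      (by
        show 0 ≤ l
        rw [hl]
        have : 1 ≤ ‖m‖ ^ 2 := by nlinarith
        exact div_nonneg (by linarith) hp.le)
      (by
        show l ≤ 2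
        rw [hl, div_le_iff₀ hp]
        linarith)
    have h6 : c.tOut.re (px l η X Y) = _ := tSide_re w c.fo (Y := Y) hX l η hc
    rw [h6] at h5
    have h7 := nonneg_of_mul_nonneg_right h5 hD
    have oa : 2 * (c.fo.Ma : ℝ) = c.M := by exact_mod_cast o.oa
    have ob : (c.fo.Mb : ℝ) = 0 := by exact_mod_cast o.ob
    have oaa : 4 * (c.fo.Maa : ℝ) = c.M := by exact_mod_cast o.oaa
    have oab : (c.fo.Mab : ℝ) = 0 := by exact_mod_cast o.oab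
    have obb : (c.fo.Mbb : ℝ) = 0 := by exact_mod_cast o.obb
    rw [px_TT (α := 1 / 2) (β := 0) l η X Y (by linarith) (by rw [ob]; ring)
      (by linarith) (by rw [oab]; ring) (by rw [obb]; ring) (by rw [hsg]; norm_num), ← hm,
      hsg] at h7
    have e : m + ((-1 * l : ℝ) : ℂ) * (((1 / 2 : ℝ) : ℂ) * m + ((0:ℝ) : ℂ)) = Bk m := by
      rw [Bk_eq]
      have h8 : 2 / (1 + ‖m‖ ^ 2) = 1 - l / 2 := by
        rw [div_eq_iff hp.ne']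
        linear_combination hl' / 2
      rw [h8]
      push_cast
      ring
    rw [e] at h7
    linarith

theorem pi_err {p : ℝ} (hp : p = 355 / 113) : 0 ≤ p - π ∧ (p - π) / π ≤ 1 / 10 ^ 7 := by
  have h1 := Real.pi_gt_d20
  have h2 := Real.pi_lt_d20
  have h3 := Real.pi_pos
  subst hp
  refine ⟨by norm_num at h2 ⊢; linarith, ?_⟩
  rw [div_le_iff₀ h3]
  norm_num at h1 ⊢
  linarith

theorem disc_im {X : ℂ} (hX : ‖X‖ ≤ 1) : |(X.re - 1) ^ 2 - X.im ^ 2| ≤ 2 * (1 - X.re) := by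
  have h1 : X.re ^ 2 + X.im ^ 2 ≤ 1 := by
    rw [← nq_sq]
    nlinarith [norm_nonneg X]
  have h2 : X.re ≤ 1 := (Complex.re_le_norm X).trans hX
  rw [abs_le]
  constructor
  · nlinarith [sq_nonneg (X.re - 1)]
  · nlinarith [sq_nonneg X.im]

/-- **the bound for one target from the data** -/
theorem Ok.K_one (o : c.Ok Ln Ld)
    (hIn : ∀ x : Pnt, 0 ≤ x.b → x.b ≤ x.c → 0 ≤ x.a → (Ld : ℝ) * x.a ≤ Ln → 0 ≤ c.tIn.re x)
    (hOut : ∀ x : Pnt, 0 ≤ x.b → x.b ≤ x.c → 0 ≤ x.a → x.a ≤ 2 → 0 ≤ c.tOut.re x)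
    (hCen : ∀ x : Pnt, 0 ≤ -2 * x.f - x.f ^ 2 - x.g ^ 2 → 0 ≤ (Ex.bp c.cen).re x)
    {κ : ℝ} (hκ : (c.lam : ℝ) + c.c1 + (c.c1 + 2 * |(c.a2 : ℝ)|) / 10 ^ 7 < 2 * κ * c.M) :
    ∃ C a₀ : ℝ, a₀ < 1 ∧ ∀ (β : ℂ → ℂ) (R a : ℝ), ExtR β R → a₀ < a → a < 1 →
      Kf (Pool.Agent.Helper52.EK.wf c.Gf β) 1 (-1) (Real.log a) ≤ κ * Real.log (‖N β a‖ / (1 - a ^ 2)) + C := by
  have w := wf_iff c o.wf
  have hM : (0:ℝ) < c.M := by exact_mod_cast o.M0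
  have hlam : (0:ℝ) ≤ c.lam := by exact_mod_cast o.lam0
  have hc1 : (0:ℝ) ≤ c.c1 := by exact_mod_cast o.c10
  obtain ⟨p, hp⟩ : ∃ p : ℝ, p = 355 / 113 := ⟨_, rfl⟩
  obtain ⟨q1, q2⟩ := pi_err hp
  have hpi := Real.pi_pos
  obtain ⟨ε, hε⟩ : ∃ ε : ℝ, ε = (c.c1 + 2 * |(c.a2 : ℝ)|) * ((p - π) / π) := ⟨_, rfl⟩
  have hA : 0 ≤ (c.c1 : ℝ) + 2 * |(c.a2 : ℝ)| := by positivity
  have hε0 : 0 ≤ ε := by
    rw [hε]
    exact mul_nonneg hA (div_nonneg q1 hpi.le)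
  have hε1 : ε ≤ (c.c1 + 2 * |(c.a2 : ℝ)|) / 10 ^ 7 := by
    rw [hε, div_eq_mul_one_div (_ + _ : ℝ) (10 ^ 7 : ℝ)]
    exact mul_le_mul_of_nonneg_left q2 hA
  have hεπ : ε * π = (c.c1 + 2 * |(c.a2 : ℝ)|) * (p - π) := by
    rw [hε]
    field_simp
  obtain ⟨k, hk⟩ : ∃ k : ℝ, k = c.c1 + ε := ⟨_, rfl⟩
  -- the null Lagrangian
  have n1 := (isNull_har (β := fun _ => (1:ℝ)) continuous_const 2 le_rfl).const_mul (c.a2 : ℝ)
  have n2 := (isNull_har (β := fun _ => (1:ℝ)) continuous_const 1 (by norm_num)).const_mul k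
  have hN := (((isNull_NT w).add n1).add n2).const_mul (1 / (c.M : ℝ))
  have hre2 : ∀ X : ℂ, ((X - 1) ^ 2).re = (X.re - 1) ^ 2 - X.im ^ 2 := by
    intro X
    rw [pow_two (X - 1), mul_re]
    simp
    ring
  have hre1 : ∀ X : ℂ, ((X - 1) ^ 1).re = X.re - 1 := by
    intro X
    simp
  have hint : ∫ _ in (0:ℝ)..(π / 2), (1:ℝ) = π / 2 := by simp
  obtain ⟨Ecx, Ecy, hEc⟩ := Ecp_c1 (c := c) k π
  refine K_one3_b (P := DiscP) discP_Xf (lam := c.lam / c.M) (k₂ := (c.lam + k) / c.M)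
    (D := 0) (div_nonneg hlam hM.le) ?_ ?_ o.glip (Gk_conj _ _ _) hN ?_
    (c1_const 0) (c1_mul (c1_const (1 / (c.M : ℝ))) hEc) ?_ ?_
  · rw [div_le_div_iff_of_pos_right hM, hk]
    linarith
  · rw [div_lt_iff₀ hM, hk]
    linarith
  · intro X x₁ x₂ _ hX _
    refine ⟨fun _ => 0, continuous_const, fun _ => le_rfl, by simp, fun ξ hξ η hη => ?_⟩
    have hne := hX.ne _ (pt_mem_RectH hξ hη)
    have h1 := o.point hIn hOut hne (Y := deriv X (pt ξ η)) hη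
    generalize X (pt ξ η) = Z at *
    generalize deriv X (pt ξ η) = Y at *
    have e0 : ‖Z - 1‖ ^ 2 = ‖Z‖ ^ 2 - 2 * Z.re + 1 := by
      rw [nq_sq, nq_sq]
      simp
      ring
    rw [e0] at h1
    rw [hre2, hre1]
    have h2 : TG c.Gf Z Y (Real.sin η) (Real.cos η) ≤ (c.NT Z Y η + (c.lam *
        (‖Z‖ ^ 2 - 2 * Z.re + 1) + c.a2 * ((Z.re - 1) ^ 2 - Z.im ^ 2))) / c.M := by
      rw [le_div_iff₀ hM]
      linarith
    refine h2.trans (le_of_eq ?_)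
    field_simp
    ring
  · intro X Y hX
    have h1 := KT_conj w X Y k
    rw [hint, hre2, hre1, hre2, hre1]
    simp only [zero_mul, add_zero]
    linear_combination (1 / (c.M : ℝ)) * h1
  · intro X hX
    refine mul_nonneg (by positivity) ?_
    have h1 : 0 ≤ (Ex.bp c.cen).re ⟨0, 0, 0, 0, 0, X.re - 1, X.im⟩ := by
      apply hCen
      show 0 ≤ -2 * (X.re - 1) - (X.re - 1) ^ 2 - X.im ^ 2
      have h1 : X.re ^ 2 + X.im ^ 2 ≤ 1 := by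
        rw [← nq_sq]
        nlinarith [norm_nonneg X]
      linarith
    have h2 : (Ex.bp c.cen).re ⟨0, 0, 0, 0, 0, X.re - 1, X.im⟩ = ev2 (X.re - 1) X.im c.cen := rfl
    rw [h2, cen_ev w, ← hp] at h1
    have h3 : 0 ≤ c.Ecp c.c1 p X := by
      refine nonneg_of_mul_nonneg_right h1 ?_
      have := pow_pos (Da_pos c.a X.re X.im) c.K
      positivity
    have h4 : c.Ecp k π X - c.Ecp c.c1 p X = (ε * π - c.c1 * (p - π)) * (1 - X.re) +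
        c.a2 * (p - π) * ((X.re - 1) ^ 2 - X.im ^ 2) := by
      unfold Ecp
      rw [hk]
      ring
    rw [hεπ] at h4
    have h5 := disc_im hX
    have h6 : -(|(c.a2 : ℝ)| * (2 * (1 - X.re))) ≤ c.a2 * ((X.re - 1) ^ 2 - X.im ^ 2) := by
      have h7 : |(c.a2 : ℝ) * ((X.re - 1) ^ 2 - X.im ^ 2)| ≤ |(c.a2 : ℝ)| * (2 * (1 - X.re)) := by
        rw [abs_mul]
        exact mul_le_mul_of_nonneg_left h5 (abs_nonneg _)
      exact (abs_le.1 h7).1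
    have h8 := mul_le_mul_of_nonneg_left h6 q1
    linarith

/-- **the integral means from the data** -/
theorem Ok.moments (o : c.Ok Ln Ld)
    (hIn : ∀ x : Pnt, 0 ≤ x.b → x.b ≤ x.c → 0 ≤ x.a → (Ld : ℝ) * x.a ≤ Ln → 0 ≤ c.tIn.re x)
    (hOut : ∀ x : Pnt, 0 ≤ x.b → x.b ≤ x.c → 0 ≤ x.a → x.a ≤ 2 → 0 ≤ c.tOut.re x)
    (hCen : ∀ x : Pnt, 0 ≤ -2 * x.f - x.f ^ 2 - x.g ^ 2 → 0 ≤ (Ex.bp c.cen).re x)
    {κ : ℝ} (h1 : 1 ≤ κ)
    (hκ : (c.lam : ℝ) + c.c1 + (c.c1 + 2 * |(c.a2 : ℝ)|) / 10 ^ 7 < 2 * κ * c.M) :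
    ∀ p : ℝ, κ ≤ p → ∃ C : ℝ, ∀ ψ : ℂ → ℂ, DifferentiableOn ℂ ψ {z : ℂ | 1 < ‖z‖} →
      InjOn ψ {z : ℂ | 1 < ‖z‖} →
      (∃ b : ℂ, Filter.Tendsto (fun z => ψ z - z) (Bornology.cobounded ℂ) (nhds b)) →
      ∀ R : ℝ, 1 < R →
      (2 * π)⁻¹ * (∫ θ in (0:ℝ)..(2 * π), ‖deriv ψ (R * Complex.exp (θ * I))‖ ^ (-p)) ≤
        C * (R ^ 2 / (R ^ 2 - 1)) ^ (p - 1) := by
  have k1 := o.K_one hIn hOut hCen hκ
  have k2 := Pool.Agent.Helper61.EK.gibbs_of (κ := κ) (G := c.Gf)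
    Pool.Agent.Helper5.EK.entropy
    (fun hw _ h1 h2 => Pool.Agent.Helper26.EK.Kf_cont hw h1 h2)
    (fun h => Pool.Agent.Helper70.EK.wf_cont o.glip h) k1
  exact Pool.Agent.Helper32.EK.final (Pool.Agent.Helper28.EK.moment_Ext h1 k2)

end Dat

end Pool.Agent.Helper69.EK3
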