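import Pool.Agent.Helper78.EK.NullU
import Pool.Agent.Helper4.EK.NullV
set_option autoImplicit false
open Complex MeasureTheory Metric Set
open scoped Real ComplexConjugate

/-!
# Project EK3, module (c): null Lagrangians on a part `0 ≤ η ≤ h` of the strip

With a cut-off `χ` in the first variable vanishing to the second order at the ends, and weights in
the second variable vanishing at `η = 0` only, the null Lagrangians of module E4 leave boundary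
terms on the line `η = h`.
-/

namespace Pool.Agent.Helper69.EK3

open Pool.Agent.Helper52.EK Pool.Agent.Helper78.EK Pool.Agent.Helper4.EK

/-- the closed rectangle `x₁ ≤ ξ ≤ x₂`, `0 ≤ η ≤ h` -/
def RectH (x₁ x₂ h : ℝ) : Set ℂ := Icc x₁ x₂ ×ℂ Icc 0 h

/-- double integral over the rectangle `x₁ ≤ ξ ≤ x₂`, `0 ≤ η ≤ h` -/
noncomputable def IH (x₁ x₂ h : ℝ) (F : ℝ → ℝ → ℝ) : ℝ := ∫ ξ in x₁..x₂, ∫ η in (0:ℝ)..h, F ξ η

/-- the derivative of `U ∘ X` in the direction of `η` -/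
noncomputable def dEta (Ux Uy : ℂ → ℝ) (X Y : ℂ) : ℝ := -Ux X * Y.im + Uy X * Y.re

theorem pt_mem_RectH {x₁ x₂ h ξ η : ℝ} (h1 : ξ ∈ Icc x₁ x₂) (h2 : η ∈ Icc 0 h) :
    pt ξ η ∈ RectH x₁ x₂ h := by
  constructor
  · simpa [pt] using h1
  · simpa [pt] using h2

theorem contH {X : ℂ → ℂ} {x₁ x₂ h : ℝ} (hX : ContinuousOn X (RectH x₁ x₂ h)) :
    ContinuousOn (fun p : ℝ × ℝ => X (pt p.1 p.2)) (Icc x₁ x₂ ×ˢ Icc 0 h) :=
  hX.comp Pool.Agent.Helper78.EK.continuous_pt.continuousOn fun _ hp => pt_mem_RectH hp.1 hp.2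

/-- linearity of the iterated integral on functions continuous on the closed rectangle -/
theorem IH_sub {x₁ x₂ h : ℝ} (hx : x₁ ≤ x₂) (hh : 0 ≤ h) {F G : ℝ → ℝ → ℝ}
    (hF : ContinuousOn (fun p : ℝ × ℝ => F p.1 p.2) (Icc x₁ x₂ ×ˢ Icc 0 h))
    (hG : ContinuousOn (fun p : ℝ × ℝ => G p.1 p.2) (Icc x₁ x₂ ×ˢ Icc 0 h)) :
    IH x₁ x₂ h (fun ξ η => F ξ η - G ξ η) = IH x₁ x₂ h F - IH x₁ x₂ h G := by
  have key : ∀ {H : ℝ → ℝ → ℝ},
      ContinuousOn (fun p : ℝ × ℝ => H p.1 p.2) (Icc x₁ x₂ ×ˢ Icc 0 h) →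
      (∀ x ∈ Icc x₁ x₂, IntervalIntegrable (H x) volume 0 h) ∧
      IntervalIntegrable (fun x => ∫ y in (0:ℝ)..h, H x y) volume x₁ x₂ := by
    intro H hH
    constructor
    · intro x hx'
      have h1 : ContinuousOn (fun y => H x y) (Icc 0 h) := by
        refine hH.comp (f := fun y : ℝ => (x, y)) (by fun_prop) ?_
        intro y hy
        exact ⟨hx', hy⟩
      exact h1.intervalIntegrable_of_Icc hh
    · have h1 : IntegrableOn (fun p : ℝ × ℝ => H p.1 p.2) (Icc x₁ x₂ ×ˢ Icc 0 h) :=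
        hH.integrableOn_compact (isCompact_Icc.prod isCompact_Icc)
      have h2 : IntegrableOn (fun p : ℝ × ℝ => H p.1 p.2) (Ioc x₁ x₂ ×ˢ Ioc 0 h) :=
        h1.mono_set (prod_mono Ioc_subset_Icc_self Ioc_subset_Icc_self)
      rw [IntegrableOn, Measure.volume_eq_prod, ← Measure.prod_restrict] at h2
      have h3 := h2.integral_prod_left
      rw [intervalIntegrable_iff_integrableOn_Ioc_of_le hx, IntegrableOn]
      simpa only [intervalIntegral.integral_of_le hh] using h3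
  obtain ⟨hF1, hF2⟩ := key hF
  obtain ⟨hG1, hG2⟩ := key hG
  unfold IH
  rw [← intervalIntegral.integral_sub hF2 hG2]
  refine intervalIntegral.integral_congr ?_
  intro x hx'
  rw [uIcc_of_le hx] at hx'
  exact intervalIntegral.integral_sub (hF1 x hx') (hG1 x hx')

/-- the divergence theorem on the rectangle for a field whose normal component vanishes on three
sides -/
theorem div_top {x₁ x₂ h : ℝ} (hx : x₁ ≤ x₂) (hh : 0 ≤ h) {Rp : Set ℂ}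
    (hmem : ∀ p ∈ Ioo x₁ x₂ ×ˢ Ioo 0 h, pt p.1 p.2 ∈ Rp) {F G D : ℝ × ℝ → ℝ}
    (cF : ContinuousOn F (Icc x₁ x₂ ×ˢ Icc 0 h)) (cG : ContinuousOn G (Icc x₁ x₂ ×ˢ Icc 0 h))
    (cD : ContinuousOn D (Icc x₁ x₂ ×ˢ Icc 0 h)) {F' G' : ℝ × ℝ → ℝ × ℝ →L[ℝ] ℝ}
    (dF : ∀ p : ℝ × ℝ, pt p.1 p.2 ∈ Rp → HasFDerivAt F (F' p) p)
    (dG : ∀ p : ℝ × ℝ, pt p.1 p.2 ∈ Rp → HasFDerivAt G (G' p) p)
    (hD : ∀ p : ℝ × ℝ, F' p (1, 0) + G' p (0, 1) = D p)
    (b2 : ∀ x, G (x, 0) = 0) (b3 : ∀ y, F (x₂, y) = 0)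
    (b4 : ∀ y, F (x₁, y) = 0) :
    ∫ x in x₁..x₂, ∫ y in (0:ℝ)..h, D (x, y) = ∫ x in x₁..x₂, G (x, h) := by
  have hDf : (fun p => F' p (1, 0) + G' p (0, 1)) = D := funext hD
  have main := integral2_divergence_prod_of_hasFDerivAt_off_countable F G F' G' x₁ 0 x₂ h ∅
    countable_empty
    (by rw [uIcc_of_le hx, uIcc_of_le hh]; exact cF)
    (by rw [uIcc_of_le hx, uIcc_of_le hh]; exact cG)
    (by
      intro p hp
      rw [sdiff_empty, min_eq_left hx, max_eq_right hx, min_eq_left hh,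
        max_eq_right hh] at hp
      exact dF p (hmem p hp))
    (by
      intro p hp
      rw [sdiff_empty, min_eq_left hx, max_eq_right hx, min_eq_left hh,
        max_eq_right hh] at hp
      exact dG p (hmem p hp))
    (by
      rw [hDf, uIcc_of_le hx, uIcc_of_le hh]
      exact cD.integrableOn_compact (isCompact_Icc.prod isCompact_Icc))
  simp only [hD, b2, b3, b4, intervalIntegral.integral_zero] at main
  rw [main]
  ring

/-- the null Lagrangian `U` with the boundary term on the line `η = h` -/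
theorem nullU_H {U Ux Uy Lap : ℂ → ℝ} (hU : C2f U Ux Uy Lap) {X : ℂ → ℂ} {x₁ x₂ h : ℝ}
    (hx : x₁ ≤ x₂) (hh : 0 ≤ h) (hX : AnalyticOnNhd ℂ X (RectH x₁ x₂ h))
    {χ χ₁ χ₂ : ℝ → ℝ} (h1 : ∀ ξ, HasDerivAt χ (χ₁ ξ) ξ) (h2 : ∀ ξ, HasDerivAt χ₁ (χ₂ ξ) ξ)
    (h2c : Continuous χ₂) (e1 : χ x₁ = 0) (e2 : χ x₂ = 0) (e3 : χ₁ x₁ = 0) (e4 : χ₁ x₂ = 0)
    {a a₁ a₂ : ℝ → ℝ} (g1 : ∀ η, HasDerivAt a (a₁ η) η) (g2 : ∀ η, HasDerivAt a₁ (a₂ η) η)
    (g2c : Continuous a₂) (f1 : a 0 = 0) (f3 : a₁ 0 = 0) :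
    IH x₁ x₂ h (fun ξ η => χ ξ * (a η * Lap (X (pt ξ η)) * ‖deriv X (pt ξ η)‖ ^ 2
      - a₂ η * U (X (pt ξ η)))) =
    IH x₁ x₂ h (fun ξ η => χ₂ ξ * (a η * U (X (pt ξ η)))) +
      ∫ ξ in x₁..x₂, χ ξ * (a h * dEta Ux Uy (X (pt ξ h)) (deriv X (pt ξ h)) -
        a₁ h * U (X (pt ξ h))) := by
  obtain ⟨hU1, Uxx, Uxy, Uyy, hUx, hUy, hLap⟩ := hU
  have cχ : Continuous χ := continuous_iff_continuousAt.2 fun t => (h1 t).continuousAt
  have cχ₁ : Continuous χ₁ := continuous_iff_continuousAt.2 fun t => (h2 t).continuousAt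
  have ca : Continuous a := continuous_iff_continuousAt.2 fun t => (g1 t).continuousAt
  have ca₁ : Continuous a₁ := continuous_iff_continuousAt.2 fun t => (g2 t).continuousAt
  have hX1 : AnalyticOnNhd ℂ (deriv X) (RectH x₁ x₂ h) := hX.deriv
  have cX := contH hX.continuousOn
  have cX1 := contH hX1.continuousOn
  have cU : ContinuousOn (fun p : ℝ × ℝ => U (X (pt p.1 p.2))) (Icc x₁ x₂ ×ˢ Icc 0 h) :=
    (C1f.cont hU1).comp_continuousOn cX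
  have cUx : ContinuousOn (fun p : ℝ × ℝ => Ux (X (pt p.1 p.2))) (Icc x₁ x₂ ×ˢ Icc 0 h) :=
    hU1.cx.comp_continuousOn cX
  have cUy : ContinuousOn (fun p : ℝ × ℝ => Uy (X (pt p.1 p.2))) (Icc x₁ x₂ ×ˢ Icc 0 h) :=
    hU1.cy.comp_continuousOn cX
  have cLap : Continuous Lap := by
    have : Lap = fun X => Uxx X + Uyy X := funext hLap
    rw [this]
    exact hUx.cx.add hUy.cy
  have cL : ContinuousOn (fun p : ℝ × ℝ => Lap (X (pt p.1 p.2))) (Icc x₁ x₂ ×ˢ Icc 0 h) :=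
    cLap.comp_continuousOn cX
  have cre : ContinuousOn (fun p : ℝ × ℝ => (deriv X (pt p.1 p.2)).re) (Icc x₁ x₂ ×ˢ Icc 0 h) :=
    Complex.continuous_re.comp_continuousOn cX1
  have cim : ContinuousOn (fun p : ℝ × ℝ => (deriv X (pt p.1 p.2)).im) (Icc x₁ x₂ ×ˢ Icc 0 h) :=
    Complex.continuous_im.comp_continuousOn cX1
  have cA : ContinuousOn (fun p : ℝ × ℝ => χ p.1 * (a p.2 * Lap (X (pt p.1 p.2)) *
      ‖deriv X (pt p.1 p.2)‖ ^ 2 - a₂ p.2 * U (X (pt p.1 p.2)))) (Icc x₁ x₂ ×ˢ Icc 0 h) := by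
    have i1 : ContinuousOn (fun p : ℝ × ℝ => χ p.1) (Icc x₁ x₂ ×ˢ Icc 0 h) := by fun_prop
    have i2 : ContinuousOn (fun p : ℝ × ℝ => a p.2) (Icc x₁ x₂ ×ˢ Icc 0 h) := by fun_prop
    have i3 : ContinuousOn (fun p : ℝ × ℝ => a₂ p.2) (Icc x₁ x₂ ×ˢ Icc 0 h) := by fun_prop
    exact i1.mul (((i2.mul cL).mul (cX1.norm.pow 2)).sub (i3.mul cU))
  have cB : ContinuousOn (fun p : ℝ × ℝ => χ₂ p.1 * (a p.2 * U (X (pt p.1 p.2))))
      (Icc x₁ x₂ ×ˢ Icc 0 h) := by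
    have i1 : ContinuousOn (fun p : ℝ × ℝ => χ₂ p.1) (Icc x₁ x₂ ×ˢ Icc 0 h) := by fun_prop
    have i2 : ContinuousOn (fun p : ℝ × ℝ => a p.2) (Icc x₁ x₂ ×ˢ Icc 0 h) := by fun_prop
    exact i1.mul (i2.mul cU)
  have hmem : ∀ p ∈ Ioo x₁ x₂ ×ˢ Ioo 0 h, pt p.1 p.2 ∈ RectH x₁ x₂ h := by
    rintro ⟨x, y⟩ ⟨hx', hy'⟩
    exact pt_mem_RectH (Ioo_subset_Icc_self hx') (Ioo_subset_Icc_self hy')
  have dχ : ∀ p : ℝ × ℝ, HasFDerivAt (fun q : ℝ × ℝ => χ q.1)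
      (χ₁ p.1 • ContinuousLinearMap.fst ℝ ℝ ℝ) p := fun p =>
    (h1 p.1).comp_hasFDerivAt p hasFDerivAt_fst
  have dχ₁ : ∀ p : ℝ × ℝ, HasFDerivAt (fun q : ℝ × ℝ => χ₁ q.1)
      (χ₂ p.1 • ContinuousLinearMap.fst ℝ ℝ ℝ) p := fun p =>
    (h2 p.1).comp_hasFDerivAt p hasFDerivAt_fst
  have da : ∀ p : ℝ × ℝ, HasFDerivAt (fun q : ℝ × ℝ => a q.2)
      (a₁ p.2 • ContinuousLinearMap.snd ℝ ℝ ℝ) p := fun p =>
    (g1 p.2).comp_hasFDerivAt p hasFDerivAt_snd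
  have da₁ : ∀ p : ℝ × ℝ, HasFDerivAt (fun q : ℝ × ℝ => a₁ q.2)
      (a₂ p.2 • ContinuousLinearMap.snd ℝ ℝ ℝ) p := fun p =>
    (g2 p.2).comp_hasFDerivAt p hasFDerivAt_snd
  have dW : ∀ {W Wx Wy : ℂ → ℝ}, C1f W Wx Wy → ∀ p : ℝ × ℝ, pt p.1 p.2 ∈ RectH x₁ x₂ h →
      HasFDerivAt (fun q : ℝ × ℝ => W (X (pt q.1 q.2)))
        ((Wx (X (pt p.1 p.2)) • reCLM + Wy (X (pt p.1 p.2)) • imCLM).comp
          (Lc (deriv X (pt p.1 p.2)))) p := by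
    intro W Wx Wy hW p hp
    exact HasFDerivAt.comp (g := W) p (hW.hd _) (hasFDerivAt_X (hX _ hp).differentiableAt)
  have dre : ∀ p : ℝ × ℝ, pt p.1 p.2 ∈ RectH x₁ x₂ h →
      HasFDerivAt (fun q : ℝ × ℝ => (deriv X (pt q.1 q.2)).re)
        (reCLM.comp (Lc (deriv (deriv X) (pt p.1 p.2)))) p := fun p hp =>
    reCLM.hasFDerivAt.comp p (hasFDerivAt_X (hX1 _ hp).differentiableAt)
  have dim : ∀ p : ℝ × ℝ, pt p.1 p.2 ∈ RectH x₁ x₂ h →
      HasFDerivAt (fun q : ℝ × ℝ => (deriv X (pt q.1 q.2)).im)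
        (imCLM.comp (Lc (deriv (deriv X) (pt p.1 p.2)))) p := fun p hp =>
    imCLM.hasFDerivAt.comp p (hasFDerivAt_X (hX1 _ hp).differentiableAt)
  have dF := fun (p : ℝ × ℝ) (hp : pt p.1 p.2 ∈ RectH x₁ x₂ h) =>
    (da p).fun_mul (((dχ p).fun_mul (((dW hUx p hp).fun_mul (dre p hp)).fun_add
      ((dW hUy p hp).fun_mul (dim p hp)))).fun_sub ((dχ₁ p).fun_mul (dW hU1 p hp)))
  have dG := fun (p : ℝ × ℝ) (hp : pt p.1 p.2 ∈ RectH x₁ x₂ h) =>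
    (dχ p).fun_mul (((da p).fun_mul (((dW hUy p hp).fun_mul (dre p hp)).fun_sub
      ((dW hUx p hp).fun_mul (dim p hp)))).fun_sub ((da₁ p).fun_mul (dW hU1 p hp)))
  have cF : ContinuousOn (fun q : ℝ × ℝ => a q.2 * (χ q.1 *
      (Ux (X (pt q.1 q.2)) * (deriv X (pt q.1 q.2)).re +
        Uy (X (pt q.1 q.2)) * (deriv X (pt q.1 q.2)).im) - χ₁ q.1 * U (X (pt q.1 q.2))))
      (Icc x₁ x₂ ×ˢ Icc 0 h) := by
    have i1 : ContinuousOn (fun p : ℝ × ℝ => χ p.1) (Icc x₁ x₂ ×ˢ Icc 0 h) := by fun_prop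
    have i2 : ContinuousOn (fun p : ℝ × ℝ => a p.2) (Icc x₁ x₂ ×ˢ Icc 0 h) := by fun_prop
    have i3 : ContinuousOn (fun p : ℝ × ℝ => χ₁ p.1) (Icc x₁ x₂ ×ˢ Icc 0 h) := by fun_prop
    exact i2.mul ((i1.mul ((cUx.mul cre).add (cUy.mul cim))).sub (i3.mul cU))
  have cG : ContinuousOn (fun q : ℝ × ℝ => χ q.1 * (a q.2 *
      (Uy (X (pt q.1 q.2)) * (deriv X (pt q.1 q.2)).re -
        Ux (X (pt q.1 q.2)) * (deriv X (pt q.1 q.2)).im) - a₁ q.2 * U (X (pt q.1 q.2))))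
      (Icc x₁ x₂ ×ˢ Icc 0 h) := by
    have i1 : ContinuousOn (fun p : ℝ × ℝ => χ p.1) (Icc x₁ x₂ ×ˢ Icc 0 h) := by fun_prop
    have i2 : ContinuousOn (fun p : ℝ × ℝ => a p.2) (Icc x₁ x₂ ×ˢ Icc 0 h) := by fun_prop
    have i3 : ContinuousOn (fun p : ℝ × ℝ => a₁ p.2) (Icc x₁ x₂ ×ˢ Icc 0 h) := by fun_prop
    exact i1.mul ((i2.mul ((cUy.mul cre).sub (cUx.mul cim))).sub (i3.mul cU))
  have cD := cA.fun_sub cB
  have main := div_top hx hh (Rp := RectH x₁ x₂ h) hmem cF cG cD dF dG (by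
    rintro ⟨x, y⟩
    have hn : ‖deriv X (pt x y)‖ ^ 2 = (deriv X (pt x y)).re ^ 2 + (deriv X (pt x y)).im ^ 2 := by
      rw [← normSq_eq_norm_sq, normSq_apply]
      ring
    simp only [_root_.add_apply, _root_.sub_apply,
      _root_.smul_apply, ContinuousLinearMap.comp_apply, Lc_10, Lc_01,
      ContinuousLinearMap.coe_fst', ContinuousLinearMap.coe_snd', smul_eq_mul, reCLM_apply,
      imCLM_apply, mul_re, mul_im, I_re, I_im, hLap, hn]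
    ring)
    (fun x => by simp [f1, f3]) (fun y => by simp [e2, e4])
    (fun y => by simp [e1, e3])
  have h3 := IH_sub hx hh (F := fun ξ η => χ ξ * (a η * Lap (X (pt ξ η)) *
      ‖deriv X (pt ξ η)‖ ^ 2 - a₂ η * U (X (pt ξ η))))
    (G := fun ξ η => χ₂ ξ * (a η * U (X (pt ξ η)))) cA cB
  rw [IH] at h3
  have h4 : IH x₁ x₂ h (fun ξ η => χ ξ * (a η * Lap (X (pt ξ η)) * ‖deriv X (pt ξ η)‖ ^ 2
      - a₂ η * U (X (pt ξ η)))) - IH x₁ x₂ h (fun ξ η => χ₂ ξ * (a η * U (X (pt ξ η)))) =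
      ∫ ξ in x₁..x₂, χ ξ * (a h * dEta Ux Uy (X (pt ξ h)) (deriv X (pt ξ h)) -
        a₁ h * U (X (pt ξ h))) := by
    rw [← h3]
    refine main.trans ?_
    refine intervalIntegral.integral_congr fun ξ _ => ?_
    simp only [dEta]
    ring
  linarith

/-- the null Lagrangian `V` with the boundary term on the line `η = h` -/
theorem nullV_H {V Vx Vy : ℂ → ℝ} (hV : C1f V Vx Vy) {X : ℂ → ℂ} {x₁ x₂ h : ℝ}
    (hx : x₁ ≤ x₂) (hh : 0 ≤ h) (hX : AnalyticOnNhd ℂ X (RectH x₁ x₂ h))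
    (χ : ℝ → ℝ) {b b₁ : ℝ → ℝ} (g1 : ∀ η, HasDerivAt b (b₁ η) η)
    (g1c : Continuous b₁) (f1 : b 0 = 0) :
    IH x₁ x₂ h (fun ξ η => χ ξ * (b η * dEta Vx Vy (X (pt ξ η)) (deriv X (pt ξ η))
      + b₁ η * V (X (pt ξ η)))) = ∫ ξ in x₁..x₂, χ ξ * (b h * V (X (pt ξ h))) := by
  unfold IH
  refine intervalIntegral.integral_congr ?_
  intro ξ hξ
  rw [uIcc_of_le hx] at hξ
  simp only [intervalIntegral.integral_const_mul]
  have hc : ContinuousOn (fun η : ℝ => pt ξ η) (uIcc 0 h) := by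
    unfold pt
    fun_prop
  have hm : MapsTo (fun η : ℝ => pt ξ η) (uIcc 0 h) (RectH x₁ x₂ h) := by
    intro η hη
    rw [uIcc_of_le hh] at hη
    exact pt_mem_RectH hξ hη
  have cX : ContinuousOn (fun η : ℝ => X (pt ξ η)) (uIcc 0 h) := hX.continuousOn.comp hc hm
  have cY : ContinuousOn (fun η : ℝ => deriv X (pt ξ η)) (uIcc 0 h) :=
    hX.deriv.continuousOn.comp hc hm
  have bc : Continuous b := continuous_iff_continuousAt.2 fun η => (g1 η).continuousAt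
  have key : ∫ η in (0:ℝ)..h, (b η * dEta Vx Vy (X (pt ξ η)) (deriv X (pt ξ η))
      + b₁ η * V (X (pt ξ η))) = b h * V (X (pt ξ h)) - b 0 * V (X (pt ξ 0)) := by
    refine intervalIntegral.integral_eq_sub_of_hasDerivAt
      (f := fun η => b η * V (X (pt ξ η))) ?_ ?_
    · intro η hη
      have hd := hasDerivAt_comp_eta hV ((hX _ (hm hη)).differentiableAt)
      exact ((g1 η).mul hd).congr_deriv (by simp only [dEta]; ring)
    · apply ContinuousOn.intervalIntegrable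
      have c1 : ContinuousOn (fun η : ℝ => Vx (X (pt ξ η))) (uIcc 0 h) :=
        hV.cx.comp_continuousOn cX
      have c2 : ContinuousOn (fun η : ℝ => Vy (X (pt ξ η))) (uIcc 0 h) :=
        hV.cy.comp_continuousOn cX
      have c3 : ContinuousOn (fun η : ℝ => V (X (pt ξ η))) (uIcc 0 h) :=
        (Pool.Agent.Helper4.EK.C1f.continuous hV).comp_continuousOn cX
      have c4 : ContinuousOn (fun η : ℝ => (deriv X (pt ξ η)).re) (uIcc 0 h) :=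
        Complex.continuous_re.comp_continuousOn cY
      have c5 : ContinuousOn (fun η : ℝ => (deriv X (pt ξ η)).im) (uIcc 0 h) :=
        Complex.continuous_im.comp_continuousOn cY
      exact (bc.continuousOn.mul ((c1.neg.mul c5).add (c2.mul c4))).add
        (g1c.continuousOn.mul c3)
  rw [key, f1]
  simp

/-- the null Lagrangian `W`: no term on the line `η = h` -/
theorem nullW_H {W Wx Wy : ℂ → ℝ} (hW : C1f W Wx Wy) {X : ℂ → ℂ} {x₁ x₂ h : ℝ}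
    (hx : x₁ ≤ x₂) (hh : 0 ≤ h) (hX : AnalyticOnNhd ℂ X (RectH x₁ x₂ h))
    {χ χ₁ : ℝ → ℝ} (h1 : ∀ ξ, HasDerivAt χ (χ₁ ξ) ξ) (h1c : Continuous χ₁)
    (e1 : χ x₁ = 0) (e2 : χ x₂ = 0) {b : ℝ → ℝ} (hb : Continuous b) :
    IH x₁ x₂ h (fun ξ η => χ ξ * (b η * (Wx (X (pt ξ η)) * (deriv X (pt ξ η)).re
      + Wy (X (pt ξ η)) * (deriv X (pt ξ η)).im))) =
    - IH x₁ x₂ h (fun ξ η => χ₁ ξ * (b η * W (X (pt ξ η)))) := by
  have χc : Continuous χ := continuous_iff_continuousAt.2 fun ξ => (h1 ξ).continuousAt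
  have cX := contH hX.continuousOn
  have cY := contH hX.deriv.continuousOn
  have c1 : ContinuousOn (fun p : ℝ × ℝ => Wx (X (pt p.1 p.2))) (Icc x₁ x₂ ×ˢ Icc 0 h) :=
    hW.cx.comp_continuousOn cX
  have c2 : ContinuousOn (fun p : ℝ × ℝ => Wy (X (pt p.1 p.2))) (Icc x₁ x₂ ×ˢ Icc 0 h) :=
    hW.cy.comp_continuousOn cX
  have c3 : ContinuousOn (fun p : ℝ × ℝ => W (X (pt p.1 p.2))) (Icc x₁ x₂ ×ˢ Icc 0 h) :=
    (Pool.Agent.Helper4.EK.C1f.continuous hW).comp_continuousOn cX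
  have c4 : ContinuousOn (fun p : ℝ × ℝ => (deriv X (pt p.1 p.2)).re)
      (Icc x₁ x₂ ×ˢ Icc 0 h) := Complex.continuous_re.comp_continuousOn cY
  have c5 : ContinuousOn (fun p : ℝ × ℝ => (deriv X (pt p.1 p.2)).im)
      (Icc x₁ x₂ ×ˢ Icc 0 h) := Complex.continuous_im.comp_continuousOn cY
  have bc : ContinuousOn (fun p : ℝ × ℝ => b p.2) (Icc x₁ x₂ ×ˢ Icc 0 h) :=
    (hb.comp continuous_snd).continuousOn
  have cc : ContinuousOn (fun p : ℝ × ℝ => χ p.1) (Icc x₁ x₂ ×ˢ Icc 0 h) :=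
    (χc.comp continuous_fst).continuousOn
  have cc1 : ContinuousOn (fun p : ℝ × ℝ => χ₁ p.1) (Icc x₁ x₂ ×ˢ Icc 0 h) :=
    (h1c.comp continuous_fst).continuousOn
  have C1 : ContinuousOn (fun p : ℝ × ℝ => χ p.1 * (b p.2 * (Wx (X (pt p.1 p.2)) *
      (deriv X (pt p.1 p.2)).re + Wy (X (pt p.1 p.2)) * (deriv X (pt p.1 p.2)).im)))
      (Icc x₁ x₂ ×ˢ Icc 0 h) := cc.mul (bc.mul ((c1.mul c4).add (c2.mul c5)))
  have C2 : ContinuousOn (fun p : ℝ × ℝ => χ₁ p.1 * (b p.2 * W (X (pt p.1 p.2))))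
      (Icc x₁ x₂ ×ˢ Icc 0 h) := cc1.mul (bc.mul c3)
  have S1 := swap_of_continuousOn (F := fun ξ η => χ ξ * (b η * (Wx (X (pt ξ η)) *
      (deriv X (pt ξ η)).re + Wy (X (pt ξ η)) * (deriv X (pt ξ η)).im))) hx hh C1
  have S2 := swap_of_continuousOn (F := fun ξ η => χ₁ ξ * (b η * W (X (pt ξ η)))) hx hh C2
  unfold IH
  rw [S1, S2, ← intervalIntegral.integral_neg]
  apply intervalIntegral.integral_congr
  intro η hη
  rw [uIcc_of_le hh] at hη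
  have hsub : MapsTo (fun ξ : ℝ => (ξ, η)) (uIcc x₁ x₂) (Icc x₁ x₂ ×ˢ Icc 0 h) := by
    intro ξ hξ
    rw [uIcc_of_le hx] at hξ
    exact ⟨hξ, hη⟩
  have D1 : ContinuousOn (fun ξ : ℝ => χ ξ * (b η * (Wx (X (pt ξ η)) *
      (deriv X (pt ξ η)).re + Wy (X (pt ξ η)) * (deriv X (pt ξ η)).im))) (uIcc x₁ x₂) :=
    C1.comp (f := fun ξ : ℝ => (ξ, η)) (by fun_prop) hsub
  have D2 : ContinuousOn (fun ξ : ℝ => χ₁ ξ * (b η * W (X (pt ξ η)))) (uIcc x₁ x₂) :=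
    C2.comp (f := fun ξ : ℝ => (ξ, η)) (by fun_prop) hsub
  have key : ∫ ξ in x₁..x₂, (χ₁ ξ * (b η * W (X (pt ξ η))) + χ ξ * (b η * (Wx (X (pt ξ η)) *
      (deriv X (pt ξ η)).re + Wy (X (pt ξ η)) * (deriv X (pt ξ η)).im))) =
      χ x₂ * (b η * W (X (pt x₂ η))) - χ x₁ * (b η * W (X (pt x₁ η))) := by
    refine intervalIntegral.integral_eq_sub_of_hasDerivAt
      (f := fun ξ => χ ξ * (b η * W (X (pt ξ η)))) ?_ (D2.add D1).intervalIntegrable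
    intro ξ hξ
    rw [uIcc_of_le hx] at hξ
    have hd := hasDerivAt_comp_xi hW ((hX _ (pt_mem_RectH hξ hη)).differentiableAt)
    exact ((h1 ξ).mul (hd.const_mul (b η)))
  rw [intervalIntegral.integral_add D2.intervalIntegrable D1.intervalIntegrable, e1, e2] at key
  simp only [zero_mul, sub_zero] at key
  linarith

/-- integration by parts along a line `η = h` -/
theorem nullW_line {W Wx Wy : ℂ → ℝ} (hW : C1f W Wx Wy) {X : ℂ → ℂ} {x₁ x₂ h : ℝ}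
    (hx : x₁ ≤ x₂) (hX : ∀ ξ ∈ Icc x₁ x₂, AnalyticAt ℂ X (pt ξ h))
    {χ χ₁ : ℝ → ℝ} (h1 : ∀ ξ, HasDerivAt χ (χ₁ ξ) ξ) (h1c : Continuous χ₁)
    (e1 : χ x₁ = 0) (e2 : χ x₂ = 0) :
    ∫ ξ in x₁..x₂, χ ξ * (Wx (X (pt ξ h)) * (deriv X (pt ξ h)).re
      + Wy (X (pt ξ h)) * (deriv X (pt ξ h)).im) =
    - ∫ ξ in x₁..x₂, χ₁ ξ * W (X (pt ξ h)) := by
  have χc : Continuous χ := continuous_iff_continuousAt.2 fun ξ => (h1 ξ).continuousAt
  have hp : Continuous (fun ξ : ℝ => pt ξ h) := by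
    unfold pt
    fun_prop
  have cX : ContinuousOn (fun ξ : ℝ => X (pt ξ h)) (uIcc x₁ x₂) := by
    intro ξ hξ
    rw [uIcc_of_le hx] at hξ
    exact (ContinuousAt.comp (f := fun ξ : ℝ => pt ξ h) (hX ξ hξ).continuousAt
      hp.continuousAt).continuousWithinAt
  have cY : ContinuousOn (fun ξ : ℝ => deriv X (pt ξ h)) (uIcc x₁ x₂) := by
    intro ξ hξ
    rw [uIcc_of_le hx] at hξ
    exact (ContinuousAt.comp (f := fun ξ : ℝ => pt ξ h) (hX ξ hξ).deriv.continuousAt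
      hp.continuousAt).continuousWithinAt
  have D1 : ContinuousOn (fun ξ : ℝ => χ ξ * (Wx (X (pt ξ h)) * (deriv X (pt ξ h)).re
      + Wy (X (pt ξ h)) * (deriv X (pt ξ h)).im)) (uIcc x₁ x₂) :=
    χc.continuousOn.mul (((hW.cx.comp_continuousOn cX).mul
      (Complex.continuous_re.comp_continuousOn cY)).add ((hW.cy.comp_continuousOn cX).mul
      (Complex.continuous_im.comp_continuousOn cY)))
  have D2 : ContinuousOn (fun ξ : ℝ => χ₁ ξ * W (X (pt ξ h))) (uIcc x₁ x₂) :=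
    h1c.continuousOn.mul ((Pool.Agent.Helper4.EK.C1f.continuous hW).comp_continuousOn cX)
  have key : ∫ ξ in x₁..x₂, (χ₁ ξ * W (X (pt ξ h)) + χ ξ * (Wx (X (pt ξ h)) *
      (deriv X (pt ξ h)).re + Wy (X (pt ξ h)) * (deriv X (pt ξ h)).im)) =
      χ x₂ * W (X (pt x₂ h)) - χ x₁ * W (X (pt x₁ h)) := by
    refine intervalIntegral.integral_eq_sub_of_hasDerivAt
      (f := fun ξ => χ ξ * W (X (pt ξ h))) ?_ (D2.add D1).intervalIntegrable
    intro ξ hξ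
    rw [uIcc_of_le hx] at hξ
    have hd := hasDerivAt_comp_xi hW ((hX ξ hξ).differentiableAt)
    exact (h1 ξ).mul hd
  rw [intervalIntegral.integral_add D2.intervalIntegrable D1.intervalIntegrable, e1, e2] at key
  simp only [zero_mul, sub_zero] at key
  linarith

end Pool.Agent.Helper69.EK3
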