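import Pool.Agent.Helper69.EK3.Line
import Pool.Agent.Helper83.EK.KOneD
import Pool.Agent.Helper16.EK.Kap
set_option autoImplicit false
open Complex MeasureTheory Metric Set
open scoped Real ComplexConjugate

/-!
# Project EK3: the bound for one target
-/

namespace Pool.Agent.Helper69.EK3

open Pool.Agent.Helper39.Area Pool.Agent.Helper52.EK

/-- the integrated inequality with a linear term on the centre line -/
def StripIneq3 (lam k₂ : ℝ) (T : ℂ → ℂ → ℝ → ℝ → ℝ) (adm : (ℂ → ℂ) → ℝ → ℝ → Prop) : Prop :=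
  ∃ C : ℝ, ∀ (X : ℂ → ℂ) (x₁ x₂ l : ℝ), 1 ≤ l → x₁ + l ≤ x₂ - l → NiceX X x₁ x₂ → adm X x₁ x₂ →
    II (x₁ + l) (x₂ - l)
      (fun ξ η => T (X (pt ξ η)) (deriv X (pt ξ η)) (Real.sin η) (Real.cos η)) ≤
    lam * II x₁ x₂ (fun ξ η => ‖X (pt ξ η) - 1‖ ^ 2) +
      (k₂ - lam) * (π * ∫ ξ in x₁..x₂, (1 - (X (pt ξ (π / 2))).re)) +
      C * (1 + II x₁ x₂ (fun ξ η => ‖X (pt ξ η) - 1‖ ^ 2) / l)

/-- the bound for one target -/
theorem K_one3 {lam k₂ κ L : ℝ} {G : ℂ → ℂ} (hG : GLip G L) {adm : (ℂ → ℂ) → ℝ → ℝ → Prop}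
    (hadm : ∀ (β : ℂ → ℂ) (R a : ℝ), ExtR β R → 0 < a → a < 1 → Real.log (tau a) + 1 ≤ -1 →
      adm (Xf β a) (Real.log (tau a) + 1) (-1))
    (line : ∀ δ : ℝ, 0 < δ → ∃ C : ℝ, ∀ (β : ℂ → ℂ) (R a : ℝ), ExtR β R → 0 < a → a < 1 →
      ∀ x₁ x₂ : ℝ, Real.log (tau a) + 1 ≤ x₁ → x₁ ≤ x₂ → x₂ ≤ -1 →
      2 * ∫ ξ in x₁..x₂, (1 - (Xf β a (pt ξ (π / 2))).re) ≤
        (1 + δ) * Real.log (‖N β a‖ / (1 - a ^ 2)) + C)
    (hS : StripIneq3 lam k₂ (TG G) adm) (h0 : 0 ≤ lam) (h1 : lam ≤ k₂)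
    (hκ : k₂ < 2 * κ) : ∃ C a₀ : ℝ, a₀ < 1 ∧ ∀ (β : ℂ → ℂ) (R a : ℝ), ExtR β R → a₀ < a → a < 1 →
      Kf (wf G β) 1 (-1) (Real.log a) ≤ κ * Real.log (‖N β a‖ / (1 - a ^ 2)) + C := by
  obtain ⟨C₁, hC₁⟩ := hS
  obtain ⟨Cd, hCd⟩ := Pool.Agent.Helper16.EK.E1d
  obtain ⟨d, hd⟩ : ∃ d, d = 2 * κ - k₂ := ⟨_, rfl⟩
  have hd0 : 0 < d := by rw [hd]; linarith
  obtain ⟨D, hD⟩ : ∃ D, D = max C₁ 0 := ⟨_, rfl⟩
  have hD0 : 0 ≤ D := by rw [hD]; exact le_max_right _ _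
  have hDC : C₁ ≤ D := by rw [hD]; exact le_max_left _ _
  obtain ⟨l, hl⟩ : ∃ l, l = 1 + 4 * D / d := ⟨_, rfl⟩
  have hl1 : 1 ≤ l := by
    have : 0 ≤ 4 * D / d := by positivity
    linarith
  have hl0 : 0 < l := by linarith
  have hDl : D / l ≤ d / 4 := by
    rw [div_le_div_iff₀ hl0 (by norm_num)]
    have : D * 4 = d * (4 * D / d) := by field_simp
    rw [this]
    apply mul_le_mul_of_nonneg_left _ hd0.le
    linarith
  have hDl0 : 0 ≤ D / l := by positivity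
  obtain ⟨k, hk⟩ : ∃ k, k = lam + D / l := ⟨_, rfl⟩
  have hk0 : 0 ≤ k := by rw [hk]; linarith
  obtain ⟨g, hg⟩ : ∃ g, g = d / (4 * (k + 1)) := ⟨_, rfl⟩
  have hg0 : 0 < g := by rw [hg]; positivity
  have hkg : k * g ≤ d / 4 := by
    have h2 : 4 * (g * (k + 1)) = d := by
      rw [hg]
      field_simp
    nlinarith
  obtain ⟨e, he⟩ : ∃ e, e = d / (4 * (k₂ - lam + 1)) := ⟨_, rfl⟩
  have hkl : 0 < k₂ - lam + 1 := by linarith
  have he0 : 0 < e := by rw [he]; positivity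
  have hke : (k₂ - lam) * e ≤ d / 4 := by
    have h2 : 4 * (e * (k₂ - lam + 1)) = d := by
      rw [he]
      field_simp
    nlinarith
  obtain ⟨Cs, hCs⟩ := line e he0
  obtain ⟨A, hA⟩ : ∃ A, A = 1 + l := ⟨_, rfl⟩
  have hA1 : 1 ≤ A := by linarith
  obtain ⟨C₃, hC₃⟩ := Pool.Agent.Helper70.EK.E3_of_b Pool.Agent.Helper84.EK.E3b hG A hA1
  refine ⟨C₃ + π⁻¹ * (k * ((1 + 1 / g) * Cd)) + (k₂ - lam) * (Cs / 2) + π⁻¹ * D,
    max (Real.exp (-1)) (1 - Real.exp (-2 * A)), ?_, ?_⟩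
  · apply max_lt
    · rw [← Real.exp_zero]
      exact Real.exp_lt_exp.mpr (by norm_num)
    · linarith [Real.exp_pos (-2 * A)]
  intro β R a hβ ha ha1
  have hae : Real.exp (-1) < a := lt_of_le_of_lt (le_max_left _ _) ha
  have ha0 : 0 < a := (Real.exp_pos _).trans hae
  have hfar := Pool.Agent.Helper83.EK.tau_far (A := A) (lt_of_le_of_lt (le_max_right _ _) ha) ha0
    ha1
  have hK := hC₃ β R a hβ hae ha1 hfar
  obtain ⟨x₁, hx₁⟩ : ∃ x₁, x₁ = Real.log (tau a) + 1 := ⟨_, rfl⟩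
  have e1 : Real.log (tau a) + A = x₁ + l := by rw [hA, hx₁]; ring
  have e2 : -A = -1 - l := by rw [hA]; ring
  rw [e1, e2] at hK hfar
  have hx12 : x₁ ≤ -1 := by linarith
  have hxt : Real.log (tau a) < x₁ := by linarith
  have hX : NiceX (Xf β a) x₁ (-1) := Pool.Agent.Helper67.EK.E1c hβ ha0 ha1 hxt (by norm_num)
  have hst := hC₁ (Xf β a) x₁ (-1) l hl1 hfar hX (by
    rw [hx₁]
    exact hadm β R a hβ ha0 ha1 (by rw [← hx₁]; exact hx12))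
  have hb := Pool.Agent.Helper86.EK.E1b hβ ha0 ha1 hxt hx12 (by norm_num)
  have hdd := hCd a ha0 ha1 x₁ (-1) hx₁.ge hx12 le_rfl
  have hs := hCs β R a hβ ha0 ha1 x₁ (-1) hx₁.ge hx12 le_rfl
  obtain ⟨Λ, hΛ⟩ : ∃ Λ, Λ = Real.log (‖N β a‖ / (1 - a ^ 2)) := ⟨_, rfl⟩
  rw [← hΛ] at hb hs ⊢
  -- continuity
  have cX : ContinuousOn (fun v : ℝ × ℝ => Xf β a (pt v.1 v.2)) (Icc x₁ (-1) ×ˢ Icc 0 π) :=
    hX.an.continuousOn.comp Pool.Agent.Helper70.EK.continuous_pt.continuousOn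
      (Pool.Agent.Helper83.EK.pt_mapsTo _ _)
  have cK : ContinuousOn (fun v : ℝ × ℝ => kap a (pt v.1 v.2)) (Icc x₁ (-1) ×ˢ Icc 0 π) :=
    Pool.Agent.Helper83.EK.kap_contOn ha0 ha1 hxt (by norm_num)
  have c1 : ContinuousOn (fun v : ℝ × ℝ => ‖Xf β a (pt v.1 v.2) - 1‖ ^ 2)
      (Icc x₁ (-1) ×ˢ Icc 0 π) := (cX.sub continuousOn_const).norm.pow 2
  have c2 : ContinuousOn (fun v : ℝ × ℝ => ‖2 * Xf β a (pt v.1 v.2) - 2 * kap a (pt v.1 v.2)‖ ^ 2)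
      (Icc x₁ (-1) ×ˢ Icc 0 π) :=
    ((continuousOn_const.mul cX).sub (continuousOn_const.mul cK)).norm.pow 2
  have c3 : ContinuousOn (fun v : ℝ × ℝ => ‖kap a (pt v.1 v.2) - 1‖ ^ 2)
      (Icc x₁ (-1) ×ˢ Icc 0 π) := (cK.sub continuousOn_const).norm.pow 2
  have hE := Pool.Agent.Helper83.EK.II_le3 (F₁ := fun ξ η => ‖Xf β a (pt ξ η) - 1‖ ^ 2)
    (F₂ := fun ξ η => ‖2 * Xf β a (pt ξ η) - 2 * kap a (pt ξ η)‖ ^ 2)
    (F₃ := fun ξ η => ‖kap a (pt ξ η) - 1‖ ^ 2) (p := (1 + g) / 4) (q := 1 + 1 / g)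
    hx12 c1 c2 c3 (by
      intro ξ η
      have h1 : Xf β a (pt ξ η) - 1 = (2 * Xf β a (pt ξ η) - 2 * kap a (pt ξ η)) / 2 +
        (kap a (pt ξ η) - 1) := by ring
      have h2 : ‖Xf β a (pt ξ η) - 1‖ ≤ ‖2 * Xf β a (pt ξ η) - 2 * kap a (pt ξ η)‖ / 2 +
          ‖kap a (pt ξ η) - 1‖ := by
        rw [h1]
        refine (norm_add_le _ _).trans ?_
        rw [norm_div]
        simp
      have h3 := norm_nonneg (Xf β a (pt ξ η) - 1)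
      have h4 := norm_nonneg (2 * Xf β a (pt ξ η) - 2 * kap a (pt ξ η))
      have h5 := norm_nonneg (kap a (pt ξ η) - 1)
      generalize ‖Xf β a (pt ξ η) - 1‖ = u at *
      generalize ‖2 * Xf β a (pt ξ η) - 2 * kap a (pt ξ η)‖ = v at *
      generalize ‖kap a (pt ξ η) - 1‖ = w at *
      have h6 : u ^ 2 ≤ (v / 2 + w) ^ 2 := by nlinarith
      have h7 : (v / 2 + w) ^ 2 ≤ (1 + g) / 4 * v ^ 2 + (1 + 1 / g) * w ^ 2 := by
        have h8 : (1 + g) / 4 * v ^ 2 + (1 + 1 / g) * w ^ 2 - (v / 2 + w) ^ 2 =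
            (g * v / 2 - w) ^ 2 / g := by
          field_simp
          ring
        have h9 : 0 ≤ (g * v / 2 - w) ^ 2 / g := by positivity
        linarith
      exact h6.trans h7)
  -- assemble
  have hEn : 0 ≤ II x₁ (-1) (fun ξ η => ‖Xf β a (pt ξ η) - 1‖ ^ 2) :=
    Pool.Agent.Helper83.EK.II_nonneg hx12 (fun ξ η => by positivity)
  obtain ⟨E, hEdef⟩ : ∃ E, E = II x₁ (-1) (fun ξ η => ‖Xf β a (pt ξ η) - 1‖ ^ 2) := ⟨_, rfl⟩
  rw [← hEdef] at hE hEn hst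
  obtain ⟨S, hSdef⟩ : ∃ S, S = ∫ ξ in x₁..(-1), (1 - (Xf β a (pt ξ (π / 2))).re) := ⟨_, rfl⟩
  rw [← hSdef] at hst hs
  have hπ : 0 < π := Real.pi_pos
  have hπi : 0 < π⁻¹ := inv_pos.mpr hπ
  have hE2 : E ≤ (1 + g) / 4 * (2 * π * Λ) + (1 + 1 / g) * Cd := by
    have h1 : 0 < (1 + g) / 4 := by positivity
    have h2 : 0 < 1 + 1 / g := by positivity
    have h3 := mul_le_mul_of_nonneg_left hb h1.le
    have h4 := mul_le_mul_of_nonneg_left hdd h2.le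
    linarith
  have hΛ0 : 0 ≤ Λ := by
    have h1 : 0 ≤ II x₁ (-1) (fun ξ η => ‖2 * Xf β a (pt ξ η) - 2 * kap a (pt ξ η)‖ ^ 2) :=
      Pool.Agent.Helper83.EK.II_nonneg hx12 (fun ξ η => by positivity)
    have h2 : 0 ≤ 2 * π * Λ := h1.trans hb
    exact nonneg_of_mul_nonneg_right h2 (by positivity)
  have hEl : 0 ≤ E / l := div_nonneg hEn hl0.le
  have hT : II (x₁ + l) (-1 - l) (fun ξ η => TG G (Xf β a (pt ξ η)) (deriv (Xf β a) (pt ξ η))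
      (Real.sin η) (Real.cos η)) ≤ k * E + (k₂ - lam) * (π * S) + D := by
    refine hst.trans ?_
    have h2 : C₁ * (1 + E / l) ≤ D * (1 + E / l) :=
      mul_le_mul_of_nonneg_right hDC (by linarith)
    have h3 : D * (1 + E / l) = D + D / l * E := by ring
    rw [hk, add_mul]
    linarith
  have h2 : k * E ≤ k * ((1 + g) / 4 * (2 * π * Λ) + (1 + 1 / g) * Cd) :=
    mul_le_mul_of_nonneg_left hE2 hk0
  have h3 : (k₂ - lam) * (π * S) ≤ (k₂ - lam) * (π * (((1 + e) * Λ + Cs) / 2)) := by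
    refine mul_le_mul_of_nonneg_left (mul_le_mul_of_nonneg_left ?_ hπ.le) (by linarith)
    linarith
  have h4 : π⁻¹ * II (x₁ + l) (-1 - l) (fun ξ η => TG G (Xf β a (pt ξ η))
      (deriv (Xf β a) (pt ξ η)) (Real.sin η) (Real.cos η)) ≤
      π⁻¹ * (k * ((1 + g) / 4 * (2 * π * Λ) + (1 + 1 / g) * Cd) +
        (k₂ - lam) * (π * (((1 + e) * Λ + Cs) / 2)) + D) :=
    mul_le_mul_of_nonneg_left (by linarith) hπi.le
  have h5 : π⁻¹ * (k * ((1 + g) / 4 * (2 * π * Λ) + (1 + 1 / g) * Cd) +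
        (k₂ - lam) * (π * (((1 + e) * Λ + Cs) / 2)) + D) =
      (k * (1 + g) + (k₂ - lam) * (1 + e)) / 2 * Λ + π⁻¹ * (k * ((1 + 1 / g) * Cd)) +
        (k₂ - lam) * (Cs / 2) + π⁻¹ * D := by
    field_simp
    ring
  have h6 : (k * (1 + g) + (k₂ - lam) * (1 + e)) / 2 * Λ ≤ κ * Λ := by
    apply mul_le_mul_of_nonneg_right _ hΛ0
    have : k ≤ lam + d / 4 := by rw [hk]; linarith
    rw [hd] at this hkg hke hd0
    linarith
  linarith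

end Pool.Agent.Helper69.EK3
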