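import Pool.Agent.Helper69.EK3.Strip3
set_option autoImplicit false
open Complex MeasureTheory Metric Set
open scoped Real ComplexConjugate

/-!
# Project EK3: the centre line with the Koebe bound `|X| ≤ 1 + δ`
-/

namespace Pool.Agent.Helper69.EK3

open Pool.Agent.Helper52.EK

variable {P : (ℂ → ℂ) → ℝ → ℝ → Prop}

/-- removing the cut-off function from the linear term of the centre line -/
theorem line_lin {k l x₁ x₂ : ℝ} {χ χ₁ χ₂ : ℝ → ℝ} (hc : Cut k l x₁ x₂ χ χ₁ χ₂) (hx : x₁ ≤ x₂)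
    {X : ℂ → ℂ} (hX : NiceH X x₁ x₂) {δ : ℝ → ℝ} (cδ : Continuous δ)
    (δ0 : ∀ ξ ∈ Icc x₁ x₂, 0 ≤ δ ξ)
    (hδ : ∀ ξ ∈ Icc x₁ x₂, (X (pt ξ (π / 2))).re ≤ 1 + δ ξ) :
    ∫ ξ in x₁..x₂, χ ξ * (1 - (X (pt ξ (π / 2))).re) ≤
      (∫ ξ in x₁..x₂, (1 - (X (pt ξ (π / 2))).re)) + ∫ ξ in x₁..x₂, δ ξ := by
  have cX := contC hX.an.continuousOn
  have c1 : ContinuousOn (fun ξ => 1 - (X (pt ξ (π / 2))).re) (Icc x₁ x₂) :=
    continuousOn_const.sub (Complex.continuous_re.comp_continuousOn cX)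
  have i1 : IntervalIntegrable (fun ξ => 1 - (X (pt ξ (π / 2))).re) volume x₁ x₂ :=
    c1.intervalIntegrable_of_Icc hx
  have i2 : IntervalIntegrable (fun ξ => χ ξ * (1 - (X (pt ξ (π / 2))).re)) volume x₁ x₂ :=
    (hc.cont.continuousOn.mul c1).intervalIntegrable_of_Icc hx
  have i3 : IntervalIntegrable δ volume x₁ x₂ := cδ.intervalIntegrable _ _
  rw [← intervalIntegral.integral_add i1 i3]
  refine intervalIntegral.integral_mono_on hx i2 (i1.add i3) fun ξ hξ => ?_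
  have h1 := hδ ξ hξ
  have h2 := hc.b01 ξ
  have h3 := δ0 ξ hξ
  nlinarith

/-- the centre line terms of the null Lagrangians -/
theorem line_K {K : ℂ → ℂ → ℝ} {Ec W Wx Wy : ℂ → ℝ} (hW : C1f W Wx Wy)
    (cE : Continuous Ec)
    (hK : ∀ X Y : ℂ, X ≠ 0 → K X Y + K (conj X) (conj Y) =
      - Ec X + (Wx X * Y.re + Wy X * Y.im))
    (hE0 : ∀ X : ℂ, ‖X‖ ≤ 1 → 0 ≤ Ec X) {r M : ℝ} (hr : 1 ≤ r) (hM : 0 ≤ M)
    (hL : ∀ X ∈ closedBall (0:ℂ) r, ∀ X' ∈ closedBall (0:ℂ) r, |Ec X - Ec X'| ≤ M * ‖X - X'‖)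
    {k : ℝ} (hk : 0 ≤ k) :
    ∃ C : ℝ, ∀ (l x₁ x₂ : ℝ) (χ χ₁ χ₂ : ℝ → ℝ) (X : ℂ → ℂ) (δ : ℝ → ℝ),
      Cut k l x₁ x₂ χ χ₁ χ₂ → x₁ ≤ x₂ → NiceH X x₁ x₂ → Continuous δ →
      (∀ ξ ∈ Icc x₁ x₂, 0 ≤ δ ξ) → (∀ ξ ∈ Icc x₁ x₂, 1 + δ ξ ≤ r) →
      (∀ ξ ∈ Icc x₁ x₂, ‖X (pt ξ (π / 2))‖ ≤ 1 + δ ξ) →
      ∫ ξ in x₁..x₂, χ ξ * (K (X (pt ξ (π / 2))) (deriv X (pt ξ (π / 2))) +
          K (conj (X (pt ξ (π / 2)))) (conj (deriv X (pt ξ (π / 2))))) ≤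
        C + M * ∫ ξ in x₁..x₂, δ ξ := by
  have cW : Continuous W := Pool.Agent.Helper4.EK.C1f.continuous hW
  obtain ⟨B, hB⟩ := (isCompact_closedBall (0:ℂ) r).bddAbove_image cW.abs.continuousOn
  have hB' : ∀ Z ∈ closedBall (0:ℂ) r, |W Z| ≤ B := fun Z hZ => hB (mem_image_of_mem _ hZ)
  have hB0 : 0 ≤ B := (abs_nonneg _).trans (hB' 0 (by simp; linarith))
  refine ⟨B * (2 * k), fun l x₁ x₂ χ χ₁ χ₂ X δ hc hx hX cδ δ0 δr hδ => ?_⟩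
  have cX := contC hX.an.continuousOn
  have cY := contC hX.an.deriv.continuousOn
  have i1 : IntervalIntegrable (fun ξ => - (χ ξ * Ec (X (pt ξ (π / 2))))) volume x₁ x₂ :=
    ((hc.cont.continuousOn.mul (cE.comp_continuousOn cX)).neg).intervalIntegrable_of_Icc hx
  have i2 : IntervalIntegrable (fun ξ => χ ξ * (Wx (X (pt ξ (π / 2))) *
      (deriv X (pt ξ (π / 2))).re + Wy (X (pt ξ (π / 2))) * (deriv X (pt ξ (π / 2))).im))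
      volume x₁ x₂ :=
    (hc.cont.continuousOn.mul (((hW.cx.comp_continuousOn cX).mul
      (Complex.continuous_re.comp_continuousOn cY)).add ((hW.cy.comp_continuousOn cX).mul
      (Complex.continuous_im.comp_continuousOn cY)))).intervalIntegrable_of_Icc hx
  have e1 : ∫ ξ in x₁..x₂, χ ξ * (K (X (pt ξ (π / 2))) (deriv X (pt ξ (π / 2))) +
      K (conj (X (pt ξ (π / 2)))) (conj (deriv X (pt ξ (π / 2))))) =
      (∫ ξ in x₁..x₂, - (χ ξ * Ec (X (pt ξ (π / 2))))) +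
      ∫ ξ in x₁..x₂, χ ξ * (Wx (X (pt ξ (π / 2))) *
        (deriv X (pt ξ (π / 2))).re + Wy (X (pt ξ (π / 2))) * (deriv X (pt ξ (π / 2))).im) := by
    rw [← intervalIntegral.integral_add i1 i2]
    refine intervalIntegral.integral_congr fun ξ hξ => ?_
    rw [uIcc_of_le hx] at hξ
    have := hK (X (pt ξ (π / 2))) (deriv X (pt ξ (π / 2))) (hX.ne _ (cent_mem hξ))
    rw [this]
    ring
  rw [e1, nullW_line hW hx (fun ξ hξ => hX.an _ (cent_mem hξ)) hc.d1 hc.cont1 hc.e1 hc.e2]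
  have b1 : ∫ ξ in x₁..x₂, - (χ ξ * Ec (X (pt ξ (π / 2)))) ≤ M * ∫ ξ in x₁..x₂, δ ξ := by
    rw [← intervalIntegral.integral_const_mul]
    refine intervalIntegral.integral_mono_on hx i1
      ((continuous_const.mul cδ).intervalIntegrable _ _) fun ξ hξ => ?_
    obtain ⟨Z, hZ⟩ : ∃ Z, Z = X (pt ξ (π / 2)) := ⟨_, rfl⟩
    have hn := hδ ξ hξ
    rw [← hZ] at hn ⊢
    have hd := δ0 ξ hξ
    have h01 := hc.b01 ξ
    have key : - Ec Z ≤ M * δ ξ := by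
      by_cases h1 : ‖Z‖ ≤ 1
      · have := hE0 Z h1
        have := mul_nonneg hM hd
        linarith
      · have h1' : 1 < ‖Z‖ := not_le.1 h1
        have hZ0 : ‖Z‖ ≠ 0 := by linarith
        have hZr : Z ∈ closedBall (0:ℂ) r := by
          rw [mem_closedBall_zero_iff]
          exact hn.trans (δr ξ hξ)
        have hn1 : ‖((‖Z‖⁻¹ : ℝ) : ℂ) * Z‖ = 1 := by
          rw [norm_mul, norm_real, Real.norm_eq_abs, abs_of_nonneg (inv_nonneg.2 (norm_nonneg _)),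
            inv_mul_cancel₀ hZ0]
        have hb : ((‖Z‖⁻¹ : ℝ) : ℂ) * Z ∈ closedBall (0:ℂ) r := by
          rw [mem_closedBall_zero_iff, hn1]
          exact hr
        have h2 := hL _ hb _ hZr
        have h3 := hE0 _ hn1.le
        have h4 : ‖((‖Z‖⁻¹ : ℝ) : ℂ) * Z - Z‖ = ‖Z‖ - 1 := by
          have : ((‖Z‖⁻¹ : ℝ) : ℂ) * Z - Z = ((‖Z‖⁻¹ - 1 : ℝ) : ℂ) * Z := by
            push_cast
            ring
          rw [this, norm_mul, norm_real, Real.norm_eq_abs, abs_of_nonpos, neg_sub, sub_mul,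
            one_mul, inv_mul_cancel₀ hZ0]
          have := inv_le_one_of_one_le₀ h1'.le
          linarith
        rw [h4] at h2
        have h5 := (abs_le.1 h2).2
        have h6 : M * (‖Z‖ - 1) ≤ M * δ ξ := mul_le_mul_of_nonneg_left (by linarith) hM
        linarith
    have := mul_nonneg hM hd
    nlinarith
  have b2 : - ∫ ξ in x₁..x₂, χ₁ ξ * W (X (pt ξ (π / 2))) ≤ B * (2 * k) := by
    have h1 : ‖∫ ξ in x₁..x₂, χ₁ ξ * W (X (pt ξ (π / 2)))‖ ≤ ∫ ξ in x₁..x₂, B * |χ₁ ξ| := by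
      refine (intervalIntegral.norm_integral_le_integral_norm hx).trans ?_
      refine intervalIntegral.integral_mono_on hx ?_
        ((continuous_const.mul hc.cont1.abs).intervalIntegrable _ _) fun ξ hξ => ?_
      · exact ((hc.cont1.continuousOn.mul (cW.comp_continuousOn cX)).norm).intervalIntegrable_of_Icc
          hx
      · rw [Real.norm_eq_abs, abs_mul, mul_comm]
        refine mul_le_mul_of_nonneg_right (hB' _ ?_) (abs_nonneg _)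
        rw [mem_closedBall_zero_iff]
        exact (hδ ξ hξ).trans (δr ξ hξ)
    rw [intervalIntegral.integral_const_mul] at h1
    have h2 := mul_le_mul_of_nonneg_left hc.i1 hB0
    rw [Real.norm_eq_abs] at h1
    have h3 := neg_abs_le (∫ ξ in x₁..x₂, χ₁ ξ * W (X (pt ξ (π / 2))))
    linarith
  linarith

/-- the integrated inequality, with the Koebe bound on the centre line only -/
theorem strip3_b {k₂ lam D : ℝ} (hlam : 0 ≤ lam) (hk₂ : lam ≤ k₂)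
    {T : ℂ → ℂ → ℝ → ℝ → ℝ} (hT0 : ∀ (X Y : ℂ) (s c : ℝ), 0 ≤ T X Y s c)
    (hTc : ContinuousOn (fun p : ℂ × ℂ × ℝ × ℝ => T p.1 p.2.1 p.2.2.1 p.2.2.2) {p | p.1 ≠ 0})
    (hTm : ∀ (X Y : ℂ) (s c : ℝ), T (conj X) (conj Y) s c = T X Y s (-c))
    {N : ℂ → ℂ → ℝ → ℝ} {K : ℂ → ℂ → ℝ} (hN : IsNull P N K)
    (hp : ∀ (X : ℂ → ℂ) (x₁ x₂ : ℝ), x₁ ≤ x₂ → NiceH X x₁ x₂ → P X x₁ x₂ →
      ∃ ε : ℝ → ℝ, Continuous ε ∧ (∀ ξ, 0 ≤ ε ξ) ∧ ∫ ξ in x₁..x₂, ε ξ ≤ D ∧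
        ∀ ξ ∈ Icc x₁ x₂, ∀ η ∈ Icc (0:ℝ) (π / 2),
          T (X (pt ξ η)) (deriv X (pt ξ η)) (Real.sin η) (Real.cos η) ≤
            k₂ * (1 - (X (pt ξ η)).re) + lam * (‖X (pt ξ η)‖ ^ 2 - (X (pt ξ η)).re) +
              N (X (pt ξ η)) (deriv X (pt ξ η)) η + ε ξ)
    {Ec Ex Ey W Wx Wy : ℂ → ℝ} (hW : C1f W Wx Wy) (hE : C1f Ec Ex Ey)
    (hK : ∀ X Y : ℂ, X ≠ 0 → K X Y + K (conj X) (conj Y) =
      - Ec X + (Wx X * Y.re + Wy X * Y.im))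
    (hE0 : ∀ X : ℂ, ‖X‖ ≤ 1 → 0 ≤ Ec X) {r D' : ℝ} (hr : 1 ≤ r) :
    ∃ C : ℝ, ∀ (X : ℂ → ℂ) (δ : ℝ → ℝ) (x₁ x₂ l : ℝ), 1 ≤ l → x₁ + l ≤ x₂ - l →
      NiceX X x₁ x₂ → P X x₁ x₂ → P (mir X) x₁ x₂ → Continuous δ →
      (∀ ξ ∈ Icc x₁ x₂, 0 ≤ δ ξ) → (∀ ξ ∈ Icc x₁ x₂, 1 + δ ξ ≤ r) →
      (∀ ξ ∈ Icc x₁ x₂, ‖X (pt ξ (π / 2))‖ ≤ 1 + δ ξ) → ∫ ξ in x₁..x₂, δ ξ ≤ D' →
      II (x₁ + l) (x₂ - l)
        (fun ξ η => T (X (pt ξ η)) (deriv X (pt ξ η)) (Real.sin η) (Real.cos η)) ≤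
      lam * II x₁ x₂ (fun ξ η => ‖X (pt ξ η) - 1‖ ^ 2) +
        (k₂ - lam) * (π * ∫ ξ in x₁..x₂, (1 - (X (pt ξ (π / 2))).re)) +
        C * (1 + II x₁ x₂ (fun ξ η => ‖X (pt ξ η) - 1‖ ^ 2) / l) := by
  obtain ⟨k, C, hk, hC⟩ := strip3_core hlam hk₂ hT0 hTc hTm hN hp
  obtain ⟨M, hM, hL⟩ := C1f_lip hE r
  obtain ⟨C', hC'⟩ := line_K hW (Pool.Agent.Helper4.EK.C1f.continuous hE) hK hE0 hr hM hL hk
  refine ⟨|C| + |C'| + M * |D'| + (k₂ - lam) * (π * |D'|), ?_⟩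
  intro X δ x₁ x₂ l hl hx hX hP hP' cδ δ0 δr hδ hD'
  obtain ⟨χ, χ₁, χ₂, hc, hmain⟩ := hC X x₁ x₂ l hl hx hX hP hP'
  have hx12 : x₁ ≤ x₂ := by linarith
  have h1 := hC' l x₁ x₂ χ χ₁ χ₂ X δ hc hx12 (NiceX.half hX) cδ δ0 δr hδ
  have h2 := line_lin hc hx12 (NiceX.half hX) cδ δ0 fun ξ hξ =>
    (re_le_norm _).trans (hδ ξ hξ)
  have hE0' : 0 ≤ II x₁ x₂ (fun ξ η => ‖X (pt ξ η) - 1‖ ^ 2) := by
    rw [← En_add hx12 hX]
    exact add_nonneg (En_nonneg hx12) (En_nonneg hx12)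
  obtain ⟨F, hF⟩ : ∃ F, F = II x₁ x₂ (fun ξ η => ‖X (pt ξ η) - 1‖ ^ 2) / l := ⟨_, rfl⟩
  have hF0 : 0 ≤ F := by
    rw [hF]
    exact div_nonneg hE0' (by linarith)
  rw [← hF] at hmain ⊢
  have hd : ∫ ξ in x₁..x₂, δ ξ ≤ |D'| := hD'.trans (le_abs_self _)
  have a1 : M * ∫ ξ in x₁..x₂, δ ξ ≤ M * |D'| := mul_le_mul_of_nonneg_left hd hM
  have a2 : C ≤ |C| := le_abs_self C
  have a3 : C' ≤ |C'| := le_abs_self C'
  have hkl : 0 ≤ k₂ - lam := by linarith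
  have a4 : (k₂ - lam) * (π * ∫ ξ in x₁..x₂, χ ξ * (1 - (X (pt ξ (π / 2))).re)) ≤
      (k₂ - lam) * (π * ((∫ ξ in x₁..x₂, (1 - (X (pt ξ (π / 2))).re)) + |D'|)) := by
    refine mul_le_mul_of_nonneg_left (mul_le_mul_of_nonneg_left ?_ Real.pi_pos.le) hkl
    linarith
  have a5 : (k₂ - lam) * (π * ((∫ ξ in x₁..x₂, (1 - (X (pt ξ (π / 2))).re)) + |D'|)) =
      (k₂ - lam) * (π * ∫ ξ in x₁..x₂, (1 - (X (pt ξ (π / 2))).re)) +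
        (k₂ - lam) * (π * |D'|) := by ring
  have a6 : C * (1 + F) ≤ |C| * (1 + F) := mul_le_mul_of_nonneg_right a2 (by linarith)
  have n1 : 0 ≤ |C'| * F := mul_nonneg (abs_nonneg _) hF0
  have n2 : 0 ≤ M * |D'| * F := mul_nonneg (mul_nonneg hM (abs_nonneg _)) hF0
  have n3 : 0 ≤ (k₂ - lam) * (π * |D'|) * F :=
    mul_nonneg (mul_nonneg hkl (mul_nonneg Real.pi_pos.le (abs_nonneg _))) hF0
  have a7 : (|C| + |C'| + M * |D'| + (k₂ - lam) * (π * |D'|)) * (1 + F) =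
      |C| * (1 + F) + |C'| + M * |D'| + (k₂ - lam) * (π * |D'|) +
        |C'| * F + M * |D'| * F + (k₂ - lam) * (π * |D'|) * F := by ring
  rw [a7]
  linarith

end Pool.Agent.Helper69.EK3
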