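import Pool.Agent.Helper69.EK3.Mir
set_option autoImplicit false
open Complex MeasureTheory Metric Set
open scoped Real ComplexConjugate

/-!
# Project EK3: null Lagrangians of the half strip as an abstract notion
-/

namespace Pool.Agent.Helper69.EK3

open Pool.Agent.Helper52.EK

/-- a cut-off function of the first variable with its derivatives -/
structure Cut (k l x₁ x₂ : ℝ) (χ χ₁ χ₂ : ℝ → ℝ) : Prop where
  d1 : ∀ ξ, HasDerivAt χ (χ₁ ξ) ξ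
  d2 : ∀ ξ, HasDerivAt χ₁ (χ₂ ξ) ξ
  c2 : Continuous χ₂
  e1 : χ x₁ = 0
  e2 : χ x₂ = 0
  e3 : χ₁ x₁ = 0
  e4 : χ₁ x₂ = 0
  b01 : ∀ ξ, 0 ≤ χ ξ ∧ χ ξ ≤ 1
  mid : ∀ ξ ∈ Icc (x₁ + l) (x₂ - l), χ ξ = 1
  k1 : ∀ ξ, |χ₁ ξ| ≤ k / l
  k2 : ∀ ξ, |χ₂ ξ| ≤ k / l
  i1 : ∫ ξ in x₁..x₂, |χ₁ ξ| ≤ 2 * k
  i2 : ∫ ξ in x₁..x₂, |χ₂ ξ| ≤ 2 * k

theorem Cut.cont {k l x₁ x₂ : ℝ} {χ χ₁ χ₂ : ℝ → ℝ} (h : Cut k l x₁ x₂ χ χ₁ χ₂) :
    Continuous χ := continuous_iff_continuousAt.2 fun ξ => (h.d1 ξ).continuousAt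

theorem Cut.cont1 {k l x₁ x₂ : ℝ} {χ χ₁ χ₂ : ℝ → ℝ} (h : Cut k l x₁ x₂ χ χ₁ χ₂) :
    Continuous χ₁ := continuous_iff_continuousAt.2 fun ξ => (h.d2 ξ).continuousAt

theorem exists_cut : ∃ k : ℝ, 0 ≤ k ∧ ∀ x₁ x₂ l : ℝ, 1 ≤ l → x₁ + l ≤ x₂ - l →
    ∃ χ χ₁ χ₂ : ℝ → ℝ, Cut k l x₁ x₂ χ χ₁ χ₂ := by
  obtain ⟨k, hk⟩ := Pool.Agent.Helper56.EK.cutoff
  have hk0 : 0 ≤ k := by
    obtain ⟨χ, χ₁, χ₂, -, -, -, -, -, -, -, -, -, h, -⟩ := hk 0 2 1 le_rfl (by norm_num)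
    have := (abs_nonneg _).trans (h 0)
    simpa using this
  refine ⟨k, hk0, fun x₁ x₂ l hl hx => ?_⟩
  obtain ⟨χ, χ₁, χ₂, d1, d2, c2, e1, e2, e3, e4, b01, b1, k1, k2⟩ := hk x₁ x₂ l hl hx
  have hz := cut_zero d1 d2 b1
  have c1 : Continuous χ₁ := continuous_iff_continuousAt.2 fun ξ => (d2 ξ).continuousAt
  exact ⟨χ, χ₁, χ₂, ⟨d1, d2, c2, e1, e2, e3, e4, b01, b1, k1, k2,
    cut_int (by linarith) hx c1 hz.1 k1, cut_int (by linarith) hx c2 hz.2 k2⟩⟩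

/-- the energy on the half strip -/
noncomputable def En (X : ℂ → ℂ) (x₁ x₂ : ℝ) : ℝ :=
  IH x₁ x₂ (π / 2) (fun ξ η => ‖X (pt ξ η) - 1‖ ^ 2)

/-- `X` is analytic without zeros near the half strip -/
structure NiceH (X : ℂ → ℂ) (x₁ x₂ : ℝ) : Prop where
  an : AnalyticOnNhd ℂ X (RectH x₁ x₂ (π / 2))
  ne : ∀ ω ∈ RectH x₁ x₂ (π / 2), X ω ≠ 0

theorem NiceX.half {X : ℂ → ℂ} {x₁ x₂ : ℝ} (h : NiceX X x₁ x₂) : NiceH X x₁ x₂ :=
  ⟨fun ω hω => h.an ω (rectH_sub hω), fun ω hω => h.ne ω (rectH_sub hω)⟩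

theorem NiceX.mir {X : ℂ → ℂ} {x₁ x₂ : ℝ} (h : NiceX X x₁ x₂) : NiceH (mir X) x₁ x₂ :=
  ⟨mir_an_H h.an, fun ω hω h0 => h.ne _ (mir_mem hω) (by
    unfold EK3.mir at h0
    exact (map_eq_zero _).1 h0)⟩

/-- `N` is a null Lagrangian of the half strip with the centre line term `K`, for the functions
`X` with the property `P X x₁ x₂`. -/
structure IsNull (P : (ℂ → ℂ) → ℝ → ℝ → Prop) (N : ℂ → ℂ → ℝ → ℝ) (K : ℂ → ℂ → ℝ) : Prop where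
  cN : ContinuousOn (fun p : ℂ × ℂ × ℝ => N p.1 p.2.1 p.2.2) {p | p.1 ≠ 0}
  cK : ContinuousOn (fun p : ℂ × ℂ => K p.1 p.2) {p | p.1 ≠ 0}
  le : ∀ k : ℝ, 0 ≤ k → ∃ C : ℝ, ∀ (X : ℂ → ℂ) (x₁ x₂ l : ℝ) (χ χ₁ χ₂ : ℝ → ℝ), 1 ≤ l →
    x₁ + l ≤ x₂ - l → Cut k l x₁ x₂ χ χ₁ χ₂ → NiceH X x₁ x₂ → P X x₁ x₂ →
    |IH x₁ x₂ (π / 2) (fun ξ η => χ ξ * N (X (pt ξ η)) (deriv X (pt ξ η)) η) -
      ∫ ξ in x₁..x₂, χ ξ * K (X (pt ξ (π / 2))) (deriv X (pt ξ (π / 2)))| ≤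
      C * (1 + En X x₁ x₂ / l)

theorem En_nonneg {X : ℂ → ℂ} {x₁ x₂ : ℝ} (hx : x₁ ≤ x₂) : 0 ≤ En X x₁ x₂ := by
  unfold En IH
  refine intervalIntegral.integral_nonneg hx fun ξ _ => ?_
  exact intervalIntegral.integral_nonneg (by positivity) fun η _ => sq_nonneg _

theorem CH_N {N : ℂ → ℂ → ℝ → ℝ}
    (cN : ContinuousOn (fun p : ℂ × ℂ × ℝ => N p.1 p.2.1 p.2.2) {p | p.1 ≠ 0})
    {X : ℂ → ℂ} {x₁ x₂ : ℝ} (h : NiceH X x₁ x₂) :
    CH x₁ x₂ (π / 2) (fun ξ η => N (X (pt ξ η)) (deriv X (pt ξ η)) η) := by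
  have c1 := contH h.an.continuousOn
  have c2 := contH h.an.deriv.continuousOn
  have c3 : ContinuousOn (fun p : ℝ × ℝ => p.2) (Icc x₁ x₂ ×ˢ Icc 0 (π / 2)) :=
    continuous_snd.continuousOn
  exact cN.comp (c1.prodMk (c2.prodMk c3)) fun p hp => h.ne _ (pt_mem_RectH hp.1 hp.2)

theorem cent_mem {x₁ x₂ ξ : ℝ} (hξ : ξ ∈ Icc x₁ x₂) : pt ξ (π / 2) ∈ RectH x₁ x₂ (π / 2) :=
  pt_mem_RectH hξ ⟨by positivity, le_rfl⟩

theorem contC {X : ℂ → ℂ} {x₁ x₂ : ℝ} (hX : ContinuousOn X (RectH x₁ x₂ (π / 2))) :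
    ContinuousOn (fun ξ : ℝ => X (pt ξ (π / 2))) (Icc x₁ x₂) :=
  hX.comp (by unfold pt; fun_prop) fun _ hξ => cent_mem hξ

theorem CC_K {K : ℂ → ℂ → ℝ} (cK : ContinuousOn (fun p : ℂ × ℂ => K p.1 p.2) {p | p.1 ≠ 0})
    {X : ℂ → ℂ} {x₁ x₂ : ℝ} (h : NiceH X x₁ x₂) :
    ContinuousOn (fun ξ => K (X (pt ξ (π / 2))) (deriv X (pt ξ (π / 2)))) (Icc x₁ x₂) :=
  cK.comp ((contC h.an.continuousOn).prodMk (contC h.an.deriv.continuousOn))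
    fun _ hξ => h.ne _ (cent_mem hξ)

variable {P : (ℂ → ℂ) → ℝ → ℝ → Prop}

theorem IsNull.add {N N' : ℂ → ℂ → ℝ → ℝ} {K K' : ℂ → ℂ → ℝ} (h : IsNull P N K)
    (h' : IsNull P N' K') :
    IsNull P (fun X Y η => N X Y η + N' X Y η) (fun X Y => K X Y + K' X Y) := by
  refine ⟨h.cN.add h'.cN, h.cK.add h'.cK, fun k hk => ?_⟩
  obtain ⟨C, hC⟩ := h.le k hk
  obtain ⟨C', hC'⟩ := h'.le k hk
  refine ⟨C + C', fun X x₁ x₂ l χ χ₁ χ₂ hl hx hc hX hP => ?_⟩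
  have h1 := hC X x₁ x₂ l χ χ₁ χ₂ hl hx hc hX hP
  have h2 := hC' X x₁ x₂ l χ χ₁ χ₂ hl hx hc hX hP
  have hx12 : x₁ ≤ x₂ := by linarith
  have a1 : CH x₁ x₂ (π / 2) (fun ξ η => χ ξ * N (X (pt ξ η)) (deriv X (pt ξ η)) η) :=
    (CH_xi hc.cont).mul (CH_N h.cN hX)
  have a2 : CH x₁ x₂ (π / 2) (fun ξ η => χ ξ * N' (X (pt ξ η)) (deriv X (pt ξ η)) η) :=
    (CH_xi hc.cont).mul (CH_N h'.cN hX)
  have s1 : IH x₁ x₂ (π / 2) (fun ξ η => χ ξ * (N (X (pt ξ η)) (deriv X (pt ξ η)) η +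
      N' (X (pt ξ η)) (deriv X (pt ξ η)) η)) =
      IH x₁ x₂ (π / 2) (fun ξ η => χ ξ * N (X (pt ξ η)) (deriv X (pt ξ η)) η) +
      IH x₁ x₂ (π / 2) (fun ξ η => χ ξ * N' (X (pt ξ η)) (deriv X (pt ξ η)) η) := by
    rw [← IH_add hx12 (by positivity) a1 a2]
    simp only [mul_add]
  have i1 : IntervalIntegrable (fun ξ => χ ξ * K (X (pt ξ (π / 2))) (deriv X (pt ξ (π / 2))))
      volume x₁ x₂ :=
    (hc.cont.continuousOn.mul (CC_K h.cK hX)).intervalIntegrable_of_Icc hx12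
  have i2 : IntervalIntegrable (fun ξ => χ ξ * K' (X (pt ξ (π / 2))) (deriv X (pt ξ (π / 2))))
      volume x₁ x₂ :=
    (hc.cont.continuousOn.mul (CC_K h'.cK hX)).intervalIntegrable_of_Icc hx12
  have s2 := intervalIntegral.integral_add i1 i2
  have s3 : ∫ ξ in x₁..x₂, χ ξ * (K (X (pt ξ (π / 2))) (deriv X (pt ξ (π / 2))) +
      K' (X (pt ξ (π / 2))) (deriv X (pt ξ (π / 2)))) =
      (∫ ξ in x₁..x₂, χ ξ * K (X (pt ξ (π / 2))) (deriv X (pt ξ (π / 2)))) +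
      ∫ ξ in x₁..x₂, χ ξ * K' (X (pt ξ (π / 2))) (deriv X (pt ξ (π / 2))) := by
    rw [← s2]
    simp only [mul_add]
  rw [s1, s3]
  rw [abs_le] at h1 h2 ⊢
  constructor <;> linarith [h1.1, h1.2, h2.1, h2.2, add_mul C C' (1 + En X x₁ x₂ / l)]

theorem IsNull.const_mul {N : ℂ → ℂ → ℝ → ℝ} {K : ℂ → ℂ → ℝ} (h : IsNull P N K) (c : ℝ) :
    IsNull P (fun X Y η => c * N X Y η) (fun X Y => c * K X Y) := by
  refine ⟨continuousOn_const.mul h.cN, continuousOn_const.mul h.cK, fun k hk => ?_⟩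
  obtain ⟨C, hC⟩ := h.le k hk
  refine ⟨|c| * C, fun X x₁ x₂ l χ χ₁ χ₂ hl hx hc hX hP => ?_⟩
  have h1 := hC X x₁ x₂ l χ χ₁ χ₂ hl hx hc hX hP
  have s1 : IH x₁ x₂ (π / 2) (fun ξ η => χ ξ * (c * N (X (pt ξ η)) (deriv X (pt ξ η)) η)) =
      c * IH x₁ x₂ (π / 2) (fun ξ η => χ ξ * N (X (pt ξ η)) (deriv X (pt ξ η)) η) := by
    rw [← IH_const_mul]
    simp only [mul_left_comm c]
  have s2 : ∫ ξ in x₁..x₂, χ ξ * (c * K (X (pt ξ (π / 2))) (deriv X (pt ξ (π / 2)))) =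
      c * ∫ ξ in x₁..x₂, χ ξ * K (X (pt ξ (π / 2))) (deriv X (pt ξ (π / 2))) := by
    rw [← intervalIntegral.integral_const_mul]
    simp only [mul_left_comm c]
  rw [s1, s2, ← mul_sub, abs_mul, mul_assoc]
  exact mul_le_mul_of_nonneg_left h1 (abs_nonneg c)

theorem IsNull.zero : IsNull P (fun _ _ _ => 0) (fun _ _ => 0) := by
  refine ⟨continuousOn_const, continuousOn_const, fun k _ => ⟨0, ?_⟩⟩
  intro X x₁ x₂ l χ χ₁ χ₂ hl hx hc hX hP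
  simp [IH]

theorem IsNull.sum {ι : Type} (s : Finset ι) {N : ι → ℂ → ℂ → ℝ → ℝ} {K : ι → ℂ → ℂ → ℝ}
    (h : ∀ i ∈ s, IsNull P (N i) (K i)) :
    IsNull P (fun X Y η => ∑ i ∈ s, N i X Y η) (fun X Y => ∑ i ∈ s, K i X Y) := by
  classical
  induction s using Finset.induction_on with
  | empty => simpa using IsNull.zero (P := P)
  | insert i s hi ih =>
    have h1 := (h i (Finset.mem_insert_self i s)).add
      (ih fun j hj => h j (Finset.mem_insert_of_mem hj))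
    simpa only [Finset.sum_insert hi] using h1

theorem IsNull.congr {N N' : ℂ → ℂ → ℝ → ℝ} {K K' : ℂ → ℂ → ℝ} (h : IsNull P N K)
    (hN : ∀ X Y η, N X Y η = N' X Y η) (hK : ∀ X Y, K X Y = K' X Y) : IsNull P N' K' := by
  have e1 : N = N' := by
    funext X Y η
    exact hN X Y η
  have e2 : K = K' := by
    funext X Y
    exact hK X Y
  rw [← e1, ← e2]
  exact h

/-- the null Lagrangian of a function `U` of class C² -/
theorem isNull_U {U Ux Uy Lap : ℂ → ℝ} (hU : C2f U Ux Uy Lap) {a a₁ a₂ : ℝ → ℝ}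
    (g1 : ∀ η, HasDerivAt a (a₁ η) η) (g2 : ∀ η, HasDerivAt a₁ (a₂ η) η)
    (g2c : Continuous a₂) (f1 : a 0 = 0) (f3 : a₁ 0 = 0) {C : ℝ}
    (bU : ∀ X, |U X| ≤ C * (1 + ‖X - 1‖ ^ 2)) :
    IsNull P (fun X Y η => a η * Lap X * ‖Y‖ ^ 2 - a₂ η * U X)
      (fun X Y => a (π / 2) * dEta Ux Uy X Y - a₁ (π / 2) * U X) := by
  have ca : Continuous a := continuous_iff_continuousAt.2 fun t => (g1 t).continuousAt
  have cU : Continuous U := Pool.Agent.Helper4.EK.C1f.continuous hU.h1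
  have cL : Continuous Lap := by
    obtain ⟨Uxx, Uxy, Uyy, hUx, hUy, hLap⟩ := hU.h2
    have : Lap = fun X => Uxx X + Uyy X := funext hLap
    rw [this]
    exact hUx.cx.add hUy.cy
  have cx := hU.h1.cx
  have cy := hU.h1.cy
  refine ⟨?_, ?_, fun k hk => ?_⟩
  · refine Continuous.continuousOn ?_
    fun_prop
  · refine Continuous.continuousOn ?_
    unfold dEta
    fun_prop
  · obtain ⟨M, hM⟩ := (isCompact_Icc (a := (0:ℝ)) (b := π / 2)).bddAbove_image ca.abs.continuousOn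
    have hM' : ∀ η ∈ Icc (0:ℝ) (π / 2), |a η| ≤ M := fun η hη => hM (mem_image_of_mem _ hη)
    have hM0 : 0 ≤ M := (abs_nonneg _).trans (hM' 0 ⟨le_rfl, by positivity⟩)
    have hC0 : 0 ≤ C := by
      have := (abs_nonneg _).trans (bU 1)
      simpa using this
    refine ⟨M * C * (π / 2 * (2 * k) + k), fun X x₁ x₂ l χ χ₁ χ₂ hl hx hc hX _ => ?_⟩
    have hx12 : x₁ ≤ x₂ := by linarith
    have hpi : (0:ℝ) ≤ π / 2 := by positivity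
    have h1 := nullU_H hU hx12 hpi hX.an hc.d1 hc.d2 hc.c2 hc.e1 hc.e2 hc.e3 hc.e4 g1 g2 g2c
      f1 f3
    rw [h1, add_sub_cancel_right]
    have n1 : CH x₁ x₂ (π / 2) (fun ξ η => ‖X (pt ξ η) - 1‖ ^ 2) :=
      CH_comp hX.an.continuousOn (W := fun X => ‖X - 1‖ ^ 2) (by fun_prop)
    have h2 := IH_err hx12 hpi (F := fun ξ η => χ₂ ξ * (a η * U (X (pt ξ η))))
      (N := fun ξ η => ‖X (pt ξ η) - 1‖ ^ 2) (A := M * C) (mul_nonneg hM0 hC0) hc.c2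
      ((CH_xi hc.c2).mul ((CH_eta ca).mul (CH_comp hX.an.continuousOn cU))) n1
      (fun _ _ _ _ => sq_nonneg _) hc.k2 hc.i2 (by
        intro ξ _ η hη
        rw [abs_mul, abs_mul]
        refine mul_le_mul_of_nonneg_left ?_ (abs_nonneg _)
        rw [mul_assoc]
        exact mul_le_mul (hM' η hη) (bU _) (abs_nonneg _) hM0)
    refine h2.trans ?_
    have hE := En_nonneg (X := X) hx12
    have e : k / l * IH x₁ x₂ (π / 2) (fun ξ η => ‖X (pt ξ η) - 1‖ ^ 2) =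
        k * (En X x₁ x₂ / l) := by
      unfold En
      ring
    rw [e, mul_assoc (M * C)]
    refine mul_le_mul_of_nonneg_left ?_ (mul_nonneg hM0 hC0)
    have hE' : 0 ≤ En X x₁ x₂ / l := div_nonneg hE (by linarith)
    nlinarith [mul_nonneg (mul_nonneg hpi (mul_nonneg zero_le_two hk)) hE']

/-- the null Lagrangian of a function `V`, in the direction of `η` -/
theorem isNull_V {V Vx Vy : ℂ → ℝ} (hV : C1f V Vx Vy) {b b₁ : ℝ → ℝ}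
    (g1 : ∀ η, HasDerivAt b (b₁ η) η) (g1c : Continuous b₁) (f1 : b 0 = 0) :
    IsNull P (fun X Y η => b η * dEta Vx Vy X Y + b₁ η * V X) (fun X _ => b (π / 2) * V X) := by
  have cb : Continuous b := continuous_iff_continuousAt.2 fun t => (g1 t).continuousAt
  have cV : Continuous V := Pool.Agent.Helper4.EK.C1f.continuous hV
  have cx := hV.cx
  have cy := hV.cy
  refine ⟨?_, ?_, fun k hk => ⟨0, ?_⟩⟩
  · refine Continuous.continuousOn ?_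
    unfold dEta
    fun_prop
  · refine Continuous.continuousOn ?_
    fun_prop
  · intro X x₁ x₂ l χ χ₁ χ₂ hl hx hc hX _
    have h1 := nullV_H hV (by linarith : x₁ ≤ x₂) (by positivity : (0:ℝ) ≤ π / 2) hX.an χ g1 g1c f1
    rw [h1]
    simp

/-- the null Lagrangian of a function `W`, in the direction of `ξ` -/
theorem isNull_W {W Wx Wy : ℂ → ℝ} (hW : C1f W Wx Wy) {b : ℝ → ℝ} (hb : Continuous b) {C : ℝ}
    (bW : ∀ X, |W X| ≤ C * (1 + ‖X - 1‖ ^ 2)) :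
    IsNull P (fun X Y η => b η * (Wx X * Y.re + Wy X * Y.im)) (fun _ _ => 0) := by
  have cW : Continuous W := Pool.Agent.Helper4.EK.C1f.continuous hW
  have cx := hW.cx
  have cy := hW.cy
  refine ⟨?_, continuousOn_const, fun k hk => ?_⟩
  · refine Continuous.continuousOn ?_
    fun_prop
  · obtain ⟨M, hM⟩ := (isCompact_Icc (a := (0:ℝ)) (b := π / 2)).bddAbove_image hb.abs.continuousOn
    have hM' : ∀ η ∈ Icc (0:ℝ) (π / 2), |b η| ≤ M := fun η hη => hM (mem_image_of_mem _ hη)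
    have hM0 : 0 ≤ M := (abs_nonneg _).trans (hM' 0 ⟨le_rfl, by positivity⟩)
    have hC0 : 0 ≤ C := by
      have := (abs_nonneg _).trans (bW 1)
      simpa using this
    refine ⟨M * C * (π / 2 * (2 * k) + k), fun X x₁ x₂ l χ χ₁ χ₂ hl hx hc hX _ => ?_⟩
    have hx12 : x₁ ≤ x₂ := by linarith
    have hpi : (0:ℝ) ≤ π / 2 := by positivity
    have h1 := nullW_H hW hx12 hpi hX.an hc.d1 hc.cont1 hc.e1 hc.e2 hb
    rw [h1]
    simp only [mul_zero, intervalIntegral.integral_zero, sub_zero, abs_neg]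
    have n1 : CH x₁ x₂ (π / 2) (fun ξ η => ‖X (pt ξ η) - 1‖ ^ 2) :=
      CH_comp hX.an.continuousOn (W := fun X => ‖X - 1‖ ^ 2) (by fun_prop)
    have h2 := IH_err hx12 hpi (F := fun ξ η => χ₁ ξ * (b η * W (X (pt ξ η))))
      (N := fun ξ η => ‖X (pt ξ η) - 1‖ ^ 2) (A := M * C) (mul_nonneg hM0 hC0) hc.cont1
      ((CH_xi hc.cont1).mul ((CH_eta hb).mul (CH_comp hX.an.continuousOn cW))) n1
      (fun _ _ _ _ => sq_nonneg _) hc.k1 hc.i1 (by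
        intro ξ _ η hη
        rw [abs_mul, abs_mul]
        refine mul_le_mul_of_nonneg_left ?_ (abs_nonneg _)
        rw [mul_assoc]
        exact mul_le_mul (hM' η hη) (bW _) (abs_nonneg _) hM0)
    refine h2.trans ?_
    have hE := En_nonneg (X := X) hx12
    have e : k / l * IH x₁ x₂ (π / 2) (fun ξ η => ‖X (pt ξ η) - 1‖ ^ 2) =
        k * (En X x₁ x₂ / l) := by
      unfold En
      ring
    rw [e, mul_assoc (M * C)]
    refine mul_le_mul_of_nonneg_left ?_ (mul_nonneg hM0 hC0)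
    have hE' : 0 ≤ En X x₁ x₂ / l := div_nonneg hE (by linarith)
    nlinarith [mul_nonneg (mul_nonneg hpi (mul_nonneg zero_le_two hk)) hE']

end Pool.Agent.Helper69.EK3
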