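import Pool.Agent.Helper69.EK3.Null
set_option autoImplicit false
open Complex MeasureTheory Metric Set
open scoped Real ComplexConjugate

/-!
# Project EK3: null Lagrangians of first order (fields linear in `X'`)

The field `A = a(η) H(X) X'`, `w = Re A`, `v = -Im A`, has `w_ξ + v_η` without second derivatives.
-/

namespace Pool.Agent.Helper69.EK3

open Pool.Agent.Helper52.EK Pool.Agent.Helper78.EK

variable {P : (ℂ → ℂ) → ℝ → ℝ → Prop}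

/-- a complex function of class C¹ (in the real sense) outside `0`, with its partial
derivatives -/
structure C1c (H Hx Hy : ℂ → ℂ) : Prop where
  hd : ∀ X : ℂ, X ≠ 0 → HasFDerivAt H (reCLM.smulRight (Hx X) + imCLM.smulRight (Hy X)) X
  cx : ContinuousOn Hx {X | X ≠ 0}
  cy : ContinuousOn Hy {X | X ≠ 0}

theorem C1c.cont {H Hx Hy : ℂ → ℂ} (h : C1c H Hx Hy) : ContinuousOn H {X | X ≠ 0} :=
  fun X hX => (h.hd X hX).continuousAt.continuousWithinAt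

/-- the integrand of the field `a(η) H(X) X'` -/
noncomputable def NA (a a₁ : ℝ → ℝ) (H Hx Hy : ℂ → ℂ) (X Y : ℂ) (η : ℝ) : ℝ :=
  a η * ((Hx X + I * Hy X).re * ‖Y‖ ^ 2) - a₁ η * (H X * Y).im

theorem nullA_H {H Hx Hy : ℂ → ℂ} (hH : C1c H Hx Hy) {X : ℂ → ℂ} {x₁ x₂ h : ℝ}
    (hx : x₁ ≤ x₂) (hh : 0 ≤ h) (hX : AnalyticOnNhd ℂ X (RectH x₁ x₂ h))
    (hne : ∀ ω ∈ RectH x₁ x₂ h, X ω ≠ 0)
    {χ χ₁ : ℝ → ℝ} (h1 : ∀ ξ, HasDerivAt χ (χ₁ ξ) ξ) (h1c : Continuous χ₁)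
    (e1 : χ x₁ = 0) (e2 : χ x₂ = 0)
    {a a₁ : ℝ → ℝ} (g1 : ∀ η, HasDerivAt a (a₁ η) η) (g1c : Continuous a₁) (f1 : a 0 = 0) :
    IH x₁ x₂ h (fun ξ η => χ ξ * NA a a₁ H Hx Hy (X (pt ξ η)) (deriv X (pt ξ η)) η) =
    (∫ ξ in x₁..x₂, χ ξ * (- (a h * (H (X (pt ξ h)) * deriv X (pt ξ h)).im))) -
      IH x₁ x₂ h (fun ξ η => χ₁ ξ * (a η * (H (X (pt ξ η)) * deriv X (pt ξ η)).re)) := by
  have cχ : Continuous χ := continuous_iff_continuousAt.2 fun t => (h1 t).continuousAt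
  have ca : Continuous a := continuous_iff_continuousAt.2 fun t => (g1 t).continuousAt
  have hX1 : AnalyticOnNhd ℂ (deriv X) (RectH x₁ x₂ h) := hX.deriv
  have cX := contH hX.continuousOn
  have cX1 := contH hX1.continuousOn
  have mX : MapsTo (fun p : ℝ × ℝ => X (pt p.1 p.2)) (Icc x₁ x₂ ×ˢ Icc 0 h) {X | X ≠ 0} :=
    fun p hp => hne _ (pt_mem_RectH hp.1 hp.2)
  have cH : ContinuousOn (fun p : ℝ × ℝ => H (X (pt p.1 p.2))) (Icc x₁ x₂ ×ˢ Icc 0 h) :=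
    hH.cont.comp cX mX
  have cHx : ContinuousOn (fun p : ℝ × ℝ => Hx (X (pt p.1 p.2))) (Icc x₁ x₂ ×ˢ Icc 0 h) :=
    hH.cx.comp cX mX
  have cHy : ContinuousOn (fun p : ℝ × ℝ => Hy (X (pt p.1 p.2))) (Icc x₁ x₂ ×ˢ Icc 0 h) :=
    hH.cy.comp cX mX
  have i1 : ContinuousOn (fun p : ℝ × ℝ => χ p.1) (Icc x₁ x₂ ×ˢ Icc 0 h) := by fun_prop
  have i1' : ContinuousOn (fun p : ℝ × ℝ => χ₁ p.1) (Icc x₁ x₂ ×ˢ Icc 0 h) := by fun_prop
  have i2 : ContinuousOn (fun p : ℝ × ℝ => a p.2) (Icc x₁ x₂ ×ˢ Icc 0 h) := by fun_prop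
  have i3 : ContinuousOn (fun p : ℝ × ℝ => a₁ p.2) (Icc x₁ x₂ ×ˢ Icc 0 h) := by fun_prop
  have cHY : ContinuousOn (fun p : ℝ × ℝ => H (X (pt p.1 p.2)) * deriv X (pt p.1 p.2))
      (Icc x₁ x₂ ×ˢ Icc 0 h) := cH.mul cX1
  have cre : ContinuousOn (fun p : ℝ × ℝ => (H (X (pt p.1 p.2)) * deriv X (pt p.1 p.2)).re)
      (Icc x₁ x₂ ×ˢ Icc 0 h) := Complex.continuous_re.comp_continuousOn cHY
  have cim : ContinuousOn (fun p : ℝ × ℝ => (H (X (pt p.1 p.2)) * deriv X (pt p.1 p.2)).im)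
      (Icc x₁ x₂ ×ˢ Icc 0 h) := Complex.continuous_im.comp_continuousOn cHY
  have cA : ContinuousOn (fun p : ℝ × ℝ => χ p.1 *
      NA a a₁ H Hx Hy (X (pt p.1 p.2)) (deriv X (pt p.1 p.2)) p.2) (Icc x₁ x₂ ×ˢ Icc 0 h) := by
    unfold NA
    exact i1.mul ((i2.mul ((Complex.continuous_re.comp_continuousOn
      (cHx.add (continuousOn_const.mul cHy))).mul (cX1.norm.pow 2))).sub (i3.mul cim))
  have cB : ContinuousOn (fun p : ℝ × ℝ => χ₁ p.1 * (a p.2 *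
      (H (X (pt p.1 p.2)) * deriv X (pt p.1 p.2)).re)) (Icc x₁ x₂ ×ˢ Icc 0 h) :=
    i1'.mul (i2.mul cre)
  have hmem : ∀ p ∈ Ioo x₁ x₂ ×ˢ Ioo 0 h, pt p.1 p.2 ∈ RectH x₁ x₂ h := by
    rintro ⟨x, y⟩ ⟨hx', hy'⟩
    exact pt_mem_RectH (Ioo_subset_Icc_self hx') (Ioo_subset_Icc_self hy')
  have dχ : ∀ p : ℝ × ℝ, HasFDerivAt (fun q : ℝ × ℝ => χ q.1)
      (χ₁ p.1 • ContinuousLinearMap.fst ℝ ℝ ℝ) p := fun p =>
    (h1 p.1).comp_hasFDerivAt p hasFDerivAt_fst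
  have da : ∀ p : ℝ × ℝ, HasFDerivAt (fun q : ℝ × ℝ => a q.2)
      (a₁ p.2 • ContinuousLinearMap.snd ℝ ℝ ℝ) p := fun p =>
    (g1 p.2).comp_hasFDerivAt p hasFDerivAt_snd
  have dH : ∀ p : ℝ × ℝ, pt p.1 p.2 ∈ RectH x₁ x₂ h →
      HasFDerivAt (fun q : ℝ × ℝ => H (X (pt q.1 q.2)))
        ((reCLM.smulRight (Hx (X (pt p.1 p.2))) + imCLM.smulRight (Hy (X (pt p.1 p.2)))).comp
          (Lc (deriv X (pt p.1 p.2)))) p := by
    intro p hp
    exact HasFDerivAt.comp (g := H) p (hH.hd _ (hne _ hp))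
      (hasFDerivAt_X (hX _ hp).differentiableAt)
  have dY : ∀ p : ℝ × ℝ, pt p.1 p.2 ∈ RectH x₁ x₂ h →
      HasFDerivAt (fun q : ℝ × ℝ => deriv X (pt q.1 q.2))
        (Lc (deriv (deriv X) (pt p.1 p.2))) p := fun p hp =>
    hasFDerivAt_X (hX1 _ hp).differentiableAt
  have dF := fun (p : ℝ × ℝ) (hp : pt p.1 p.2 ∈ RectH x₁ x₂ h) =>
    (dχ p).fun_mul ((da p).fun_mul (reCLM.hasFDerivAt.comp p ((dH p hp).fun_mul (dY p hp))))
  have dG := fun (p : ℝ × ℝ) (hp : pt p.1 p.2 ∈ RectH x₁ x₂ h) =>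
    (dχ p).fun_mul ((da p).fun_mul (imCLM.hasFDerivAt.comp p ((dH p hp).fun_mul (dY p hp)))).fun_neg
  have cF : ContinuousOn (fun q : ℝ × ℝ => χ q.1 * (a q.2 *
      reCLM (H (X (pt q.1 q.2)) * deriv X (pt q.1 q.2)))) (Icc x₁ x₂ ×ˢ Icc 0 h) :=
    i1.mul (i2.mul cre)
  have cG : ContinuousOn (fun q : ℝ × ℝ => χ q.1 * -(a q.2 *
      imCLM (H (X (pt q.1 q.2)) * deriv X (pt q.1 q.2)))) (Icc x₁ x₂ ×ˢ Icc 0 h) :=
    i1.mul (i2.mul cim).neg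
  have cD := cA.fun_add cB
  have main := div_top hx hh (Rp := RectH x₁ x₂ h) hmem cF cG cD dF dG (by
    rintro ⟨x, y⟩
    have hn : ‖deriv X (pt x y)‖ ^ 2 = (deriv X (pt x y)).re ^ 2 + (deriv X (pt x y)).im ^ 2 := by
      rw [← normSq_eq_norm_sq, normSq_apply]
      ring
    simp only [NA, _root_.add_apply, _root_.neg_apply,
      _root_.smul_apply, ContinuousLinearMap.comp_apply, Lc_10, Lc_01,
      ContinuousLinearMap.coe_fst', ContinuousLinearMap.coe_snd', smul_eq_mul, reCLM_apply,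
      imCLM_apply, mul_re, mul_im, I_re, I_im, hn, add_re, add_im,
      ContinuousLinearMap.smulRight_apply, real_smul, ofReal_re, ofReal_im, Function.comp]
    ring)
    (fun x => by simp [f1]) (fun y => by simp [e2])
    (fun y => by simp [e1])
  have h3 := IH_add hx hh (F := fun ξ η => χ ξ *
      NA a a₁ H Hx Hy (X (pt ξ η)) (deriv X (pt ξ η)) η)
    (G := fun ξ η => χ₁ ξ * (a η * (H (X (pt ξ η)) * deriv X (pt ξ η)).re)) cA cB
  have h4 : IH x₁ x₂ h (fun ξ η => χ ξ * NA a a₁ H Hx Hy (X (pt ξ η)) (deriv X (pt ξ η)) η +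
      χ₁ ξ * (a η * (H (X (pt ξ η)) * deriv X (pt ξ η)).re)) =
      ∫ ξ in x₁..x₂, χ ξ * (- (a h * (H (X (pt ξ h)) * deriv X (pt ξ h)).im)) := by
    refine Eq.trans ?_ (main.trans ?_)
    · rfl
    · rfl
  rw [h3] at h4
  linarith

/-- the null Lagrangian of the field `a(η) H(X) X'` -/
theorem isNull_A {H Hx Hy : ℂ → ℂ} (hH : C1c H Hx Hy) {a a₁ : ℝ → ℝ}
    (g1 : ∀ η, HasDerivAt a (a₁ η) η) (g1c : Continuous a₁) (f1 : a 0 = 0) {C : ℝ} (hC : 0 ≤ C)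
    (hb : ∀ (X : ℂ → ℂ) (x₁ x₂ : ℝ), x₁ ≤ x₂ → NiceH X x₁ x₂ → P X x₁ x₂ →
      ∀ ξ ∈ Icc x₁ x₂, ∀ η ∈ Icc (0:ℝ) (π / 2),
        |a η * (H (X (pt ξ η)) * deriv X (pt ξ η)).re| ≤ C * (1 + ‖X (pt ξ η) - 1‖ ^ 2)) :
    IsNull P (fun X Y η => NA a a₁ H Hx Hy X Y η)
      (fun X Y => - (a (π / 2) * (H X * Y).im)) := by
  have ca : Continuous a := continuous_iff_continuousAt.2 fun t => (g1 t).continuousAt
  have j1 : ContinuousOn (fun p : ℂ × ℂ × ℝ => H p.1) {p | p.1 ≠ 0} :=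
    hH.cont.comp continuous_fst.continuousOn fun p hp => hp
  have j2 : ContinuousOn (fun p : ℂ × ℂ × ℝ => Hx p.1) {p | p.1 ≠ 0} :=
    hH.cx.comp continuous_fst.continuousOn fun p hp => hp
  have j3 : ContinuousOn (fun p : ℂ × ℂ × ℝ => Hy p.1) {p | p.1 ≠ 0} :=
    hH.cy.comp continuous_fst.continuousOn fun p hp => hp
  have j4 : ContinuousOn (fun p : ℂ × ℂ => H p.1) {p | p.1 ≠ 0} :=
    hH.cont.comp continuous_fst.continuousOn fun p hp => hp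
  refine ⟨?_, ?_, fun k hk => ?_⟩
  · have e1 : ContinuousOn (fun p : ℂ × ℂ × ℝ => a p.2.2) {p | p.1 ≠ 0} := by fun_prop
    have e2 : ContinuousOn (fun p : ℂ × ℂ × ℝ => a₁ p.2.2) {p | p.1 ≠ 0} := by fun_prop
    have e3 : ContinuousOn (fun p : ℂ × ℂ × ℝ => p.2.1) {p | p.1 ≠ 0} := by fun_prop
    unfold NA
    exact (e1.mul ((Complex.continuous_re.comp_continuousOn
      (j2.add (continuousOn_const.mul j3))).mul (e3.norm.pow 2))).sub
      (e2.mul (Complex.continuous_im.comp_continuousOn (j1.mul e3)))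
  · have e3 : ContinuousOn (fun p : ℂ × ℂ => p.2) {p | p.1 ≠ 0} := by fun_prop
    exact (continuousOn_const.mul (Complex.continuous_im.comp_continuousOn (j4.mul e3))).neg
  · refine ⟨C * (π / 2 * (2 * k) + k), fun X x₁ x₂ l χ χ₁ χ₂ hl hx hc hX hP => ?_⟩
    have hx12 : x₁ ≤ x₂ := by linarith
    have hpi : (0:ℝ) ≤ π / 2 := by positivity
    have h1 := nullA_H hH hx12 hpi hX.an hX.ne hc.d1 hc.cont1 hc.e1 hc.e2 g1 g1c f1
    have h1' := h1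
    rw [h1']
    have n1 : CH x₁ x₂ (π / 2) (fun ξ η => ‖X (pt ξ η) - 1‖ ^ 2) :=
      CH_comp hX.an.continuousOn (W := fun X => ‖X - 1‖ ^ 2) (by fun_prop)
    have cX := contH hX.an.continuousOn
    have cX1 := contH hX.an.deriv.continuousOn
    have cH : ContinuousOn (fun p : ℝ × ℝ => H (X (pt p.1 p.2))) (Icc x₁ x₂ ×ˢ Icc 0 (π / 2)) :=
      hH.cont.comp cX fun p hp => hX.ne _ (pt_mem_RectH hp.1 hp.2)
    have cF : CH x₁ x₂ (π / 2) (fun ξ η => χ₁ ξ *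
        (a η * (H (X (pt ξ η)) * deriv X (pt ξ η)).re)) :=
      (CH_xi hc.cont1).mul ((CH_eta ca).mul
        (Complex.continuous_re.comp_continuousOn (cH.mul cX1)))
    have h2 := IH_err hx12 hpi (N := fun ξ η => ‖X (pt ξ η) - 1‖ ^ 2) (A := C) hC hc.cont1
      cF n1 (fun _ _ _ _ => sq_nonneg _) hc.k1 hc.i1 (by
        intro ξ hξ η hη
        rw [abs_mul]
        exact mul_le_mul_of_nonneg_left (hb X x₁ x₂ hx12 hX hP ξ hξ η hη) (abs_nonneg _))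
    have h3 : ∀ A B : ℝ, A - B - A = -B := fun A B => by ring
    rw [h3, abs_neg]
    refine h2.trans ?_
    have hE := En_nonneg (X := X) hx12
    have e : k / l * IH x₁ x₂ (π / 2) (fun ξ η => ‖X (pt ξ η) - 1‖ ^ 2) =
        k * (En X x₁ x₂ / l) := by
      unfold En
      ring
    rw [e, mul_assoc C]
    refine mul_le_mul_of_nonneg_left ?_ hC
    have hE' : 0 ≤ En X x₁ x₂ / l := div_nonneg hE (by linarith)
    nlinarith [mul_nonneg (mul_nonneg hpi (mul_nonneg zero_le_two hk)) hE']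

/-- division by `X` -/
theorem C1c.div {F Fx Fy : ℂ → ℂ} (h : C1c F Fx Fy) :
    C1c (fun X => F X / X) (fun X => Fx X / X - F X / X ^ 2)
      (fun X => Fy X / X - I * F X / X ^ 2) := by
  have c0 : ContinuousOn (fun X : ℂ => X) {X : ℂ | X ≠ 0} := continuousOn_id
  refine ⟨fun X hX => ?_, ?_, ?_⟩
  · have h1 := h.hd X hX
    have h2 : HasFDerivAt (fun X : ℂ => X⁻¹)
        ((ContinuousLinearMap.toSpanSingleton ℂ (-(X ^ 2)⁻¹)).restrictScalars ℝ) X :=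
      ((hasDerivAt_inv hX).hasFDerivAt).restrictScalars ℝ
    have h3 := h1.fun_mul h2
    have e : (fun X : ℂ => F X / X) = fun X => F X * X⁻¹ := by
      funext Z
      rw [div_eq_mul_inv]
    rw [e]
    refine h3.congr_fderiv ?_
    ext v
    simp
    field_simp
    linear_combination (F X) * (re_add_im v)
  · exact (h.cx.div c0 fun X hX => hX).sub (h.cont.div (c0.pow 2) fun X hX => pow_ne_zero 2 hX)
  · exact (h.cy.div c0 fun X hX => hX).sub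
      ((continuousOn_const.mul h.cont).div (c0.pow 2) fun X hX => pow_ne_zero 2 hX)

/-- the integrand of the field `a(η) F(X) q`, `q = X'/X` -/
noncomputable def NQ (a a₁ : ℝ → ℝ) (F Fx Fy : ℂ → ℂ) (X Y : ℂ) (η : ℝ) : ℝ :=
  a η * (((Fx X + I * Fy X) * conj X).re * ‖Y / X‖ ^ 2) - a₁ η * (F X * (Y / X)).im

theorem NA_eq_NQ {a a₁ : ℝ → ℝ} {F Fx Fy : ℂ → ℂ} {X : ℂ} (hX : X ≠ 0) (Y : ℂ) (η : ℝ) :
    NA a a₁ (fun X => F X / X) (fun X => Fx X / X - F X / X ^ 2)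
      (fun X => Fy X / X - I * F X / X ^ 2) X Y η = NQ a a₁ F Fx Fy X Y η := by
  unfold NA NQ
  have h1 : Fx X / X - F X / X ^ 2 + I * (Fy X / X - I * F X / X ^ 2) = (Fx X + I * Fy X) / X := by
    have : I * (I * F X / X ^ 2) = - (F X / X ^ 2) := by
      rw [← mul_div_assoc, ← mul_assoc, I_mul_I]
      ring
    rw [mul_sub, this]
    ring
  have h2 : ((Fx X + I * Fy X) / X).re * ‖Y‖ ^ 2 =
      ((Fx X + I * Fy X) * conj X).re * ‖Y / X‖ ^ 2 := by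
    have hn : ‖X‖ ^ 2 ≠ 0 := pow_ne_zero 2 (norm_ne_zero_iff.2 hX)
    have h3 : (Fx X + I * Fy X) / X = ((‖X‖ ^ 2)⁻¹ : ℝ) * ((Fx X + I * Fy X) * conj X) := by
      rw [div_eq_mul_inv, Complex.inv_def, normSq_eq_norm_sq]
      push_cast
      ring
    rw [h3, re_ofReal_mul, norm_div, div_pow]
    field_simp
  have h4 : F X / X * Y = F X * (Y / X) := by ring
  rw [h1, h2, h4]

/-- the null Lagrangian of the field `a(η) F(X) q` -/
theorem isNull_Q {F Fx Fy : ℂ → ℂ} (hF : C1c F Fx Fy) {a a₁ : ℝ → ℝ}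
    (g1 : ∀ η, HasDerivAt a (a₁ η) η) (g1c : Continuous a₁) (f1 : a 0 = 0) {C C₀ : ℝ}
    (hC : 0 ≤ C) (hC₀ : 0 ≤ C₀)
    (bF : ∀ X : ℂ, ‖F X‖ ≤ C * (1 + ‖X - 1‖ ^ 2))
    (hq : ∀ (X : ℂ → ℂ) (x₁ x₂ : ℝ), x₁ ≤ x₂ → NiceH X x₁ x₂ → P X x₁ x₂ →
      ∀ ξ ∈ Icc x₁ x₂, ∀ η ∈ Icc (0:ℝ) (π / 2),
        Real.sin η * ‖deriv X (pt ξ η) / X (pt ξ η)‖ ≤ C₀) :
    IsNull P (fun X Y η => NQ a a₁ F Fx Fy X Y η)
      (fun X Y => - (a (π / 2) * (F X * (Y / X)).im)) := by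
  -- `|a η| ≤ M sin η`
  obtain ⟨M, hM0, hM⟩ : ∃ M : ℝ, 0 ≤ M ∧ ∀ η ∈ Icc (0:ℝ) (π / 2), |a η| ≤ M * Real.sin η := by
    obtain ⟨M, hM⟩ := (isCompact_Icc (a := (0:ℝ)) (b := π / 2)).bddAbove_image
      g1c.abs.continuousOn
    have hM' : ∀ η ∈ Icc (0:ℝ) (π / 2), |a₁ η| ≤ M := fun η hη => hM (mem_image_of_mem _ hη)
    have hM0 : 0 ≤ M := (abs_nonneg _).trans (hM' 0 ⟨le_rfl, by positivity⟩)
    refine ⟨M * (π / 2), by positivity, fun η hη => ?_⟩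
    have h1 : ‖a η - a 0‖ ≤ M * (η - 0) := by
      refine norm_image_sub_le_of_norm_deriv_le_segment' (f' := a₁) (fun t _ =>
        (g1 t).hasDerivWithinAt) (fun t ht => ?_) η ⟨hη.1, le_rfl⟩
      exact hM' t ⟨ht.1, ht.2.le.trans hη.2⟩
    rw [f1, sub_zero, sub_zero, Real.norm_eq_abs] at h1
    have h2 : 2 / π * η ≤ Real.sin η := Real.mul_le_sin hη.1 hη.2
    have h3 : η ≤ π / 2 * Real.sin η := by
      have := mul_le_mul_of_nonneg_left h2 (by positivity : (0:ℝ) ≤ π / 2)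
      have e : π / 2 * (2 / π * η) = η := by
        field_simp
      rwa [e] at this
    have h4 := mul_le_mul_of_nonneg_left h3 hM0
    linarith
  have h := isNull_A (P := P) hF.div g1 g1c f1 (C := M * (C * C₀))
    (mul_nonneg hM0 (mul_nonneg hC hC₀)) (by
    intro X x₁ x₂ hx hX hP ξ hξ η hη
    have h1 := hq X x₁ x₂ hx hX hP ξ hξ η hη
    have hs : 0 ≤ Real.sin η := Real.sin_nonneg_of_nonneg_of_le_pi hη.1
      (hη.2.trans (by linarith [Real.pi_pos]))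
    obtain ⟨Z, hZ⟩ : ∃ Z, Z = X (pt ξ η) := ⟨_, rfl⟩
    obtain ⟨Y, hY⟩ : ∃ Y, Y = deriv X (pt ξ η) := ⟨_, rfl⟩
    rw [← hZ, ← hY] at h1 ⊢
    have e : F Z / Z * Y = F Z * (Y / Z) := by ring
    rw [e, abs_mul]
    have h2 : |(F Z * (Y / Z)).re| ≤ ‖F Z‖ * ‖Y / Z‖ := by
      rw [← norm_mul]
      exact abs_re_le_norm _
    calc |a η| * |(F Z * (Y / Z)).re| ≤ (M * Real.sin η) * (‖F Z‖ * ‖Y / Z‖) :=
          mul_le_mul (hM η hη) h2 (abs_nonneg _) (mul_nonneg hM0 hs)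
      _ = M * (‖F Z‖ * (Real.sin η * ‖Y / Z‖)) := by ring
      _ ≤ M * ((C * (1 + ‖Z - 1‖ ^ 2)) * C₀) := by
          refine mul_le_mul_of_nonneg_left ?_ hM0
          exact mul_le_mul (bF Z) h1 (mul_nonneg hs (norm_nonneg _))
            (mul_nonneg hC (by positivity))
      _ = M * (C * C₀) * (1 + ‖Z - 1‖ ^ 2) := by ring)
  refine ⟨?_, ?_, fun k hk => ?_⟩
  · refine h.cN.congr fun p hp => ?_
    exact (NA_eq_NQ hp _ _).symm
  · refine h.cK.congr fun p _ => ?_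
    simp only [div_mul_eq_mul_div, mul_div_assoc]
  · obtain ⟨B, hB⟩ := h.le k hk
    refine ⟨B, fun X x₁ x₂ l χ χ₁ χ₂ hl hx hc hX hP => ?_⟩
    have h1 := hB X x₁ x₂ l χ χ₁ χ₂ hl hx hc hX hP
    have e1 : IH x₁ x₂ (π / 2) (fun ξ η => χ ξ * NQ a a₁ F Fx Fy (X (pt ξ η))
        (deriv X (pt ξ η)) η) =
        IH x₁ x₂ (π / 2) (fun ξ η => χ ξ * NA a a₁ (fun X => F X / X)
          (fun X => Fx X / X - F X / X ^ 2) (fun X => Fy X / X - I * F X / X ^ 2)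
          (X (pt ξ η)) (deriv X (pt ξ η)) η) := by
      unfold IH
      refine intervalIntegral.integral_congr fun ξ hξ => ?_
      rw [uIcc_of_le (by linarith)] at hξ
      refine intervalIntegral.integral_congr fun η hη => ?_
      rw [uIcc_of_le (by positivity)] at hη
      have hne := hX.ne _ (pt_mem_RectH hξ hη)
      beta_reduce
      rw [NA_eq_NQ hne]
    rw [e1]
    have e2 : ∀ X Y : ℂ, F X * (Y / X) = F X / X * Y := fun X Y => by ring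
    simp only [e2]
    exact h1

end Pool.Agent.Helper69.EK3
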